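import Mathlib

/-! Degrees into a finite set and counts of ordered adjacent pairs. -/

open Finset
open scoped Classical

noncomputable section

namespace Pool.Agent.Lib.MP_befe0b_co

variable {V : Type*}

/-- number of neighbours of `x` inside `S` -/
def dg (G : SimpleGraph V) (S : Finset V) (x : V) : ℕ := (S.filter (G.Adj x)).card

/-- number of ordered adjacent pairs inside `S` -/
def sg (G : SimpleGraph V) (S : Finset V) : ℕ := ∑ x ∈ S, dg G S x

/-- every set of at least three vertices spans at most `1 + (1+1/M)(|T|-2)` edges -/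
def Sparse (H : SimpleGraph V) (M : ℕ) : Prop :=
  ∀ T : Finset V, 3 ≤ T.card → M * sg H T + 4 * (M + 1) ≤ 2 * (M + 1) * T.card + 2 * M

variable {G : SimpleGraph V}

lemma dg_eq_sum (S : Finset V) (x : V) : dg G S x = ∑ y ∈ S, if G.Adj x y then 1 else 0 := by
  rw [dg, Finset.card_filter]

lemma sum_dg_comm (S T : Finset V) : ∑ x ∈ S, dg G T x = ∑ y ∈ T, dg G S y := by
  simp only [dg_eq_sum]
  rw [Finset.sum_comm]
  refine Finset.sum_congr rfl fun y _ => Finset.sum_congr rfl fun x _ => ?_
  simp [G.adj_comm]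

lemma dg_mono {S T : Finset V} (h : S ⊆ T) (x : V) : dg G S x ≤ dg G T x :=
  Finset.card_le_card (Finset.filter_subset_filter _ h)

lemma dg_le_card (S : Finset V) (x : V) : dg G S x ≤ S.card :=
  Finset.card_le_card (Finset.filter_subset _ _)

lemma sg_mono {S T : Finset V} (h : S ⊆ T) : sg G S ≤ sg G T :=
  (Finset.sum_le_sum fun x _ => dg_mono h x).trans (Finset.sum_le_sum_of_subset h)

lemma sum_dg_le_sg_union (S T : Finset V) : ∑ x ∈ S, dg G T x ≤ sg G (S ∪ T) :=
  (Finset.sum_le_sum fun x _ => dg_mono Finset.subset_union_right x).trans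
    (Finset.sum_le_sum_of_subset Finset.subset_union_left)

lemma dg_sdiff_add {S X : Finset V} (h : X ⊆ S) (x : V) :
    dg G (S \ X) x + dg G X x = dg G S x := by
  simp only [dg_eq_sum]
  exact Finset.sum_sdiff h

lemma sg_sdiff_le {S X : Finset V} (h : X ⊆ S) :
    sg G S ≤ sg G (S \ X) + 2 * ∑ x ∈ S, dg G X x := by
  have h1 : sg G S = ∑ x ∈ S \ X, dg G S x + ∑ x ∈ X, dg G S x := by
    rw [sg, Finset.sum_sdiff h]
  have h2 : ∑ x ∈ S \ X, dg G S x = sg G (S \ X) + ∑ x ∈ S \ X, dg G X x := by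
    rw [sg, ← Finset.sum_add_distrib]
    exact Finset.sum_congr rfl fun x _ => (dg_sdiff_add h x).symm
  have h3 : ∑ x ∈ S \ X, dg G X x ≤ ∑ x ∈ S, dg G X x :=
    Finset.sum_le_sum_of_subset Finset.sdiff_subset
  have h4 : ∑ x ∈ X, dg G S x = ∑ x ∈ S, dg G X x := sum_dg_comm X S
  omega

lemma dg_singleton_self (x : V) : dg G {x} x = 0 := by
  simp [dg, Finset.filter_singleton]

lemma sg_erase_le {S : Finset V} {x : V} (hx : x ∈ S) :
    sg G S ≤ sg G (S.erase x) + 2 * dg G S x := by
  have h := sg_sdiff_le (G := G) (S := S) (X := {x}) (by simpa using hx)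
  rw [sum_dg_comm S {x}, Finset.sum_singleton, Finset.sdiff_singleton_eq_erase] at h
  exact h

lemma sg_le_sq (S : Finset V) : sg G S ≤ S.card * S.card := by
  calc sg G S ≤ ∑ _x ∈ S, S.card := Finset.sum_le_sum fun x _ => dg_le_card S x
    _ = S.card * S.card := by simp

lemma sg_univ [Fintype V] (G : SimpleGraph V) : sg G univ = 2 * G.edgeFinset.card := by
  rw [← SimpleGraph.sum_degrees_eq_twice_card_edges, sg]
  refine Finset.sum_congr rfl fun x _ => ?_
  rw [dg, ← SimpleGraph.card_neighborFinset_eq_degree, SimpleGraph.neighborFinset_eq_filter]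

end Pool.Agent.Lib.MP_befe0b_co
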