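import Pool.Agent.Lib.MP_befe0b_co.Reach

/-! Dependent random choice and cleaning. -/

open Finset
open scoped Classical

noncomputable section

namespace Pool.Agent.Lib.MP_befe0b_co

variable {V : Type*} [Fintype V]

lemma sum_forall_mem (t : ℕ) (T : Finset V) :
    ∑ r : Fin t → V, (if ∀ i, r i ∈ T then (1 : ℝ) else 0) = (T.card : ℝ) ^ t := by
  rw [← Finset.sum_filter]
  have : (univ.filter fun r : Fin t → V => ∀ i, r i ∈ T) = Fintype.piFinset fun _ => T := by
    ext r; simp
  rw [this]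
  simp

theorem drc [Nonempty V] (C : V → Finset V) (t : ℕ) {a θ : ℝ} (ha : 0 < a) (hθ : 0 ≤ θ)
    (hC : ∀ u, a * Fintype.card V ≤ (C u).card)
    (hineq : 2 * (Fintype.card V : ℝ) ^ 3 * θ ^ t ≤ a ^ t) :
    ∃ U : Finset V, Fintype.card V * a ^ t / 2 ≤ U.card ∧
      ∀ u ∈ U, ∀ v ∈ U, ∀ w ∈ U, θ * Fintype.card V ≤ (C u ∩ C v ∩ C w).card := by
  set m : ℝ := (Fintype.card V : ℝ) with hm
  have hm0 : 0 < m := by rw [hm]; exact_mod_cast Fintype.card_pos
  let X : (Fin t → V) → ℝ := fun r => ∑ u, if ∀ i, r i ∈ C u then 1 else 0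
  let T : V × V × V → Finset V := fun z => C z.1 ∩ C z.2.1 ∩ C z.2.2
  let Y : (Fin t → V) → ℝ := fun r => ∑ z ∈ univ.filter fun z => ((T z).card : ℝ) < θ * m,
    if ∀ i, r i ∈ T z then 1 else 0
  have hX : m * (a * m) ^ t ≤ ∑ r, X r := by
    simp only [X]
    rw [Finset.sum_comm]
    simp only [sum_forall_mem]
    calc m * (a * m) ^ t = ∑ _u : V, (a * m) ^ t := by simp [hm]
      _ ≤ _ := Finset.sum_le_sum fun u _ => pow_le_pow_left₀ (by positivity) (hC u) t
  have hY : ∑ r, Y r ≤ m ^ 3 * (θ * m) ^ t := by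
    simp only [Y]
    rw [Finset.sum_comm]
    simp only [sum_forall_mem]
    calc _ ≤ ∑ _z ∈ univ.filter fun z => ((T z).card : ℝ) < θ * m, (θ * m) ^ t :=
          Finset.sum_le_sum fun z hz =>
            pow_le_pow_left₀ (Nat.cast_nonneg _) (Finset.mem_filter.1 hz).2.le t
      _ ≤ ∑ _z : V × V × V, (θ * m) ^ t := Finset.sum_le_sum_of_subset_of_nonneg
          (Finset.filter_subset _ _) fun _ _ _ => by positivity
      _ = _ := by simp [hm]; left; ring
  obtain ⟨r, -, hr⟩ : ∃ r ∈ (univ : Finset (Fin t → V)), m * a ^ t / 2 ≤ X r - m * Y r := by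
    refine Finset.exists_le_of_sum_le Finset.univ_nonempty ?_
    rw [Finset.sum_sub_distrib, ← Finset.mul_sum]
    have h1 : ∑ _r : Fin t → V, m * a ^ t / 2 = m ^ t * (m * a ^ t / 2) := by simp [hm]
    have h2 := mul_le_mul_of_nonneg_left hY hm0.le
    have h3 := mul_le_mul_of_nonneg_left hineq (show 0 ≤ m * m ^ t by positivity)
    rw [h1]
    rw [mul_pow] at hX h2
    nlinarith
  have hXU : X r = ((univ.filter fun u => ∀ i, r i ∈ C u).card : ℝ) := by
    simp only [X]
    rw [← Finset.sum_filter]; simp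
  have hY0 : 0 ≤ Y r := Finset.sum_nonneg fun _ _ => by split_ifs <;> norm_num
  refine ⟨univ.filter fun u => ∀ i, r i ∈ C u, ?_, fun u hu v hv w hw => ?_⟩
  · rw [← hXU]
    have := mul_nonneg hm0.le hY0
    linarith
  · by_contra hc
    have h1 : (1 : ℝ) ≤ Y r := by
      refine le_trans ?_ (Finset.single_le_sum (f := fun z => if ∀ i, r i ∈ T z then (1 : ℝ) else 0)
        (fun _ _ => by split_ifs <;> norm_num)
        (Finset.mem_filter.2 ⟨Finset.mem_univ (u, v, w), not_le.1 hc⟩))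
      rw [if_pos]
      intro i
      simp only [T, Finset.mem_inter]
      exact ⟨⟨(Finset.mem_filter.1 hu).2 i, (Finset.mem_filter.1 hv).2 i⟩,
        (Finset.mem_filter.1 hw).2 i⟩
    have h2 : X r ≤ m := by
      rw [hXU, hm]; exact_mod_cast Finset.card_le_univ _
    have h3 : 0 < m * a ^ t / 2 := by positivity
    nlinarith

theorem clean {G : SimpleGraph V} (U : Finset V) (h : ℕ) {d Δ : ℝ}
    (hd : ∀ x, d ≤ (nb G x).card) (hΔ : ∀ x, ((nb G x).card : ℝ) ≤ Δ)
    (hU : 4 * h * (Fintype.card V : ℝ) ≤ d * U.card) :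
    ∃ A ⊆ U, d * U.card ≤ 2 * Δ * A.card ∧ A ⊆ Ws G A h 2 := by
  let f : Finset V × Finset V → ℝ := fun z =>
    ((∑ x ∈ z.1, dg G z.2 x : ℕ) : ℝ) - h * (z.1.card + z.2.card)
  obtain ⟨⟨A, B⟩, hAB, hmax⟩ := Finset.exists_max_image (U.powerset ×ˢ univ) f
    ⟨(U, univ), by simp⟩
  have hA : A ⊆ U := by simpa using hAB
  have h1 : ∀ a ∈ A, h ≤ dg G B a := by
    intro a ha
    have := hmax (A.erase a, B) (by simpa using (Finset.erase_subset a A).trans hA)
    simp only [f] at this
    rw [← Finset.add_sum_erase A _ ha, ← Finset.card_erase_add_one ha] at this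
    push_cast at this
    have h2 : (h : ℝ) ≤ dg G B a := by linarith
    exact_mod_cast h2
  have h2 : ∀ b ∈ B, h ≤ dg G A b := by
    intro b hb
    have := hmax (A, B.erase b) (by simpa using hA)
    simp only [f] at this
    rw [sum_dg_comm A B, sum_dg_comm A (B.erase b), ← Finset.add_sum_erase B _ hb,
      ← Finset.card_erase_add_one hb] at this
    push_cast at this
    have h2 : (h : ℝ) ≤ dg G A b := by linarith
    exact_mod_cast h2
  refine ⟨A, hA, ?_, fun a ha => mem_Ws_succ.2 ((h1 a ha).trans (dg_mono ?_ a))⟩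
  · have h3 := hmax (U, univ) (by simp)
    simp only [f] at h3
    push_cast at h3
    have h4 : d * U.card ≤ ∑ x ∈ U, (dg G univ x : ℝ) := by
      rw [mul_comm, ← nsmul_eq_mul, ← Finset.sum_const]
      exact Finset.sum_le_sum fun x _ => hd x
    have h5 : ∑ x ∈ A, (dg G B x : ℝ) ≤ Δ * A.card := by
      rw [mul_comm, ← nsmul_eq_mul, ← Finset.sum_const]
      refine Finset.sum_le_sum fun x _ => le_trans ?_ (hΔ x)
      exact_mod_cast dg_mono (Finset.subset_univ B) x
    have h6 : (U.card : ℝ) ≤ Fintype.card V := by exact_mod_cast Finset.card_le_univ U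
    have h7 : (0 : ℝ) ≤ h * (A.card + B.card) := by positivity
    have h8 := mul_le_mul_of_nonneg_left h6 (Nat.cast_nonneg h)
    rw [Finset.card_univ] at h3
    nlinarith
  · intro b hb
    exact mem_Ws_succ.2 (h2 b hb)

end Pool.Agent.Lib.MP_befe0b_co
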