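import Pool.Agent.Lib.MP_befe0b_co.Thread

/-! Embedding a sparse bipartite graph, adding pendant vertices and long threads. -/

open Finset
open scoped Classical

noncomputable section

namespace Pool.Agent.Lib.MP_befe0b_co

variable {W V : Type*} {H : SimpleGraph W} {G : SimpleGraph V}

lemma exists_thread_col {M R : ℕ} (hs : Sparse H M) (hM : 6 * (R + 1) ≤ M)
    (col : W → Bool) (hcol : ∀ x y, H.Adj x y → col x ≠ col y) {S : Finset W} (hS : S.Nonempty)
    (h2 : ∀ x ∈ S, 2 ≤ dg H S x) :
    ∃ y : ℕ → W, (∀ i ≤ R, y i ∈ S) ∧ (∀ i < R, H.Adj (y i) (y (i + 1))) ∧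
      (∀ i ≤ R, ∀ j ≤ R, y i = y j → i = j) ∧
      (∀ i, i + 1 < R → ∀ z ∈ S, H.Adj (y (i + 1)) z → z = y i ∨ z = y (i + 2)) ∧
      (∀ i ≤ R, col (y i) = decide (i % 2 = 1)) := by
  obtain ⟨x, h1, h3, h4, h5⟩ := exists_thread hs hM hS h2
  obtain ⟨δ, hδ, hc⟩ : ∃ δ ≤ 1, col (x δ) = false := by
    by_cases h : col (x 0) = false
    · exact ⟨0, by omega, h⟩
    · refine ⟨1, le_rfl, ?_⟩
      have := hcol _ _ (h3 0 (Nat.zero_le R))
      revert this h
      cases col (x 0) <;> cases col (x (0 + 1)) <;> simp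
  refine ⟨fun i => x (i + δ), fun i hi => h1 _ (by omega), fun i hi => ?_,
    fun i hi j hj h => ?_, fun i hi z hz hadj => ?_, fun i hi => ?_⟩
  · have := h3 (i + δ) (by omega)
    rwa [show i + δ + 1 = i + 1 + δ by omega] at this
  · have := h4 _ (by omega) _ (by omega) h
    omega
  · have hd : (S.filter (H.Adj (x (i + 1 + δ)))).card = 2 := h5 _ (by omega) (by omega)
    have ha : H.Adj (x (i + 1 + δ)) (x (i + δ)) := by
      have := h3 (i + δ) (by omega)
      rw [show i + δ + 1 = i + 1 + δ by omega] at this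
      exact this.symm
    have hb : H.Adj (x (i + 1 + δ)) (x (i + 2 + δ)) := by
      have := h3 (i + 1 + δ) (by omega)
      rwa [show i + 1 + δ + 1 = i + 2 + δ by omega] at this
    have hne : x (i + δ) ≠ x (i + 2 + δ) := fun h => by
      have := h4 _ (by omega) _ (by omega) h
      omega
    have hsub : ({x (i + δ), x (i + 2 + δ)} : Finset W) ⊆ S.filter (H.Adj (x (i + 1 + δ))) := by
      intro w hw
      simp only [Finset.mem_insert, Finset.mem_singleton] at hw
      rcases hw with rfl | rfl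
      · exact Finset.mem_filter.2 ⟨h1 _ (by omega), ha⟩
      · exact Finset.mem_filter.2 ⟨h1 _ (by omega), hb⟩
    have heq := Finset.eq_of_subset_of_card_le hsub (by rw [hd, Finset.card_pair hne])
    have : z ∈ ({x (i + δ), x (i + 2 + δ)} : Finset W) := by
      rw [heq]; exact Finset.mem_filter.2 ⟨hz, hadj⟩
    simpa using this
  · induction i with
    | zero => simpa using hc
    | succ i ih =>
      have h6 := ih (by omega)
      have h7 := hcol _ _ (h3 (i + δ) (by omega))
      rw [show i + δ + 1 = i + 1 + δ by omega, h6] at h7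
      rcases Nat.mod_two_eq_zero_or_one i with h | h
      · have : (i + 1) % 2 = 1 := by omega
        revert h7
        simp only [h, this]
        cases col (x (i + 1 + δ)) <;> simp
      · have : (i + 1) % 2 = 0 := by omega
        revert h7
        simp only [h, this]
        cases col (x (i + 1 + δ)) <;> simp

theorem embed [Fintype W] {M R : ℕ} (hs : Sparse H M) (hM : 6 * (R + 1) ≤ M) (hR2 : 2 ≤ R)
    (hRe : R % 2 = 0) (col : W → Bool) (hcol : ∀ x y, H.Adj x y → col x ≠ col y)
    (Z : Bool → Set V) (Z0 : ∀ c, (Z c).Nonempty)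
    (Z1 : ∀ c, ∀ x ∈ Z c, ∀ F : Finset V, F.card ≤ Fintype.card W →
      ∃ y ∈ Z (!c), y ∉ F ∧ G.Adj x y)
    (Z2 : ∀ a ∈ Z false, ∀ b ∈ Z false, ∀ F : Finset V, F.card ≤ Fintype.card W →
      ∃ f : ℕ → V, f 0 = a ∧ f R = b ∧ (∀ i < R, G.Adj (f i) (f (i + 1))) ∧
        (∀ i, 0 < i → i < R → f i ∉ F ∧ f i ∈ Z (decide (i % 2 = 1))) ∧
        (∀ i j, 0 < i → i < R → 0 < j → j < R → f i = f j → i = j)) :
    H.IsContained G := by
  have key : ∀ n, ∀ S : Finset W, S.card = n → ∃ φ : W → V,
      (∀ x ∈ S, ∀ z ∈ S, φ x = φ z → x = z) ∧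
      (∀ x ∈ S, ∀ z ∈ S, H.Adj x z → G.Adj (φ x) (φ z)) ∧ ∀ x ∈ S, φ x ∈ Z (col x) := by
    intro n
    induction n using Nat.strong_induction_on with
    | _ n ih =>
    intro S hSn
    have hF : ∀ (S' : Finset W) (φ : W → V), (S'.image φ).card ≤ Fintype.card W := fun S' φ =>
      Finset.card_image_le.trans (Finset.card_le_univ _)
    rcases S.eq_empty_or_nonempty with rfl | hS
    · obtain ⟨v, -⟩ := Z0 false
      exact ⟨fun _ => v, by simp, by simp, by simp⟩
    by_cases h2 : ∀ x ∈ S, 2 ≤ dg H S x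
    · obtain ⟨y, y1, y2, y3, y4, y5⟩ := exists_thread_col hs hM col hcol hS h2
      set I : Finset W := (Finset.Ioo 0 R).image y with hI
      have hmemI : ∀ z, z ∈ I ↔ ∃ i, 0 < i ∧ i < R ∧ y i = z := by
        intro z
        simp [hI, and_assoc]
      have hlt : (S \ I).card < n := by
        rw [← hSn]
        refine Finset.card_lt_card ⟨Finset.sdiff_subset, fun h => ?_⟩
        have := h (y1 1 (by omega))
        exact (Finset.mem_sdiff.1 this).2 ((hmemI _).2 ⟨1, by omega, by omega, rfl⟩)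
      obtain ⟨φ, p1, p2, p3⟩ := ih _ hlt (S \ I) rfl
      have h0 : y 0 ∈ S \ I := Finset.mem_sdiff.2 ⟨y1 0 (by omega), fun h => by
        obtain ⟨i, hi, hi', h⟩ := (hmemI _).1 h
        have := y3 i (by omega) 0 (by omega) h
        omega⟩
      have hR : y R ∈ S \ I := Finset.mem_sdiff.2 ⟨y1 R le_rfl, fun h => by
        obtain ⟨i, hi, hi', h⟩ := (hmemI _).1 h
        have := y3 i (by omega) R le_rfl h
        omega⟩
      have ha : φ (y 0) ∈ Z false := by simpa [y5 0 (by omega)] using p3 _ h0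
      have hb : φ (y R) ∈ Z false := by simpa [y5 R le_rfl, hRe] using p3 _ hR
      obtain ⟨f, f0, fR, f1, f2, f3⟩ := Z2 _ ha _ hb _ (hF (S \ I) φ)
      let ψ : W → V := fun z =>
        if h : ∃ i, 0 < i ∧ i < R ∧ y i = z then f (Classical.choose h) else φ z
      have ψout : ∀ z, z ∉ I → ψ z = φ z := fun z hz => dif_neg fun h => hz ((hmemI z).2 h)
      have ψin : ∀ i ≤ R, ψ (y i) = f i := by
        intro i hi
        by_cases h : ∃ j, 0 < j ∧ j < R ∧ y j = y i
        · have h1 : ψ (y i) = f (Classical.choose h) := dif_pos h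
          obtain ⟨-, h3, h4⟩ := Classical.choose_spec h
          rw [h1, y3 _ h3.le _ hi h4]
        · have h1 : ψ (y i) = φ (y i) := dif_neg h
          have : i = 0 ∨ i = R := by
            by_contra hc
            exact h ⟨i, by omega, by omega, rfl⟩
          rcases this with rfl | rfl
          · rw [h1, f0]
          · rw [h1, fR]
      have hadjI : ∀ x ∈ I, ∀ z ∈ S, H.Adj x z → G.Adj (ψ x) (ψ z) := by
        intro x hx z hz hxz
        obtain ⟨i, hi, hi', rfl⟩ := (hmemI _).1 hx
        obtain ⟨i, rfl⟩ : ∃ i', i = i' + 1 := ⟨i - 1, by omega⟩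
        rcases y4 i hi' z hz hxz with rfl | rfl
        · rw [ψin _ (by omega), ψin _ (by omega)]
          exact (f1 i (by omega)).symm
        · rw [ψin _ (by omega), ψin _ (by omega)]
          exact f1 (i + 1) hi'
      have hinjI : ∀ x ∈ I, ∀ z ∈ S, z ∉ I → ψ x ≠ ψ z := by
        intro x hx z hz hz' h
        obtain ⟨i, hi, hi', rfl⟩ := (hmemI _).1 hx
        rw [ψin _ hi'.le, ψout z hz'] at h
        exact (f2 i hi hi').1 (h ▸ Finset.mem_image_of_mem φ (Finset.mem_sdiff.2 ⟨hz, hz'⟩))
      refine ⟨ψ, fun x hx z hz h => ?_, fun x hx z hz h => ?_, fun x hx => ?_⟩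
      · by_cases hxI : x ∈ I <;> by_cases hzI : z ∈ I
        · obtain ⟨i, hi, hi', rfl⟩ := (hmemI _).1 hxI
          obtain ⟨j, hj, hj', rfl⟩ := (hmemI _).1 hzI
          rw [ψin _ hi'.le, ψin _ hj'.le] at h
          rw [f3 i j hi hi' hj hj' h]
        · exact absurd h (hinjI x hxI z hz hzI)
        · exact absurd h.symm (hinjI z hzI x hx hxI)
        · rw [ψout x hxI, ψout z hzI] at h
          exact p1 x (Finset.mem_sdiff.2 ⟨hx, hxI⟩) z (Finset.mem_sdiff.2 ⟨hz, hzI⟩) h
      · by_cases hxI : x ∈ I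
        · exact hadjI x hxI z hz h
        · by_cases hzI : z ∈ I
          · exact (hadjI z hzI x hx h.symm).symm
          · rw [ψout x hxI, ψout z hzI]
            exact p2 x (Finset.mem_sdiff.2 ⟨hx, hxI⟩) z (Finset.mem_sdiff.2 ⟨hz, hzI⟩) h
      · by_cases hxI : x ∈ I
        · obtain ⟨i, hi, hi', rfl⟩ := (hmemI _).1 hxI
          rw [ψin _ hi'.le, y5 _ hi'.le]
          exact (f2 i hi hi').2
        · rw [ψout x hxI]
          exact p3 x (Finset.mem_sdiff.2 ⟨hx, hxI⟩)
    · push Not at h2
      obtain ⟨x, hx, hd⟩ := h2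
      have hlt : (S.erase x).card < n := by
        rw [← hSn]; exact Finset.card_erase_lt_of_mem hx
      obtain ⟨φ, p1, p2, p3⟩ := ih _ hlt (S.erase x) rfl
      obtain ⟨v, hv, hvF, hvadj⟩ : ∃ v ∈ Z (col x), v ∉ (S.erase x).image φ ∧
          ∀ z ∈ S, H.Adj x z → G.Adj v (φ z) := by
        by_cases h : ∃ z ∈ S, H.Adj x z
        · obtain ⟨z, hz, hxz⟩ := h
          have hz' : z ∈ S.erase x := Finset.mem_erase.2 ⟨hxz.ne', hz⟩
          obtain ⟨v, hv, hvF, hadj⟩ := Z1 _ _ (p3 z hz') _ (hF (S.erase x) φ)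
          refine ⟨v, ?_, hvF, fun w hw hxw => ?_⟩
          · have := hcol _ _ hxz
            revert this hv
            cases col x <;> cases col z <;> simp
          · have h1 : (S.filter (H.Adj x)).card ≤ 1 := by
              have : (S.filter (H.Adj x)).card < 2 := hd
              omega
            have := Finset.card_le_one.1 h1 w (Finset.mem_filter.2 ⟨hw, hxw⟩) z
              (Finset.mem_filter.2 ⟨hz, hxz⟩)
            rw [this]; exact hadj.symm
        · obtain ⟨u, hu⟩ := Z0 (!col x)
          obtain ⟨v, hv, hvF, -⟩ := Z1 _ _ hu _ (hF (S.erase x) φ)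
          exact ⟨v, by simpa using hv, hvF, fun z hz hxz => absurd ⟨z, hz, hxz⟩ h⟩
      refine ⟨Function.update φ x v, fun a ha b hb h => ?_, fun a ha b hb h => ?_,
        fun a ha => ?_⟩
      · by_cases hax : a = x <;> by_cases hbx : b = x
        · rw [hax, hbx]
        · subst hax
          rw [Function.update_self, Function.update_of_ne hbx] at h
          exact absurd (h ▸ Finset.mem_image_of_mem φ (Finset.mem_erase.2 ⟨hbx, hb⟩)) hvF
        · subst hbx
          rw [Function.update_self, Function.update_of_ne hax] at h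
          exact absurd (h ▸ Finset.mem_image_of_mem φ (Finset.mem_erase.2 ⟨hax, ha⟩)) hvF
        · rw [Function.update_of_ne hax, Function.update_of_ne hbx] at h
          exact p1 a (Finset.mem_erase.2 ⟨hax, ha⟩) b (Finset.mem_erase.2 ⟨hbx, hb⟩) h
      · by_cases hax : a = x <;> by_cases hbx : b = x
        · rw [hax, hbx] at h; exact absurd h (H.irrefl)
        · subst hax
          rw [Function.update_self, Function.update_of_ne hbx]
          exact hvadj b hb h
        · subst hbx
          rw [Function.update_self, Function.update_of_ne hax]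
          exact (hvadj a ha h.symm).symm
        · rw [Function.update_of_ne hax, Function.update_of_ne hbx]
          exact p2 a (Finset.mem_erase.2 ⟨hax, ha⟩) b (Finset.mem_erase.2 ⟨hbx, hb⟩) h
      · by_cases hax : a = x
        · subst hax
          rw [Function.update_self]; exact hv
        · rw [Function.update_of_ne hax]
          exact p3 a (Finset.mem_erase.2 ⟨hax, ha⟩)
  obtain ⟨φ, p1, p2, -⟩ := key _ univ rfl
  exact ⟨⟨⟨φ, fun {a b} h => p2 a (mem_univ _) b (mem_univ _) h⟩,
    fun a b h => p1 a (mem_univ _) b (mem_univ _) h⟩⟩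

end Pool.Agent.Lib.MP_befe0b_co
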