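import Pool.Agent.Lib.MP_befe0b_co.GlueDefs

/-! Large subgraphs without `F` in graphs that avoid a tree of copies of `F`. -/

open Finset
open scoped Classical

namespace Pool.Agent.Lib.MP_befe0b_co

/-- The number of ordered adjacent pairs. -/
noncomputable def gm {V : Type} [Fintype V] (G : SimpleGraph V) : ℝ :=
  ((univ.filter fun p : V × V => G.Adj p.1 p.2).card : ℝ)

theorem gm_eq {V : Type} [Fintype V] (G : SimpleGraph V) : gm G = 2 * G.edgeSet.ncard := by
  have h := G.two_mul_card_edgeFinset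
  rw [← G.coe_edgeFinset, Set.ncard_coe_finset, gm]
  exact_mod_cast h.symm

theorem glue_avg {V ι : Type} [Fintype V] (P : Finset ι) (A B : ι → Finset V) (M : ℕ)
    (hd : ∀ p ∈ P, Disjoint (A p) (B p)) (hc : ∀ p ∈ P, (A p ∪ B p).card ≤ M) :
    ∃ U : Finset V, (P.card : ℝ) ≤
      2 ^ M * (P.filter fun p => A p ⊆ U ∧ Disjoint (B p) U).card := by
  have key : ∀ p ∈ P, (univ : Finset (Finset V)).card ≤
      2 ^ M * (univ.filter fun U : Finset V => A p ⊆ U ∧ Disjoint (B p) U).card := by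
    intro p hp
    calc _ ≤ ((A p ∪ B p).powerset ×ˢ
          (univ.filter fun U : Finset V => A p ⊆ U ∧ Disjoint (B p) U)).card := by
          refine card_le_card_of_injOn (fun U => (U ∩ (A p ∪ B p), (U ∪ A p) \ B p))
            (fun U _ => ?_) fun U _ U' _ h => ?_
          · simp only [coe_product, Set.mem_prod, mem_coe, mem_powerset, mem_filter, mem_univ,
              true_and]
            exact ⟨inter_subset_right, subset_sdiff.2 ⟨subset_union_right, hd p hp⟩,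
              disjoint_sdiff⟩
          · obtain ⟨h1, h2⟩ := Prod.mk.inj h
            ext x
            have e1 := Finset.ext_iff.1 h1 x
            have e2 := Finset.ext_iff.1 h2 x
            simp only [mem_inter, mem_union, mem_sdiff] at e1 e2
            tauto
      _ ≤ _ := by
          rw [card_product, card_powerset]
          exact Nat.mul_le_mul_right _ (Nat.pow_le_pow_right (by norm_num) (hc p hp))
  have h1 : ∑ _U : Finset V, P.card ≤
      ∑ U : Finset V, 2 ^ M * (P.filter fun p => A p ⊆ U ∧ Disjoint (B p) U).card := by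
    calc _ = ∑ _p ∈ P, (univ : Finset (Finset V)).card := by
          rw [sum_const, sum_const, smul_eq_mul, smul_eq_mul, mul_comm]
      _ ≤ _ := sum_le_sum key
      _ = _ := by
          simp only [← mul_sum, card_filter]
          rw [sum_comm]
  obtain ⟨U, -, hU⟩ := exists_le_of_sum_le univ_nonempty h1
  exact ⟨U, by exact_mod_cast hU⟩

theorem glue_bip {V : Type} [Fintype V] (G : SimpleGraph V) :
    ∃ (χ : V → Bool) (G' : SimpleGraph V), G' ≤ G ∧ (∀ u v, G'.Adj u v → χ u ≠ χ v) ∧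
      gm G ≤ 4 * gm G' := by
  obtain ⟨U, hU⟩ := glue_avg (univ.filter fun p : V × V => G.Adj p.1 p.2) (fun p => {p.1})
    (fun p => {p.2}) 2 (fun p hp => disjoint_singleton.2 (mem_filter.1 hp).2.ne)
    fun p _ => (card_union_le _ _).trans (by simp)
  refine ⟨fun v => decide (v ∈ U), ⟨fun u v => G.Adj u v ∧ decide (u ∈ U) ≠ decide (v ∈ U),
    ⟨fun u v h => ⟨h.1.symm, h.2.symm⟩⟩, ⟨fun u h => h.2 rfl⟩⟩, fun u v h => h.1,
    fun u v h => h.2, hU.trans ?_⟩
  norm_num only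
  refine mul_le_mul_of_nonneg_left (Nat.cast_le.2 (card_le_card fun p hp => ?_)) (by norm_num)
  simp only [mem_filter, mem_univ, true_and, singleton_subset_iff, disjoint_singleton_left] at hp ⊢
  exact ⟨hp.1, by simp [hp.2.1, hp.2.2]⟩

variable {α : Type}

/-- A copy of `F` in `G` that respects the colours. -/
def TCopy {V : Type} (F : SimpleGraph α) (c : α → Bool) (G : SimpleGraph V) (χ : V → Bool)
    (ψ : α → V) : Prop :=
  Function.Injective ψ ∧ (∀ x y, F.Adj x y → G.Adj (ψ x) (ψ y)) ∧ ∀ x, χ (ψ x) = c x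

theorem GlueTree.finite [Finite α] {F : SimpleGraph α} {c : α → Bool} {κ : ℕ → Bool}
    {T : SimpleGraph ℕ} (h : GlueTree F c κ T) : T.support.Finite := by
  induction h with
  | base u v _ =>
    refine (Set.toFinite {u, v}).subset fun x ⟨y, hy⟩ => ?_
    rcases ((SimpleGraph.edge_adj ..).1 hy).1 with h | h
    exacts [Or.inl h.1, Or.inr h.1]
  | step T φ a b _ _ _ _ _ ih =>
    refine (ih.union (Set.finite_range φ)).subset fun x ⟨y, hy⟩ => ?_
    rcases hy with hy | hy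
    · exact Or.inl ⟨y, hy⟩
    · obtain ⟨u, -, -, rfl, -⟩ := (SimpleGraph.map_adj ..).1 hy
      exact Or.inr ⟨u, rfl⟩

theorem GlueTree.dichotomy [Finite α] [Nonempty α] {F : SimpleGraph α} {c : α → Bool}
    {κ : ℕ → Bool} (hF : ∀ x, ∃ y, F.Adj x y) (hc : ∀ x y, F.Adj x y → c x ≠ c y)
    {T : SimpleGraph ℕ} (h : GlueTree F c κ T) :
    ∃ C : ℝ, 0 ≤ C ∧ ∀ (V : Type) [Fintype V] (χ : V → Bool) (G : SimpleGraph V),
      (∀ u v, G.Adj u v → χ u ≠ χ v) →
      (∃ G' ≤ G, gm G ≤ C * gm G' ∧ ∀ ψ, ¬ TCopy F c G' χ ψ) ∨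
      ∃ θ : ℕ → V, Set.InjOn θ T.support ∧ (∀ x y, T.Adj x y → G.Adj (θ x) (θ y)) ∧
        ∀ x ∈ T.support, χ (θ x) = κ x := by
  induction h with
  | base u v huv =>
    refine ⟨0, le_rfl, fun V _ χ G hG => ?_⟩
    by_cases he : ∃ p q, G.Adj p q
    · right
      obtain ⟨p, q, hpq, hp, hq⟩ : ∃ p q, G.Adj p q ∧ χ p = κ u ∧ χ q = κ v := by
        obtain ⟨p, q, hpq⟩ := he
        have hb : ∀ x y z w : Bool, x ≠ y → z ≠ w → (x = z ∧ y = w) ∨ (y = z ∧ x = w) := by
          decide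
        rcases hb _ _ _ _ (hG p q hpq) huv with h | h
        exacts [⟨p, q, hpq, h⟩, ⟨q, p, hpq.symm, h⟩]
      have hne : v ≠ u := fun e => huv (by rw [e])
      have hs : ∀ x ∈ (SimpleGraph.edge u v).support, x = u ∨ x = v := fun x ⟨y, hy⟩ =>
        ((SimpleGraph.edge_adj ..).1 hy).1.imp And.left And.left
      refine ⟨fun x => if x = u then p else q, fun x hx y hy e => ?_, fun x y hxy => ?_,
        fun x hx => ?_⟩
      · rcases hs x hx with rfl | rfl <;> rcases hs y hy with rfl | rfl <;>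
          simp_all [hpq.ne, hpq.ne']
      · rcases ((SimpleGraph.edge_adj ..).1 hxy).1 with ⟨rfl, rfl⟩ | ⟨rfl, rfl⟩ <;>
          simp [hne, hpq, hpq.symm]
      · rcases hs x hx with rfl | rfl <;> simp [hne, hp, hq]
    · refine Or.inl ⟨G, le_rfl, ?_, fun ψ hψ => ?_⟩
      · rw [zero_mul, gm, filter_eq_empty_iff.2 fun p _ hp => he ⟨_, _, hp⟩]
        simp
      · obtain ⟨x⟩ := ‹Nonempty α›
        obtain ⟨y, hy⟩ := hF x
        exact he ⟨_, _, hψ.2.1 x y hy⟩
  | step T φ a b hT hab hTab hκ hnew ih =>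
    obtain ⟨C, hC0, hC⟩ := ih
    obtain ⟨Z, hZ⟩ := hT.finite.exists_finset_coe
    refine ⟨2 * C + 2 * 2 ^ (2 + (Z.card + Z.card)), by positivity, fun V _ χ G hG => ?_⟩
    let Rich : V → V → Prop := fun u v => ∀ S : Finset V, S.card ≤ Z.card →
      ∃ ψ, TCopy F c G χ ψ ∧ ψ a = u ∧ ψ b = v ∧ ∀ x, x ≠ a → x ≠ b → ψ x ∉ S
    have hS : ∀ u v, ∃ S : Finset V, S.card ≤ Z.card ∧ (¬ Rich u v → ∀ ψ, TCopy F c G χ ψ →
        ψ a = u → ψ b = v → ∃ x, x ≠ a ∧ x ≠ b ∧ ψ x ∈ S) := by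
      intro u v
      by_cases h : Rich u v
      · exact ⟨∅, by simp, fun h' => absurd h h'⟩
      · simp only [Rich, not_forall, not_exists, not_and, not_not] at h
        obtain ⟨S, h1, h2⟩ := h
        refine ⟨S, h1, fun _ ψ b1 b2 b3 => ?_⟩
        obtain ⟨x, c1, c2, c3⟩ := h2 ψ b1 b2 b3
        exact ⟨x, c1, c2, c3⟩
    choose S hS1 hS2 using hS
    let G₁ : SimpleGraph V := ⟨fun u v => G.Adj u v ∧ (Rich u v ∨ Rich v u),
      ⟨fun u v h => ⟨h.1.symm, h.2.symm⟩⟩, ⟨fun u h => h.1.ne rfl⟩⟩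
    let P := univ.filter fun p : V × V => G.Adj p.1 p.2 ∧ ¬ (Rich p.1 p.2 ∨ Rich p.2 p.1)
    have hsum : gm G = gm G₁ + P.card := by
      have := card_filter_add_card_filter_not (s := univ.filter fun p : V × V => G.Adj p.1 p.2)
        fun p => Rich p.1 p.2 ∨ Rich p.2 p.1
      rw [filter_filter, filter_filter] at this
      unfold gm
      rw [← this, Nat.cast_add]
      congr!
    have gm0 : ∀ G' : SimpleGraph V, 0 ≤ gm G' := fun _ => Nat.cast_nonneg _
    by_cases hbig : gm G ≤ 2 * P.card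
    · let B : V × V → Finset V := fun p => (S p.1 p.2 ∪ S p.2 p.1) \ {p.1, p.2}
      obtain ⟨U, hU⟩ := glue_avg P (fun p => {p.1, p.2}) B (2 + (Z.card + Z.card))
        (fun p _ => disjoint_sdiff) fun p _ => (card_union_le _ _).trans (add_le_add card_le_two
          ((card_le_card sdiff_subset).trans ((card_union_le _ _).trans
            (add_le_add (hS1 _ _) (hS1 _ _)))))
      have hB : ∀ u v, B (u, v) = B (v, u) := fun u v => by
        simp only [B, union_comm, pair_comm]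
      let G' : SimpleGraph V := ⟨fun u v => (G.Adj u v ∧ ¬ (Rich u v ∨ Rich v u)) ∧
          (u ∈ U ∧ v ∈ U) ∧ Disjoint (B (u, v)) U,
        ⟨fun u v h => ⟨⟨h.1.1.symm, fun h' => h.1.2 h'.symm⟩, h.2.1.symm, hB u v ▸ h.2.2⟩⟩,
        ⟨fun u h => h.1.1.ne rfl⟩⟩
      refine Or.inl ⟨G', fun u v h => h.1.1, ?_, fun ψ hψ => ?_⟩
      · have h1 : ((P.filter fun p => {p.1, p.2} ⊆ U ∧ Disjoint (B p) U).card : ℝ) ≤ gm G' := by
          refine Nat.cast_le.2 (card_le_card fun p hp => ?_)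
          simp only [P, mem_filter, mem_univ, true_and, insert_subset_iff,
            singleton_subset_iff] at hp ⊢
          exact hp
        have h2 := mul_le_mul_of_nonneg_left h1
          (show (0 : ℝ) ≤ 2 ^ (2 + (Z.card + Z.card)) by positivity)
        nlinarith [mul_nonneg hC0 (gm0 G')]
      · have h1 := hψ.2.1 a b hab
        obtain ⟨x, xa, xb, hx⟩ := hS2 _ _ (fun h => h1.1.2 (Or.inl h)) ψ
          ⟨hψ.1, fun x y h => (hψ.2.1 x y h).1.1, hψ.2.2⟩ rfl rfl
        obtain ⟨y, hy⟩ := hF x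
        refine disjoint_left.1 h1.2.2 (mem_sdiff.2 ⟨mem_union_left _ hx, ?_⟩)
          (hψ.2.1 x y hy).2.1.1
        simp only [mem_insert, mem_singleton, hψ.1.eq_iff]
        exact fun h => h.elim xa xb
    rcases hC V χ G₁ (fun u v h => hG u v h.1) with ⟨G', h1, h2, h3⟩ | ⟨θ, h1, h2, h3⟩
    · refine Or.inl ⟨G', fun u v h => (h1 h).1, ?_, h3⟩
      have : (0 : ℝ) ≤ 2 ^ (2 + (Z.card + Z.card)) * gm G' := mul_nonneg (by positivity) (gm0 _)
      nlinarith
    right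
    have sa : φ a ∈ T.support := ⟨_, hTab⟩
    have sb : φ b ∈ T.support := ⟨_, hTab.symm⟩
    have hR : Rich (θ (φ a)) (θ (φ b)) := (h2 _ _ hTab).2.resolve_right fun h => by
      obtain ⟨ψ, c1, c2, -⟩ := h ∅ (by simp)
      exact hc a b hab (by rw [← c1.2.2 a, c2, h3 _ sb, hκ])
    obtain ⟨ψ, c1, c2, c3, c4⟩ := hR (Z.image θ) card_image_le
    let θ' : ℕ → V := fun n => if h : ∃ x, φ x = n then ψ h.choose else θ n
    have e1 : ∀ x, θ' (φ x) = ψ x := fun x => by
      have h : ∃ y, φ y = φ x := ⟨x, rfl⟩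
      simp only [θ', dif_pos h, φ.injective h.choose_spec]
    have e2 : ∀ n ∈ T.support, θ' n = θ n := fun n hn => by
      by_cases h : ∃ x, φ x = n
      · obtain ⟨x, rfl⟩ := h
        rw [e1]
        by_cases xa : x = a
        · rw [xa, c2]
        by_cases xb : x = b
        · rw [xb, c3]
        exact absurd hn (hnew x xa xb)
      · simp only [θ', dif_neg h]
    have hs : ∀ n ∈ (T ⊔ F.map φ).support, n ∈ T.support ∨ ∃ x, x ≠ a ∧ x ≠ b ∧ φ x = n := by
      rintro n ⟨y, hy | hy⟩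
      · exact Or.inl ⟨y, hy⟩
      · obtain ⟨x, -, -, rfl, -⟩ := (SimpleGraph.map_adj ..).1 hy
        by_cases xa : x = a
        · exact Or.inl (xa ▸ sa)
        by_cases xb : x = b
        · exact Or.inl (xb ▸ sb)
        exact Or.inr ⟨x, xa, xb, rfl⟩
    have hmem : ∀ n ∈ T.support, θ n ∈ Z.image θ := fun n hn =>
      mem_image_of_mem θ (mem_coe.1 (hZ ▸ hn))
    refine ⟨θ', fun m hm n hn e => ?_, fun m n hmn => ?_, fun n hn => ?_⟩
    · rcases hs m hm with hm | ⟨x, xa, xb, rfl⟩ <;> rcases hs n hn with hn | ⟨y, ya, yb, rfl⟩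
      · exact h1 hm hn (by rwa [e2 m hm, e2 n hn] at e)
      · rw [e2 m hm, e1] at e
        exact absurd (e ▸ hmem m hm) (c4 y ya yb)
      · rw [e2 n hn, e1] at e
        exact absurd (e ▸ hmem n hn) (c4 x xa xb)
      · rw [e1, e1] at e
        rw [c1.1 e]
    · rcases hmn with hmn | hmn
      · rw [e2 m ⟨_, hmn⟩, e2 n ⟨_, hmn.symm⟩]
        exact (h2 m n hmn).1
      · obtain ⟨x, y, hxy, rfl, rfl⟩ := (SimpleGraph.map_adj ..).1 hmn
        rw [e1, e1]
        exact c1.2.1 x y hxy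
    · rcases hs n hn with hn | ⟨x, -, -, rfl⟩
      · rw [e2 n hn, h3 n hn]
      · rw [e1, c1.2.2, hκ]

theorem glue_all {ι : Type} (s : Finset ι)
    (P : ∀ n : ℕ, (Fin n → Bool) → SimpleGraph (Fin n) → Prop)
    (Q : ι → ∀ n : ℕ, (Fin n → Bool) → SimpleGraph (Fin n) → Prop)
    (hP : ∀ n χ G G', G' ≤ G → P n χ G → P n χ G')
    (hQ : ∀ i n χ G G', G' ≤ G → Q i n χ G → Q i n χ G')
    (h : ∀ i ∈ s, ∃ C : ℝ, 0 ≤ C ∧ ∀ n χ G, P n χ G → ∃ G' ≤ G, gm G ≤ C * gm G' ∧ Q i n χ G') :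
    ∃ C : ℝ, 0 ≤ C ∧ ∀ n χ G, P n χ G → ∃ G' ≤ G, gm G ≤ C * gm G' ∧ ∀ i ∈ s, Q i n χ G' := by
  induction s using Finset.induction_on with
  | empty => exact ⟨1, zero_le_one, fun n χ G _ => ⟨G, le_rfl, by simp, by simp⟩⟩
  | insert i s _ ih =>
    obtain ⟨C, h0, hC⟩ := ih fun j hj => h j (mem_insert_of_mem hj)
    obtain ⟨C', h0', hC'⟩ := h i (mem_insert_self _ _)
    refine ⟨C * C', mul_nonneg h0 h0', fun n χ G hG => ?_⟩
    obtain ⟨G₁, a1, a2, a3⟩ := hC n χ G hG
    obtain ⟨G₂, b1, b2, b3⟩ := hC' n χ G₁ (hP n χ G G₁ a1 hG)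
    refine ⟨G₂, b1.trans a1, a2.trans ?_, fun j hj => ?_⟩
    · rw [mul_assoc]
      exact mul_le_mul_of_nonneg_left b2 h0
    · rcases mem_insert.1 hj with rfl | hj
      exacts [b3, hQ j n χ G₁ G₂ b1 (a3 j hj)]

end Pool.Agent.Lib.MP_befe0b_co
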