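import Mathlib

namespace Pool.Agent.Lib.MP_befe0b_co

/-- Graphs on `ℕ` obtained from one edge by repeatedly gluing a new copy of `F` along an edge:
the copy meets the graph built so far in the two ends of that edge only, and its vertices keep
their colours (`c` on `F`, `κ` on `ℕ`). -/
inductive GlueTree {α : Type} (F : SimpleGraph α) (c : α → Bool) (κ : ℕ → Bool) :
    SimpleGraph ℕ → Prop
  | base (u v : ℕ) : κ u ≠ κ v → GlueTree F c κ (SimpleGraph.edge u v)
  | step (T : SimpleGraph ℕ) (φ : α ↪ ℕ) (a b : α) : GlueTree F c κ T → F.Adj a b →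
      T.Adj (φ a) (φ b) → (∀ x, κ (φ x) = c x) → (∀ x, x ≠ a → x ≠ b → φ x ∉ T.support) →
      GlueTree F c κ (T ⊔ F.map φ)

end Pool.Agent.Lib.MP_befe0b_co
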