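import Pool.Agent.Lib.MP_befe0b_co.Link

/-! In a nearly regular graph without denser parts, long walks spread out. -/

open Finset
open scoped Classical

noncomputable section

namespace Pool.Agent.Lib.MP_befe0b_co

variable {V : Type*} [Fintype V]

/-- nearly regular host graph in which no part is denser than the whole -/
structure Host (G : SimpleGraph V) (ρ : ℝ) (N s : ℕ) : Prop where
  rho : 8 ≤ ρ
  cls : ((s * N + 1 : ℕ) : ℝ) ≤ ρ
  mindeg : ∀ x, ρ ^ N ≤ (nb G x).card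
  maxdeg : ∀ x, ((nb G x).card : ℝ) ≤ ρ ^ (N + 1)
  dens : ∀ S : Finset V, (sg G S : ℝ) ^ s * Fintype.card V ≤ (8 * ρ ^ N) ^ s * S.card ^ (s + 1)
  size : (Fintype.card V : ℝ) ≤ ρ ^ (s * N)

variable {G : SimpleGraph V} {ρ : ℝ} {N s : ℕ}

namespace Host

variable (hG : Host G ρ N s)
include hG

lemma step (S : Finset V) (hS : S.Nonempty) : ∃ (Y : Finset V) (t : ℝ), Y.Nonempty ∧ 0 < t ∧
    (∀ y ∈ Y, t ≤ dg G S y) ∧ ρ ^ N * S.card ≤ t * Y.card * ρ ^ 2 ∧
    (S.card : ℝ) ^ s * Fintype.card V ≤ ρ ^ (5 * s + 3) * Y.card ^ (s + 1) := by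
  have h8 := hG.rho
  have h1 : 1 < ρ := by linarith
  have h0 : 0 < ρ := by linarith
  have hSc : (0 : ℝ) < S.card := by exact_mod_cast hS.card_pos
  let Y : ℕ → Finset V := fun i => univ.filter fun y => ρ ^ i ≤ dg G S y ∧ dg G S y < ρ ^ (i + 1)
  have htot : ρ ^ N * S.card ≤ ∑ y, (dg G S y : ℝ) := by
    have : ∑ y, (dg G S y : ℝ) = ∑ x ∈ S, ((nb G x).card : ℝ) := by
      exact_mod_cast (sum_dg_comm S univ).symm
    rw [this, mul_comm, ← nsmul_eq_mul, ← Finset.sum_const]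
    exact Finset.sum_le_sum fun x _ => hG.mindeg x
  have hcl : ∑ y, (dg G S y : ℝ) ≤ ∑ i ∈ range (s * N + 1), ∑ y ∈ Y i, (dg G S y : ℝ) := by
    simp only [Y, Finset.sum_filter]
    rw [Finset.sum_comm]
    refine Finset.sum_le_sum fun y _ => ?_
    rcases Nat.eq_zero_or_pos (dg G S y) with h | h
    · simp [h]
    · obtain ⟨i, hi1, hi2⟩ := exists_nat_pow_near (x := (dg G S y : ℝ)) (by exact_mod_cast h) h1
      have hi : i ≤ s * N := by
        have h2 : (dg G S y : ℝ) ≤ Fintype.card V := by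
          exact_mod_cast (dg_le_card S y).trans (Finset.card_le_univ S)
        exact (pow_le_pow_iff_right₀ h1).1 (hi1.trans (h2.trans hG.size))
      refine le_trans ?_ (Finset.single_le_sum (f := fun i =>
        if ρ ^ i ≤ dg G S y ∧ dg G S y < ρ ^ (i + 1) then (dg G S y : ℝ) else 0)
        (fun j _ => by split_ifs <;> positivity) (Finset.mem_range.2 (Nat.lt_succ_of_le hi)))
      simp [hi1, hi2]
  obtain ⟨i, -, hi⟩ : ∃ i ∈ range (s * N + 1),
      ρ ^ N * S.card / ((s * N + 1 : ℕ) : ℝ) ≤ ∑ y ∈ Y i, (dg G S y : ℝ) := by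
    refine Finset.exists_le_of_sum_le (by simp) ?_
    rw [Finset.sum_const, Finset.card_range, nsmul_eq_mul, mul_div_cancel₀ _ (by positivity)]
    exact htot.trans hcl
  set e := ∑ y ∈ Y i, (dg G S y : ℝ) with he
  have he0 : 0 ≤ e := Finset.sum_nonneg fun _ _ => Nat.cast_nonneg _
  have he1 : ρ ^ N * S.card ≤ e * ρ := by
    rw [div_le_iff₀ (by positivity)] at hi
    exact hi.trans (mul_le_mul_of_nonneg_left hG.cls he0)
  have he2 : e ≤ (Y i).card * ρ ^ (i + 1) := by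
    rw [← nsmul_eq_mul, ← Finset.sum_const]
    exact Finset.sum_le_sum fun y hy => (Finset.mem_filter.1 hy).2.2.le
  have he3 : e ≤ (Y i).card * ρ ^ (N + 1) := by
    rw [← nsmul_eq_mul, ← Finset.sum_const]
    refine Finset.sum_le_sum fun y _ => le_trans ?_ (hG.maxdeg y)
    exact_mod_cast dg_mono (Finset.subset_univ S) y
  have he4 : e ≤ sg G (Y i ∪ S) := by
    rw [he]; exact_mod_cast sum_dg_le_sg_union (Y i) S
  have hSY : (S.card : ℝ) ≤ (Y i).card * ρ ^ 2 := by
    have h2 : ρ ^ N * S.card ≤ ρ ^ N * ((Y i).card * ρ ^ 2) := by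
      calc ρ ^ N * S.card ≤ e * ρ := he1
        _ ≤ (Y i).card * ρ ^ (N + 1) * ρ := by gcongr
        _ = _ := by ring
    exact le_of_mul_le_mul_left h2 (by positivity)
  have hYc : (0 : ℝ) < (Y i).card := by
    by_contra hc
    have : ((Y i).card : ℝ) = 0 := le_antisymm (not_lt.1 hc) (Nat.cast_nonneg _)
    rw [this] at hSY
    linarith
  refine ⟨Y i, ρ ^ i, Finset.card_pos.1 (by exact_mod_cast hYc), by positivity,
    fun y hy => (Finset.mem_filter.1 hy).2.1, ?_, ?_⟩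
  · calc ρ ^ N * S.card ≤ e * ρ := he1
      _ ≤ (Y i).card * ρ ^ (i + 1) * ρ := by gcongr
      _ = _ := by ring
  · have hU : ((Y i ∪ S).card : ℝ) ≤ ρ ^ 3 * (Y i).card := by
      have h2 : ((Y i ∪ S).card : ℝ) ≤ (Y i).card + S.card := by
        exact_mod_cast Finset.card_union_le _ _
      have h3 : 1 + ρ ^ 2 ≤ ρ ^ 3 := by nlinarith
      nlinarith
    have h2 : (ρ ^ N) ^ s * ((S.card : ℝ) ^ s * Fintype.card V) ≤
        (ρ ^ N) ^ s * (ρ ^ (5 * s + 3) * (Y i).card ^ (s + 1)) := by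
      calc (ρ ^ N) ^ s * ((S.card : ℝ) ^ s * Fintype.card V)
          = (ρ ^ N * S.card) ^ s * Fintype.card V := by ring
        _ ≤ (sg G (Y i ∪ S) * ρ) ^ s * Fintype.card V := by
            have h3 : ρ ^ N * S.card ≤ sg G (Y i ∪ S) * ρ :=
              he1.trans (mul_le_mul_of_nonneg_right he4 h0.le)
            exact mul_le_mul_of_nonneg_right (pow_le_pow_left₀ (by positivity) h3 s)
              (Nat.cast_nonneg _)
        _ = ρ ^ s * ((sg G (Y i ∪ S) : ℝ) ^ s * Fintype.card V) := by ring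
        _ ≤ ρ ^ s * ((8 * ρ ^ N) ^ s * (Y i ∪ S).card ^ (s + 1)) :=
            mul_le_mul_of_nonneg_left (hG.dens _) (by positivity)
        _ ≤ ρ ^ s * ((ρ * ρ ^ N) ^ s * (ρ ^ 3 * (Y i).card) ^ (s + 1)) := by gcongr
        _ = _ := by ring
    exact le_of_mul_le_mul_left h2 (by positivity)

lemma iterate (u : V) (j : ℕ) : ∃ (S : Finset V) (τ : ℝ), S.Nonempty ∧ 0 < τ ∧
    (∀ y ∈ S, τ ≤ cw G j u y) ∧ (ρ ^ N) ^ j ≤ τ * S.card * ρ ^ (2 * j) ∧
    (Fintype.card V : ℝ) ≤ S.card * ρ ^ ((5 * s + 3 : ℝ) + ((s : ℝ) / (s + 1)) ^ j * (s * N)) := by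
  have h8 := hG.rho
  have h1 : 1 ≤ ρ := by linarith
  have h0 : 0 < ρ := by linarith
  induction j with
  | zero =>
    refine ⟨{u}, 1, Finset.singleton_nonempty _, one_pos, by simp [cw_zero], by simp, ?_⟩
    rw [Finset.card_singleton, Nat.cast_one, one_mul]
    refine hG.size.trans ?_
    rw [← Real.rpow_natCast]
    refine Real.rpow_le_rpow_of_exponent_le h1 ?_
    push_cast
    have : (0 : ℝ) ≤ s := Nat.cast_nonneg _
    simp only [pow_zero, one_mul]
    linarith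
  | succ j ih =>
    obtain ⟨S, τ, hS, hτ, h2, h3, h4⟩ := ih
    obtain ⟨Y, t, hY, ht, h5, h6, h7⟩ := hG.step S hS
    refine ⟨Y, t * τ, hY, mul_pos ht hτ, fun y hy => ?_, ?_, ?_⟩
    · rw [cw_succ']
      calc t * τ ≤ dg G S y * τ := by gcongr; exact h5 y hy
        _ = ∑ _x ∈ S.filter (G.Adj y), τ := by simp [dg]
        _ ≤ ∑ x ∈ S.filter (G.Adj y), cw G j u x :=
            Finset.sum_le_sum fun x hx => h2 x (Finset.mem_filter.1 hx).1
        _ ≤ _ := Finset.sum_le_sum_of_subset_of_nonneg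
            (fun x hx => mem_nb.2 (Finset.mem_filter.1 hx).2) fun x _ _ => cw_nonneg j u x
    · calc (ρ ^ N) ^ (j + 1) = ρ ^ N * (ρ ^ N) ^ j := by ring
        _ ≤ ρ ^ N * (τ * S.card * ρ ^ (2 * j)) := by gcongr
        _ = ρ ^ N * S.card * (τ * ρ ^ (2 * j)) := by ring
        _ ≤ t * Y.card * ρ ^ 2 * (τ * ρ ^ (2 * j)) := by gcongr
        _ = _ := by ring
    · set x := (5 * s + 3 : ℝ) + ((s : ℝ) / (s + 1)) ^ j * (s * N) with hx
      set x' := (5 * s + 3 : ℝ) + ((s : ℝ) / (s + 1)) ^ (j + 1) * (s * N) with hx'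
      have hxx : x' * ((s + 1 : ℕ) : ℝ) = x * s + ((5 * s + 3 : ℕ) : ℝ) := by
        rw [hx, hx']
        push_cast
        have : (s : ℝ) + 1 ≠ 0 := by positivity
        rw [pow_succ]
        field_simp
        ring
      refine le_of_pow_le_pow_left₀ (n := s + 1) (by omega) (by positivity) ?_
      calc (Fintype.card V : ℝ) ^ (s + 1) = (Fintype.card V : ℝ) ^ s * Fintype.card V := by ring
        _ ≤ (S.card * ρ ^ x) ^ s * Fintype.card V := by gcongr
        _ = (ρ ^ x) ^ s * ((S.card : ℝ) ^ s * Fintype.card V) := by ring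
        _ ≤ (ρ ^ x) ^ s * (ρ ^ (5 * s + 3) * Y.card ^ (s + 1)) := by gcongr
        _ = Y.card ^ (s + 1) * (ρ ^ x') ^ (s + 1) := by
            rw [← Real.rpow_mul_natCast h0.le, ← Real.rpow_mul_natCast h0.le, hxx,
              Real.rpow_add h0, Real.rpow_natCast ρ (5 * s + 3)]
            ring
        _ = _ := by ring

theorem exists_isWt {k lam : ℕ}
    (hl : (5 * s + 3 : ℝ) + ((s : ℝ) / (s + 1)) ^ k * (s * N) ≤ lam) :
    ∃ w : V → V → ℝ, IsWt G k w ((ρ ^ N) ^ k / ρ ^ (2 * k) * ρ ^ lam / Fintype.card V)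
      ((ρ ^ N) ^ k / ρ ^ (2 * k)) := by
  have h8 := hG.rho
  have h1 : 1 ≤ ρ := by linarith
  have h0 : 0 < ρ := by linarith
  choose S τ hS hτ h2 h3 h4 using fun u => hG.iterate u k
  set M0 := (ρ ^ N) ^ k / ρ ^ (2 * k) with hM0
  have hM : 0 < M0 := by positivity
  have hc : ∀ u, (0 : ℝ) < (S u).card := fun u => by exact_mod_cast (hS u).card_pos
  refine ⟨fun u y => if y ∈ S u then M0 / (S u).card else 0, fun u y => ?_, fun u y => ?_,
    fun u y => ?_, fun u => ?_⟩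
  · split_ifs <;> positivity
  · split_ifs with h
    · refine le_trans ?_ (h2 u y h)
      rw [div_le_iff₀ (hc u), hM0, div_le_iff₀ (by positivity)]
      exact h3 u
    · exact cw_nonneg k u y
  · have hV : (0 : ℝ) < Fintype.card V := by
      exact_mod_cast Fintype.card_pos_iff.2 ⟨u⟩
    split_ifs with h
    · rw [div_le_div_iff₀ (hc u) hV, mul_assoc]
      refine mul_le_mul_of_nonneg_left ((h4 u).trans ?_) hM.le
      rw [mul_comm, ← Real.rpow_natCast ρ lam]
      exact mul_le_mul_of_nonneg_right (Real.rpow_le_rpow_of_exponent_le h1 hl) (hc u).le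
    · positivity
  · rw [← Finset.sum_filter, Finset.filter_mem_eq_inter, Finset.univ_inter, Finset.sum_const,
      nsmul_eq_mul, mul_div_cancel₀ _ (hc u).ne']

end Host

end Pool.Agent.Lib.MP_befe0b_co
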