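import Pool.Agent.Lib.MP_befe0b_co.Join
import Pool.Agent.Lib.MP_befe0b_co.Spread
import Pool.Agent.Lib.MP_befe0b_co.Drc

/-! A host graph contains every sparse bipartite graph of bounded size. -/

open Finset
open scoped Classical

noncomputable section

namespace Pool.Agent.Lib.MP_befe0b_co

lemma link_ineq {m α M0 D P Q R E c1 c2 c3 Δ : ℝ} (hm : 0 < m) (hα : 0 < α) (hM : 0 < M0)
    (hMD : M0 ≤ D) (hQ : 1 ≤ Q) (hmQ : m ≤ Q * α) (hP : 0 < P) (hR : 0 < R)
    (hE : D ^ 4 = M0 ^ 4 * E) (h1 : 0 ≤ c1) (h2 : 0 ≤ c2) (h3 : 0 ≤ c3)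
    (hΔ : 4 * (2 * c1 + 4 * c2 + c3) * (P * Q * R * E) < Δ) :
    2 * (M0 * (M0 * P / m)) * (α * (c1 * D ^ 2) + c2 * D ^ 4 / (M0 ^ 2 / (2 * m))) +
      D ^ 2 * (α * (c3 * D * (M0 * P / m))) < Δ * (α * (1 / R * m) * (M0 ^ 2 / (2 * m)) ^ 2) := by
  have hD : 0 < D := hM.trans_le hMD
  have e1 : 2 * (M0 * (M0 * P / m)) * (α * (c1 * D ^ 2) + c2 * D ^ 4 / (M0 ^ 2 / (2 * m))) +
      D ^ 2 * (α * (c3 * D * (M0 * P / m))) =
      (2 * c1 * (α * P * (M0 ^ 2 * D ^ 2)) + 4 * c2 * (m * P * D ^ 4) +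
        c3 * (α * P * (M0 * D ^ 3))) / m := by
    field_simp
    ring
  have e2 : Δ * (α * (1 / R * m) * (M0 ^ 2 / (2 * m)) ^ 2) = (Δ * (α * M0 ^ 4) / (4 * R)) / m := by
    field_simp
    ring
  rw [e1, e2]
  refine div_lt_div_of_pos_right ?_ hm
  rw [lt_div_iff₀ (by positivity)]
  have hαQ : α ≤ Q * α := le_mul_of_one_le_left hα.le hQ
  have b1 : α * P * (M0 ^ 2 * D ^ 2) ≤ Q * α * P * D ^ 4 := by
    calc α * P * (M0 ^ 2 * D ^ 2) ≤ Q * α * P * (D ^ 2 * D ^ 2) := by gcongr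
      _ = _ := by ring
  have b2 : m * P * D ^ 4 ≤ Q * α * P * D ^ 4 := by gcongr
  have b3 : α * P * (M0 * D ^ 3) ≤ Q * α * P * D ^ 4 := by
    calc α * P * (M0 * D ^ 3) ≤ Q * α * P * (D * D ^ 3) := by gcongr
      _ = _ := by ring
  calc _ ≤ (2 * c1 * (Q * α * P * D ^ 4) + 4 * c2 * (Q * α * P * D ^ 4) +
        c3 * (Q * α * P * D ^ 4)) * (4 * R) := by gcongr
    _ = 4 * (2 * c1 + 4 * c2 + c3) * (P * Q * R * E) * (α * M0 ^ 4) := by rw [hE]; ring
    _ < _ := by gcongr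

variable {V : Type*} [Fintype V] {G : SimpleGraph V} {ρ : ℝ} {N s : ℕ}

theorem Host.contained [Nonempty V] (hG : Host G ρ N s) {k lam β M : ℕ} (hs1 : 1 ≤ s)
    (hk : 1 ≤ k) (hl : (5 * s + 3 : ℝ) + ((s : ℝ) / (s + 1)) ^ k * (s * N) ≤ lam)
    (hβ : β = 12 * k + lam + ((lam + 1) * (8 * s) + 2)) (hN : N = 2 * β)
    {W : Type*} [Fintype W] {H : SimpleGraph W} (hs : Sparse H M) (hM : 6 * (12 * k + 1) ≤ M)
    (col : W → Bool) (hcol : ∀ x y, H.Adj x y → col x ≠ col y)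
    (hρ : (300 * k ^ 2 * (Fintype.card W + 8 * k) : ℝ) ≤ ρ) : H.IsContained G := by
  have h8 := hG.rho
  have h1 : 1 ≤ ρ := by linarith
  have h0 : 0 < ρ := by linarith
  obtain ⟨w, hw⟩ := hG.exists_isWt hl
  set m : ℝ := (Fintype.card V : ℝ) with hm
  have hm0 : 0 < m := by rw [hm]; exact_mod_cast Fintype.card_pos
  set M0 := (ρ ^ N) ^ k / ρ ^ (2 * k) with hM0
  have hM0p : 0 < M0 := by positivity
  set τ := M0 ^ 2 / (2 * m) with hτ
  have hτp : 0 < τ := by positivity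
  set h := Fintype.card W + 8 * k with hh
  have hk1 : (1 : ℝ) ≤ k := by exact_mod_cast hk
  have hhk : (8 * k : ℝ) ≤ h := by
    rw [hh]; push_cast; linarith [Nat.cast_nonneg (α := ℝ) (Fintype.card W)]
  have hρ' : 300 * k ^ 2 * (h : ℝ) ≤ ρ := by rw [hh]; push_cast; exact hρ
  let C : V → Finset V := fun u => univ.filter fun r => τ ≤ nn w u r
  have hC : ∀ u, 1 / ρ ^ (lam + 1) * m ≤ (C u).card := by
    intro u
    have e1 : ∑ r, nn w u r ≤ ∑ r, ((if τ ≤ nn w u r then M0 * (M0 * ρ ^ lam / m) else 0) + τ) := by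
      refine Finset.sum_le_sum fun r _ => ?_
      split_ifs with h2
      · linarith [hw.nn_le u r]
      · linarith
    rw [hw.sum_nn, Finset.sum_add_distrib, ← Finset.sum_filter, Finset.sum_const,
      Finset.sum_const, nsmul_eq_mul, nsmul_eq_mul, Finset.card_univ, ← hm] at e1
    have e2 : m * τ = M0 * M0 / 2 := by rw [hτ]; field_simp
    have e3 : M0 * M0 * m ≤ M0 * M0 * (2 * ρ ^ lam * (C u).card) := by
      have e4 : M0 * M0 / 2 ≤ (C u).card * (M0 * (M0 * ρ ^ lam / m)) := by linarith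
      have e5 := mul_le_mul_of_nonneg_right e4 (show 0 ≤ 2 * m by positivity)
      calc M0 * M0 * m = M0 * M0 / 2 * (2 * m) := by ring
        _ ≤ _ := e5
        _ = _ := by field_simp
    have e4 := le_of_mul_le_mul_left e3 (by positivity)
    rw [one_div_mul_eq_div, div_le_iff₀ (by positivity), pow_succ]
    have : 0 ≤ ρ ^ lam * (C u).card := by positivity
    nlinarith
  have hineq : 2 * m ^ 3 * (1 / ρ ^ β) ^ (8 * s) ≤ (1 / ρ ^ (lam + 1)) ^ (8 * s) := by
    rw [one_div_pow, one_div_pow, mul_one_div, div_le_div_iff₀ (by positivity) (by positivity),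
      one_mul, ← pow_mul, ← pow_mul]
    calc 2 * m ^ 3 * ρ ^ ((lam + 1) * (8 * s))
        ≤ ρ * (ρ ^ (s * N)) ^ 3 * ρ ^ ((lam + 1) * (8 * s)) := by
          gcongr
          · linarith
          · exact hG.size
      _ = ρ ^ (1 + s * N * 3 + (lam + 1) * (8 * s)) := by ring
      _ ≤ _ := by
          refine pow_le_pow_right₀ h1 ?_
          have e1 : 4 * (lam + 1) + 1 ≤ β := by
            have : (lam + 1) * 8 ≤ (lam + 1) * (8 * s) := Nat.mul_le_mul_left _ (by omega)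
            omega
          have e2 := Nat.mul_le_mul_left (2 * s) e1
          rw [hN]
          nlinarith
  obtain ⟨U, hU1, hU2⟩ := drc C (8 * s) (a := 1 / ρ ^ (lam + 1)) (θ := 1 / ρ ^ β) (by positivity)
    (by positivity) hC hineq
  rw [one_div_pow, ← pow_mul, ← hm] at hU1
  have hU3 : m ≤ 2 * ρ ^ ((lam + 1) * (8 * s)) * U.card := by
    rw [mul_one_div, div_div, div_le_iff₀ (by positivity)] at hU1
    linarith
  have hcl : 4 * h * m ≤ ρ ^ N * U.card := by
    have e1 : (8 * h : ℝ) ≤ ρ := by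
      have : (0 : ℝ) ≤ h := Nat.cast_nonneg _
      nlinarith [one_le_pow₀ (n := 2) hk1]
    calc 4 * h * m ≤ 4 * h * (2 * ρ ^ ((lam + 1) * (8 * s)) * U.card) := by gcongr
      _ = 8 * h * ρ ^ ((lam + 1) * (8 * s)) * U.card := by ring
      _ ≤ ρ * ρ ^ ((lam + 1) * (8 * s)) * U.card := by gcongr
      _ = ρ ^ ((lam + 1) * (8 * s) + 1) * U.card := by ring
      _ ≤ _ := by
          gcongr
          omega
  obtain ⟨A, hAU, hA1, hA2⟩ := clean U h hG.mindeg hG.maxdeg hcl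
  have hA3 : m ≤ ρ ^ ((lam + 1) * (8 * s) + 2) * A.card := by
    have e1 : ρ ^ N * U.card ≤ ρ ^ N * (2 * ρ * A.card) := hA1.trans (le_of_eq (by ring))
    have e2 := le_of_mul_le_mul_left e1 (by positivity)
    calc m ≤ 2 * ρ ^ ((lam + 1) * (8 * s)) * (2 * ρ * A.card) := hU3.trans (by gcongr)
      _ = 4 * (ρ ^ ((lam + 1) * (8 * s) + 1) * A.card) := by ring
      _ ≤ ρ * (ρ ^ ((lam + 1) * (8 * s) + 1) * A.card) := by gcongr; linarith
      _ = _ := by ring
  have hAp : (0 : ℝ) < A.card := by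
    by_contra hc
    have : (A.card : ℝ) = 0 := le_antisymm (not_lt.1 hc) (Nat.cast_nonneg _)
    rw [this] at hA3
    linarith
  refine contained_of_link (K := k + k) (φ := h) hs (by omega) (by omega) col hcol hA2
    (Finset.card_pos.1 (by exact_mod_cast hAp)) (by omega) (by omega) fun u hu v hv F hF => ?_
  refine hw.link hG.maxdeg A h h (Θ := 1 / ρ ^ β * m) hτp (fun u hu v hv a ha => ?_) ?_ hu hv F hF
  · refine (hU2 u (hAU hu) v (hAU hv) a (hAU ha)).trans (le_of_eq ?_)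
    congr 2
    ext r
    simp [C]
  · have hD : (ρ ^ (N + 1)) ^ k = M0 * ρ ^ (3 * k) := by
      rw [hM0]; field_simp; ring
    have := link_ineq (m := m) (α := A.card) (M0 := M0) (D := (ρ ^ (N + 1)) ^ k) (P := ρ ^ lam)
      (Q := ρ ^ ((lam + 1) * (8 * s) + 2)) (R := ρ ^ β) (E := ρ ^ (12 * k))
      (c1 := (k + k) * (h + (k + k))) (c2 := (k + k + 1) * (k + k + (k + k)) * h)
      (c3 := k * (2 * (k + k) + k)) (Δ := ρ ^ (N + 1)) hm0 hAp hM0p
      (by rw [hD]; exact le_mul_of_one_le_right hM0p.le (one_le_pow₀ h1)) (one_le_pow₀ h1) hA3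
      (by positivity) (by positivity) (by rw [hD]; ring) (by positivity) (by positivity)
      (by positivity) (by
        have e1 : ρ ^ lam * ρ ^ ((lam + 1) * (8 * s) + 2) * ρ ^ β * ρ ^ (12 * k) = ρ ^ N := by
          rw [← pow_add, ← pow_add, ← pow_add]
          congr 1
          omega
        rw [e1, pow_succ' ρ N]
        refine mul_lt_mul_of_pos_right (lt_of_lt_of_le ?_ hρ') (by positivity)
        have e2 : (k : ℝ) ≤ k ^ 2 := by nlinarith
        have e3 : (k : ℝ) * h ≤ k ^ 2 * h := by gcongr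
        have e4 : (k : ℝ) ^ 2 * 8 ≤ k ^ 2 * h := by gcongr; linarith
        have e5 : (0 : ℝ) < k ^ 2 := by positivity
        nlinarith)
    convert this using 1
    ring

end Pool.Agent.Lib.MP_befe0b_co
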