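import Pool.Agent.Lib.MP_befe0b_co.Link
import Pool.Agent.Lib.MP_befe0b_co.Embed

/-! From linking walks to long paths and to the embedding. -/

open Finset
open scoped Classical

noncomputable section

namespace Pool.Agent.Lib.MP_befe0b_co

variable {V : Type*} [Fintype V] {G : SimpleGraph V} {A : Finset V} {h : ℕ}

/-- the two sides used in the embedding -/
def Zs (G : SimpleGraph V) (A : Finset V) (h L : ℕ) (c : Bool) : Set V :=
  {x | x ∈ Ws G A h (if c then L - 1 else L)}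

lemma mem_Zs (hA : A ⊆ Ws G A h 2) {L j : ℕ} (hj : j ≤ L) {x : V} (hx : x ∈ Ws G A h (L - j)) :
    x ∈ Zs G A h L (decide (j % 2 = 1)) := by
  rcases Nat.mod_two_eq_zero_or_one j with h2 | h2
  · have := Ws_subset_add hA (L - j) (j / 2) hx
    rw [show L - j + 2 * (j / 2) = L by omega] at this
    simpa [Zs, h2] using this
  · have := Ws_subset_add hA (L - j) (j / 2) hx
    rw [show L - j + 2 * (j / 2) = L - 1 by omega] at this
    simpa [Zs, h2] using this

omit [Fintype V] in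
lemma app_adj {a b : ℕ} {g p : ℕ → V} (h0 : p 0 = g a) (hg : ∀ i < a, G.Adj (g i) (g (i + 1)))
    (hp : ∀ i < b, G.Adj (p i) (p (i + 1))) :
    ∀ i < a + b, G.Adj (app a g p i) (app a g p (i + 1)) := by
  intro i hi
  by_cases h : i < a
  · rw [IsWt.app_le g p h.le, IsWt.app_le g p h]
    exact hg i h
  · obtain ⟨j, rfl⟩ : ∃ j, i = a + j := ⟨i - a, by omega⟩
    rw [add_assoc, IsWt.app_add h0, IsWt.app_add h0]
    exact hp j (by omega)

omit [Fintype V] in
lemma app_good {a b : ℕ} {g p : ℕ → V} {F F' : Finset V} (h0 : p 0 = g a) (hg : Good F a g)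
    (hp : Good F' b p) (hF : F ⊆ F') (hgF : ∀ i, 1 ≤ i → i ≤ a → g i ∈ F') :
    Good F (a + b) (app a g p) := by
  intro i h1 h2
  by_cases h : i ≤ a
  · rw [IsWt.app_le g p h]
    refine ⟨(hg i h1 h).1, fun j h3 h4 => ?_⟩
    rw [IsWt.app_le g p (by omega)]
    exact (hg i h1 h).2 j h3 h4
  · obtain ⟨i, rfl⟩ : ∃ j, i = a + j := ⟨i - a, by omega⟩
    rw [IsWt.app_add h0]
    obtain ⟨h3, h4⟩ := hp i (by omega) (by omega)
    refine ⟨fun h5 => h3 (hF h5), fun j h5 h6 => ?_⟩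
    by_cases hj : j ≤ a
    · rw [IsWt.app_le g p hj]
      exact fun h7 => h3 (h7 ▸ hgF j h5 hj)
    · obtain ⟨j, rfl⟩ : ∃ l, j = a + l := ⟨j - a, by omega⟩
      rw [IsWt.app_add h0]
      exact h4 j (by omega) (by omega)

theorem join (hA : A ⊆ Ws G A h 2) {K φ0 φ : ℕ} (hh : φ0 + 4 * K ≤ h) (hφ : φ0 + 4 * K ≤ φ)
    (hlink : ∀ u ∈ A, ∀ v ∈ A, ∀ F : Finset V, F.card ≤ φ →
      ∃ p ∈ Wk G K u, ∃ q ∈ Wk G K v, p K = q K ∧ Good F K p ∧ Good F K q ∧
      (∀ i ≤ K, p i ∈ Ws G A h (K + K - i)) ∧ (∀ i ≤ K, q i ∈ Ws G A h (K + K - i)) ∧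
      ∀ i j, 1 ≤ i → i < K → 1 ≤ j → j ≤ K → p i ≠ q j) :
    ∀ a ∈ Zs G A h (K + K) false, ∀ b ∈ Zs G A h (K + K) false, ∀ F : Finset V, F.card ≤ φ0 →
      ∃ f : ℕ → V, f 0 = a ∧ f (6 * K) = b ∧ (∀ i < 6 * K, G.Adj (f i) (f (i + 1))) ∧
        (∀ i, 0 < i → i < 6 * K → f i ∉ F ∧ f i ∈ Zs G A h (K + K) (decide (i % 2 = 1))) ∧
        (∀ i j, 0 < i → i < 6 * K → 0 < j → j < 6 * K → f i = f j → i = j) := by
  intro a ha b hb F hF
  have ha' : a ∈ Ws G A h (K + K) := by simpa [Zs] using ha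
  have hb' : b ∈ Ws G A h (K + K) := by simpa [Zs] using hb
  obtain ⟨g1, g10, g11, g12, g13⟩ := exists_descent (K + K) a F ha' (by omega)
  set F2 := F ∪ (Finset.Icc 1 (K + K)).image g1 with hF2
  have hc : ∀ g : ℕ → V, ((Finset.Icc 1 (K + K)).image g).card ≤ K + K := fun g =>
    Finset.card_image_le.trans (by simp)
  have hF2c : F2.card ≤ φ0 + (K + K) :=
    (Finset.card_union_le _ _).trans (add_le_add hF (hc g1))
  obtain ⟨g2, g20, g21, g22, g23⟩ := exists_descent (K + K) b F2 hb' (by omega)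
  set F3 := F2 ∪ (Finset.Icc 1 (K + K)).image g2 with hF3
  have hF3c : F3.card ≤ φ0 + (K + K) + (K + K) :=
    (Finset.card_union_le _ _).trans (add_le_add hF2c (hc g2))
  have hu : g1 (K + K) ∈ A := by simpa [Ws] using g13 _ le_rfl
  have hv : g2 (K + K) ∈ A := by simpa [Ws] using g23 _ le_rfl
  obtain ⟨p, hp, q, hq, hpq, p1, q1, p2, q2, hx⟩ := hlink _ hu _ hv F3 (by omega)
  obtain ⟨p0, p3⟩ := mem_Wk hp
  obtain ⟨q0, q3⟩ := mem_Wk hq
  have m1 : ∀ i, 1 ≤ i → i ≤ K + K → g1 i ∈ F2 := fun i h1 h2 =>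
    Finset.mem_union_right _ (Finset.mem_image_of_mem _ (Finset.mem_Icc.2 ⟨h1, h2⟩))
  have m2 : ∀ i, 1 ≤ i → i ≤ K + K → g2 i ∈ F3 := fun i h1 h2 =>
    Finset.mem_union_right _ (Finset.mem_image_of_mem _ (Finset.mem_Icc.2 ⟨h1, h2⟩))
  have s12 : F ⊆ F2 := Finset.subset_union_left
  have s23 : F2 ⊆ F3 := Finset.subset_union_left
  set P := app (K + K) g1 p with hP
  set Q := app (K + K) g2 q with hQ
  have Padj := app_adj p0 g11 p3
  have Qadj := app_adj q0 g21 q3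
  have Pgood : Good F (K + K + K) P := app_good p0 g12 p1 (s12.trans s23) fun i h1 h2 =>
    s23 (m1 i h1 h2)
  have Qgood : Good F2 (K + K + K) Q := app_good q0 g22 q1 s23 m2
  have hZ : ∀ g r : ℕ → V, r 0 = g (K + K) → (∀ i ≤ K + K, g i ∈ Ws G A h (K + K - i)) →
      (∀ i ≤ K, r i ∈ Ws G A h (K + K - i)) → ∀ i ≤ K + K + K,
      app (K + K) g r i ∈ Zs G A h (K + K) (decide (i % 2 = 1)) := by
    intro g r h0 h1 h2 i hi
    by_cases h3 : i ≤ K + K
    · rw [IsWt.app_le g r h3]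
      exact mem_Zs hA h3 (h1 i h3)
    · obtain ⟨j, rfl⟩ : ∃ j, i = K + K + j := ⟨i - (K + K), by omega⟩
      rw [IsWt.app_add h0, show (K + K + j) % 2 = j % 2 by omega]
      exact mem_Zs hA (by omega) (h2 j (by omega))
  have hPQ : P (K + K + K) = Q (K + K + K) := by
    rw [hP, hQ, IsWt.app_add p0, IsWt.app_add q0, hpq]
  have hcross : ∀ i j, 1 ≤ i → i < K + K + K → 1 ≤ j → j ≤ K + K + K → P i ≠ Q j := by
    intro i j h1 h2 h3 h4
    by_cases hi : i ≤ K + K
    · rw [hP, IsWt.app_le g1 p hi]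
      exact fun h5 => (Qgood j h3 h4).1 (h5 ▸ m1 i h1 hi)
    · obtain ⟨i, rfl⟩ : ∃ l, i = K + K + l := ⟨i - (K + K), by omega⟩
      rw [hP, IsWt.app_add p0]
      by_cases hj : j ≤ K + K
      · rw [hQ, IsWt.app_le g2 q hj]
        exact fun h5 => (p1 i (by omega) (by omega)).1 (h5 ▸ m2 j h3 hj)
      · obtain ⟨j, rfl⟩ : ∃ l, j = K + K + l := ⟨j - (K + K), by omega⟩
        rw [hQ, IsWt.app_add q0]
        exact hx i j (by omega) (by omega) (by omega) (by omega)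
  let f : ℕ → V := fun i => if i < K + K + K then P i else Q (6 * K - i)
  have f1 : ∀ i ≤ K + K + K, f i = P i := by
    intro i hi
    by_cases h1 : i < K + K + K
    · exact if_pos h1
    · have : i = K + K + K := by omega
      subst this
      simp only [f, lt_irrefl, if_false]
      rw [hPQ, show 6 * K - (K + K + K) = K + K + K by omega]
  have f2 : ∀ i, K + K + K ≤ i → f i = Q (6 * K - i) := fun i hi => if_neg (by omega)
  have key : ∀ i j, 0 < i → i < j → j < 6 * K → f i ≠ f j := by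
    intro i j h1 h2 h3
    by_cases hj : j ≤ K + K + K
    · rw [f1 i (by omega), f1 j hj]
      exact (Pgood j (by omega) hj).2 i h1 h2
    · rw [f2 j (by omega)]
      by_cases hi : i < K + K + K
      · rw [f1 i hi.le]
        exact hcross i _ h1 hi (by omega) (by omega)
      · rw [f2 i (by omega)]
        exact ((Qgood _ (by omega) (by omega)).2 _ (by omega) (by omega)).symm
  refine ⟨f, ?_, ?_, fun i hi => ?_, fun i h1 h2 => ?_, fun i j h1 h2 h3 h4 h5 => ?_⟩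
  · rw [f1 0 (Nat.zero_le _), hP, IsWt.app_le g1 p (Nat.zero_le _), g10]
  · rw [f2 _ (by omega), Nat.sub_self, hQ, IsWt.app_le g2 q (Nat.zero_le _), g20]
  · by_cases h1 : i < K + K + K
    · rw [f1 i h1.le, f1 (i + 1) h1]
      exact Padj i h1
    · rw [f2 i (by omega), f2 (i + 1) (by omega),
        show 6 * K - i = 6 * K - (i + 1) + 1 by omega]
      exact (Qadj _ (by omega)).symm
  · by_cases h3 : i ≤ K + K + K
    · rw [f1 i h3]
      exact ⟨(Pgood i h1 h3).1, hZ g1 p p0 g13 p2 i h3⟩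
    · rw [f2 i (by omega)]
      refine ⟨fun h4 => (Qgood _ (by omega) (by omega)).1 (s12 h4), ?_⟩
      rw [show i % 2 = (6 * K - i) % 2 by omega]
      exact hZ g2 q q0 g23 q2 _ (by omega)
  · rcases lt_trichotomy i j with h6 | h6 | h6
    · exact absurd h5 (key i j h1 h6 h4)
    · exact h6
    · exact absurd h5.symm (key j i h3 h6 h2)

theorem contained_of_link {W : Type*} [Fintype W] {H : SimpleGraph W} {M K φ : ℕ}
    (hs : Sparse H M) (hM : 6 * (6 * K + 1) ≤ M) (hK : 1 ≤ K) (col : W → Bool)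
    (hcol : ∀ x y, H.Adj x y → col x ≠ col y) (hA : A ⊆ Ws G A h 2) (hAne : A.Nonempty)
    (hh : Fintype.card W + 4 * K ≤ h) (hφ : Fintype.card W + 4 * K ≤ φ)
    (hlink : ∀ u ∈ A, ∀ v ∈ A, ∀ F : Finset V, F.card ≤ φ →
      ∃ p ∈ Wk G K u, ∃ q ∈ Wk G K v, p K = q K ∧ Good F K p ∧ Good F K q ∧
      (∀ i ≤ K, p i ∈ Ws G A h (K + K - i)) ∧ (∀ i ≤ K, q i ∈ Ws G A h (K + K - i)) ∧
      ∀ i j, 1 ≤ i → i < K → 1 ≤ j → j ≤ K → p i ≠ q j) :
    H.IsContained G := by
  have Z1 : ∀ c, ∀ x ∈ Zs G A h (K + K) c, ∀ F : Finset V, F.card ≤ Fintype.card W →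
      ∃ y ∈ Zs G A h (K + K) (!c), y ∉ F ∧ G.Adj x y := by
    intro c x hx F hF
    cases c with
    | false =>
      have hx' : x ∈ Ws G A h (K + K - 1 + 1) := by
        rw [show K + K - 1 + 1 = K + K by omega]; simpa [Zs] using hx
      obtain ⟨y, hy, h1⟩ := exists_nbr_Ws hx' (F := F) (by omega)
      exact ⟨y, by simpa [Zs] using hy, h1⟩
    | true =>
      have hx' : x ∈ Ws G A h (K + K - 2 + 1) := by
        rw [show K + K - 2 + 1 = K + K - 1 by omega]; simpa [Zs] using hx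
      obtain ⟨y, hy, h1⟩ := exists_nbr_Ws hx' (F := F) (by omega)
      have := Ws_subset_add_two hA _ hy
      rw [show K + K - 2 + 2 = K + K by omega] at this
      exact ⟨y, by simpa [Zs] using this, h1⟩
  have Z0 : ∀ c, (Zs G A h (K + K) c).Nonempty := by
    obtain ⟨a, ha⟩ := hAne
    have h0 : a ∈ Zs G A h (K + K) false := by
      have := Ws_subset_add hA 0 K ha
      rw [show 0 + 2 * K = K + K by omega] at this
      simpa [Zs] using this
    intro c
    cases c with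
    | false => exact ⟨a, h0⟩
    | true =>
      obtain ⟨y, hy, -⟩ := Z1 false a h0 ∅ (by simp)
      exact ⟨y, hy⟩
  exact embed hs hM (by omega) (by omega) col hcol _ Z0 Z1 (join hA hh hφ hlink)

end Pool.Agent.Lib.MP_befe0b_co
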