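import Pool.Agent.Lib.MP_befe0b_co.L2Sys

/-! Bottleneck-free subwalks give a system. -/

open Finset
open scoped Classical

noncomputable section

namespace Pool.Agent.Lib.MP_befe0b_co

variable {V : Type*} [Fintype V] {G : SimpleGraph V}

/-- no inner vertex of the walk is a bottleneck -/
def L2BF_BF (G : SimpleGraph V) (T : ℝ) (l : ℕ) (f : ℕ → V) : Prop :=
  ∀ t, 1 ≤ t → t < l →
    T * (cw G t (f 0) (f t) * cw G (l - t) (f t) (f l)) ≤ cw G l (f 0) (f l)

lemma L2BF_congr {T : ℝ} {l : ℕ} {f g : ℕ → V} (h : ∀ i ≤ l, f i = g i) :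
    L2BF_BF G T l f ↔ L2BF_BF G T l g := by
  refine forall_congr' fun t => forall_congr' fun _ => forall_congr' fun ht => ?_
  rw [h 0 (Nat.zero_le _), h t ht.le, h l le_rfl]

lemma L2BF_cw_one (x z : V) : cw G 1 x z ≤ 1 := by
  rw [cw_succ]
  simp only [cw_zero, Finset.sum_ite_eq']
  split_ifs <;> norm_num

lemma L2BF_sub {T : ℝ} (hT : 1 ≤ T) (L : ℕ) : ∀ f : ℕ → V, 1 ≤ L →
    T ^ (L - 1) < cw G L (f 0) (f L) →
    ∃ i l, 2 ≤ l ∧ i + l ≤ L ∧ L2BF_BF G T l fun t => f (i + t) := by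
  induction L using Nat.strong_induction_on with
  | _ L ih =>
  intro f hL hf
  by_cases hB : L2BF_BF G T L f
  · refine ⟨0, L, ?_, by omega, by simpa using hB⟩
    by_contra hc
    obtain rfl : L = 1 := by omega
    have := L2BF_cw_one (G := G) (f 0) (f 1)
    simp only [Nat.sub_self, pow_zero] at hf
    linarith
  · simp only [L2BF_BF, not_forall, not_le] at hB
    obtain ⟨t, h1, h2, h3⟩ := hB
    by_cases ha : T ^ (t - 1) < cw G t (f 0) (f t)
    · obtain ⟨i, l, a1, a2, a3⟩ := ih t h2 f h1 ha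
      exact ⟨i, l, a1, by omega, a3⟩
    by_cases hb : T ^ (L - t - 1) < cw G (L - t) (f t) (f L)
    · obtain ⟨i, l, a1, a2, a3⟩ := ih (L - t) (by omega) (fun s => f (t + s)) (by omega)
        (by rwa [add_zero, Nat.add_sub_cancel' h2.le])
      exact ⟨t + i, l, a1, by omega, by simpa only [add_assoc] using a3⟩
    exfalso
    have hT0 : 0 ≤ T := by linarith
    have h4 : cw G t (f 0) (f t) * cw G (L - t) (f t) (f L) ≤ T ^ (t - 1) * T ^ (L - t - 1) :=
      mul_le_mul (not_lt.1 ha) (not_lt.1 hb) (cw_nonneg _ _ _) (by positivity)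
    have h5 : T * (T ^ (t - 1) * T ^ (L - t - 1)) = T ^ (L - 1) := by
      rw [← pow_add, ← pow_succ']
      congr 1
      omega
    have h6 := mul_le_mul_of_nonneg_left h4 hT0
    linarith

lemma L2BF_lower {d : ℝ} (hd : ∀ x, d ≤ ((nb G x).card : ℝ)) (hd0 : 0 < d) (k : ℕ) :
    ∀ x : V, d ^ k ≤ ∑ _f ∈ Wk G k x, (1 : ℝ) := by
  induction k with
  | zero => intro x; simp [Wk]
  | succ k ih =>
    intro x
    rw [sum_Wk_succ k x fun _ => 1]
    calc d ^ (k + 1) = d * d ^ k := pow_succ' _ _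
      _ ≤ (nb G x).card * d ^ k := mul_le_mul_of_nonneg_right (hd x) (by positivity)
      _ = ∑ _y ∈ nb G x, d ^ k := by simp
      _ ≤ _ := Finset.sum_le_sum fun y _ => ih y

omit [Fintype V] in
lemma L2BF_app {a : ℕ} {f g : ℕ → V} (h : g 0 = f a) (t : ℕ) : app a f g (a + t) = g t := by
  unfold app
  split_ifs with h1
  · obtain rfl : t = 0 := by omega
    exact h.symm
  · rw [Nat.add_sub_cancel_left]

lemma L2BF_pair {Δ T e : ℝ} (hΔ : ∀ x, ((nb G x).card : ℝ) ≤ Δ) (he : 0 ≤ e) {i l L : ℕ}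
    (hil : i + l ≤ L)
    (h : ∀ y, ∑ g ∈ Wk G l y, (if L2BF_BF G T l g then (1 : ℝ) else 0) ≤ e * Δ ^ l) (x : V) :
    ∑ f ∈ Wk G L x, (if L2BF_BF G T l (fun t => f (i + t)) then (1 : ℝ) else 0) ≤ e * Δ ^ L := by
  obtain ⟨m, rfl⟩ : ∃ m, L = m + l + i := ⟨L - i - l, by omega⟩
  have hD := Delta_nonneg hΔ x
  have key : ∀ y, ∑ g ∈ Wk G (m + l) y, (if L2BF_BF G T l g then (1 : ℝ) else 0) ≤
      Δ ^ m * (e * Δ ^ l) := by
    intro y
    rw [sum_Wk_add]
    refine le_trans ?_ (mul_le_mul_of_nonneg_left (h y) (by positivity))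
    rw [Finset.mul_sum]
    refine Finset.sum_le_sum fun g _ => ?_
    refine sum_Wk_le hΔ m _ (by split_ifs <;> norm_num) fun g' _ => ?_
    rw [L2BF_congr (f := app l g g') (g := g) fun s hs => if_pos hs]
  rw [sum_Wk_add]
  refine (sum_Wk_le hΔ i x (t := Δ ^ m * (e * Δ ^ l)) (by positivity) fun f _ => ?_).trans
    (le_of_eq (by ring))
  refine le_trans (le_of_eq (Finset.sum_congr rfl fun g hg => ?_)) (key (f i))
  rw [L2BF_congr (g := g) fun s _ => L2BF_app (mem_Wk hg).1 s]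

lemma L2BF_end (k : ℕ) (x b : V) :
    ∑ f ∈ Wk G k x, (if f k = b then (1 : ℝ) else 0) = cw G k x b := by
  rw [sum_Wk_end k x fun z => if z = b then 1 else 0]
  simp

lemma L2BF_mid (a m : ℕ) (x z b : V) :
    ∑ f ∈ Wk G (m + a) x, (if f a = z ∧ f (a + m) = b then (1 : ℝ) else 0) =
      cw G a x z * cw G m z b := by
  rw [sum_Wk_add]
  have h1 := sum_Wk_end (G := G) a x fun w => if w = z then cw G m z b else 0
  simp only [mul_ite, mul_zero, Finset.sum_ite_eq', Finset.mem_univ, if_true] at h1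
  rw [← h1]
  refine Finset.sum_congr rfl fun f _ => ?_
  have h2 : ∀ g ∈ Wk G m (f a), (if app a f g a = z ∧ app a f g (a + m) = b then (1 : ℝ) else 0) =
      if f a = z ∧ g m = b then (1 : ℝ) else 0 := by
    intro g hg
    rw [L2BF_app (mem_Wk hg).1 m, show app a f g a = f a from if_pos le_rfl]
  rw [Finset.sum_congr rfl h2]
  by_cases h : f a = z
  · simp only [h, true_and, if_true]
    exact L2BF_end m z b
  · simp [h]

lemma L2BF_mem_succ {k : ℕ} {x : V} {f : ℕ → V} (hf : f ∈ Wk G (k + 1) x) :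
    f 1 ∈ nb G x ∧ (fun i => f (i + 1)) ∈ Wk G k (f 1) ∧ f = cns x fun i => f (i + 1) := by
  simp only [Wk, Finset.mem_biUnion, Finset.mem_image] at hf
  obtain ⟨y, hy, g, hg, rfl⟩ := hf
  have h0 : cns x g 1 = y := (mem_Wk hg).1
  rw [h0]
  exact ⟨hy, hg, rfl⟩

lemma L2BF_many [Nonempty V] {d Δ T e : ℝ} {L : ℕ} (hd : ∀ x, d ≤ ((nb G x).card : ℝ))
    (hΔ : ∀ x, ((nb G x).card : ℝ) ≤ Δ) (hd0 : 0 < d) (hT : 1 ≤ T) (hL : 1 ≤ L) (he : 0 ≤ e)
    (hn : 2 * (Fintype.card V : ℝ) * T ^ (L - 1) ≤ d ^ L)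
    (he2 : 2 * (L : ℝ) ^ 2 * (e * Δ ^ L) ≤ d ^ L) :
    ∃ (l : ℕ) (y : V), 2 ≤ l ∧ l ≤ L ∧
      e * Δ ^ l < ∑ g ∈ Wk G l y, (if L2BF_BF G T l g then (1 : ℝ) else 0) := by
  by_contra hc
  push Not at hc
  obtain ⟨x⟩ := ‹Nonempty V›
  have hD := Delta_nonneg hΔ x
  have hτ : 0 ≤ T ^ (L - 1) := by positivity
  set I := (range L ×ˢ Icc 2 L).filter fun p => p.1 + p.2 ≤ L with hI
  have h1 : ∀ f ∈ Wk G L x, (1 : ℝ) ≤ (if cw G L x (f L) ≤ T ^ (L - 1) then (1 : ℝ) else 0) +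
      ∑ p ∈ I, (if L2BF_BF G T p.2 (fun t => f (p.1 + t)) then (1 : ℝ) else 0) := by
    intro f hf
    have hnn : ∀ p ∈ I, 0 ≤ (if L2BF_BF G T p.2 (fun t => f (p.1 + t)) then (1 : ℝ) else 0) :=
      fun p _ => by split_ifs <;> norm_num
    split_ifs with h
    · linarith [Finset.sum_nonneg hnn]
    · obtain ⟨i, l, a1, a2, a3⟩ := L2BF_sub (G := G) hT L f hL
        (by rw [(mem_Wk hf).1]; exact not_le.1 h)
      have hm : (i, l) ∈ I := by
        simp only [hI, Finset.mem_filter, Finset.mem_product, Finset.mem_range, Finset.mem_Icc]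
        omega
      have := Finset.single_le_sum hnn hm
      rw [if_pos a3] at this
      linarith
  have h2 := (L2BF_lower hd hd0 L x).trans (Finset.sum_le_sum h1)
  rw [Finset.sum_add_distrib, Finset.sum_comm] at h2
  have h3 : ∑ f ∈ Wk G L x, (if cw G L x (f L) ≤ T ^ (L - 1) then (1 : ℝ) else 0) ≤
      Fintype.card V * T ^ (L - 1) := by
    rw [sum_Wk_end L x fun z => if cw G L x z ≤ T ^ (L - 1) then (1 : ℝ) else 0]
    calc _ ≤ ∑ _y : V, T ^ (L - 1) := Finset.sum_le_sum fun y _ => by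
          split_ifs with h
          · rwa [mul_one]
          · rwa [mul_zero]
      _ = _ := by simp
  have h4 : ∑ p ∈ I, ∑ f ∈ Wk G L x,
      (if L2BF_BF G T p.2 (fun t => f (p.1 + t)) then (1 : ℝ) else 0) ≤
      I.card * (e * Δ ^ L) := by
    rw [← nsmul_eq_mul]
    refine Finset.sum_le_card_nsmul _ _ _ fun p hp => ?_
    simp only [hI, Finset.mem_filter, Finset.mem_product, Finset.mem_range, Finset.mem_Icc] at hp
    exact L2BF_pair hΔ he hp.2 (fun y => hc p.2 y hp.1.2.1 hp.1.2.2) x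
  have h5 : (I.card : ℝ) ≤ L * (L - 1) := by
    have : I.card ≤ L * (L - 1) := by
      refine (Finset.card_filter_le _ _).trans (le_of_eq ?_)
      rw [Finset.card_product, Finset.card_range, Nat.card_Icc]
      congr 1
    calc (I.card : ℝ) ≤ ((L * (L - 1) : ℕ) : ℝ) := by exact_mod_cast this
      _ = _ := by rw [Nat.cast_mul, Nat.cast_sub hL, Nat.cast_one]
  have hE : 0 ≤ e * Δ ^ L := by positivity
  have h6 := mul_le_mul_of_nonneg_right h5 hE
  have hL' : (1 : ℝ) ≤ L := by exact_mod_cast hL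
  have hp : 0 < d ^ L := by positivity
  have h7 : L * (e * Δ ^ L) ≤ 0 := by nlinarith
  have h8 : e * Δ ^ L = 0 := le_antisymm (by nlinarith) hE
  rw [h8, mul_zero] at h4
  linarith

theorem exists_sys [Nonempty V] {d Δ T η : ℝ} {L : ℕ} (hd : ∀ x, d ≤ ((nb G x).card : ℝ))
    (hΔ : ∀ x, ((nb G x).card : ℝ) ≤ Δ) (hd0 : 0 < d) (hT : 1 ≤ T) (hL : 1 ≤ L) (hη : 0 ≤ η)
    (hn : 2 * (Fintype.card V : ℝ) * T ^ (L - 1) ≤ d ^ L)
    (hη2 : 2 * (L : ℝ) ^ 2 * ((η + (L : ℝ) ^ 2 / Δ) * Δ ^ L) ≤ d ^ L) :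
    ∃ (j : ℕ) (X : Finset V) (P : Finset (ℕ → V)) (μ : V → ℝ),
      j + 1 ≤ L ∧ Sys G Δ T j X P μ ∧ η * Δ ^ (j + 1) ≤ P.card := by
  have hD : 0 < Δ := by
    obtain ⟨x⟩ := ‹Nonempty V›
    linarith [hd x, hΔ x]
  obtain ⟨l, y, h2, hl, hm⟩ := L2BF_many hd hΔ hd0 hT hL (by positivity) hn hη2
  obtain ⟨j, rfl⟩ : ∃ j, l = j + 1 := ⟨l - 1, by omega⟩
  set P0 := (Wk G (j + 1) y).filter fun f => L2BF_BF G T (j + 1) f ∧ Good ∅ (j + 1) f with hP0
  have hsub : ∀ f ∈ P0, f ∈ Wk G (j + 1) y := fun f hf => (Finset.mem_filter.1 hf).1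
  have hcard : ∀ (Q : (ℕ → V) → Prop) [DecidablePred Q],
      (((P0.image fun f i => f (i + 1)).filter Q).card : ℝ) ≤
        ∑ f ∈ Wk G (j + 1) y, (if Q (fun i => f (i + 1)) then (1 : ℝ) else 0) := by
    intro Q _
    rw [Finset.sum_boole, Finset.filter_image]
    exact_mod_cast Finset.card_image_le.trans
      (Finset.card_le_card (Finset.filter_subset_filter _ (Finset.filter_subset _ _)))
  refine ⟨j, nb G y, P0.image fun f i => f (i + 1), cw G (j + 1) y, hl,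
    ⟨hΔ, by linarith, by omega, ?_, ?_, ?_, ?_, ?_, sum_cw_le hΔ _ _, hΔ y⟩, ?_⟩
  · intro g hg
    obtain ⟨f, hf, rfl⟩ := Finset.mem_image.1 hg
    exact (L2BF_mem_succ (hsub f hf)).1
  · intro g hg
    obtain ⟨f, hf, rfl⟩ := Finset.mem_image.1 hg
    exact (L2BF_mem_succ (hsub f hf)).2.1
  · intro g hg a ha b hb hab
    obtain ⟨f, hf, rfl⟩ := Finset.mem_image.1 hg
    have hG := (Finset.mem_filter.1 hf).2.2
    rcases lt_trichotomy a b with h | h | h
    · exact absurd hab ((hG (b + 1) (by omega) (by omega)).2 (a + 1) (by omega) (by omega))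
    · exact h
    · exact absurd hab.symm ((hG (a + 1) (by omega) (by omega)).2 (b + 1) (by omega) (by omega))
  · intro z b t ht
    rcases ((P0.image fun f i => f (i + 1)).filter fun g => g t = z ∧ g j = b).eq_empty_or_nonempty
      with h | ⟨g, hg⟩
    · rw [h]
      simpa using cw_nonneg _ _ _
    · obtain ⟨hg1, hz, hb⟩ := Finset.mem_filter.1 hg
      obtain ⟨f, hf, rfl⟩ := Finset.mem_image.1 hg1
      have hB := (Finset.mem_filter.1 hf).2.1 (t + 1) (by omega) (by omega)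
      rw [(mem_Wk (hsub f hf)).1, show f (t + 1) = z from hz, show f (j + 1) = b from hb] at hB
      refine le_trans (mul_le_mul_of_nonneg_left ?_ (by linarith)) hB
      have h3 := L2BF_mid (G := G) (t + 1) (j + 1 - (t + 1)) y z b
      rw [show j + 1 - (t + 1) + (t + 1) = j + 1 by omega,
        show t + 1 + (j + 1 - (t + 1)) = j + 1 by omega] at h3
      rw [← h3]
      exact hcard fun g => g t = z ∧ g j = b
  · intro b
    rw [← L2BF_end]
    exact hcard fun g => g j = b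
  · have hinj : Set.InjOn (fun (f : ℕ → V) i => f (i + 1)) P0 := by
      intro f hf g hg h
      rw [(L2BF_mem_succ (hsub f hf)).2.2, (L2BF_mem_succ (hsub g hg)).2.2]
      exact congrArg (cns y) h
    rw [Finset.card_image_of_injOn hinj]
    have hb := bad_count hΔ (j + 1) y ∅
    have h3 : ∑ g ∈ Wk G (j + 1) y, (if L2BF_BF G T (j + 1) g then (1 : ℝ) else 0) ≤
        P0.card + ∑ g ∈ Wk G (j + 1) y, (if Good ∅ (j + 1) g then (0 : ℝ) else 1) := by
      rw [hP0, ← Finset.sum_boole, ← Finset.sum_add_distrib]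
      refine Finset.sum_le_sum fun g _ => ?_
      by_cases a : L2BF_BF G T (j + 1) g <;> by_cases b : Good ∅ (j + 1) g <;> simp [a, b]
    have h4 : ∑ g ∈ Wk G (j + 1) y, (if Good ∅ (j + 1) g then (0 : ℝ) else 1) ≤
        (L : ℝ) ^ 2 / Δ * Δ ^ (j + 1) := by
      rw [div_mul_eq_mul_div, le_div_iff₀ hD, mul_comm]
      refine hb.trans (mul_le_mul_of_nonneg_right ?_ (by positivity))
      have h5 : ((j + 1 : ℕ) : ℝ) ≤ L := by exact_mod_cast hl
      have h6 : (0 : ℝ) ≤ ((j + 1 : ℕ) : ℝ) := Nat.cast_nonneg _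
      rw [Finset.card_empty, Nat.cast_zero, zero_add]
      nlinarith
    rw [add_mul] at hm
    linarith

end Pool.Agent.Lib.MP_befe0b_co
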