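import Pool.Agent.Lib.MP_befe0b_co.L2Sys

/-! Cleaning the family of paths. -/

open Finset
open scoped Classical

noncomputable section

namespace Pool.Agent.Lib.MP_befe0b_co

variable {V : Type*} [Fintype V] {G : SimpleGraph V} {Δ T : ℝ} {j : ℕ} {X : Finset V}
  {P : Finset (ℕ → V)} {μ : V → ℝ}

private lemma L2Clean_mono {A A' : Finset V} (hA : A' ⊆ A) (h : ℕ) (k : ℕ) :
    Ws G A' h k ⊆ Ws G A h k := by
  induction k with
  | zero => exact hA
  | succ k ih =>
    intro x hx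
    rw [mem_Ws_succ] at hx
    exact mem_Ws_succ.2 (hx.trans (dg_mono ih x))

/-- the forbidden continuations attached to the set `A` -/
private def L2Clean_F (G : SimpleGraph V) (A : Finset V) (h j i : ℕ) (z : V) : Finset V :=
  if z ∈ Ws G A h (j - i) ∨ j ≤ i then ∅ else (Ws G A h (j - i - 1)).filter (G.Adj z)

private lemma L2Clean_F_card (A : Finset V) (h j i : ℕ) (z : V) :
    (L2Clean_F G A h j i z).card ≤ h := by
  unfold L2Clean_F
  split_ifs with hc
  · simp
  · push Not at hc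
    obtain ⟨h1, h2⟩ := hc
    have e : j - i = (j - i - 1) + 1 := by omega
    rw [e, mem_Ws_succ, not_le] at h1
    exact h1.le

private lemma L2Clean_F_mem (A : Finset V) (h j i : ℕ) (z y : V) (hi : i < j)
    (hz : z ∉ Ws G A h (j - i)) (hy : y ∈ Ws G A h (j - i - 1)) (hzy : G.Adj z y) :
    y ∈ L2Clean_F G A h j i z := by
  unfold L2Clean_F
  rw [if_neg (by push Not; exact ⟨hz, hi⟩)]
  exact Finset.mem_filter.2 ⟨hy, hzy⟩

private lemma L2Clean_F_empty (A : Finset V) (h j i : ℕ) (z : V)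
    (hz : z ∈ Ws G A h (j - i)) : L2Clean_F G A h j i z = ∅ := by
  unfold L2Clean_F
  rw [if_pos (Or.inl hz)]

/-- the paths that use a forbidden continuation -/
private def L2Clean_D (j : ℕ) (P : Finset (ℕ → V)) (E : ℕ → V → Finset V) : Finset (ℕ → V) :=
  P.filter fun g => ∃ i < j, g (i + 1) ∈ E i (g i)

/-- the invariant of the cleaning -/
private structure L2Clean_Inv (G : SimpleGraph V) (j : ℕ) (P Q : Finset (ℕ → V)) (μ : V → ℝ)
    (h : ℕ) (θ : ℝ) (A : Finset V) (E : ℕ → V → Finset V) : Prop where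
  i1 : ∀ i z, (E i z).card ≤ h
  i2 : ∀ i z y, i < j → z ∉ Ws G A h (j - i) → y ∈ Ws G A h (j - i - 1) → G.Adj z y →
    y ∈ E i z
  i3 : ∀ i z, z ∈ Ws G A h (j - i) → E i z = ∅
  i4 : ∀ b, b ∉ A →
    (((Q \ L2Clean_D j P E).filter fun g => g j = b).card : ℝ) ≤ θ * μ b

private lemma L2Clean_lev (hS : Sys G Δ T j X P μ) {Q : Finset (ℕ → V)} (hQ : Q ⊆ P) {h : ℕ}
    {θ : ℝ} {A : Finset V} {E : ℕ → V → Finset V} (hI : L2Clean_Inv G j P Q μ h θ A E)
    {g : ℕ → V} (hg : g ∈ Q) (hA : g j ∈ A) (hD : g ∉ L2Clean_D j P E) :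
    ∀ i ≤ j, g i ∈ Ws G A h (j - i) := by
  have hadj := (mem_Wk (hS.walk g (hQ hg))).2
  have key : ∀ k ≤ j, g (j - k) ∈ Ws G A h k := by
    intro k
    induction k with
    | zero => intro _; exact hA
    | succ k ih =>
      intro hk
      have h1 := ih (by omega)
      by_contra hc
      apply hD
      refine Finset.mem_filter.2 ⟨hQ hg, j - (k + 1), by omega, ?_⟩
      have e1 : j - (j - (k + 1)) = k + 1 := by omega
      have e2 : j - (k + 1) + 1 = j - k := by omega
      refine hI.i2 _ _ _ (by omega) (by rw [e1]; exact hc) ?_ (hadj _ (by omega))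
      rw [e1, e2]
      exact h1
  intro i hi
  have := key (j - i) (by omega)
  have e : j - (j - i) = i := by omega
  rwa [e] at this

private lemma L2Clean_step (hS : Sys G Δ T j X P μ) {Q : Finset (ℕ → V)} (hQ : Q ⊆ P) {h : ℕ}
    {θ : ℝ} {A : Finset V} {E : ℕ → V → Finset V} (hI : L2Clean_Inv G j P Q μ h θ A E)
    {b : V} (hb : b ∈ A)
    (hf : ¬ (0 < μ b ∧ θ * μ b ≤
      (((Q.filter fun g => ∀ i ≤ j, g i ∈ Ws G A h (j - i)).filter fun g => g j = b).card : ℝ))) :
    ∃ E', L2Clean_Inv G j P Q μ h θ (A.erase b) E' := by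
  have hsub : A.erase b ⊆ A := Finset.erase_subset _ _
  let E' : ℕ → V → Finset V := fun i z =>
    if z ∈ Ws G A h (j - i) then L2Clean_F G (A.erase b) h j i z else E i z
  have hEE : ∀ i z, E i z ⊆ E' i z := by
    intro i z
    by_cases hz : z ∈ Ws G A h (j - i)
    · rw [hI.i3 i z hz]
      exact Finset.empty_subset _
    · simp only [E', if_neg hz]
      exact Finset.Subset.refl _
  have hDD : L2Clean_D j P E ⊆ L2Clean_D j P E' := by
    intro g hg
    obtain ⟨h1, i, hi, h2⟩ := Finset.mem_filter.1 hg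
    exact Finset.mem_filter.2 ⟨h1, i, hi, hEE _ _ h2⟩
  have hQQ : Q \ L2Clean_D j P E' ⊆ Q \ L2Clean_D j P E :=
    Finset.sdiff_subset_sdiff (Finset.Subset.refl _) hDD
  refine ⟨E', ⟨?_, ?_, ?_, ?_⟩⟩
  · intro i z
    by_cases hz : z ∈ Ws G A h (j - i)
    · simp only [E', if_pos hz]
      exact L2Clean_F_card _ _ _ _ _
    · simp only [E', if_neg hz]
      exact hI.i1 i z
  · intro i z y hi hz hy hzy
    by_cases hz' : z ∈ Ws G A h (j - i)
    · simp only [E', if_pos hz']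
      exact L2Clean_F_mem _ _ _ _ _ _ hi hz hy hzy
    · simp only [E', if_neg hz']
      exact hI.i2 i z y hi hz' (L2Clean_mono hsub h _ hy) hzy
  · intro i z hz
    have hz' := L2Clean_mono hsub h _ hz
    simp only [E', if_pos hz']
    exact L2Clean_F_empty _ _ _ _ _ hz
  · intro c hc
    by_cases hcb : c = b
    · subst hcb
      by_cases hμ : 0 < μ c
      · have h1 : (((Q.filter fun g => ∀ i ≤ j, g i ∈ Ws G A h (j - i)).filter
            fun g => g j = c).card : ℝ) < θ * μ c := by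
          by_contra hcon
          exact hf ⟨hμ, not_lt.1 hcon⟩
        refine le_trans ?_ h1.le
        have hs : ((Q \ L2Clean_D j P E').filter fun g => g j = c) ⊆
            ((Q.filter fun g => ∀ i ≤ j, g i ∈ Ws G A h (j - i)).filter fun g => g j = c) := by
          intro g hg
          obtain ⟨h2, h3⟩ := Finset.mem_filter.1 hg
          obtain ⟨h4, h5⟩ := Finset.mem_sdiff.1 (hQQ h2)
          exact Finset.mem_filter.2 ⟨Finset.mem_filter.2
            ⟨h4, L2Clean_lev hS hQ hI h4 (h3 ▸ hb) h5⟩, h3⟩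
        exact_mod_cast Finset.card_le_card hs
      · have h0 : μ c = 0 := le_antisymm (not_lt.1 hμ) (hS.mu_nonneg c)
        have h1 := hS.le_mu c
        have hs : ((Q \ L2Clean_D j P E').filter fun g => g j = c) ⊆
            (P.filter fun g => g j = c) :=
          Finset.filter_subset_filter _ (Finset.sdiff_subset.trans hQ)
        have h2 : (((Q \ L2Clean_D j P E').filter fun g => g j = c).card : ℝ) ≤
            ((P.filter fun g => g j = c).card : ℝ) := by
          exact_mod_cast Finset.card_le_card hs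
        rw [h0] at h1 ⊢
        rw [mul_zero]
        exact h2.trans h1
    · have hcA : c ∉ A := fun h1 => hc (Finset.mem_erase.2 ⟨hcb, h1⟩)
      refine le_trans ?_ (hI.i4 c hcA)
      exact_mod_cast Finset.card_le_card (Finset.filter_subset_filter _ hQQ)

private lemma L2Clean_exists (hS : Sys G Δ T j X P μ) {Q : Finset (ℕ → V)} (hQ : Q ⊆ P) {h : ℕ}
    {θ : ℝ} (n : ℕ) : ∀ (A : Finset V) (E : ℕ → V → Finset V), A.card = n →
      L2Clean_Inv G j P Q μ h θ A E →
      ∃ (A : Finset V) (E : ℕ → V → Finset V), L2Clean_Inv G j P Q μ h θ A E ∧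
        ∀ b ∈ A, 0 < μ b ∧ θ * μ b ≤
          (((Q.filter fun g => ∀ i ≤ j, g i ∈ Ws G A h (j - i)).filter
            fun g => g j = b).card : ℝ) := by
  induction n with
  | zero =>
    intro A E hA hI
    refine ⟨A, E, hI, fun b hb => ?_⟩
    rw [Finset.card_eq_zero] at hA
    subst hA
    simp at hb
  | succ n ih =>
    intro A E hA hI
    by_cases hall : ∀ b ∈ A, 0 < μ b ∧ θ * μ b ≤
        (((Q.filter fun g => ∀ i ≤ j, g i ∈ Ws G A h (j - i)).filter
          fun g => g j = b).card : ℝ)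
    · exact ⟨A, E, hI, hall⟩
    · obtain ⟨b, hb⟩ := not_forall.1 hall
      obtain ⟨hbA, hf⟩ := Classical.not_imp.1 hb
      obtain ⟨E', hI'⟩ := L2Clean_step hS hQ hI hbA hf
      refine ih (A.erase b) E' ?_ hI'
      rw [Finset.card_erase_of_mem hbA, hA]
      rfl

theorem Sys.clean (hS : Sys G Δ T j X P μ) (Q : Finset (ℕ → V)) (hQ : Q ⊆ P) (h : ℕ) {θ : ℝ}
    (hθ : 0 ≤ θ) :
    ∃ (A : Finset V) (R D : Finset (ℕ → V)), R ⊆ Q ∧
      (∀ g ∈ R, ∀ i ≤ j, g i ∈ Ws G A h (j - i)) ∧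
      (∀ b ∈ A, 0 < μ b ∧ θ * μ b ≤ ((R.filter fun g => g j = b).card : ℝ)) ∧
      D ⊆ P ∧ (D.card : ℝ) ≤ j * h * Δ ^ j ∧
      (∀ g ∈ Q, g j ∈ A → g ∉ D → g ∈ R) ∧
      (∀ b, b ∉ A → (((Q \ D).filter fun g => g j = b).card : ℝ) ≤ θ * μ b) := by
  have h0 : L2Clean_Inv G j P Q μ h θ univ (L2Clean_F G univ h j) :=
    ⟨fun i z => L2Clean_F_card _ _ _ _ _,
      fun i z y hi hz hy hzy => L2Clean_F_mem _ _ _ _ _ _ hi hz hy hzy,
      fun i z hz => L2Clean_F_empty _ _ _ _ _ hz,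
      fun b hb => absurd (Finset.mem_univ b) hb⟩
  obtain ⟨A, E, hI, hA⟩ := L2Clean_exists hS hQ _ univ _ rfl h0
  refine ⟨A, Q.filter fun g => ∀ i ≤ j, g i ∈ Ws G A h (j - i), L2Clean_D j P E,
    Finset.filter_subset _ _, fun g hg => (Finset.mem_filter.1 hg).2, hA,
    Finset.filter_subset _ _, hS.rule h E hI.i1, fun g hg hgA hgD => ?_, hI.i4⟩
  exact Finset.mem_filter.2 ⟨hg, L2Clean_lev hS hQ hI hg hgA hgD⟩

end Pool.Agent.Lib.MP_befe0b_co
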