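import Pool.Agent.Lib.MP_befe0b_co.L2Sys

/-! Gluing six paths of the cleaned family. -/

open Finset
open scoped Classical

noncomputable section

namespace Pool.Agent.Lib.MP_befe0b_co

variable {V : Type*} [Fintype V] {G : SimpleGraph V}

omit [Fintype V] in
/-- the chain: `f` backwards, then `p`, then `q` backwards -/
def L2Link_ch (j : ℕ) (f p q : ℕ → V) (i : ℕ) : V :=
  if i ≤ j then f (j - i) else if i ≤ 2 * j then p (i - j) else q (3 * j - i)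

omit [Fintype V] in
lemma L2Link_ch1 {j i : ℕ} (f p q : ℕ → V) (hi : i ≤ j) : L2Link_ch j f p q i = f (j - i) :=
  if_pos hi

omit [Fintype V] in
lemma L2Link_ch2 {j i : ℕ} {f p : ℕ → V} (q : ℕ → V) (h0 : p 0 = f 0) (h1 : j ≤ i)
    (h2 : i ≤ 2 * j) : L2Link_ch j f p q i = p (i - j) := by
  rcases h1.eq_or_lt with rfl | h1
  · rw [L2Link_ch1 f p q le_rfl, Nat.sub_self, h0]
  · rw [L2Link_ch, if_neg (by omega), if_pos h2]

omit [Fintype V] in
lemma L2Link_ch3 {j i : ℕ} {p q : ℕ → V} (f : ℕ → V) (hj : 1 ≤ j) (h0 : p j = q j)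
    (h1 : 2 * j ≤ i) : L2Link_ch j f p q i = q (3 * j - i) := by
  rcases h1.eq_or_lt with rfl | h1
  · rw [L2Link_ch, if_neg (by omega), if_pos le_rfl, show 2 * j - j = j by omega,
      show 3 * j - 2 * j = j by omega, h0]
  · rw [L2Link_ch, if_neg (by omega), if_neg (by omega)]

lemma L2Link_chain {j h : ℕ} (hj : 1 ≤ j) {A : Finset V} (hA : A ⊆ Ws G A h 2)
    {R : Finset (ℕ → V)}
    (adj : ∀ g ∈ R, ∀ i < j, G.Adj (g i) (g (i + 1)))
    (inj : ∀ g ∈ R, ∀ a ≤ j, ∀ b ≤ j, g a = g b → a = b)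
    (lev : ∀ g ∈ R, ∀ i ≤ j, g i ∈ Ws G A h (j - i))
    {f p q : ℕ → V} (hf : f ∈ R) (hp : p ∈ R) (hq : q ∈ R) (h0 : p 0 = f 0) (h1 : p j = q j)
    (hpq : ∀ a < j, ∀ b < j, p a ≠ q b) {F F1 : Finset V} (hF : F ⊆ F1)
    (hfF : ∀ i < j, f i ∉ F) (hfF1 : ∀ i ≤ j, f i ∈ F1) (he : q 0 ∉ F1)
    (hpF : ∀ i, 1 ≤ i → i ≤ j → p i ∉ F1 ∧ q i ∉ F1) :
    ∃ P ∈ Wk G (3 * j) (f j), P (3 * j) = q 0 ∧ Good F (3 * j) P ∧
      (∀ i ≤ 3 * j, P i ∈ Ws G A h (3 * j + 3 * j - i)) ∧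
      ∀ i, 1 ≤ i → i < 3 * j → (∃ a < j, P i = f a) ∨ (∃ a, 1 ≤ a ∧ a ≤ j ∧ P i = p a) ∨
        (∃ a, 1 ≤ a ∧ a ≤ j ∧ P i = q a) := by
  have hadj : ∀ i < 3 * j, G.Adj (L2Link_ch j f p q i) (L2Link_ch j f p q (i + 1)) := by
    intro i hi
    by_cases a1 : i < j
    · rw [L2Link_ch1 f p q a1.le, L2Link_ch1 f p q a1,
        show j - i = j - (i + 1) + 1 by omega]
      exact (adj f hf _ (by omega)).symm
    · by_cases a2 : i < 2 * j
      · rw [L2Link_ch2 q h0 (by omega) a2.le, L2Link_ch2 q h0 (by omega) a2,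
          show i + 1 - j = i - j + 1 by omega]
        exact adj p hp _ (by omega)
      · rw [L2Link_ch3 f hj h1 (by omega), L2Link_ch3 f hj h1 (by omega),
          show 3 * j - i = 3 * j - (i + 1) + 1 by omega]
        exact (adj q hq _ (by omega)).symm
  obtain ⟨P, hP, hPe⟩ := exists_mem_Wk (G := G) (3 * j) (L2Link_ch j f p q) hadj
  rw [L2Link_ch1 f p q (Nat.zero_le j), Nat.sub_zero] at hP
  have c1 : ∀ i ≤ j, P i = f (j - i) := fun i hi => by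
    rw [hPe i (by omega), L2Link_ch1 f p q hi]
  have c2 : ∀ i, j ≤ i → i ≤ 2 * j → P i = p (i - j) := fun i a1 a2 => by
    rw [hPe i (by omega), L2Link_ch2 q h0 a1 a2]
  have c3 : ∀ i, 2 * j ≤ i → i ≤ 3 * j → P i = q (3 * j - i) := fun i a1 a2 => by
    rw [hPe i a2, L2Link_ch3 f hj h1 a1]
  have hqF : ∀ b ≤ j, q b ∉ F1 := fun b hb => by
    rcases Nat.eq_zero_or_pos b with rfl | hb0
    · exact he
    · exact (hpF b hb0 hb).2
  have hpq' : ∀ a ≤ j, ∀ b < j, p a ≠ q b := fun a ha b hb => by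
    rcases ha.eq_or_lt with rfl | ha
    · rw [h1]
      intro h5
      have := inj q hq _ le_rfl _ hb.le h5
      omega
    · exact hpq a ha b hb
  refine ⟨P, hP, by rw [c3 _ (by omega) le_rfl, Nat.sub_self], fun i i1 i2 => ⟨?_, ?_⟩,
    fun i hi => ?_, fun i i1 i2 => ?_⟩
  · by_cases a1 : i ≤ j
    · rw [c1 i a1]
      exact hfF _ (by omega)
    · by_cases a2 : i ≤ 2 * j
      · rw [c2 i (by omega) a2]
        exact fun h5 => (hpF _ (by omega) (by omega)).1 (hF h5)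
      · rw [c3 i (by omega) i2]
        exact fun h5 => hqF _ (by omega) (hF h5)
  · intro l l1 l2
    by_cases a1 : i ≤ j
    · rw [c1 i a1, c1 l (by omega)]
      intro h5
      have := inj f hf _ (by omega) _ (by omega) h5
      omega
    · by_cases a2 : i ≤ 2 * j
      · rw [c2 i (by omega) a2]
        by_cases b1 : l ≤ j
        · rw [c1 l b1]
          exact fun h5 => (hpF (i - j) (by omega) (by omega)).1 (h5 ▸ hfF1 _ (by omega))
        · rw [c2 l (by omega) (by omega)]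
          intro h5
          have := inj p hp _ (by omega) _ (by omega) h5
          omega
      · rw [c3 i (by omega) i2]
        by_cases b1 : l ≤ j
        · rw [c1 l b1]
          exact fun h5 => hqF (3 * j - i) (by omega) (h5 ▸ hfF1 _ (by omega))
        · by_cases b2 : l ≤ 2 * j
          · rw [c2 l (by omega) b2]
            exact hpq' _ (by omega) _ (by omega)
          · rw [c3 l (by omega) (by omega)]
            intro h5
            have := inj q hq _ (by omega) _ (by omega) h5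
            omega
  · by_cases a1 : i ≤ j
    · rw [c1 i a1]
      have := Ws_subset_add hA _ (3 * j - i) (lev f hf (j - i) (by omega))
      rwa [show j - (j - i) + 2 * (3 * j - i) = 3 * j + 3 * j - i by omega] at this
    · by_cases a2 : i ≤ 2 * j
      · rw [c2 i (by omega) a2]
        have := Ws_subset_add hA _ (2 * j) (lev p hp (i - j) (by omega))
        rwa [show j - (i - j) + 2 * (2 * j) = 3 * j + 3 * j - i by omega] at this
      · rw [c3 i (by omega) hi]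
        have := Ws_subset_add hA _ (4 * j - i) (lev q hq (3 * j - i) (by omega))
        rwa [show j - (3 * j - i) + 2 * (4 * j - i) = 3 * j + 3 * j - i by omega] at this
  · by_cases a1 : i ≤ j
    · exact Or.inl ⟨j - i, by omega, c1 i a1⟩
    · by_cases a2 : i ≤ 2 * j
      · exact Or.inr (Or.inl ⟨i - j, by omega, by omega, c2 i (by omega) a2⟩)
      · exact Or.inr (Or.inr ⟨3 * j - i, by omega, by omega, c3 i (by omega) i2.le⟩)

theorem link_six {j h φ : ℕ} (hj : 1 ≤ j) (A : Finset V) (hA : A ⊆ Ws G A h 2)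
    (R : Finset (ℕ → V)) (typ : V → Prop) (good : V → V → Prop)
    (adj : ∀ g ∈ R, ∀ i < j, G.Adj (g i) (g (i + 1)))
    (inj : ∀ g ∈ R, ∀ a ≤ j, ∀ b ≤ j, g a = g b → a = b)
    (lev : ∀ g ∈ R, ∀ i ≤ j, g i ∈ Ws G A h (j - i))
    (up : ∀ b ∈ A, ∀ F : Finset V, F.card ≤ φ + 5 * (j + 1) →
      ∃ f ∈ R, f j = b ∧ typ (f 0) ∧ ∀ i < j, f i ∉ F)
    (mid : ∀ c c', typ c → typ c' → ∀ F : Finset V, F.card ≤ φ + 5 * (j + 1) →
      ∃ e, e ∉ F ∧ good c e ∧ good c' e)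
    (pair : ∀ c e, good c e → ∀ F : Finset V, F.card ≤ φ + 5 * (j + 1) →
      ∃ p ∈ R, ∃ q ∈ R, p 0 = c ∧ q 0 = e ∧ p j = q j ∧ (∀ a < j, ∀ b < j, p a ≠ q b) ∧
        ∀ i, 1 ≤ i → i ≤ j → p i ∉ F ∧ q i ∉ F) :
    ∀ u ∈ A, ∀ v ∈ A, ∀ F : Finset V, F.card ≤ φ →
      ∃ p ∈ Wk G (3 * j) u, ∃ q ∈ Wk G (3 * j) v, p (3 * j) = q (3 * j) ∧
        Good F (3 * j) p ∧ Good F (3 * j) q ∧
        (∀ i ≤ 3 * j, p i ∈ Ws G A h (3 * j + 3 * j - i)) ∧
        (∀ i ≤ 3 * j, q i ∈ Ws G A h (3 * j + 3 * j - i)) ∧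
        ∀ a b, 1 ≤ a → a < 3 * j → 1 ≤ b → b ≤ 3 * j → p a ≠ q b := by
  intro u hu v hv F hF
  have hc : ∀ (S : Finset V) (g : ℕ → V),
      (S ∪ (Finset.range (j + 1)).image g).card ≤ S.card + (j + 1) := fun S g =>
    (Finset.card_union_le _ _).trans
      (Nat.add_le_add_left (Finset.card_image_le.trans (by simp)) _)
  have hm : ∀ (S : Finset V) (g : ℕ → V), ∀ i ≤ j,
      g i ∈ S ∪ (Finset.range (j + 1)).image g := fun S g i hi =>
    Finset.mem_union_right _ (Finset.mem_image_of_mem _ (Finset.mem_range.2 (by omega)))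
  obtain ⟨f, hf, rfl, tf, fF⟩ := up u hu F (by omega)
  set F0 := F ∪ (Finset.range (j + 1)).image f with hF0
  have k0 : F0.card ≤ F.card + (j + 1) := hc F f
  obtain ⟨g, hg, rfl, tg, gF⟩ := up v hv F0 (by omega)
  set F1 := F0 ∪ (Finset.range (j + 1)).image g with hF1
  have k1 : F1.card ≤ F0.card + (j + 1) := hc F0 g
  obtain ⟨e, he, g1, g2⟩ := mid (f 0) (g 0) tf tg F1 (by omega)
  obtain ⟨p, hp, q, hq, p0, q0, pq, dpq, pF⟩ := pair (f 0) e g1 F1 (by omega)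
  set F2 := F1 ∪ (Finset.range (j + 1)).image p with hF2
  have k2 : F2.card ≤ F1.card + (j + 1) := hc F1 p
  set F3 := F2 ∪ (Finset.range (j + 1)).image q with hF3
  have k3 : F3.card ≤ F2.card + (j + 1) := hc F2 q
  obtain ⟨p', hp', q', hq', p0', q0', pq', dpq', pF'⟩ := pair (g 0) e g2 F3 (by omega)
  have s0 : F ⊆ F0 := Finset.subset_union_left
  have s1 : F0 ⊆ F1 := Finset.subset_union_left
  have s2 : F1 ⊆ F2 := Finset.subset_union_left
  have s3 : F2 ⊆ F3 := Finset.subset_union_left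
  have mf : ∀ i ≤ j, f i ∈ F0 := hm F f
  have mg : ∀ i ≤ j, g i ∈ F1 := hm F0 g
  have mp : ∀ i ≤ j, p i ∈ F2 := hm F1 p
  have mq : ∀ i ≤ j, q i ∈ F3 := hm F2 q
  obtain ⟨P, hP, Pe, Pg, Pl, Pv⟩ := L2Link_chain hj hA adj inj lev hf hp hq p0 pq dpq
    (s0.trans s1) fF (fun i hi => s1 (mf i hi)) (q0 ▸ he) pF
  obtain ⟨Q, hQ, Qe, Qg, Ql, Qv⟩ := L2Link_chain hj hA adj inj lev hg hp' hq' p0' pq' dpq'
    (s0.trans s1) (fun i hi h5 => gF i hi (s0 h5)) mg (q0' ▸ he)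
    (fun i i1 i2 => ⟨fun h5 => (pF' i i1 i2).1 (s3 (s2 h5)),
      fun h5 => (pF' i i1 i2).2 (s3 (s2 h5))⟩)
  refine ⟨P, hP, Q, hQ, by rw [Pe, Qe, q0, q0'], Pg, Qg, Pl, Ql, fun a b a1 a2 b1 b2 => ?_⟩
  rcases b2.eq_or_lt with rfl | b2
  · rw [Qe, q0', ← q0, ← Pe]
    exact (Pg _ (by omega) le_rfl).2 a a1 a2
  · have hPa : P a ∈ F3 := by
      rcases Pv a a1 a2 with ⟨x, x1, x2⟩ | ⟨x, -, x1, x2⟩ | ⟨x, -, x1, x2⟩
      · exact x2 ▸ s3 (s2 (s1 (mf x x1.le)))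
      · exact x2 ▸ s3 (mp x x1)
      · exact x2 ▸ mq x x1
    rcases Qv b b1 b2 with ⟨y, y1, y2⟩ | ⟨y, y0, y1, y2⟩ | ⟨y, y0, y1, y2⟩
    · rw [y2]
      rcases Pv a a1 a2 with ⟨x, x1, x2⟩ | ⟨x, x0, x1, x2⟩ | ⟨x, x0, x1, x2⟩
      · rw [x2]
        exact fun h5 => gF y y1 (h5 ▸ mf x x1.le)
      · rw [x2]
        exact fun h5 => (pF x x0 x1).1 (h5 ▸ mg y y1.le)
      · rw [x2]
        exact fun h5 => (pF x x0 x1).2 (h5 ▸ mg y y1.le)
    · rw [y2]
      exact fun h5 => (pF' y y0 y1).1 (h5 ▸ hPa)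
    · rw [y2]
      exact fun h5 => (pF' y y0 y1).2 (h5 ▸ hPa)

end Pool.Agent.Lib.MP_befe0b_co
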