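import Pool.Agent.Lib.MP_befe0b_co.L2Sys

/-! The weight lost by cleaning, and the choice of single paths and of pairs. -/

open Finset
open scoped Classical

noncomputable section

namespace Pool.Agent.Lib.MP_befe0b_co

variable {V : Type*} [Fintype V] {G : SimpleGraph V} {Δ T : ℝ} {j : ℕ} {X : Finset V}
  {P : Finset (ℕ → V)} {μ : V → ℝ}

/-- weight of a pair of paths with a common end that satisfies `r` -/
def L2Lost_w (j : ℕ) (μ : V → ℝ) (r : Prop) (p q : ℕ → V) : ℝ :=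
  if r ∧ p j = q j then 1 / μ (p j) else 0

omit [Fintype V] in
lemma L2Lost_w_comm (r : Prop) (p q : ℕ → V) : L2Lost_w j μ r p q = L2Lost_w j μ r q p := by
  unfold L2Lost_w
  by_cases h : r ∧ p j = q j
  · rw [if_pos h, if_pos ⟨h.1, h.2.symm⟩, h.2]
  · rw [if_neg h, if_neg fun k => h ⟨k.1, k.2.symm⟩]

omit [Fintype V] in
lemma L2Lost_w_nonneg (h0 : ∀ b, 0 ≤ μ b) (r : Prop) (p q : ℕ → V) : 0 ≤ L2Lost_w j μ r p q := by
  unfold L2Lost_w
  split_ifs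
  · exact one_div_nonneg.2 (h0 _)
  · exact le_rfl

omit [Fintype V] in
lemma L2Lost_w_neg {r : Prop} (h : ¬ r) (p q : ℕ → V) : L2Lost_w j μ r p q = 0 :=
  if_neg fun k => h k.1

omit [Fintype V] in
lemma L2Lost_w_split (r s : Prop) (p q : ℕ → V) :
    L2Lost_w j μ r p q = L2Lost_w j μ (r ∧ s) p q + L2Lost_w j μ (r ∧ ¬ s) p q := by
  unfold L2Lost_w
  by_cases h : s <;> simp [h]

omit [Fintype V] in
lemma L2Lost_w_mono (h0 : ∀ b, 0 ≤ μ b) {r s : Prop} {p q : ℕ → V} (h : r → p j = q j → s) :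
    L2Lost_w j μ r p q ≤ L2Lost_w j μ s p q := by
  by_cases k : r ∧ p j = q j
  · unfold L2Lost_w
    rw [if_pos k, if_pos ⟨h k.1 k.2, k.2⟩]
  · exact (if_neg k).trans_le (L2Lost_w_nonneg h0 _ _ _)

omit [Fintype V] in
lemma L2Lost_w_or (h0 : ∀ b, 0 ≤ μ b) (r s : Prop) (p q : ℕ → V) :
    L2Lost_w j μ (r ∨ s) p q ≤ L2Lost_w j μ r p q + L2Lost_w j μ s p q := by
  rw [L2Lost_w_split (r ∨ s) r]
  exact add_le_add (L2Lost_w_mono h0 fun h _ => h.2)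
    (L2Lost_w_mono h0 fun h _ => h.1.resolve_left h.2)

omit [Fintype V] in
lemma L2Lost_row (h0 : ∀ b, 0 ≤ μ b) (Q : Finset (ℕ → V)) (r : (ℕ → V) → Prop) (p : ℕ → V) {κ : ℝ}
    (hκ : 0 ≤ κ) {B : Finset (ℕ → V)} (hB : ∀ q ∈ Q, q j = p j → r q → q ∈ B)
    (h : (B.card : ℝ) ≤ κ * μ (p j)) : ∑ q ∈ Q, L2Lost_w j μ (r q) p q ≤ κ := by
  unfold L2Lost_w
  rw [← Finset.sum_filter, Finset.sum_const, nsmul_eq_mul, mul_one_div]
  refine div_le_of_le_mul₀ (h0 _) hκ (le_trans (Nat.cast_le.2 (Finset.card_le_card ?_)) h)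
  intro q hq
  obtain ⟨h1, h2, h3⟩ := Finset.mem_filter.1 hq
  exact hB q h1 h3.symm h2

omit [Fintype V] in
/-- rows of bounded weight -/
lemma L2Lost_rows (h0 : ∀ b, 0 ≤ μ b) (Q S : Finset (ℕ → V)) (r : (ℕ → V) → (ℕ → V) → Prop)
    {κ : ℝ} (hκ : 0 ≤ κ) (B : (ℕ → V) → Finset (ℕ → V))
    (hB : ∀ p, ∀ q ∈ Q, q j = p j → r p q → q ∈ B p)
    (h : ∀ p ∈ S, ((B p).card : ℝ) ≤ κ * μ (p j)) :
    ∑ p ∈ Q, ∑ q ∈ Q, L2Lost_w j μ (p ∈ S ∧ r p q) p q ≤ κ * S.card := by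
  calc _ ≤ ∑ p ∈ Q, if p ∈ S then κ else 0 := by
        refine Finset.sum_le_sum fun p _ => ?_
        split_ifs with hs
        · exact L2Lost_row h0 Q _ p hκ (fun q hq e k => hB p q hq e k.2) (h p hs)
        · exact (Finset.sum_eq_zero fun q _ => L2Lost_w_neg (fun k => hs k.1) p q).le
    _ ≤ _ := by
        rw [← Finset.sum_filter, Finset.sum_const, nsmul_eq_mul, mul_comm]
        exact mul_le_mul_of_nonneg_left (Nat.cast_le.2 (Finset.card_le_card fun p hp =>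
          (Finset.mem_filter.1 hp).2)) hκ

omit [Fintype V] in
lemma L2Lost_cols (h0 : ∀ b, 0 ≤ μ b) (Q S : Finset (ℕ → V)) (r : (ℕ → V) → (ℕ → V) → Prop)
    {κ : ℝ} (hκ : 0 ≤ κ) (B : (ℕ → V) → Finset (ℕ → V))
    (hB : ∀ p, ∀ q ∈ Q, q j = p j → r p q → q ∈ B p)
    (h : ∀ p ∈ S, ((B p).card : ℝ) ≤ κ * μ (p j)) :
    ∑ p ∈ Q, ∑ q ∈ Q, L2Lost_w j μ (q ∈ S ∧ r q p) p q ≤ κ * S.card := by
  rw [Finset.sum_comm]
  refine le_of_eq_of_le ?_ (L2Lost_rows h0 Q S r hκ B hB h)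
  exact Finset.sum_congr rfl fun p _ => Finset.sum_congr rfl fun q _ => L2Lost_w_comm _ _ _

lemma L2Lost_mAll (Q : Finset (ℕ → V)) (c c' : V) : mAll j Q μ c c' =
    ∑ p ∈ Q, ∑ q ∈ Q, L2Lost_w j μ (p 0 = c ∧ q 0 = c') p q := by
  unfold mAll
  simp only [Finset.card_filter, Nat.cast_sum, Finset.sum_mul_sum, Finset.sum_div]
  rw [Finset.sum_comm]
  refine Finset.sum_congr rfl fun p _ => ?_
  rw [Finset.sum_comm]
  refine Finset.sum_congr rfl fun q _ => ?_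
  rw [Finset.sum_eq_single (p j)]
  · unfold L2Lost_w
    by_cases h1 : p 0 = c <;> by_cases h2 : q 0 = c' <;> by_cases h3 : p j = q j <;>
      simp [h1, h2, h3, eq_comm]
  · intro b _ hb
    simp [Ne.symm hb]
  · simp

omit [Fintype V] in
lemma L2Lost_mDis {Q R : Finset (ℕ → V)} (hR : R ⊆ Q) (c c' : V) : mDis j R μ c c' =
    ∑ p ∈ Q, ∑ q ∈ Q, L2Lost_w j μ
      ((p 0 = c ∧ q 0 = c') ∧ p ∈ R ∧ q ∈ R ∧ ∀ a < j, ∀ b < j, p a ≠ q b) p q := by
  unfold mDis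
  rw [← Finset.sum_product', Finset.sum_filter,
    ← Finset.sum_subset (Finset.product_subset_product hR hR)]
  · refine Finset.sum_congr rfl fun z hz => ?_
    obtain ⟨h1, h2⟩ := Finset.mem_product.1 hz
    split_ifs with k
    · exact (if_pos ⟨⟨⟨k.1, k.2.1⟩, h1, h2, k.2.2.2⟩, k.2.2.1⟩).symm
    · exact (if_neg fun h => k ⟨h.1.1.1, h.1.1.2, h.2, h.1.2.2.2⟩).symm
  · intro z _ hz
    exact L2Lost_w_neg (fun h => hz (Finset.mem_product.2 ⟨h.2.1, h.2.2.1⟩)) _ _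

theorem Sys.lost (hS : Sys G Δ T j X P μ) (U A : Finset V) (R D : Finset (ℕ → V)) {θ τ : ℝ}
    (hθ : 0 ≤ θ) (hτ : 0 < τ) (hR : R ⊆ P.filter fun g => g 0 ∈ U) (hD : D ⊆ P)
    (h1 : ∀ g ∈ P.filter (fun g => g 0 ∈ U), g j ∈ A → g ∉ D → g ∈ R)
    (h2 : ∀ b, b ∉ A →
      ((((P.filter fun g => g 0 ∈ U) \ D).filter fun g => g j = b).card : ℝ) ≤ θ * μ b) :
    τ * (((U ×ˢ U).filter fun z => mDis j R μ z.1 z.2 < τ).card : ℝ) ≤
      τ * (((U ×ˢ U).filter fun z => mAll j P μ z.1 z.2 < 2 * τ).card : ℝ) +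
        (2 * D.card + θ ^ 2 * Δ ^ (j + 1) + (j : ℝ) ^ 2 * Δ ^ (j + 1) / T) := by
  have h0 := hS.mu_nonneg
  have hT := hS.T_pos
  have hRP : R ⊆ P := hR.trans (Finset.filter_subset _ _)
  obtain ⟨δ, hδ⟩ : ∃ δ : V × V → ℝ, ∀ z, δ z = ∑ p ∈ P, ∑ q ∈ P, L2Lost_w j μ
      ((p 0 = z.1 ∧ q 0 = z.2) ∧ ¬ (p ∈ R ∧ q ∈ R ∧ ∀ a < j, ∀ b < j, p a ≠ q b)) p q :=
    ⟨_, fun _ => rfl⟩
  have d0 : ∀ z, 0 ≤ δ z := fun z => (hδ z).symm ▸
    Finset.sum_nonneg fun p _ => Finset.sum_nonneg fun q _ => L2Lost_w_nonneg h0 _ _ _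
  have d1 : ∀ z : V × V, mAll j P μ z.1 z.2 = mDis j R μ z.1 z.2 + δ z := fun z => by
    simp only [L2Lost_mAll, L2Lost_mDis hRP, hδ, ← Finset.sum_add_distrib]
    exact Finset.sum_congr rfl fun p _ => Finset.sum_congr rfl fun q _ => L2Lost_w_split _ _ _ _
  have d2 : ∑ z ∈ U ×ˢ U, δ z ≤ ∑ p ∈ P, ∑ q ∈ P, L2Lost_w j μ
      ((p 0 ∈ U ∧ q 0 ∈ U) ∧ ¬ (p ∈ R ∧ q ∈ R ∧ ∀ a < j, ∀ b < j, p a ≠ q b)) p q := by
    simp only [hδ]
    rw [Finset.sum_comm]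
    refine Finset.sum_le_sum fun p _ => ?_
    rw [Finset.sum_comm]
    refine Finset.sum_le_sum fun q _ => ?_
    by_cases hz : (p 0, q 0) ∈ U ×ˢ U
    · rw [Finset.sum_eq_single (p 0, q 0) (fun z _ k => L2Lost_w_neg
        (fun h => k (Prod.ext h.1.1.symm h.1.2.symm)) _ _) fun k => absurd hz k]
      exact L2Lost_w_mono h0 fun h _ => ⟨Finset.mem_product.1 hz, h.2⟩
    · refine (Finset.sum_eq_zero fun z k => L2Lost_w_neg (fun h => hz ?_) _ _).trans_le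
        (L2Lost_w_nonneg h0 _ _ _)
      rwa [h.1.1, h.1.2]
  have hone : ∀ p ∈ D, ((P.filter fun q => q j = p j).card : ℝ) ≤ 1 * μ (p j) :=
    fun p _ => (hS.le_mu (p j)).trans_eq (one_mul _).symm
  have b1 := L2Lost_rows h0 P D (fun _ _ => True) zero_le_one _
    (fun p q hq e _ => Finset.mem_filter.2 ⟨hq, e⟩) hone
  have b2 := L2Lost_cols h0 P D (fun _ _ => True) zero_le_one _
    (fun p q hq e _ => Finset.mem_filter.2 ⟨hq, e⟩) hone
  set S := (P.filter fun g => g 0 ∈ U) \ D with hSdef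
  have b3 := L2Lost_rows h0 P (S.filter fun p => p j ∉ A) (fun _ q => q ∈ S) hθ
    (fun p => S.filter fun g => g j = p j) (fun p q _ e k => Finset.mem_filter.2 ⟨k, e⟩)
    fun p hp => h2 _ (Finset.mem_filter.1 hp).2
  have c3 : ((S.filter fun p => p j ∉ A).card : ℝ) ≤ θ * Δ ^ (j + 1) := by
    rw [Finset.card_eq_sum_card_fiberwise (f := fun g => g j) (t := univ) fun _ _ => mem_univ _,
      Nat.cast_sum]
    refine le_trans (Finset.sum_le_sum fun b _ => ?_)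
      ((Finset.mul_sum _ _ _).symm.trans_le (mul_le_mul_of_nonneg_left hS.sum_mu hθ))
    by_cases hb : b ∈ A
    · have e : ((S.filter fun p => p j ∉ A).filter fun g => g j = b) = ∅ :=
        Finset.filter_eq_empty_iff.2 fun g hg hg' => (Finset.mem_filter.1 hg).2 (hg' ▸ hb)
      rw [e]
      simpa using mul_nonneg hθ (h0 b)
    · refine le_trans (Nat.cast_le.2 (Finset.card_le_card fun g hg => ?_)) (h2 b hb)
      exact Finset.mem_filter.2
        ⟨(Finset.mem_filter.1 (Finset.mem_filter.1 hg).1).1, (Finset.mem_filter.1 hg).2⟩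
  have b4 := L2Lost_rows h0 P P (fun p q => ∃ b < j, q b ∈ (range j).image p)
    (κ := (j : ℝ) ^ 2 / T) (by positivity)
    (fun p => P.filter fun g => g j = p j ∧ ∃ i < j, g i ∈ (range j).image p)
    (fun p q hq e k => Finset.mem_filter.2 ⟨hq, e, k⟩) fun p _ => by
      have k := hS.end_hit (p j) ((range j).image p)
      have k' : (((range j).image p).card : ℝ) ≤ j := by
        exact_mod_cast Finset.card_image_le.trans (Finset.card_range j).le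
      rw [div_mul_eq_mul_div, le_div_iff₀ hT, mul_comm]
      refine k.trans (mul_le_mul_of_nonneg_right ?_ (h0 _))
      rw [sq]
      exact mul_le_mul_of_nonneg_left k' (Nat.cast_nonneg j)
  have c4 : (j : ℝ) ^ 2 / T * P.card ≤ (j : ℝ) ^ 2 * Δ ^ (j + 1) / T := by
    rw [mul_div_right_comm]
    exact mul_le_mul_of_nonneg_left (hS.card_le.trans hS.sum_mu) (by positivity)
  have c3' := mul_le_mul_of_nonneg_left c3 hθ
  have d3 : ∑ z ∈ U ×ˢ U, δ z ≤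
      2 * D.card + θ ^ 2 * Δ ^ (j + 1) + (j : ℝ) ^ 2 * Δ ^ (j + 1) / T := by
    refine d2.trans (le_trans ?_ ((add_le_add (add_le_add (add_le_add b1 b2) (b3.trans c3'))
      (b4.trans c4)).trans (le_of_eq (by ring))))
    simp only [← Finset.sum_add_distrib]
    refine Finset.sum_le_sum fun p hp => Finset.sum_le_sum fun q hq => ?_
    refine le_trans (L2Lost_w_mono h0 fun k k0 => ?_) ((L2Lost_w_or h0 _ _ p q).trans
      (add_le_add_left ((L2Lost_w_or h0 _ _ p q).trans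
        (add_le_add_left (L2Lost_w_or h0 _ _ p q) _)) _))
    by_contra hc
    simp only [not_or, and_true, hSdef, Finset.mem_filter, Finset.mem_sdiff] at hc
    obtain ⟨⟨⟨k1, k2⟩, k3⟩, k4⟩ := hc
    have k5 : p j ∈ A := by
      by_contra k6
      exact k3 ⟨⟨⟨⟨hp, k.1.1⟩, k1⟩, k6⟩, ⟨hq, k.1.2⟩, k2⟩
    refine k.2 ⟨h1 p (Finset.mem_filter.2 ⟨hp, k.1.1⟩) k5 k1,
      h1 q (Finset.mem_filter.2 ⟨hq, k.1.2⟩) (k0 ▸ k5) k2, fun a ha b hb e => k4 ⟨hp, b, hb, ?_⟩⟩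
    exact Finset.mem_image.2 ⟨a, Finset.mem_range.2 ha, e⟩
  refine le_trans ?_ (add_le_add_right d3 _)
  simp only [Finset.card_filter, Nat.cast_sum, Finset.mul_sum, ← Finset.sum_add_distrib]
  refine Finset.sum_le_sum fun z _ => ?_
  have e1 := d1 z
  have e0 := d0 z
  split_ifs <;> push_cast <;> linarith

theorem Sys.pair (hS : Sys G Δ T j X P μ) (R : Finset (ℕ → V)) (hR : R ⊆ P) (c c' : V)
    (F : Finset V) (h : 2 * j * F.card * Δ ^ j < Δ * T * mDis j R μ c c') :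
    ∃ p ∈ R, ∃ q ∈ R, p 0 = c ∧ q 0 = c' ∧ p j = q j ∧ (∀ a < j, ∀ b < j, p a ≠ q b) ∧
      ∀ i, 1 ≤ i → i ≤ j → p i ∉ F ∧ q i ∉ F := by
  by_contra hc
  have h0 := hS.mu_nonneg
  have hT := hS.T_pos
  have hΔ : 0 ≤ Δ := (Nat.cast_nonneg _).trans (hS.deg c)
  have thin : ∀ (e : V) (p : ℕ → V),
      ((P.filter fun q => q 0 = e ∧ q j = p j).card : ℝ) ≤ 1 / T * μ (p j) := fun e p => by
    rw [div_mul_eq_mul_div, le_div_iff₀ hT, mul_comm, one_mul]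
    exact hS.thin e (p j) 0 hS.j_pos
  have b1 := L2Lost_rows h0 P (P.filter fun g => g 0 = c ∧ ∃ i, 1 ≤ i ∧ i ≤ j ∧ g i ∈ F)
    (fun _ q => q 0 = c') (by positivity) _ (fun p q hq e k => Finset.mem_filter.2 ⟨hq, k, e⟩)
    fun p _ => thin c' p
  have b2 := L2Lost_cols h0 P (P.filter fun g => g 0 = c' ∧ ∃ i, 1 ≤ i ∧ i ≤ j ∧ g i ∈ F)
    (fun _ q => q 0 = c) (by positivity) _ (fun p q hq e k => Finset.mem_filter.2 ⟨hq, k, e⟩)
    fun p _ => thin c p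
  have k1 := hS.hub_hit c F
  have k2 := hS.hub_hit c' F
  have b3 : mDis j R μ c c' ≤ _ := le_trans ?_ (add_le_add b1 b2)
  · have b4 := mul_le_mul_of_nonneg_left b3 (mul_nonneg hΔ hT.le)
    have e : ∀ x y : ℝ, Δ * T * (1 / T * x + 1 / T * y) = Δ * x + Δ * y := fun x y => by
      field_simp
    rw [e] at b4
    linarith
  simp only [L2Lost_mDis hR, ← Finset.sum_add_distrib]
  refine Finset.sum_le_sum fun p hp => Finset.sum_le_sum fun q hq => ?_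
  refine le_trans (L2Lost_w_mono h0 fun k k0 => ?_) (L2Lost_w_or h0 _ _ p q)
  by_contra hn
  simp only [not_or, Finset.mem_filter] at hn
  exact hc ⟨p, k.2.1, q, k.2.2.1, k.1.1, k.1.2, k0, k.2.2.2, fun i a b =>
    ⟨fun e => hn.1 ⟨⟨hp, k.1.1, i, a, b, e⟩, k.1.2⟩, fun e => hn.2 ⟨⟨hq, k.1.2, i, a, b, e⟩, k.1.1⟩⟩⟩

theorem Sys.up (hS : Sys G Δ T j X P μ) (R : Finset (ℕ → V)) (hR : R ⊆ P) (b : V) {θ : ℝ}
    (hμ : 0 < μ b) (hb : θ * μ b ≤ ((R.filter fun g => g j = b).card : ℝ)) (F Y : Finset V)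
    (h : (j : ℝ) * F.card + Y.card < θ * T) :
    ∃ f ∈ R, f j = b ∧ f 0 ∉ Y ∧ ∀ i < j, f i ∉ F := by
  by_contra hc
  have hT := hS.T_pos
  have hsub : (R.filter fun g => g j = b) ⊆ (P.filter fun g => g j = b ∧ ∃ i < j, g i ∈ F) ∪
      P.filter fun g => g j = b ∧ g 0 ∈ Y := fun g hg => by
    obtain ⟨g1, g2⟩ := Finset.mem_filter.1 hg
    by_contra k
    simp only [Finset.mem_union, Finset.mem_filter, not_or] at k
    exact hc ⟨g, g1, g2, fun e => k.2 ⟨hR g1, g2, e⟩, fun i hi e => k.1 ⟨hR g1, g2, i, hi, e⟩⟩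
  have k0 : ((R.filter fun g => g j = b).card : ℝ) ≤
      ((P.filter fun g => g j = b ∧ ∃ i < j, g i ∈ F).card : ℝ) +
        ((P.filter fun g => g j = b ∧ g 0 ∈ Y).card : ℝ) := by
    exact_mod_cast (Finset.card_le_card hsub).trans (Finset.card_union_le _ _)
  have k1 := hS.end_hit b F
  have k2 := hS.end_hub b Y
  have k3 := mul_le_mul_of_nonneg_left (hb.trans k0) hT.le
  have k4 := mul_lt_mul_of_pos_right h hμ
  nlinarith

theorem Sys.two_step (hS : Sys G Δ T j X P μ) (R : Finset (ℕ → V)) (hR : R ⊆ P) (A : Finset V)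
    (h : ℕ) {θ : ℝ} (h1 : ∀ g ∈ R, ∀ i ≤ j, g i ∈ Ws G A h (j - i))
    (h2 : ∀ b ∈ A, 0 < μ b ∧ θ * μ b ≤ ((R.filter fun g => g j = b).card : ℝ))
    (hh : (h : ℝ) ≤ θ * T) : A ⊆ Ws G A h 2 := by
  intro b hb
  obtain ⟨hμ, hb'⟩ := h2 b hb
  have hT := hS.T_pos
  have hj := hS.j_pos
  set Y := (Ws G A h 1).filter (G.Adj b) with hY
  have hsub : (R.filter fun g => g j = b) ⊆
      Y.biUnion fun z => P.filter fun g => g (j - 1) = z ∧ g j = b := fun g hg => by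
    obtain ⟨g1, g2⟩ := Finset.mem_filter.1 hg
    refine Finset.mem_biUnion.2 ⟨g (j - 1), Finset.mem_filter.2 ⟨?_, ?_⟩,
      Finset.mem_filter.2 ⟨hR g1, rfl, g2⟩⟩
    · have := h1 g g1 (j - 1) (Nat.sub_le _ _)
      rwa [show j - (j - 1) = 1 by omega] at this
    · have := (mem_Wk (hS.walk g (hR g1))).2 (j - 1) (by omega)
      rw [show j - 1 + 1 = j by omega, g2] at this
      exact this.symm
  have k0 : ((R.filter fun g => g j = b).card : ℝ) ≤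
      ∑ z ∈ Y, ((P.filter fun g => g (j - 1) = z ∧ g j = b).card : ℝ) := by
    exact_mod_cast (Finset.card_le_card hsub).trans Finset.card_biUnion_le
  have k1 : T * ∑ z ∈ Y, ((P.filter fun g => g (j - 1) = z ∧ g j = b).card : ℝ) ≤
      Y.card * μ b := by
    rw [Finset.mul_sum, ← nsmul_eq_mul]
    exact Finset.sum_le_card_nsmul _ _ _ fun z _ => hS.thin z b (j - 1) (by omega)
  have k3 := mul_le_mul_of_nonneg_left (hb'.trans k0) hT.le
  have k4 : (h : ℝ) ≤ Y.card := by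
    refine hh.trans (le_of_mul_le_mul_right ?_ hμ)
    nlinarith
  exact mem_Ws_succ.2 (by exact_mod_cast k4)

end Pool.Agent.Lib.MP_befe0b_co
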