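import Pool.Agent.Lib.MP_befe0b_co.L2Drc
import Pool.Agent.Lib.MP_befe0b_co.L2Clean
import Pool.Agent.Lib.MP_befe0b_co.L2Lost
import Pool.Agent.Lib.MP_befe0b_co.L2Link

/-! A large system contains every sparse bipartite graph. -/

open Finset
open scoped Classical

noncomputable section

namespace Pool.Agent.Lib.MP_befe0b_co

variable {V : Type*} [Fintype V] {G : SimpleGraph V}

theorem Sys.contained {ρ : ℝ} {j : ℕ} {X : Finset V} {P : Finset (ℕ → V)} {μ : V → ℝ}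
    (hS : Sys G (ρ ^ 100) (ρ ^ 99) j X P μ) (hP : 1 / ρ * (ρ ^ 100) ^ (j + 1) ≤ P.card)
    {W : Type*} [Fintype W] {H : SimpleGraph W} {M : ℕ} (hs : Sparse H M)
    (hM : 6 * (6 * (3 * j) + 1) ≤ M) (col : W → Bool) (hcol : ∀ x y, H.Adj x y → col x ≠ col y)
    (hρ : (10 * (j + 1) * (Fintype.card W + 20 * (j + 1)) : ℝ) ≤ ρ) : H.IsContained G := by
  obtain ⟨h, hh⟩ : ∃ h, h = Fintype.card W + 4 * (3 * j) := ⟨_, rfl⟩
  have hj1 : (1 : ℝ) ≤ j := by exact_mod_cast hS.j_pos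
  have hW : (0 : ℝ) ≤ Fintype.card W := Nat.cast_nonneg _
  have hφ : (j : ℝ) * ((h + 5 * (j + 1) : ℕ) : ℝ) ≤ ρ / 10 := by
    rw [hh]; push_cast; nlinarith
  have hh0 : (0 : ℝ) ≤ h := Nat.cast_nonneg _
  have hφ' : ((h + 5 * (j + 1) : ℕ) : ℝ) = h + 5 * (j + 1) := by push_cast; ring
  have hjh : (j : ℝ) * h ≤ ρ / 10 := by rw [hφ'] at hφ; nlinarith
  have hjj : (j : ℝ) ^ 2 ≤ ρ / 10 := by rw [hφ'] at hφ; nlinarith
  have h800 : 800 ≤ ρ := by nlinarith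
  have h1 : 1 ≤ ρ := by linarith
  have h0 : 0 < ρ := by linarith
  have hpow : ∀ a b : ℕ, a < b → 800 * ρ ^ a ≤ ρ ^ b := by
    intro a b hab
    calc 800 * ρ ^ a ≤ ρ * ρ ^ a := by gcongr
      _ = ρ ^ (a + 1) := by ring
      _ ≤ ρ ^ b := pow_le_pow_right₀ h1 hab
  obtain ⟨D0, hD0⟩ : ∃ D0, D0 = (ρ ^ 100) ^ j := ⟨_, rfl⟩
  have hD0p : 0 < D0 := by rw [hD0]; positivity
  have hΩ : (ρ ^ 100) ^ (j + 1) = D0 * ρ ^ 100 := by rw [hD0, pow_succ]
  obtain ⟨τ, hτ⟩ : ∃ τ, τ = D0 / ρ ^ 135 := ⟨_, rfl⟩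
  have hτp : 0 < τ := by rw [hτ]; positivity
  have htot : ∑ c ∈ X, ∑ b, ((P.filter fun g => g 0 = c ∧ g j = b).card : ℝ) = P.card := by
    have e1 : ∀ c, ∑ b, (P.filter fun g => g 0 = c ∧ g j = b).card =
        (P.filter fun g => g 0 = c).card := by
      intro c
      rw [card_eq_sum_card_fiberwise (f := fun g : ℕ → V => g j) (t := univ)
        (fun _ _ => mem_coe.2 (mem_univ _))]
      refine sum_congr rfl fun b _ => ?_
      rw [filter_filter]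
    have e2 : P.card = ∑ c ∈ X, (P.filter fun g => g 0 = c).card :=
      card_eq_sum_card_fiberwise (f := fun g : ℕ → V => g 0) (fun g hg => hS.hub g hg)
    rw [e2]
    push_cast
    exact sum_congr rfl fun c _ => by exact_mod_cast e1 c
  obtain ⟨U, -, hU1, hU2⟩ := drc_two X
    (fun c b => ((P.filter fun g => g 0 = c ∧ g j = b).card : ℝ)) μ (Δ := ρ ^ 100) (T := ρ ^ 99)
    (lam := 1 / ρ ^ 3) (Ω := (ρ ^ 100) ^ (j + 1)) (η := 1 / ρ) (σ := 2 * τ)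
    (fun _ _ => Nat.cast_nonneg _) hS.T_pos (fun c b => hS.thin c b 0 hS.j_pos) hS.card_X
    (by positivity) (by positivity) (by positivity) (by positivity) (by positivity) hS.sum_mu
    (hP.trans hS.card_le) (by rw [htot]; exact hP) (by
      have := hpow 97 98 (by norm_num)
      have e1 : 2 * (1 / ρ ^ 3) * ρ ^ 100 = 2 * ρ ^ 97 := by field_simp
      have e2 : ρ ^ 99 * (1 / ρ) = ρ ^ 98 := by field_simp
      have : 0 < ρ ^ 97 := by positivity
      rw [e1, e2]; linarith)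
  have eU1 : (1 / ρ ^ 3) ^ 2 * ρ ^ 100 / 2 = ρ ^ 94 / 2 := by field_simp
  have eU2 : 2 * ρ ^ 100 * ((ρ ^ 99) ^ 2 * (2 * τ) /
      (1 / ρ * (ρ ^ 100) ^ (j + 1) * (1 / ρ ^ 3) ^ 2)) ^ 2 / (1 / ρ ^ 3) ^ 2 = 8 * ρ ^ 46 := by
    rw [hΩ, hτ]; field_simp; ring
  rw [eU1] at hU1
  rw [eU2] at hU2
  have hθ : (0 : ℝ) ≤ 1 / ρ ^ 45 := by positivity
  have hθT : 1 / ρ ^ 45 * ρ ^ 99 = ρ ^ 54 := by field_simp
  obtain ⟨A, R, D, hRQ, hlev, hA, hDP, hD, hc1, hc2⟩ :=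
    hS.clean (P.filter fun g => g 0 ∈ U) (filter_subset _ _) h hθ
  have hRP : R ⊆ P := hRQ.trans (filter_subset _ _)
  have hlost := hS.lost U A R D hθ hτp hRQ hDP hc1 hc2
  obtain ⟨bad, hbad⟩ : ∃ bad, bad = (U ×ˢ U).filter fun z => mDis j R μ z.1 z.2 < τ := ⟨_, rfl⟩
  rw [← hbad] at hlost
  have hU0 : (0 : ℝ) < U.card := lt_of_lt_of_le (by positivity) hU1
  have hbadc : (bad.card : ℝ) ≤ U.card * (5 * ρ ^ 51) := by
    have e1 : 2 * (D.card : ℝ) + (1 / ρ ^ 45) ^ 2 * (ρ ^ 100) ^ (j + 1) +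
        (j : ℝ) ^ 2 * (ρ ^ 100) ^ (j + 1) / ρ ^ 99 ≤ τ * (2 * ρ ^ 145) := by
      rw [← hD0] at hD
      have f1 : (1 / ρ ^ 45) ^ 2 * (D0 * ρ ^ 100) = D0 * ρ ^ 10 := by field_simp
      have f2 : (j : ℝ) ^ 2 * (D0 * ρ ^ 100) / ρ ^ 99 = D0 * ((j : ℝ) ^ 2 * ρ) := by field_simp
      have f3 : τ * (2 * ρ ^ 145) = D0 * (2 * ρ ^ 10) := by rw [hτ]; field_simp
      rw [hΩ, f1, f2, f3]
      have f4 := hpow 2 10 (by norm_num)
      have f5 : (j : ℝ) ^ 2 * ρ ≤ ρ ^ 2 := by nlinarith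
      have f6 : 2 * ((j : ℝ) * h) ≤ ρ ^ 2 := by nlinarith
      have f7 : 2 * ((j : ℝ) * h) + (j : ℝ) ^ 2 * ρ ≤ ρ ^ 10 := by nlinarith
      nlinarith [mul_le_mul_of_nonneg_left f7 hD0p.le]
    have e2 : (bad.card : ℝ) ≤ U.card * (8 * ρ ^ 46) + 2 * ρ ^ 145 := by
      refine le_of_mul_le_mul_left ?_ hτp
      have := mul_le_mul_of_nonneg_left hU2 hτp.le
      unfold mAll at hlost
      linarith
    have e3 : 2 * ρ ^ 145 ≤ U.card * (4 * ρ ^ 51) := by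
      calc 2 * ρ ^ 145 = ρ ^ 94 / 2 * (4 * ρ ^ 51) := by ring
        _ ≤ _ := by gcongr
    have e4 : (U.card : ℝ) * (8 * ρ ^ 46) ≤ U.card * ρ ^ 51 := by
      have := hpow 46 51 (by norm_num)
      have : 0 < ρ ^ 46 := by positivity
      gcongr
      linarith
    linarith
  obtain ⟨Y, hY⟩ : ∃ Y, Y = U.filter fun c =>
      (U.card : ℝ) < 4 * ((U.filter fun e => mDis j R μ c e < τ).card : ℝ) := ⟨_, rfl⟩
  have hYc : (Y.card : ℝ) ≤ 20 * ρ ^ 51 := by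
    have e1 : bad.card = ∑ c ∈ U, (U.filter fun e => mDis j R μ c e < τ).card := by
      rw [hbad, card_filter, sum_product]
      exact sum_congr rfl fun c _ => (card_filter _ _).symm
    have e2 : (Y.card : ℝ) * U.card ≤ 4 * bad.card := by
      rw [e1]
      push_cast
      rw [mul_sum]
      calc (Y.card : ℝ) * U.card = ∑ _c ∈ Y, (U.card : ℝ) := by simp
        _ ≤ ∑ c ∈ Y, 4 * ((U.filter fun e => mDis j R μ c e < τ).card : ℝ) :=
          sum_le_sum fun c hc => by rw [hY] at hc; exact (mem_filter.1 hc).2.le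
        _ ≤ _ := sum_le_sum_of_subset_of_nonneg (by rw [hY]; exact filter_subset _ _)
          fun _ _ _ => by positivity
    refine le_of_mul_le_mul_right ?_ hU0
    linarith
  have hmid : ∀ c c', (c ∈ U ∧ c ∉ Y) → (c' ∈ U ∧ c' ∉ Y) → ∀ F : Finset V,
      F.card ≤ h + 5 * (j + 1) → ∃ e, e ∉ F ∧ τ ≤ mDis j R μ c e ∧ τ ≤ mDis j R μ c' e := by
    intro c c' hc hc' F hF
    by_contra hno
    push Not at hno
    have e1 : U ⊆ F ∪ (U.filter fun e => mDis j R μ c e < τ) ∪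
        (U.filter fun e => mDis j R μ c' e < τ) := by
      intro e he
      by_cases h1 : e ∈ F
      · exact mem_union_left _ (mem_union_left _ h1)
      · by_cases h2 : τ ≤ mDis j R μ c e
        · exact mem_union_right _ (mem_filter.2 ⟨he, hno e h1 h2⟩)
        · exact mem_union_left _ (mem_union_right _ (mem_filter.2 ⟨he, not_le.1 h2⟩))
    have e2 := (card_le_card e1).trans ((card_union_le _ _).trans
      (Nat.add_le_add_right (card_union_le _ _) _))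
    have e3 : (U.card : ℝ) ≤ F.card + (U.filter fun e => mDis j R μ c e < τ).card +
        (U.filter fun e => mDis j R μ c' e < τ).card := by exact_mod_cast e2
    have e4 : ∀ a, a ∈ U ∧ a ∉ Y →
        4 * ((U.filter fun e => mDis j R μ a e < τ).card : ℝ) ≤ U.card := fun a ha =>
      not_lt.1 fun hlt => ha.2 (by rw [hY]; exact mem_filter.2 ⟨ha.1, hlt⟩)
    have e5 := e4 c hc
    have e6 := e4 c' hc'
    have e7 : (F.card : ℝ) ≤ ((h + 5 * (j + 1) : ℕ) : ℝ) := by exact_mod_cast hF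
    have e8 : ((h + 5 * (j + 1) : ℕ) : ℝ) ≤ ρ / 10 :=
      le_trans (le_mul_of_one_le_left (Nat.cast_nonneg _) hj1) hφ
    have e9 := hpow 1 94 (by norm_num)
    rw [pow_one] at e9
    linarith
  have hpair : ∀ c e, τ ≤ mDis j R μ c e → ∀ F : Finset V, F.card ≤ h + 5 * (j + 1) →
      ∃ p ∈ R, ∃ q ∈ R, p 0 = c ∧ q 0 = e ∧ p j = q j ∧ (∀ a < j, ∀ b < j, p a ≠ q b) ∧
        ∀ i, 1 ≤ i → i ≤ j → p i ∉ F ∧ q i ∉ F := by
    intro c e hce F hF
    refine hS.pair R hRP c e F ?_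
    have e7 : (F.card : ℝ) ≤ ((h + 5 * (j + 1) : ℕ) : ℝ) := by exact_mod_cast hF
    have e1 : (j : ℝ) * F.card ≤ ρ / 10 := le_trans (by gcongr) hφ
    have e2 : ρ ^ 100 * ρ ^ 99 * τ = ρ ^ 64 * D0 := by rw [hτ]; field_simp
    have e9 := hpow 1 64 (by norm_num)
    rw [pow_one] at e9
    rw [← hD0]
    calc 2 * (j : ℝ) * F.card * D0 < ρ ^ 64 * D0 := by
          refine mul_lt_mul_of_pos_right ?_ hD0p
          linarith
      _ = ρ ^ 100 * ρ ^ 99 * τ := e2.symm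
      _ ≤ _ := by gcongr
  have hup : ∀ b ∈ A, ∀ F : Finset V, F.card ≤ h + 5 * (j + 1) →
      ∃ f ∈ R, f j = b ∧ (f 0 ∈ U ∧ f 0 ∉ Y) ∧ ∀ i < j, f i ∉ F := by
    intro b hb F hF
    have e7 : (F.card : ℝ) ≤ ((h + 5 * (j + 1) : ℕ) : ℝ) := by exact_mod_cast hF
    have e1 : (j : ℝ) * F.card ≤ ρ / 10 := le_trans (by gcongr) hφ
    obtain ⟨f, hf, f1, f2, f3⟩ := hS.up R hRP b (hA b hb).1 (hA b hb).2 F Y (by
      have e2 := hpow 1 54 (by norm_num)
      have e3 := hpow 51 54 (by norm_num)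
      have e4 : 0 < ρ ^ 54 := by positivity
      rw [pow_one] at e2
      rw [hθT]
      linarith)
    exact ⟨f, hf, f1, ⟨(mem_filter.1 (hRQ hf)).2, f2⟩, f3⟩
  have hA2 : A ⊆ Ws G A h 2 := hS.two_step R hRP A h hlev hA (by
    have e2 := hpow 1 54 (by norm_num)
    rw [pow_one] at e2
    have e3 : (h : ℝ) ≤ j * h := le_mul_of_one_le_left hh0 hj1
    rw [hθT]
    linarith)
  have hAne : A.Nonempty := by
    have e1 : Y.card < U.card := by
      have e2 := hpow 51 94 (by norm_num)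
      have e3 : 0 < ρ ^ 51 := by positivity
      have : (Y.card : ℝ) < U.card := by linarith
      exact_mod_cast this
    obtain ⟨c, hc, hcY⟩ := exists_mem_notMem_of_card_lt_card e1
    obtain ⟨e, -, he, -⟩ := hmid c c ⟨hc, hcY⟩ ⟨hc, hcY⟩ ∅ (by simp)
    obtain ⟨p, hp, -⟩ := hpair c e he ∅ (by simp)
    have := hlev p hp j le_rfl
    rw [Nat.sub_self] at this
    exact ⟨p j, this⟩
  exact contained_of_link (K := 3 * j) (φ := h) hs hM (by have := hS.j_pos; omega) col hcol hA2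
    hAne hh.ge hh.ge
    (link_six hS.j_pos A hA2 R (fun c => c ∈ U ∧ c ∉ Y) (fun c e => τ ≤ mDis j R μ c e)
      (fun g hg => (mem_Wk (hS.walk g (hRP hg))).2) (fun g hg => hS.inj g (hRP hg)) hlev hup hmid
      hpair)

end Pool.Agent.Lib.MP_befe0b_co
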