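import Mathlib

/-! Dependent random choice with two weighted samples. -/

open Finset
open scoped Classical

noncomputable section

namespace Pool.Agent.Lib.MP_befe0b_co

/-- A weighted mean is attained. -/
private lemma L2Drc_mean {ι : Type*} [Fintype ι] (ν f : ι → ℝ) (a : ℝ) (hν : ∀ i, 0 ≤ ν i)
    (hpos : 0 < ∑ i, ν i) (h : a * ∑ i, ν i ≤ ∑ i, ν i * f i) : ∃ i, a ≤ f i := by
  by_contra hcon
  push Not at hcon
  obtain ⟨i0, hi0⟩ : ∃ i, 0 < ν i := by
    by_contra h2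
    push Not at h2
    have : ∑ i, ν i ≤ 0 := Finset.sum_nonpos fun i _ => h2 i
    linarith
  have hlt : ∑ i, ν i * f i < ∑ i, ν i * a := by
    apply Finset.sum_lt_sum
    · intro i _
      exact mul_le_mul_of_nonneg_left (hcon i).le (hν i)
    · exact ⟨i0, Finset.mem_univ _, mul_lt_mul_of_pos_left (hcon i0) hi0⟩
  rw [← Finset.sum_mul] at hlt
  linarith

/-- Double counting over two samples. -/
private lemma L2Drc_swap {α B : Type*} [Fintype B] (Y : Finset α) (p : α → B → Prop)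
    (μ : B → ℝ) :
    ∑ z : B × B, μ z.1 * μ z.2 * ((Y.filter fun c => p c z.1 ∧ p c z.2).card : ℝ) =
      ∑ c ∈ Y, (∑ b, if p c b then μ b else 0) ^ 2 := by
  have h1 : ∀ z : B × B, μ z.1 * μ z.2 * ((Y.filter fun c => p c z.1 ∧ p c z.2).card : ℝ) =
      ∑ c ∈ Y, (if p c z.1 then μ z.1 else 0) * (if p c z.2 then μ z.2 else 0) := by
    intro z
    rw [Finset.card_filter]
    push_cast
    rw [Finset.mul_sum]
    refine Finset.sum_congr rfl fun c _ => ?_
    by_cases h1 : p c z.1 <;> by_cases h2 : p c z.2 <;> simp [h1, h2]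
  simp_rw [h1]
  rw [Finset.sum_comm]
  refine Finset.sum_congr rfl fun c _ => ?_
  rw [sq, Finset.sum_mul_sum, ← Finset.univ_product_univ, Finset.sum_product]

theorem drc_two {V B : Type*} [Fintype B] (X : Finset V) (w : V → B → ℝ) (μ : B → ℝ)
    {Δ T lam Ω η σ : ℝ} (hw : ∀ c b, 0 ≤ w c b) (hT : 0 < T) (hthin : ∀ c b, T * w c b ≤ μ b)
    (hX : (X.card : ℝ) ≤ Δ) (hΔ : 0 < Δ) (hΩ : 0 < Ω) (hη : 0 < η) (hσ : 0 < σ)
    (hlam : 0 < lam) (hZ1 : ∑ b, μ b ≤ Ω) (hZ2 : η * Ω ≤ ∑ b, μ b)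
    (htot : η * Ω ≤ ∑ c ∈ X, ∑ b, w c b) (hl : 2 * lam * Δ ≤ T * η) :
    ∃ U ⊆ X, lam ^ 2 * Δ / 2 ≤ U.card ∧
      (((U ×ˢ U).filter fun z => ∑ b, w z.1 b * w z.2 b / μ b < σ).card : ℝ) ≤
        U.card * (2 * Δ * (T ^ 2 * σ / (η * Ω * lam ^ 2)) ^ 2 / lam ^ 2) := by
  have hηΩ : 0 < η * Ω := mul_pos hη hΩ
  obtain ⟨c0, -⟩ : X.Nonempty := by
    rcases X.eq_empty_or_nonempty with h | h
    · rw [h, Finset.sum_empty] at htot
      linarith
    · exact h
  have hμ : ∀ b, 0 ≤ μ b := fun b => le_trans (mul_nonneg hT.le (hw c0 b)) (hthin c0 b)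
  set Z : ℝ := ∑ b, μ b with hZ
  have hZpos : 0 < Z := lt_of_lt_of_le hηΩ hZ2
  set π : ℝ := T ^ 2 * σ / (η * Ω * lam ^ 2) with hπ
  have hπpos : 0 < π := by positivity
  let p : V → B → Prop := fun c b => lam * μ b ≤ T * w c b
  let q : V → ℝ := fun c => ∑ b, if p c b then μ b else 0
  -- the first moment
  have hq1 : ∀ c, T * ∑ b, w c b ≤ lam * Z + q c := by
    intro c
    simp only [q, hZ]
    rw [Finset.mul_sum, Finset.mul_sum, ← Finset.sum_add_distrib]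
    refine Finset.sum_le_sum fun b _ => ?_
    by_cases h : p c b
    · rw [if_pos h]
      have := hthin c b
      have := mul_nonneg hlam.le (hμ b)
      linarith
    · rw [if_neg h]
      simp only [p, not_le] at h
      linarith
  have hq2 : lam * Δ * Z ≤ ∑ c ∈ X, q c := by
    have h1 : T * (η * Ω) ≤ ∑ c ∈ X, (lam * Z + q c) := by
      calc T * (η * Ω) ≤ T * ∑ c ∈ X, ∑ b, w c b := mul_le_mul_of_nonneg_left htot hT.le
        _ = ∑ c ∈ X, T * ∑ b, w c b := by rw [Finset.mul_sum]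
        _ ≤ _ := Finset.sum_le_sum fun c _ => hq1 c
    rw [Finset.sum_add_distrib, Finset.sum_const, nsmul_eq_mul] at h1
    have h2 : (X.card : ℝ) * (lam * Z) ≤ Δ * (lam * Z) :=
      mul_le_mul_of_nonneg_right hX (by positivity)
    have h3 : 2 * lam * Δ * Z ≤ T * η * Z := mul_le_mul_of_nonneg_right hl hZpos.le
    have h4 : T * η * Z ≤ T * η * Ω := mul_le_mul_of_nonneg_left hZ1 (by positivity)
    nlinarith
  have hq3 : lam ^ 2 * Δ * Z ^ 2 ≤ ∑ c ∈ X, q c ^ 2 := by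
    have h1 : (∑ c ∈ X, q c) ^ 2 ≤ X.card * ∑ c ∈ X, q c ^ 2 := sq_sum_le_card_mul_sum_sq
    have h2 : (lam * Δ * Z) ^ 2 ≤ (∑ c ∈ X, q c) ^ 2 :=
      pow_le_pow_left₀ (by positivity) hq2 2
    have h3 : (X.card : ℝ) * ∑ c ∈ X, q c ^ 2 ≤ Δ * ∑ c ∈ X, q c ^ 2 :=
      mul_le_mul_of_nonneg_right hX (Finset.sum_nonneg fun c _ => sq_nonneg _)
    have h4 : Δ * (lam ^ 2 * Δ * Z ^ 2) ≤ Δ * ∑ c ∈ X, q c ^ 2 := by nlinarith
    exact le_of_mul_le_mul_left h4 hΔ
  -- bad pairs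
  let bad : V × V → Prop := fun z => ∑ b, w z.1 b * w z.2 b / μ b < σ
  let Y : Finset (V × V) := (X ×ˢ X).filter bad
  let p2 : V × V → B → Prop := fun z b => p z.1 b ∧ p z.2 b
  have hr : ∀ z ∈ Y, (∑ b, if p2 z b then μ b else 0) ≤ π * Z := by
    intro z hz
    have hb : bad z := (Finset.mem_filter.mp hz).2
    have h1 : lam ^ 2 * (∑ b, if p2 z b then μ b else 0) ≤
        T ^ 2 * ∑ b, w z.1 b * w z.2 b / μ b := by
      rw [Finset.mul_sum, Finset.mul_sum]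
      refine Finset.sum_le_sum fun b _ => ?_
      have hnn : 0 ≤ T ^ 2 * (w z.1 b * w z.2 b / μ b) :=
        mul_nonneg (sq_nonneg _) (div_nonneg (mul_nonneg (hw _ _) (hw _ _)) (hμ b))
      by_cases h : p2 z b
      · rw [if_pos h]
        rcases (hμ b).eq_or_lt with h0 | h0
        · rw [← h0] at hnn ⊢
          simp
        · obtain ⟨ha, hb'⟩ := h
          simp only [p] at ha hb'
          have h5 : (lam * μ b) * (lam * μ b) ≤ (T * w z.1 b) * (T * w z.2 b) :=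
            mul_le_mul ha hb' (by positivity) (mul_nonneg hT.le (hw _ _))
          rw [← mul_div_assoc, le_div_iff₀ h0]
          nlinarith
      · rw [if_neg h, mul_zero]
        exact hnn
    have h2 : T ^ 2 * ∑ b, w z.1 b * w z.2 b / μ b ≤ T ^ 2 * σ :=
      mul_le_mul_of_nonneg_left (le_of_lt hb) (sq_nonneg _)
    have h3 : T ^ 2 * σ = lam ^ 2 * (π * (η * Ω)) := by
      rw [hπ]
      field_simp
    have h4 : π * (η * Ω) ≤ π * Z := mul_le_mul_of_nonneg_left hZ2 hπpos.le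
    have h5 : lam ^ 2 * (∑ b, if p2 z b then μ b else 0) ≤ lam ^ 2 * (π * Z) := by
      have := mul_le_mul_of_nonneg_left h4 (sq_nonneg lam)
      linarith
    exact le_of_mul_le_mul_left h5 (by positivity)
  have hYcard : (Y.card : ℝ) ≤ Δ ^ 2 := by
    have h1 : Y.card ≤ (X ×ˢ X).card := Finset.card_filter_le _ _
    rw [Finset.card_product] at h1
    have h2 : (Y.card : ℝ) ≤ (X.card : ℝ) * X.card := by exact_mod_cast h1
    have h3 : (0 : ℝ) ≤ X.card := Nat.cast_nonneg _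
    nlinarith
  have hbad : ∑ z ∈ Y, (∑ b, if p2 z b then μ b else 0) ^ 2 ≤ Δ ^ 2 * (π * Z) ^ 2 := by
    calc ∑ z ∈ Y, (∑ b, if p2 z b then μ b else 0) ^ 2 ≤ ∑ z ∈ Y, (π * Z) ^ 2 := by
          refine Finset.sum_le_sum fun z hz => ?_
          refine pow_le_pow_left₀ (Finset.sum_nonneg fun b _ => ?_) (hr z hz) 2
          split_ifs
          · exact hμ b
          · exact le_rfl
      _ = Y.card * (π * Z) ^ 2 := by rw [Finset.sum_const, nsmul_eq_mul]
      _ ≤ _ := mul_le_mul_of_nonneg_right hYcard (sq_nonneg _)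
  -- the choice
  set κ : ℝ := lam ^ 2 / (2 * Δ * π ^ 2) with hκ
  have hκpos : 0 < κ := by positivity
  let U : B × B → Finset V := fun z => X.filter fun c => p c z.1 ∧ p c z.2
  let W : B × B → Finset (V × V) := fun z => Y.filter fun y => p2 y z.1 ∧ p2 y z.2
  have hνsum : ∑ z : B × B, μ z.1 * μ z.2 = Z ^ 2 := by
    rw [sq, hZ, Finset.sum_mul_sum, ← Finset.univ_product_univ, Finset.sum_product]
  have hmean : ∃ z : B × B, lam ^ 2 * Δ / 2 ≤ ((U z).card : ℝ) - κ * (W z).card := by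
    refine L2Drc_mean (fun z : B × B => μ z.1 * μ z.2) _ _
      (fun z => mul_nonneg (hμ _) (hμ _)) (by rw [hνsum]; positivity) ?_
    have e1 := L2Drc_swap X p μ
    have e2 := L2Drc_swap Y p2 μ
    have e3 : ∑ z : B × B, μ z.1 * μ z.2 * (((U z).card : ℝ) - κ * (W z).card) =
        ∑ z : B × B, μ z.1 * μ z.2 * ((U z).card : ℝ) -
          κ * ∑ z : B × B, μ z.1 * μ z.2 * ((W z).card : ℝ) := by
      rw [Finset.mul_sum, ← Finset.sum_sub_distrib]
      refine Finset.sum_congr rfl fun z _ => ?_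
      ring
    have e4 : ∑ z : B × B, μ z.1 * μ z.2 * ((U z).card : ℝ) = ∑ c ∈ X, q c ^ 2 := by
      convert e1
    have e5 : ∑ z : B × B, μ z.1 * μ z.2 * ((W z).card : ℝ) =
        ∑ z ∈ Y, (∑ b, if p2 z b then μ b else 0) ^ 2 := by
      convert e2
    rw [hνsum, e3, e4, e5]
    have h6 : κ * ∑ z ∈ Y, (∑ b, if p2 z b then μ b else 0) ^ 2 ≤ κ * (Δ ^ 2 * (π * Z) ^ 2) :=
      mul_le_mul_of_nonneg_left hbad hκpos.le
    have h7 : κ * (Δ ^ 2 * (π * Z) ^ 2) = lam ^ 2 * Δ * Z ^ 2 / 2 := by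
      rw [hκ]
      field_simp
    linarith
  obtain ⟨z, hz⟩ := hmean
  have hW0 : 0 ≤ κ * ((W z).card : ℝ) := by positivity
  refine ⟨U z, Finset.filter_subset _ _, by linarith, ?_⟩
  have hsub : ((U z ×ˢ U z).filter fun y => ∑ b, w y.1 b * w y.2 b / μ b < σ) ⊆ W z := by
    intro y hy
    simp only [U, Finset.mem_filter, Finset.mem_product] at hy
    simp only [W, Y, p2, bad, Finset.mem_filter, Finset.mem_product]
    exact ⟨⟨⟨hy.1.1.1, hy.1.2.1⟩, hy.2⟩, ⟨hy.1.1.2.1, hy.1.2.2.1⟩, ⟨hy.1.1.2.2, hy.1.2.2.2⟩⟩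
  have hc : ((((U z ×ˢ U z).filter fun y => ∑ b, w y.1 b * w y.2 b / μ b < σ).card : ℕ) : ℝ) ≤
      (W z).card := by exact_mod_cast Finset.card_le_card hsub
  have h8 : κ * ((W z).card : ℝ) ≤ (U z).card := by
    have : 0 ≤ lam ^ 2 * Δ / 2 := by positivity
    linarith
  have h9 : ((W z).card : ℝ) ≤ (U z).card * (2 * Δ * π ^ 2 / lam ^ 2) := by
    have e : (2 * Δ * π ^ 2 / lam ^ 2) = κ⁻¹ := by
      rw [hκ, inv_div]
    rw [e, ← div_eq_mul_inv, le_div_iff₀ hκpos]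
    linarith
  exact le_trans hc h9

end Pool.Agent.Lib.MP_befe0b_co
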