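import Pool.Agent.Lib.MP_befe0b_co.Basic

/-! The deletion method inside a complete bipartite graph. -/

open Finset Filter
open scoped Classical

noncomputable section

namespace Pool.Agent.Lib.MP_befe0b_co

lemma sum_col {Ω : Type*} [Fintype Ω] (q : ℕ) (E : Finset Ω) :
    ∑ χ : Ω → Fin (q + 1), (if ∀ e ∈ E, χ e = 0 then (1 : ℝ) else 0) =
      ((q + 1 : ℕ) : ℝ) ^ Fintype.card Ω * (1 / ((q + 1 : ℕ) : ℝ) ^ E.card) := by
  rw [← Finset.sum_filter]
  have h1 : (univ.filter fun χ : Ω → Fin (q + 1) => ∀ e ∈ E, χ e = 0) =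
      Fintype.piFinset fun e => if e ∈ E then {0} else univ := by
    ext χ
    simp only [Finset.mem_filter, Finset.mem_univ, true_and, Fintype.mem_piFinset]
    refine forall_congr' fun e => ?_
    by_cases h : e ∈ E <;> simp [h]
  have h2 : ∏ e : Ω, (if e ∈ E then ({0} : Finset (Fin (q + 1))) else univ).card =
      (q + 1) ^ Eᶜ.card := by
    rw [← Finset.prod_mul_prod_compl E, Finset.prod_eq_one fun e he => by simp [he], one_mul,
      Finset.prod_congr rfl (g := fun _ => q + 1) fun e he => by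
        simp [Finset.mem_compl.1 he], Finset.prod_const]
  rw [h1, Finset.sum_const, Fintype.card_piFinset, h2, nsmul_eq_mul, mul_one,
    ← Finset.card_add_card_compl E, pow_add]
  push_cast
  field_simp

lemma deletion {Ω κ : Type*} [Fintype Ω] [Nonempty Ω] (q : ℕ) (Bs : Finset Ω) (K : Finset κ)
    (E : κ → Finset Ω) (hE : ∀ c ∈ K, (E c).Nonempty) :
    ∃ S ⊆ Bs, (∀ c ∈ K, ¬ E c ⊆ S) ∧
      Bs.card * (1 / ((q + 1 : ℕ) : ℝ)) - ∑ c ∈ K, 1 / ((q + 1 : ℕ) : ℝ) ^ (E c).card ≤ S.card := by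
  let X : (Ω → Fin (q + 1)) → ℝ := fun χ => ∑ b ∈ Bs, if ∀ e ∈ ({b} : Finset Ω), χ e = 0 then 1 else 0
  let Y : (Ω → Fin (q + 1)) → ℝ := fun χ => ∑ c ∈ K, if ∀ e ∈ E c, χ e = 0 then 1 else 0
  obtain ⟨χ, -, hχ⟩ : ∃ χ ∈ (univ : Finset (Ω → Fin (q + 1))), Bs.card * (1 / ((q + 1 : ℕ) : ℝ)) -
      ∑ c ∈ K, 1 / ((q + 1 : ℕ) : ℝ) ^ (E c).card ≤ X χ - Y χ := by
    refine Finset.exists_le_of_sum_le Finset.univ_nonempty (le_of_eq ?_)
    rw [Finset.sum_sub_distrib (f := X)]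
    simp only [X, Y]
    rw [Finset.sum_comm (t := Bs), Finset.sum_comm (t := K)]
    simp only [sum_col]
    rw [← Finset.mul_sum, ← Finset.mul_sum, ← mul_sub]
    simp [mul_sub]
  choose! ε hε using hE
  set K' := K.filter fun c => ∀ e ∈ E c, χ e = 0 with hK'
  set S0 := Bs.filter fun b => χ b = 0 with hS0
  refine ⟨S0 \ K'.image ε, Finset.sdiff_subset.trans (Finset.filter_subset _ _),
    fun c hc hsub => ?_, hχ.trans ?_⟩
  · have h1 : c ∈ K' := Finset.mem_filter.2 ⟨hc, fun e he =>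
      (Finset.mem_filter.1 (Finset.mem_sdiff.1 (hsub he)).1).2⟩
    exact (Finset.mem_sdiff.1 (hsub (hε c hc))).2 (Finset.mem_image_of_mem ε h1)
  · have h1 : X χ = S0.card := by
      simp only [X]
      rw [← Finset.sum_filter]
      simp [hS0]
    have h2 : Y χ = K'.card := by
      simp only [Y]
      rw [← Finset.sum_filter]
      simp [hK']
    have h3 : S0.card ≤ (S0 \ K'.image ε).card + K'.card :=
      Finset.card_le_card_sdiff_add_card.trans (by gcongr; exact Finset.card_image_le)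
    have h4 : (S0.card : ℝ) ≤ (S0 \ K'.image ε).card + K'.card := by exact_mod_cast h3
    linarith

/-- the potential copies of a graph that is not both bipartite and sparse -/
lemma exists_copies {W V : Type*} [Fintype W] [Fintype V] [Nonempty V] (H : SimpleGraph W) {M : ℕ}
    (h : ¬ ((∃ col : W → Bool, ∀ x y, H.Adj x y → col x ≠ col y) ∧ Sparse H M))
    {x q : ℝ} (hx : 1 ≤ x) (hxn : x ^ (M + 1) = Fintype.card V) (hq : x ^ M ≤ q) :
    ∃ (Ψ : Finset (W → V)) (E : (W → V) → Finset (Sym2 V)), (∀ ψ ∈ Ψ, (E ψ).Nonempty) ∧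
      ∑ ψ ∈ Ψ, 1 / q ^ (E ψ).card ≤ (Fintype.card V : ℝ) ^ 2 / (q * x) ∧
      ∀ (G : SimpleGraph V) (side : V → Bool), (∀ a b, G.Adj a b → side a ≠ side b) →
        H.IsContained G → ∃ ψ ∈ Ψ, ∀ e ∈ E ψ, e ∈ G.edgeSet := by
  have hq1 : 1 ≤ q := (one_le_pow₀ hx).trans hq
  by_cases hb : ∃ col : W → Bool, ∀ x y, H.Adj x y → col x ≠ col y
  swap
  · refine ⟨∅, fun _ => ∅, by simp, by simp; positivity, fun G side hs ⟨φ⟩ => ?_⟩
    exact absurd ⟨fun w => side (φ w), fun a b hab => hs _ _ (φ.toHom.map_adj hab)⟩ hb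
  have hsp : ¬ Sparse H M := fun h' => h ⟨hb, h'⟩
  simp only [Sparse, not_forall, not_le] at hsp
  obtain ⟨T, hT3, hT⟩ := hsp
  obtain ⟨v0⟩ := ‹Nonempty V›
  set P := (T ×ˢ T).filter fun p => H.Adj p.1 p.2 with hP
  have hPc : P.card = sg H T := by
    rw [hP, Finset.card_filter, Finset.sum_product, sg]
    exact Finset.sum_congr rfl fun a _ => (dg_eq_sum T a).symm
  let E : (W → V) → Finset (Sym2 V) := fun ψ => P.image fun p => s(ψ p.1, ψ p.2)
  let Ψ : Finset (W → V) := (Fintype.piFinset fun w => if w ∈ T then univ else {v0}).filter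
    fun ψ => ∀ a ∈ T, ∀ b ∈ T, ψ a = ψ b → a = b
  obtain ⟨t, ht⟩ : ∃ t, T.card = t + 2 := ⟨T.card - 2, by omega⟩
  have hE : ∀ ψ ∈ Ψ, ∃ e, (E ψ).card = e + 1 ∧ (M + 1) * t + 1 ≤ M * e := by
    intro ψ hψ
    have hinj := (Finset.mem_filter.1 hψ).2
    have h1 : P.card ≤ 2 * (E ψ).card := by
      refine Finset.card_le_mul_card_image P 2 fun a ha => ?_
      obtain ⟨p, hp, rfl⟩ := Finset.mem_image.1 ha
      refine le_trans (Finset.card_le_card (t := {p, p.swap}) fun r hr => ?_) Finset.card_le_two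
      obtain ⟨hr1, hr2⟩ := Finset.mem_filter.1 hr
      have hp' := Finset.mem_product.1 (Finset.mem_filter.1 hp).1
      have hr' := Finset.mem_product.1 (Finset.mem_filter.1 hr1).1
      rw [Finset.mem_insert, Finset.mem_singleton]
      rcases Sym2.eq_iff.1 hr2 with ⟨h2, h3⟩ | ⟨h2, h3⟩
      · exact Or.inl (Prod.ext (hinj _ hr'.1 _ hp'.1 h2) (hinj _ hr'.2 _ hp'.2 h3))
      · exact Or.inr (Prod.ext (hinj _ hr'.1 _ hp'.2 h2) (hinj _ hr'.2 _ hp'.1 h3))
    rw [hPc] at h1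
    have h2 := Nat.mul_le_mul_left M h1
    rw [ht] at hT
    rcases Nat.eq_zero_or_pos (E ψ).card with h3 | h3
    · rw [h3] at h2
      nlinarith
    · obtain ⟨e, he⟩ : ∃ e, (E ψ).card = e + 1 := ⟨(E ψ).card - 1, by omega⟩
      refine ⟨e, he, ?_⟩
      rw [he] at h2
      nlinarith
  have hΨc : Ψ.card ≤ Fintype.card V ^ (t + 2) := by
    refine (Finset.card_filter_le _ _).trans (le_of_eq ?_)
    rw [Fintype.card_piFinset, ← Finset.prod_mul_prod_compl T,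
      Finset.prod_eq_one (s := Tᶜ) fun e he => by simp [Finset.mem_compl.1 he], mul_one,
      Finset.prod_congr rfl (g := fun _ => Fintype.card V) fun e he => by simp [he],
      Finset.prod_const, ht]
  refine ⟨Ψ, E, fun ψ hψ => ?_, ?_, fun G side _ ⟨φ⟩ => ?_⟩
  · obtain ⟨e, he, -⟩ := hE ψ hψ
    exact Finset.card_pos.1 (by omega)
  · have hn : (0 : ℝ) < Fintype.card V := by rw [← hxn]; positivity
    have h1 : ∀ ψ ∈ Ψ, 1 / q ^ (E ψ).card ≤ 1 / (q * x * (Fintype.card V : ℝ) ^ t) := by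
      intro ψ hψ
      obtain ⟨e, he, h2⟩ := hE ψ hψ
      refine one_div_le_one_div_of_le (by positivity) ?_
      rw [he, pow_succ', mul_assoc, ← hxn, ← pow_mul, ← pow_succ']
      refine mul_le_mul_of_nonneg_left ((pow_le_pow_right₀ hx h2).trans ?_) (by linarith)
      rw [pow_mul]
      exact pow_le_pow_left₀ (by positivity) hq e
    refine (Finset.sum_le_sum h1).trans ?_
    rw [Finset.sum_const, nsmul_eq_mul]
    have h2 : (Ψ.card : ℝ) ≤ (Fintype.card V : ℝ) ^ (t + 2) := by exact_mod_cast hΨc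
    calc _ ≤ (Fintype.card V : ℝ) ^ (t + 2) * (1 / (q * x * (Fintype.card V : ℝ) ^ t)) := by gcongr
      _ = _ := by field_simp; ring
  · refine ⟨fun w => if w ∈ T then φ w else v0, Finset.mem_filter.2 ⟨?_, ?_⟩, fun e he => ?_⟩
    · rw [Fintype.mem_piFinset]
      intro w
      by_cases hw : w ∈ T <;> simp [hw]
    · intro a ha b hb hab
      simp only [ha, hb, if_true] at hab
      exact φ.injective hab
    · obtain ⟨p, hp, rfl⟩ := Finset.mem_image.1 he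
      obtain ⟨hp1, hp2⟩ := Finset.mem_filter.1 hp
      have hp' := Finset.mem_product.1 hp1
      simp only [hp'.1, hp'.2, if_true, SimpleGraph.mem_edgeSet]
      exact φ.toHom.map_adj hp2

theorem lower {ι : Type*} [Fintype ι] {W : ι → Type*} [∀ i, Fintype (W i)]
    (H : ∀ i, SimpleGraph (W i)) (M : ℕ)
    (h : ∀ i, ¬ ((∃ col : W i → Bool, ∀ x y, (H i).Adj x y → col x ≠ col y) ∧ Sparse (H i) M)) :
    ∀ᶠ n : ℕ in atTop, ∃ G : SimpleGraph (Fin n), (∀ i, (H i).Free G) ∧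
      (n : ℝ) ^ (1 + ((M + 1 : ℕ) : ℝ)⁻¹) / 24 ≤ G.edgeSet.ncard := by
  have ht : Tendsto (fun n : ℕ => (n : ℝ) ^ (((M + 1 : ℕ) : ℝ)⁻¹)) atTop atTop :=
    (tendsto_rpow_atTop (by positivity)).comp tendsto_natCast_atTop_atTop
  filter_upwards [ht.eventually_ge_atTop (12 * Fintype.card ι + 1), eventually_ge_atTop 2]
    with n hxι hn2
  obtain ⟨x, hx⟩ : ∃ x : ℝ, x = (n : ℝ) ^ (((M + 1 : ℕ) : ℝ)⁻¹) := ⟨_, rfl⟩
  rw [← hx] at hxι
  have hι : (0 : ℝ) ≤ Fintype.card ι := Nat.cast_nonneg _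
  have hx1 : 1 ≤ x := by linarith
  have hn0 : (0 : ℝ) < n := by exact_mod_cast (by omega : 0 < n)
  have hxn : x ^ (M + 1) = n := by rw [hx]; exact Real.rpow_inv_natCast_pow hn0.le (by omega)
  have : Nonempty (Fin n) := ⟨⟨0, by omega⟩⟩
  have : Nonempty (Sym2 (Fin n)) := ⟨s(⟨0, by omega⟩, ⟨0, by omega⟩)⟩
  have hxM : 1 ≤ x ^ M := one_le_pow₀ hx1
  obtain ⟨q, hq1, hq2⟩ : ∃ q : ℕ, x ^ M ≤ ((q + 1 : ℕ) : ℝ) ∧ ((q + 1 : ℕ) : ℝ) ≤ 2 * x ^ M := by
    refine ⟨⌊x ^ M⌋₊, ?_, ?_⟩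
    · push_cast; exact (Nat.lt_floor_add_one _).le
    · push_cast; linarith [Nat.floor_le (show 0 ≤ x ^ M by linarith)]
  choose Ψ E h1 h2 h3 using fun i => exists_copies (V := Fin n) (H i) (h i) hx1
    (by rw [hxn, Fintype.card_fin]) hq1
  obtain ⟨Lo, -, hLo⟩ := Finset.exists_subset_card_eq (s := (univ : Finset (Fin n))) (n := n / 2)
    (by simp; omega)
  set Bs : Finset (Sym2 (Fin n)) := (Lo ×ˢ Loᶜ).image fun p => s(p.1, p.2) with hBs
  have hBc : Bs.card = n / 2 * (n - n / 2) := by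
    rw [hBs, Finset.card_image_of_injOn, Finset.card_product, Finset.card_compl, hLo,
      Fintype.card_fin]
    intro p hp r hr hpr
    have hp' := Finset.mem_product.1 (Finset.mem_coe.1 hp)
    have hr' := Finset.mem_product.1 (Finset.mem_coe.1 hr)
    rcases Sym2.eq_iff.1 hpr with ⟨h4, h5⟩ | ⟨h4, h5⟩
    · exact Prod.ext h4 h5
    · exact absurd (h4 ▸ hp'.1) (Finset.mem_compl.1 hr'.2)
  have hB6 : (n : ℝ) ^ 2 ≤ 6 * Bs.card := by
    have h4 : n ≤ 3 * (n / 2) := by omega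
    have h5 : n ≤ 2 * (n - n / 2) := by omega
    have h6 : n ^ 2 ≤ 6 * Bs.card := by
      rw [hBc]
      nlinarith [Nat.mul_le_mul h4 h5]
    exact_mod_cast h6
  obtain ⟨S, hS, hS1, hS2⟩ := deletion q Bs (univ.sigma Ψ) (fun c => E c.1 c.2)
    fun c hc => h1 c.1 c.2 (Finset.mem_sigma.1 hc).2
  have hside : ∀ a b, s(a, b) ∈ Bs → decide (a ∈ Lo) ≠ decide (b ∈ Lo) := by
    intro a b hab
    obtain ⟨p, hp, hpe⟩ := Finset.mem_image.1 hab
    have hp' := Finset.mem_product.1 hp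
    have h4 := Finset.mem_compl.1 hp'.2
    rcases Sym2.eq_iff.1 hpe with ⟨rfl, rfl⟩ | ⟨rfl, rfl⟩ <;> simp [hp'.1, h4]
  have hedge : (SimpleGraph.fromEdgeSet (S : Set (Sym2 (Fin n)))).edgeSet = S := by
    rw [SimpleGraph.edgeSet_fromEdgeSet]
    refine sdiff_eq_left.2 (Set.disjoint_left.2 fun e he hd => ?_)
    induction e using Sym2.ind with
    | _ a b =>
      have : a = b := by simpa using hd
      exact hside a b (hS he) (by rw [this])
  refine ⟨SimpleGraph.fromEdgeSet S, fun i hc => ?_, ?_⟩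
  · obtain ⟨ψ, hψ, h4⟩ := h3 i _ (fun a => decide (a ∈ Lo)) (fun a b hab => hside a b
      (hS (by simpa using ((SimpleGraph.fromEdgeSet_adj _).1 hab).1))) hc
    refine hS1 ⟨i, ψ⟩ (Finset.mem_sigma.2 ⟨Finset.mem_univ _, hψ⟩) fun e he => ?_
    have := h4 e he
    rwa [hedge] at this
  · rw [hedge, Set.ncard_coe_finset]
    refine le_trans ?_ hS2
    obtain ⟨Q, hQ⟩ : ∃ Q : ℝ, Q = ((q + 1 : ℕ) : ℝ) := ⟨_, rfl⟩
    rw [← hQ] at hq1 hq2 h2 ⊢
    have hQ0 : 0 < Q := by linarith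
    have h4 : ∑ c ∈ univ.sigma Ψ, 1 / Q ^ (E c.1 c.2).card ≤ (n : ℝ) ^ 2 / (12 * Q) := by
      rw [Finset.sum_sigma]
      refine (Finset.sum_le_sum fun i _ => h2 i).trans ?_
      rw [Finset.sum_const, nsmul_eq_mul, Finset.card_univ, Fintype.card_fin, ← mul_div_assoc,
        div_le_div_iff₀ (by positivity) (by positivity)]
      have : 0 ≤ (n : ℝ) ^ 2 * Q := by positivity
      nlinarith
    have h5 : (n : ℝ) ^ 2 / (6 * Q) ≤ Bs.card * (1 / Q) := by
      rw [mul_one_div, div_le_div_iff₀ (by positivity) hQ0]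
      nlinarith
    have h6 : (n : ℝ) ^ (1 + ((M + 1 : ℕ) : ℝ)⁻¹) / 24 ≤ (n : ℝ) ^ 2 / (12 * Q) := by
      rw [Real.rpow_add hn0, Real.rpow_one, ← hx, div_le_div_iff₀ (by norm_num) (by positivity)]
      have : n * x * (12 * Q) ≤ n * x * (12 * (2 * x ^ M)) := by gcongr
      refine this.trans (le_of_eq ?_)
      rw [sq]
      nth_rewrite 3 [← hxn]
      ring
    have h7 : (n : ℝ) ^ 2 / (6 * Q) = 2 * ((n : ℝ) ^ 2 / (12 * Q)) := by field_simp; ring
    linarith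

end Pool.Agent.Lib.MP_befe0b_co
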