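import Pool.Agent.Lib.MP_befe0b_co.Upper
import Pool.Agent.Lib.MP_befe0b_co.Lower

/-! Choice of parameters. -/

open Finset Filter
open scoped Classical

noncomputable section

namespace Pool.Agent.Lib.MP_befe0b_co

lemma two_mul_pow_le {s : ℕ} (hs : 1 ≤ s) : 2 * s ^ s ≤ (s + 1) ^ s := by
  have hs0 : (0 : ℝ) < s := by exact_mod_cast hs
  have h1 := one_add_mul_le_pow (a := (1 / s : ℝ)) (by
    have : (0 : ℝ) ≤ 1 / s := by positivity
    linarith) s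
  rw [mul_one_div_cancel hs0.ne'] at h1
  have h2 : (2 : ℝ) * s ^ s ≤ (s + 1) ^ s := by
    calc (2 : ℝ) * s ^ s ≤ (1 + 1 / s) ^ s * s ^ s := by gcongr; linarith
      _ = _ := by rw [← mul_pow]; congr 1; field_simp
  exact_mod_cast h2

lemma pow_bound {s : ℕ} (hs : 1 ≤ s) :
    44 * s ^ 2 * s ^ (s * (2 * Nat.log 2 s + 8)) ≤ (s + 1) ^ (s * (2 * Nat.log 2 s + 8)) := by
  have h1 : s < 2 ^ (Nat.log 2 s + 1) := Nat.lt_pow_succ_log_self (by norm_num) s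
  have h2 : 44 * s ^ 2 ≤ 2 ^ (2 * Nat.log 2 s + 8) := by
    calc 44 * s ^ 2 ≤ 64 * (2 ^ (Nat.log 2 s + 1)) ^ 2 := by gcongr; norm_num
      _ = _ := by ring
  rw [pow_mul, pow_mul]
  calc _ ≤ 2 ^ (2 * Nat.log 2 s + 8) * (s ^ s) ^ (2 * Nat.log 2 s + 8) := by gcongr
    _ = (2 * s ^ s) ^ (2 * Nat.log 2 s + 8) := by rw [mul_pow]
    _ ≤ _ := Nat.pow_le_pow_left (two_mul_pow_le hs) _

theorem exists_member {ι : Type*} [Fintype ι] {W : ι → Type*} [∀ i, Fintype (W i)]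
    (H : ∀ i, SimpleGraph (W i)) (M : ℕ) {ε A : ℝ} (hε : ε < ((M + 1 : ℕ) : ℝ)⁻¹)
    (h : ∃ᶠ n : ℕ in atTop, ∀ G : SimpleGraph (Fin n), (∀ i, (H i).Free G) →
      (G.edgeSet.ncard : ℝ) ≤ A * (n : ℝ) ^ (1 + ε)) :
    ∃ i, (∃ col : W i → Bool, ∀ x y, (H i).Adj x y → col x ≠ col y) ∧ Sparse (H i) M := by
  by_contra hc
  rw [not_exists] at hc
  have ht : Tendsto (fun n : ℕ => (n : ℝ) ^ (((M + 1 : ℕ) : ℝ)⁻¹ - ε)) atTop atTop :=
    (tendsto_rpow_atTop (by linarith)).comp tendsto_natCast_atTop_atTop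
  obtain ⟨n, h1, ⟨G, h2, h3⟩, h4, h5⟩ := (h.and_eventually ((lower H M hc).and
    ((ht.eventually_gt_atTop (24 * A)).and (eventually_gt_atTop 0)))).exists
  have hn : (0 : ℝ) < n := by exact_mod_cast h5
  have h6 := h3.trans (h1 G h2)
  rw [show 1 + ((M + 1 : ℕ) : ℝ)⁻¹ = (((M + 1 : ℕ) : ℝ)⁻¹ - ε) + (1 + ε) by ring,
    Real.rpow_add hn] at h6
  have h7 : 0 < (n : ℝ) ^ (1 + ε) := by positivity
  nlinarith

lemma extremalNumber_le_sq {W : Type*} (H : SimpleGraph W) (n : ℕ) :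
    (SimpleGraph.extremalNumber n H : ℝ) ≤ (n : ℝ) ^ 2 := by
  conv_lhs => rw [← Fintype.card_fin n]
  rw [SimpleGraph.extremalNumber_le_iff_of_nonneg _ (by positivity)]
  intro G _ _
  have h1 := G.card_edgeFinset_le_card_choose_two
  rw [Fintype.card_fin] at h1
  exact_mod_cast h1.trans (Nat.choose_le_pow n 2)

lemma rpow_mono_nat (n : ℕ) {a b : ℝ} (ha : 0 < a) (hab : a ≤ b) : (n : ℝ) ^ a ≤ (n : ℝ) ^ b := by
  rcases Nat.eq_zero_or_pos n with rfl | hn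
  · rw [Nat.cast_zero, Real.zero_rpow ha.ne', Real.zero_rpow (by linarith)]
  · exact Real.rpow_le_rpow_of_exponent_le (by exact_mod_cast hn) hab

theorem near_one {ι : Type*} [Fintype ι] {W : ι → Type*} [∀ i, Fintype (W i)]
    (H : ∀ i, SimpleGraph (W i)) {ε A : ℝ} (h0 : 0 < ε) (h1 : ε ≤ 1 / 2)
    (h : ∃ᶠ n : ℕ in atTop, ∀ G : SimpleGraph (Fin n), (∀ i, (H i).Free G) →
      (G.edgeSet.ncard : ℝ) ≤ A * (n : ℝ) ^ (1 + ε)) :
    ∃ i, ∃ A' : ℝ, ∀ n : ℕ, (SimpleGraph.extremalNumber n (H i) : ℝ) ≤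
      A' * (n : ℝ) ^ (1 + 2400 * ε * Real.log (1 / ε)) := by
  obtain ⟨L, hL⟩ : ∃ L, L = Real.log (1 / ε) := ⟨_, rfl⟩
  rw [← hL]
  have hlog := Real.log_two_gt_d9
  have hL2 : Real.log 2 ≤ L := by
    rw [hL]
    refine Real.log_le_log (by norm_num) ?_
    rw [le_div_iff₀ h0]; linarith
  have hL0 : 2 / 3 < L := by linarith
  obtain ⟨y, hy⟩ : ∃ y, y = 2400 * ε * L := ⟨_, rfl⟩
  rw [← hy]
  have hy0 : 0 < y := by rw [hy]; positivity
  by_cases hy1 : 1 ≤ y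
  · obtain ⟨i, -⟩ := exists_member H 0 (ε := ε) (by norm_num; linarith) h
    refine ⟨i, 1, fun n => (extremalNumber_le_sq _ n).trans ?_⟩
    rw [one_mul, ← Real.rpow_natCast]
    exact rpow_mono_nat n (by norm_num) (by push_cast; linarith)
  rw [not_le] at hy1
  obtain ⟨s, hs⟩ : ∃ s, s = ⌈1 / y⌉₊ := ⟨_, rfl⟩
  have hs1 : 1 / y ≤ s := hs ▸ Nat.le_ceil _
  have hy2 : 1 < 1 / y := by rw [lt_div_iff₀ hy0]; linarith
  have hs2 : (s : ℝ) * y ≤ 2 := by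
    have : (s : ℝ) < 1 / y + 1 := hs ▸ Nat.ceil_lt_add_one (by positivity)
    have h3 : (s : ℝ) ≤ 2 / y := by
      rw [show 2 / y = 1 / y + 1 / y by ring]; linarith
    rwa [le_div_iff₀ hy0] at h3
  have hs3 : (1 : ℝ) < s := by linarith
  have hs4 : 1 ≤ s := by exact_mod_cast hs3.le
  have hsε : (s : ℝ) ≤ 1 / ε := by
    rw [le_div_iff₀ h0]
    rw [hy] at hs2
    have : 0 ≤ (s : ℝ) * ε := by positivity
    nlinarith
  have hj : ((2 * Nat.log 2 s + 8 : ℕ) : ℝ) ≤ 15 * L := by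
    have h3 : ((2 ^ Nat.log 2 s : ℕ) : ℝ) ≤ s := by
      exact_mod_cast Nat.pow_log_le_self 2 (by omega)
    have h4 : Real.log ((2 ^ Nat.log 2 s : ℕ) : ℝ) ≤ L := by
      rw [hL]
      exact Real.log_le_log (by positivity) (h3.trans hsε)
    rw [Nat.cast_pow, Real.log_pow, Nat.cast_ofNat] at h4
    have h5 : (0 : ℝ) ≤ Nat.log 2 s := Nat.cast_nonneg _
    push_cast
    nlinarith
  obtain ⟨k, hk⟩ : ∃ k, k = s * (2 * Nat.log 2 s + 8) := ⟨_, rfl⟩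
  have hk1 : 1 ≤ k := by rw [hk]; exact Nat.mul_pos hs4 (by omega)
  have hkε : (k : ℝ) * ε ≤ 1 / 80 := by
    have h3 : (k : ℝ) ≤ s * (15 * L) := by
      rw [hk, Nat.cast_mul]; gcongr
    rw [hy] at hs2
    nlinarith
  have hk2 : (1 : ℝ) ≤ k := by exact_mod_cast hk1
  obtain ⟨i, ⟨col, hcol⟩, hsp⟩ := exists_member H (6 * (12 * k + 1)) (ε := ε) (by
    rw [inv_eq_one_div, lt_div_iff₀ (by positivity)]
    push_cast
    nlinarith) h
  obtain ⟨A', hA', hb⟩ := upper hs4 hk1 (hk ▸ pow_bound hs4) hsp le_rfl col hcol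
  refine ⟨i, A', fun n => (hb n).trans (mul_le_mul_of_nonneg_left
    (rpow_mono_nat n (by positivity) ?_) hA')⟩
  rw [div_le_iff₀ hy0] at hs1
  have : (s : ℝ)⁻¹ ≤ y := by
    rw [inv_le_iff_one_le_mul₀ (by linarith)]; linarith
  linarith

end Pool.Agent.Lib.MP_befe0b_co
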