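import Pool.Agent.Lib.MP_befe0b_co.L2Core
import Pool.Agent.Lib.MP_befe0b_co.L2BF
import Pool.Agent.Lib.MP_befe0b_co.Main

/-! Choice of parameters, without the logarithm. -/

open Finset Filter
open scoped Classical

noncomputable section

namespace Pool.Agent.Lib.MP_befe0b_co

lemma lin_exp (s L N : ℕ) (hL : L = 100 * s + 2) (hN : N = 100 * L + 99) :
    1 + s * N + (L + 1) * 99 * (L - 1) ≤ N * L := by
  have e : L - 1 = 100 * s + 1 := by omega
  have e1 : 1 + s * N + (L + 1) * 99 * (100 * s + 1) + (10001 * s + 300) = N * L := by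
    rw [hN, hL]; ring
  rw [e]
  omega

theorem Host.contained_lin {V : Type*} [Fintype V] [Nonempty V] {G : SimpleGraph V} {r : ℝ}
    {N s L M : ℕ} (hG : Host G r N s) (hL : L = 100 * s + 2) (hN : N = 100 * L + 99)
    {W : Type*} [Fintype W] {H : SimpleGraph W} (hs : Sparse H M) (hM : 10800 * s + 114 ≤ M)
    (col : W → Bool) (hcol : ∀ x y, H.Adj x y → col x ≠ col y)
    (hr : (10 * L * (Fintype.card W + 20 * L) : ℝ) ≤ r) : H.IsContained G := by
  have h8 := hG.rho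
  have h1 : 1 ≤ r := by linarith
  have h0 : 0 < r := by linarith
  obtain ⟨ρ, hρ⟩ : ∃ ρ, ρ = r ^ (L + 1) := ⟨_, rfl⟩
  have hrρ : r ≤ ρ := by rw [hρ]; exact le_self_pow₀ h1 (by omega)
  have hρ0 : 0 < ρ := by linarith
  have hΔ : r ^ (N + 1) = ρ ^ 100 := by
    rw [hρ, ← pow_mul]; congr 1; omega
  have hL1 : (1 : ℝ) ≤ L := by exact_mod_cast (show 1 ≤ L by omega)
  have hW : (0 : ℝ) ≤ Fintype.card W := Nat.cast_nonneg _
  have hLr : 4 * (L : ℝ) ^ 2 ≤ r := by nlinarith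
  obtain ⟨j, X, P, μ, hj, hS, hP⟩ := exists_sys (G := G) (d := r ^ N) (Δ := ρ ^ 100) (T := ρ ^ 99)
    (η := 1 / ρ) (L := L) hG.mindeg (hΔ ▸ hG.maxdeg) (by positivity)
    (one_le_pow₀ (by linarith)) (by omega) (by positivity)
    (by
      calc 2 * (Fintype.card V : ℝ) * (ρ ^ 99) ^ (L - 1)
          ≤ r * r ^ (s * N) * (ρ ^ 99) ^ (L - 1) := by
            gcongr
            · linarith
            · exact hG.size
        _ = r ^ (1 + s * N + (L + 1) * 99 * (L - 1)) := by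
            rw [hρ, ← pow_mul, ← pow_mul, pow_add, pow_add, pow_one, mul_assoc (L + 1)]
        _ ≤ (r ^ N) ^ L := by
            rw [← pow_mul]
            refine pow_le_pow_right₀ h1 ?_
            exact lin_exp s L N hL hN)
    (by
      have e1 : 1 / ρ + (L : ℝ) ^ 2 / ρ ^ 100 ≤ 2 / ρ := by
        have e2 : (L : ℝ) ^ 2 ≤ ρ ^ 99 :=
          le_trans (by nlinarith) (hrρ.trans (le_self_pow₀ (by linarith) (by norm_num)))
        have e3 : (L : ℝ) ^ 2 / ρ ^ 100 ≤ 1 / ρ := by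
          rw [div_le_div_iff₀ (by positivity) hρ0, one_mul, pow_succ ρ 99]
          gcongr
        have e4 : 2 / ρ = 1 / ρ + 1 / ρ := by ring
        linarith
      calc 2 * (L : ℝ) ^ 2 * ((1 / ρ + (L : ℝ) ^ 2 / ρ ^ 100) * (ρ ^ 100) ^ L)
          ≤ 2 * (L : ℝ) ^ 2 * (2 / ρ * (ρ ^ 100) ^ L) := by gcongr
        _ = 4 * (L : ℝ) ^ 2 * ((ρ ^ 100) ^ L / ρ) := by ring
        _ ≤ r * ((ρ ^ 100) ^ L / ρ) := by gcongr
        _ = (r ^ N) ^ L := by
            rw [← hΔ, hρ, pow_succ r N, mul_pow, pow_succ r L]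
            field_simp)
  have hjL : (j + 1 : ℝ) ≤ L := by exact_mod_cast hj
  refine hS.contained hP hs (by omega) col hcol (le_trans ?_ (hr.trans hrρ))
  gcongr

theorem upper_lin {W : Type*} [Fintype W] {H : SimpleGraph W} {s M : ℕ} (hs1 : 1 ≤ s)
    (hs : Sparse H M) (hM : 10800 * s + 114 ≤ M)
    (col : W → Bool) (hcol : ∀ x y, H.Adj x y → col x ≠ col y) :
    ∃ A' : ℝ, 0 ≤ A' ∧ ∀ n : ℕ,
      (SimpleGraph.extremalNumber n H : ℝ) ≤ A' * (n : ℝ) ^ (1 + (s : ℝ)⁻¹) := by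
  obtain ⟨L, hL⟩ : ∃ L, L = 100 * s + 2 := ⟨_, rfl⟩
  obtain ⟨N, hN⟩ : ∃ N, N = 100 * L + 99 := ⟨_, rfl⟩
  have hs0 : (0 : ℝ) < s := by exact_mod_cast hs1
  obtain ⟨ρ0, hρ0⟩ : ∃ ρ0 : ℝ, ρ0 = 24 * 12 ^ s + ((s * N + 1 : ℕ) : ℝ) +
    10 * L * (Fintype.card W + 20 * L) := ⟨_, rfl⟩
  have p1 : (0 : ℝ) ≤ 24 * 12 ^ s := by positivity
  have p2 : (0 : ℝ) ≤ ((s * N + 1 : ℕ) : ℝ) := Nat.cast_nonneg _
  have p3 : (0 : ℝ) ≤ 10 * L * (Fintype.card W + 20 * L) := by positivity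
  have p4 : 0 ≤ ρ0 := by linarith
  refine ⟨4 * ρ0 ^ N, by positivity, fun n => ?_⟩
  conv_lhs => rw [← Fintype.card_fin n]
  rw [SimpleGraph.extremalNumber_le_iff_of_nonneg _ (by positivity)]
  intro G _ hfree
  by_contra hc
  rw [not_le] at hc
  rcases Nat.eq_zero_or_pos n with rfl | hn
  · have h1 := G.card_edgeFinset_le_card_choose_two
    simp only [Fintype.card_fin, Nat.choose_zero_succ, nonpos_iff_eq_zero] at h1
    rw [h1] at hc
    exact absurd hc (not_lt.2 (by push_cast; positivity))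
  have : Nonempty (Fin n) := ⟨⟨0, hn⟩⟩
  have hsg : (sg G univ : ℝ) = 2 * G.edgeFinset.card := by
    have h1 : ∀ (i1 i2 : Fintype G.edgeSet),
        (@SimpleGraph.edgeFinset _ G i1).card = (@SimpleGraph.edgeFinset _ G i2).card := by
      intro i1 i2
      rw [Subsingleton.elim i1 i2]
    have : sg G univ = 2 * G.edgeFinset.card := (sg_univ G).trans (congrArg (2 * ·) (h1 _ _))
    exact_mod_cast this
  have hG : (8 * ρ0 ^ N) ^ s * (Fintype.card (Fin n) : ℝ) ^ (s + 1) ≤ (sg G univ : ℝ) ^ s := by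
    have h1 : ((n : ℝ) ^ (1 + (s : ℝ)⁻¹)) ^ s = (n : ℝ) ^ (s + 1) := by
      rw [← Real.rpow_mul_natCast (Nat.cast_nonneg n), ← Real.rpow_natCast]
      congr 1
      push_cast
      field_simp
    rw [Fintype.card_fin, ← h1, ← mul_pow, hsg]
    exact pow_le_pow_left₀ (by positivity) (by linarith) s
  obtain ⟨T, r, hT, hr, hH⟩ := exists_host G hs1 (N := N) (by omega) (ρ0 := ρ0) (by linarith)
    (by linarith) hG
  have : Nonempty {x // x ∈ T} := hT.to_subtype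
  have h1 := hH.contained_lin hL hN hs hM col hcol (by linarith)
  exact hfree (h1.trans ⟨(SimpleGraph.Embedding.comap _ G).toCopy⟩)

theorem near_one_lin {ι : Type*} [Fintype ι] {W : ι → Type*} [∀ i, Fintype (W i)]
    (H : ∀ i, SimpleGraph (W i)) {ε A : ℝ} (h0 : 0 < ε) (h1 : ε < 1)
    (h : ∃ᶠ n : ℕ in atTop, ∀ G : SimpleGraph (Fin n), (∀ i, (H i).Free G) →
      (G.edgeSet.ncard : ℝ) ≤ A * (n : ℝ) ^ (1 + ε)) :
    ∃ i, ∃ A' : ℝ, ∀ n : ℕ, (SimpleGraph.extremalNumber n (H i) : ℝ) ≤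
      A' * (n : ℝ) ^ (1 + 22000 * ε) := by
  obtain ⟨y, hy⟩ : ∃ y, y = 22000 * ε := ⟨_, rfl⟩
  rw [← hy]
  have hy0 : 0 < y := by rw [hy]; positivity
  by_cases hy1 : 1 ≤ y
  · obtain ⟨i, -⟩ := exists_member H 0 (ε := ε) (by norm_num; linarith) h
    refine ⟨i, 1, fun n => (extremalNumber_le_sq _ n).trans ?_⟩
    rw [one_mul, ← Real.rpow_natCast]
    exact rpow_mono_nat n (by norm_num) (by push_cast; linarith)
  rw [not_le] at hy1
  obtain ⟨s, hs⟩ : ∃ s, s = ⌈1 / y⌉₊ := ⟨_, rfl⟩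
  have hs1 : 1 / y ≤ s := hs ▸ Nat.le_ceil _
  have hy2 : 1 < 1 / y := by rw [lt_div_iff₀ hy0]; linarith
  have hs2 : (s : ℝ) * y ≤ 2 := by
    have : (s : ℝ) < 1 / y + 1 := hs ▸ Nat.ceil_lt_add_one (by positivity)
    have h3 : (s : ℝ) ≤ 2 / y := by
      rw [show 2 / y = 1 / y + 1 / y by ring]; linarith
    rwa [le_div_iff₀ hy0] at h3
  have hs3 : (1 : ℝ) < s := by linarith
  have hs4 : 1 ≤ s := by exact_mod_cast hs3.le
  obtain ⟨i, ⟨col, hcol⟩, hsp⟩ := exists_member H (10800 * s + 114) (ε := ε) (by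
    rw [inv_eq_one_div, lt_div_iff₀ (by positivity)]
    push_cast
    rw [hy] at hs2
    nlinarith) h
  obtain ⟨A', hA', hb⟩ := upper_lin hs4 hsp le_rfl col hcol
  refine ⟨i, A', fun n => (hb n).trans (mul_le_mul_of_nonneg_left
    (rpow_mono_nat n (by positivity) ?_) hA')⟩
  rw [div_le_iff₀ hy0] at hs1
  have : (s : ℝ)⁻¹ ≤ y := by
    rw [inv_le_iff_one_le_mul₀ (by linarith)]; linarith
  linarith

end Pool.Agent.Lib.MP_befe0b_co
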