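import Pool.Agent.Lib.MP_befe0b_co.Join

/-! A family of bottleneck-free paths that start in a small set of hubs. -/

open Finset
open scoped Classical

noncomputable section

namespace Pool.Agent.Lib.MP_befe0b_co

variable {V : Type*} [Fintype V]

/-- `P` is a family of paths of length `j` from the hubs `X`; `μ b` bounds the number ending at `b` -/
structure Sys (G : SimpleGraph V) (Δ T : ℝ) (j : ℕ) (X : Finset V) (P : Finset (ℕ → V))
    (μ : V → ℝ) : Prop where
  deg : ∀ x, ((nb G x).card : ℝ) ≤ Δ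
  T_pos : 0 < T
  j_pos : 1 ≤ j
  hub : ∀ g ∈ P, g 0 ∈ X
  walk : ∀ g ∈ P, g ∈ Wk G j (g 0)
  inj : ∀ g ∈ P, ∀ a ≤ j, ∀ b ≤ j, g a = g b → a = b
  thin : ∀ (z b : V) (t : ℕ), t < j →
    T * ((P.filter fun g => g t = z ∧ g j = b).card : ℝ) ≤ μ b
  le_mu : ∀ b, ((P.filter fun g => g j = b).card : ℝ) ≤ μ b
  sum_mu : ∑ b, μ b ≤ Δ ^ (j + 1)
  card_X : (X.card : ℝ) ≤ Δ

/-- weight of the pairs of paths of `Q` from `c` and `c'` with a common end -/
def mAll (j : ℕ) (Q : Finset (ℕ → V)) (μ : V → ℝ) (c c' : V) : ℝ :=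
  ∑ b, ((Q.filter fun g => g 0 = c ∧ g j = b).card : ℝ) *
    ((Q.filter fun g => g 0 = c' ∧ g j = b).card : ℝ) / μ b

/-- the same for pairs that are disjoint before the common end -/
def mDis (j : ℕ) (Q : Finset (ℕ → V)) (μ : V → ℝ) (c c' : V) : ℝ :=
  ∑ z ∈ (Q ×ˢ Q).filter (fun z => z.1 0 = c ∧ z.2 0 = c' ∧ z.1 j = z.2 j ∧
    ∀ a < j, ∀ b < j, z.1 a ≠ z.2 b), 1 / μ (z.1 j)

variable {G : SimpleGraph V} {Δ T : ℝ} {j : ℕ} {X : Finset V} {P : Finset (ℕ → V)} {μ : V → ℝ}

/-- walks that use one of few prescribed continuations -/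
theorem rule_count (hΔ : ∀ x, ((nb G x).card : ℝ) ≤ Δ) (h : ℕ) (k : ℕ) :
    ∀ (y : V) (E : ℕ → V → Finset V), (∀ i z, (E i z).card ≤ h) →
      Δ * (((Wk G k y).filter fun f => ∃ i < k, f (i + 1) ∈ E i (f i)).card : ℝ) ≤
        k * h * Δ ^ k := by
  induction k with
  | zero => intro y E _; simp
  | succ k ih =>
    intro y E hE
    have hD := Delta_nonneg hΔ y
    rw [Finset.natCast_card_filter, sum_Wk_succ, Finset.mul_sum]
    have key : ∀ z, Δ * ∑ g ∈ Wk G k z,
        (if ∃ i < k + 1, cns y g (i + 1) ∈ E i (cns y g i) then (1 : ℝ) else 0) ≤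
        (if z ∈ E 0 y then Δ ^ (k + 1) else 0) + k * h * Δ ^ k := by
      intro z
      have hpos : 0 ≤ (k : ℝ) * h * Δ ^ k := by positivity
      by_cases hz : z ∈ E 0 y
      · rw [if_pos hz]
        have := sum_Wk_le hΔ k z (F := fun g =>
          if ∃ i < k + 1, cns y g (i + 1) ∈ E i (cns y g i) then (1 : ℝ) else 0)
          zero_le_one fun g _ => by split_ifs <;> norm_num
        have h2 := mul_le_mul_of_nonneg_left this hD
        rw [mul_one, ← pow_succ'] at h2
        linarith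
      · rw [if_neg hz, zero_add]
        have h1 := ih z (fun i => E (i + 1)) fun i w => hE (i + 1) w
        rw [Finset.natCast_card_filter] at h1
        refine le_trans (mul_le_mul_of_nonneg_left (Finset.sum_le_sum fun g hg => ?_) hD) h1
        by_cases hg' : ∃ i < k + 1, cns y g (i + 1) ∈ E i (cns y g i)
        · rw [if_pos hg', if_pos]
          obtain ⟨i, hi, hm⟩ := hg'
          cases i with
          | zero =>
            rw [cns_succ, cns_zero, (mem_Wk hg).1] at hm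
            exact absurd hm hz
          | succ i => exact ⟨i, by omega, hm⟩
        · rw [if_neg hg']
          split_ifs <;> norm_num
    refine (Finset.sum_le_sum fun z _ => key z).trans ?_
    rw [Finset.sum_add_distrib]
    have h3 : 0 ≤ Δ ^ (k + 1) := by positivity
    have h1 : ∑ z ∈ nb G y, (if z ∈ E 0 y then Δ ^ (k + 1) else 0) ≤ h * Δ ^ (k + 1) := by
      rw [← Finset.sum_filter, Finset.sum_const, nsmul_eq_mul]
      refine mul_le_mul_of_nonneg_right ?_ h3
      exact_mod_cast (Finset.card_le_card fun z hz => (Finset.mem_filter.1 hz).2).trans (hE 0 y)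
    have h2 : ∑ _z ∈ nb G y, (k : ℝ) * h * Δ ^ k ≤ Δ * (k * h * Δ ^ k) :=
      sum_nb_le hΔ (by positivity) fun _ => le_rfl
    have h4 : Δ * (k * h * Δ ^ k) = k * h * Δ ^ (k + 1) := by ring
    push_cast
    nlinarith

theorem exists_mem_Wk (k : ℕ) : ∀ (f : ℕ → V), (∀ i < k, G.Adj (f i) (f (i + 1))) →
    ∃ f' ∈ Wk G k (f 0), ∀ i ≤ k, f' i = f i := by
  induction k with
  | zero =>
    intro f _
    refine ⟨fun _ => f 0, by simp [Wk], fun i hi => ?_⟩
    obtain rfl : i = 0 := by omega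
    rfl
  | succ k ih =>
    intro f hf
    obtain ⟨g, hg, hg'⟩ := ih (fun i => f (i + 1)) fun i hi => hf (i + 1) (by omega)
    refine ⟨cns (f 0) g, ?_, fun i hi => ?_⟩
    · simp only [Wk, Finset.mem_biUnion, Finset.mem_image, mem_nb]
      exact ⟨f 1, hf 0 (by omega), g, hg, rfl⟩
    · cases i with
      | zero => rfl
      | succ i => exact hg' i (by omega)

namespace Sys

variable (hS : Sys G Δ T j X P μ)
include hS

theorem mu_nonneg (b : V) : 0 ≤ μ b := by
  exact le_trans (Nat.cast_nonneg _) (hS.le_mu b)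

theorem card_le : (P.card : ℝ) ≤ ∑ b, μ b := by
  rw [Finset.card_eq_sum_card_fiberwise (f := fun g : ℕ → V => g j) (t := Finset.univ)
    fun _ _ => Finset.mem_coe.2 (Finset.mem_univ _), Nat.cast_sum]
  exact Finset.sum_le_sum fun b _ => hS.le_mu b

theorem hub_count (c : V) : ((P.filter fun g => g 0 = c).card : ℝ) ≤ Δ ^ j := by
  have h1 := sum_Wk_const_le hS.deg j c zero_le_one
  rw [Finset.sum_const, nsmul_eq_mul, mul_one, mul_one] at h1
  refine le_trans ?_ h1
  exact_mod_cast Finset.card_le_card fun g hg => by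
    obtain ⟨h2, h3⟩ := Finset.mem_filter.1 hg
    exact h3 ▸ hS.walk g h2

theorem rule (h : ℕ) (E : ℕ → V → Finset V) (hE : ∀ i z, (E i z).card ≤ h) :
    ((P.filter fun g => ∃ i < j, g (i + 1) ∈ E i (g i)).card : ℝ) ≤ j * h * Δ ^ j := by
  have hX := hS.card_X
  have hD : 0 ≤ Δ := le_trans (Nat.cast_nonneg _) hX
  have hpos : 0 ≤ (j : ℝ) * h * Δ ^ j := by positivity
  have h1 : ((P.filter fun g => ∃ i < j, g (i + 1) ∈ E i (g i)).card : ℝ) ≤
      ∑ c ∈ X, (((Wk G j c).filter fun f => ∃ i < j, f (i + 1) ∈ E i (f i)).card : ℝ) := by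
    rw [← Nat.cast_sum, Nat.cast_le]
    refine le_trans (Finset.card_le_card fun g hg => ?_) Finset.card_biUnion_le
    obtain ⟨h2, h3⟩ := Finset.mem_filter.1 hg
    exact Finset.mem_biUnion.2 ⟨g 0, hS.hub g h2, Finset.mem_filter.2 ⟨hS.walk g h2, h3⟩⟩
  rcases hD.eq_or_lt with h0 | h0
  · have : X = ∅ := by
      rw [← Finset.card_eq_zero]
      rw [← h0] at hX
      exact_mod_cast le_antisymm hX (Nat.cast_nonneg _)
    rw [this, Finset.sum_empty] at h1
    exact h1.trans hpos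
  · refine le_of_mul_le_mul_left ?_ h0
    refine (mul_le_mul_of_nonneg_left h1 hD).trans ?_
    rw [Finset.mul_sum]
    refine (Finset.sum_le_sum fun c _ => rule_count hS.deg h j c E hE).trans ?_
    rw [Finset.sum_const, nsmul_eq_mul]
    exact mul_le_mul_of_nonneg_right hX hpos

theorem hub_hit (c : V) (F : Finset V) :
    Δ * ((P.filter fun g => g 0 = c ∧ ∃ i, 1 ≤ i ∧ i ≤ j ∧ g i ∈ F).card : ℝ) ≤
      j * F.card * Δ ^ j := by
  refine le_trans (mul_le_mul_of_nonneg_left ?_ (Delta_nonneg hS.deg c))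
    (rule_count hS.deg F.card j c (fun _ _ => F) fun _ _ => le_rfl)
  exact_mod_cast Finset.card_le_card fun g hg => by
    obtain ⟨h2, h3, i, h4, h5, h6⟩ := Finset.mem_filter.1 hg
    obtain ⟨i, rfl⟩ : ∃ i', i = i' + 1 := ⟨i - 1, by omega⟩
    exact Finset.mem_filter.2 ⟨h3 ▸ hS.walk g h2, i, by omega, h6⟩

theorem end_hit (b : V) (F : Finset V) :
    T * ((P.filter fun g => g j = b ∧ ∃ i < j, g i ∈ F).card : ℝ) ≤ j * F.card * μ b := by
  have h1 : ((P.filter fun g => g j = b ∧ ∃ i < j, g i ∈ F).card : ℝ) ≤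
      ∑ w ∈ Finset.range j ×ˢ F, ((P.filter fun g => g w.1 = w.2 ∧ g j = b).card : ℝ) := by
    rw [← Nat.cast_sum, Nat.cast_le]
    refine le_trans (Finset.card_le_card fun g hg => ?_) Finset.card_biUnion_le
    obtain ⟨h2, h3, i, h4, h5⟩ := Finset.mem_filter.1 hg
    exact Finset.mem_biUnion.2 ⟨(i, g i), Finset.mem_product.2 ⟨Finset.mem_range.2 h4, h5⟩,
      Finset.mem_filter.2 ⟨h2, rfl, h3⟩⟩
  refine (mul_le_mul_of_nonneg_left h1 hS.T_pos.le).trans ?_
  rw [Finset.mul_sum]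
  refine (Finset.sum_le_sum fun w hw => hS.thin w.2 b w.1
    (Finset.mem_range.1 (Finset.mem_product.1 hw).1)).trans ?_
  rw [Finset.sum_const, nsmul_eq_mul, Finset.card_product, Finset.card_range]
  push_cast
  exact le_rfl

theorem end_hub (b : V) (Y : Finset V) :
    T * ((P.filter fun g => g j = b ∧ g 0 ∈ Y).card : ℝ) ≤ Y.card * μ b := by
  have h1 : ((P.filter fun g => g j = b ∧ g 0 ∈ Y).card : ℝ) ≤
      ∑ z ∈ Y, ((P.filter fun g => g 0 = z ∧ g j = b).card : ℝ) := by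
    rw [← Nat.cast_sum, Nat.cast_le]
    refine le_trans (Finset.card_le_card fun g hg => ?_) Finset.card_biUnion_le
    obtain ⟨h2, h3, h4⟩ := Finset.mem_filter.1 hg
    exact Finset.mem_biUnion.2 ⟨g 0, h4, Finset.mem_filter.2 ⟨h2, rfl, h3⟩⟩
  refine (mul_le_mul_of_nonneg_left h1 hS.T_pos.le).trans ?_
  rw [Finset.mul_sum]
  refine (Finset.sum_le_sum fun z _ => hS.thin z b 0 hS.j_pos).trans ?_
  rw [Finset.sum_const, nsmul_eq_mul]

end Sys

end Pool.Agent.Lib.MP_befe0b_co
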