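import Pool.Agent.Lib.MP_befe0b_co.Basic

/-! Hub systems in a host graph and level functions on a small graph. -/

open Finset
open scoped Classical

noncomputable section

namespace Pool.Agent.Lib.MP_befe0b_co

/-- hubs `A`, levels `Z 0, …, Z l`; one can always step up, and every top reaches every hub -/
structure HS {V : Type*} (G : SimpleGraph V) (h l : ℕ) (A : Finset V) (Z : ℕ → Finset V) :
    Prop where
  card : h ≤ A.card
  hub : A ⊆ Z 0
  up : ∀ i < l, ∀ z ∈ Z i, ∀ F : Finset V, F.card < h → ∃ y ∈ Z (i + 1), y ∉ F ∧ G.Adj z y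
  down : ∀ a ∈ A, ∀ b ∈ Z l, ∀ F : Finset V, F.card < h → ∃ f : ℕ → V, f 0 = a ∧ f l = b ∧
    (∀ i < l, G.Adj (f i) (f (i + 1))) ∧ (∀ i, 0 < i → i < l → f i ∈ Z i ∧ f i ∉ F) ∧
    ∀ i j, 0 < i → i < j → j < l → f i ≠ f j

/-- a level function on the part `S` of `H` -/
structure Lev {W : Type*} (H : SimpleGraph W) (S : Finset W) (l : ℕ) (lam : W → ℕ) : Prop where
  le : ∀ w ∈ S, lam w ≤ l
  adj : ∀ u ∈ S, ∀ w ∈ S, H.Adj u w → lam w = lam u + 1 ∨ lam u = lam w + 1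
  one : ∀ w ∈ S, lam w < l → ∀ u ∈ S, ∀ u' ∈ S, H.Adj w u → H.Adj w u' → lam u < lam w →
    lam u' < lam w → u = u'
  forest : ∀ T ⊆ S, T.Nonempty → (∀ w ∈ T, 0 < lam w) → ∃ w ∈ T, dg H T w ≤ 1

/-- distance capped at `l`, keeping the parity -/
def cap (l d : ℕ) : ℕ := if d ≤ l then d else if (d - l) % 2 = 0 then l else l - 1

end Pool.Agent.Lib.MP_befe0b_co
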