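import Pool.Agent.Lib.MP_befe0b_co.L3Hub
import Pool.Agent.Lib.MP_befe0b_co.L3Defs

/-! Cleaning with several hubs. -/

open Finset
open scoped Classical

noncomputable section

namespace Pool.Agent.Lib.MP_befe0b_co

variable {V : Type*} [Fintype V] {G : SimpleGraph V}

lemma L3C_mono {A A' : Finset V} (hA : A' ⊆ A) (h : ℕ) (k : ℕ) :
    Ws G A' h k ⊆ Ws G A h k := by
  induction k with
  | zero => exact hA
  | succ k ih =>
    intro x hx
    rw [mem_Ws_succ] at hx
    exact mem_Ws_succ.2 (hx.trans (dg_mono ih x))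

/-- the forbidden continuations attached to the set `B` -/
def L3C_F (G : SimpleGraph V) (B : Finset V) (h j i : ℕ) (z : V) : Finset V :=
  if z ∈ Ws G B h (j - i) ∨ j ≤ i then ∅ else (Ws G B h (j - i - 1)).filter (G.Adj z)

lemma L3C_F_card (B : Finset V) (h j i : ℕ) (z : V) : (L3C_F G B h j i z).card ≤ h := by
  unfold L3C_F
  split_ifs with hc
  · simp
  · push Not at hc
    obtain ⟨h1, h2⟩ := hc
    have e : j - i = (j - i - 1) + 1 := by omega
    rw [e, mem_Ws_succ, not_le] at h1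
    exact h1.le

lemma L3C_F_mem (B : Finset V) (h j i : ℕ) (z y : V) (hi : i < j)
    (hz : z ∉ Ws G B h (j - i)) (hy : y ∈ Ws G B h (j - i - 1)) (hzy : G.Adj z y) :
    y ∈ L3C_F G B h j i z := by
  unfold L3C_F
  rw [if_neg (by push Not; exact ⟨hz, hi⟩)]
  exact Finset.mem_filter.2 ⟨hy, hzy⟩

lemma L3C_F_empty (B : Finset V) (h j i : ℕ) (z : V)
    (hz : z ∈ Ws G B h (j - i)) : L3C_F G B h j i z = ∅ := by
  unfold L3C_F
  rw [if_pos (Or.inl hz)]

/-- the walk uses a forbidden continuation -/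
def L3C_D (j : ℕ) (E : ℕ → V → Finset V) (g : ℕ → V) : Prop := ∃ i < j, g (i + 1) ∈ E i (g i)

/-- the invariant of the cleaning -/
structure L3C_Inv (G : SimpleGraph V) (j h : ℕ) (A B0 : Finset V) (P : V → V → Finset (ℕ → V))
    (w : V → V → ℝ) (B : Finset V) (E : ℕ → V → Finset V) : Prop where
  i0 : B ⊆ B0
  i1 : ∀ i z, (E i z).card ≤ h
  i2 : ∀ i z y, i < j → z ∉ Ws G B h (j - i) → y ∈ Ws G B h (j - i - 1) → G.Adj z y →
    y ∈ E i z
  i3 : ∀ i z, z ∈ Ws G B h (j - i) → E i z = ∅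
  i4 : ∀ b ∈ B0, b ∉ B → ∃ a ∈ A, (((P a b).filter fun g => ¬ L3C_D j E g).card : ℝ) < w a b

variable {j h : ℕ} {A B0 : Finset V} {P : V → V → Finset (ℕ → V)} {w : V → V → ℝ}

lemma L3C_lev {B : Finset V} {E : ℕ → V → Finset V} (hI : L3C_Inv G j h A B0 P w B E)
    {g : ℕ → V} (hadj : ∀ i < j, G.Adj (g i) (g (i + 1))) (hB : g j ∈ B) (hD : ¬ L3C_D j E g) :
    ∀ i ≤ j, g i ∈ Ws G B h (j - i) := by
  have key : ∀ k ≤ j, g (j - k) ∈ Ws G B h k := by
    intro k
    induction k with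
    | zero => intro _; exact hB
    | succ k ih =>
      intro hk
      have h1 := ih (by omega)
      by_contra hc
      refine hD ⟨j - (k + 1), by omega, ?_⟩
      have e1 : j - (j - (k + 1)) = k + 1 := by omega
      have e2 : j - (k + 1) + 1 = j - k := by omega
      refine hI.i2 _ _ _ (by omega) (by rw [e1]; exact hc) ?_ (hadj _ (by omega))
      rw [e1, e2]
      exact h1
  intro i hi
  have := key (j - i) (by omega)
  have e : j - (j - i) = i := by omega
  rwa [e] at this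

lemma L3C_step (hP : ∀ a b, ∀ f ∈ P a b, f ∈ Wk G j a ∧ f j = b) {B : Finset V}
    {E : ℕ → V → Finset V} (hI : L3C_Inv G j h A B0 P w B E) {b a : V} (hb : b ∈ B) (ha : a ∈ A)
    (hf : (((P a b).filter fun g => ∀ i ≤ j, g i ∈ Ws G B h (j - i)).card : ℝ) < w a b) :
    ∃ E', L3C_Inv G j h A B0 P w (B.erase b) E' := by
  have hsub : B.erase b ⊆ B := Finset.erase_subset _ _
  let E' : ℕ → V → Finset V := fun i z =>
    if z ∈ Ws G B h (j - i) then L3C_F G (B.erase b) h j i z else E i z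
  have hEE : ∀ i z, E i z ⊆ E' i z := by
    intro i z
    by_cases hz : z ∈ Ws G B h (j - i)
    · rw [hI.i3 i z hz]
      exact Finset.empty_subset _
    · simp only [E', if_neg hz]
      exact Finset.Subset.refl _
  have hDD : ∀ g, ¬ L3C_D j E' g → ¬ L3C_D j E g := fun g hg ⟨i, hi, h2⟩ => hg ⟨i, hi, hEE _ _ h2⟩
  refine ⟨E', ⟨hsub.trans hI.i0, ?_, ?_, ?_, ?_⟩⟩
  · intro i z
    by_cases hz : z ∈ Ws G B h (j - i)
    · simp only [E', if_pos hz]
      exact L3C_F_card _ _ _ _ _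
    · simp only [E', if_neg hz]
      exact hI.i1 i z
  · intro i z y hi hz hy hzy
    by_cases hz' : z ∈ Ws G B h (j - i)
    · simp only [E', if_pos hz']
      exact L3C_F_mem _ _ _ _ _ _ hi hz hy hzy
    · simp only [E', if_neg hz']
      exact hI.i2 i z y hi hz' (L3C_mono hsub h _ hy) hzy
  · intro i z hz
    have hz' := L3C_mono hsub h _ hz
    simp only [E', if_pos hz']
    exact L3C_F_empty _ _ _ _ _ hz
  · intro c hc0 hc
    by_cases hcb : c = b
    · subst hcb
      refine ⟨a, ha, lt_of_le_of_lt ?_ hf⟩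
      exact_mod_cast Finset.card_le_card fun g hg => by
        obtain ⟨h2, h3⟩ := Finset.mem_filter.1 hg
        obtain ⟨h4, h5⟩ := hP a c g h2
        exact Finset.mem_filter.2 ⟨h2, L3C_lev hI (mem_Wk h4).2 (h5.symm ▸ hb) (hDD g h3)⟩
    · obtain ⟨a', ha', h1⟩ := hI.i4 c hc0 fun h1 => hc (Finset.mem_erase.2 ⟨hcb, h1⟩)
      refine ⟨a', ha', lt_of_le_of_lt ?_ h1⟩
      exact_mod_cast Finset.card_le_card fun g hg =>
        Finset.mem_filter.2 ⟨(Finset.mem_filter.1 hg).1, hDD g (Finset.mem_filter.1 hg).2⟩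

theorem L3_clean (hP : ∀ a b, ∀ f ∈ P a b, f ∈ Wk G j a ∧ f j = b) :
    ∃ (B : Finset V) (E : ℕ → V → Finset V), L3C_Inv G j h A B0 P w B E ∧ ∀ b ∈ B, ∀ a ∈ A,
      w a b ≤ (((P a b).filter fun g => ∀ i ≤ j, g i ∈ Ws G B h (j - i)).card : ℝ) := by
  have key : ∀ (n : ℕ) (B : Finset V) (E : ℕ → V → Finset V), B.card = n →
      L3C_Inv G j h A B0 P w B E →
      ∃ (B : Finset V) (E : ℕ → V → Finset V), L3C_Inv G j h A B0 P w B E ∧ ∀ b ∈ B, ∀ a ∈ A,
        w a b ≤ (((P a b).filter fun g => ∀ i ≤ j, g i ∈ Ws G B h (j - i)).card : ℝ) := by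
    intro n
    induction n with
    | zero =>
      intro B E hB hI
      refine ⟨B, E, hI, fun b hb => ?_⟩
      rw [Finset.card_eq_zero] at hB
      subst hB
      simp at hb
    | succ n ih =>
      intro B E hB hI
      by_cases hall : ∀ b ∈ B, ∀ a ∈ A,
          w a b ≤ (((P a b).filter fun g => ∀ i ≤ j, g i ∈ Ws G B h (j - i)).card : ℝ)
      · exact ⟨B, E, hI, hall⟩
      · push Not at hall
        obtain ⟨b, hb, a, ha, hf⟩ := hall
        obtain ⟨E', hI'⟩ := L3C_step hP hI hb ha hf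
        refine ih (B.erase b) E' ?_ hI'
        rw [Finset.card_erase_of_mem hb, hB]
        rfl
  exact key _ B0 (L3C_F G B0 h j) rfl ⟨Finset.Subset.refl _, fun i z => L3C_F_card _ _ _ _ _,
    fun i z y hi hz hy hzy => L3C_F_mem _ _ _ _ _ _ hi hz hy hzy,
    fun i z hz => L3C_F_empty _ _ _ _ _ hz, fun b hb hb' => absurd hb hb'⟩

/-- few bottleneck-free walks from `a` to `b` meet a small set -/
lemma L3_thin {T : ℝ} (hT : 0 ≤ T) (l : ℕ) (a b : V) (F : Finset V) :
    T * (((L3PB G T l a b).filter fun f => ∃ i, 0 < i ∧ i < l ∧ f i ∈ F).card : ℝ) ≤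
      l * F.card * cw G l a b := by
  have h0 : ∀ t ∈ Finset.Ioo 0 l, ∀ z,
      T * (((L3PB G T l a b).filter fun f => f t = z).card : ℝ) ≤ cw G l a b := by
    intro t ht z
    obtain ⟨ht0, htl⟩ := Finset.mem_Ioo.1 ht
    rcases ((L3PB G T l a b).filter fun f => f t = z).eq_empty_or_nonempty with h | ⟨g, hg⟩
    · rw [h]
      simpa using cw_nonneg _ _ _
    · obtain ⟨hg1, hz⟩ := Finset.mem_filter.1 hg
      obtain ⟨hg2, hB, hb⟩ := Finset.mem_filter.1 hg1
      have hB' := hB t ht0 htl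
      rw [(mem_Wk hg2).1, hz, hb] at hB'
      refine le_trans (mul_le_mul_of_nonneg_left ?_ hT) hB'
      have h3 := L2BF_mid (G := G) t (l - t) a z b
      rw [show l - t + t = l by omega, show t + (l - t) = l by omega] at h3
      rw [← h3, Finset.sum_boole]
      exact_mod_cast Finset.card_le_card fun f hf => by
        obtain ⟨h4, h5⟩ := Finset.mem_filter.1 hf
        obtain ⟨h6, -, h7⟩ := Finset.mem_filter.1 h4
        exact Finset.mem_filter.2 ⟨h6, h5, h7⟩
  have h1 : (((L3PB G T l a b).filter fun f => ∃ i, 0 < i ∧ i < l ∧ f i ∈ F).card : ℝ) ≤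
      ∑ p ∈ Finset.Ioo 0 l ×ˢ F, (((L3PB G T l a b).filter fun f => f p.1 = p.2).card : ℝ) := by
    rw [← Nat.cast_sum, Nat.cast_le]
    refine le_trans (Finset.card_le_card fun g hg => ?_) Finset.card_biUnion_le
    obtain ⟨h2, i, h3, h4, h5⟩ := Finset.mem_filter.1 hg
    exact Finset.mem_biUnion.2 ⟨(i, g i), Finset.mem_product.2 ⟨Finset.mem_Ioo.2 ⟨h3, h4⟩, h5⟩,
      Finset.mem_filter.2 ⟨h2, rfl⟩⟩
  refine (mul_le_mul_of_nonneg_left h1 hT).trans ?_
  rw [Finset.mul_sum]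
  refine (Finset.sum_le_sum fun p hp => h0 p.1 (Finset.mem_product.1 hp).1 p.2).trans ?_
  rw [Finset.sum_const, nsmul_eq_mul, Finset.card_product, Nat.card_Ioo]
  refine mul_le_mul_of_nonneg_right ?_ (cw_nonneg _ _ _)
  exact_mod_cast Nat.mul_le_mul_right _ (by omega)

/-- from complete rich pairs to a hub system -/
theorem L3_hs {Δ T η c : ℝ} (hΔ : ∀ x, ((nb G x).card : ℝ) ≤ Δ) (hD : 0 < Δ) (hT : 0 < T)
    (hη : 0 < η) {j h : ℕ} (hh : 0 < h) {x : V} {A B0 : Finset V} (hA : A.card = h)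
    (hAB : ∀ a ∈ A, ∀ b ∈ B0, L3gp G T η j x a b) (hpos : ∀ b ∈ B0, 0 < cw G j x b)
    (hB : c * Δ ^ j ≤ ∑ b ∈ B0, cw G j x b) (hc1 : c ≤ 1)
    (hc : (h : ℝ) * ((j + 1) * (j + 1 + h)) < η / 2 * T * c) :
    ∃ Z, HS G h (j + 1) A Z := by
  set l := j + 1 with hl
  have hlR : (l : ℝ) = j + 1 := by rw [hl]; push_cast; ring
  obtain ⟨B, E, hI, hw⟩ := L3_clean (G := G) (j := l) (h := h) (A := A) (B0 := B0)
    (P := fun a b => (L3PB G T l a b).filter (Good ∅ l)) (w := fun a b => η / 2 * cw G l a b)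
    (fun a b f hf => by
      obtain ⟨h1, -, h2⟩ := Finset.mem_filter.1 (Finset.mem_filter.1 hf).1
      exact ⟨h1, h2⟩)
  have hh1 : (1 : ℝ) ≤ h := by exact_mod_cast hh
  have hj0 : (0 : ℝ) ≤ j := Nat.cast_nonneg _
  have hne : B.Nonempty := by
    by_contra hBe
    rw [Finset.not_nonempty_iff_eq_empty] at hBe
    set Dd : V → Finset (ℕ → V) := fun a => (Wk G l a).filter fun g =>
      ¬ Good ∅ l g ∨ L3C_D l E g with hDd
    have h1 : ∀ a, ((Dd a).card : ℝ) ≤ (j + 1) * (j + 1 + h) * Δ ^ j := by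
      intro a
      have a1 := bad_count hΔ l a ∅
      have a2 := rule_count hΔ h l a E hI.i1
      have a3 : ((Dd a).card : ℝ) ≤ ∑ f ∈ Wk G l a, (if Good ∅ l f then (0 : ℝ) else 1) +
          (((Wk G l a).filter fun f => ∃ i < l, f (i + 1) ∈ E i (f i)).card : ℝ) := by
        rw [hDd, ← Finset.sum_boole, ← Finset.sum_boole, ← Finset.sum_add_distrib]
        refine Finset.sum_le_sum fun f _ => ?_
        by_cases b1 : Good ∅ l f <;> by_cases b2 : ∃ i < l, f (i + 1) ∈ E i (f i) <;>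
          simp [b1, b2, L3C_D]
      refine le_of_mul_le_mul_left ?_ hD
      rw [Finset.card_empty, Nat.cast_zero, zero_add, hlR] at a1
      rw [hlR] at a2
      have e : Δ ^ l = Δ * Δ ^ j := pow_succ' _ _
      rw [e] at a1 a2
      nlinarith [mul_le_mul_of_nonneg_left a3 hD.le]
    have h2 : ∀ b ∈ B0, η / 2 * T * cw G j x b ≤
        ∑ a ∈ A, (((Dd a).filter fun g => g l = b).card : ℝ) := by
      intro b hb
      obtain ⟨a, ha, h3⟩ := hI.i4 b hb (by simp [hBe])
      obtain ⟨h4, h5⟩ := hAB a ha b hb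
      have h8 : (((Dd a).filter fun g => g l = b).card : ℝ) ≤
          ∑ a ∈ A, (((Dd a).filter fun g => g l = b).card : ℝ) :=
        Finset.single_le_sum (f := fun a => (((Dd a).filter fun g => g l = b).card : ℝ))
          (fun _ _ => Nat.cast_nonneg _) ha
      have h6 : (L3PB G T l a b).card ≤
          (((L3PB G T l a b).filter (Good ∅ l)).filter fun g => ¬ L3C_D l E g).card +
            ((Dd a).filter fun g => g l = b).card := by
        refine le_trans (Finset.card_le_card fun g hg => ?_) (Finset.card_union_le _ _)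
        obtain ⟨b1, -, b2⟩ := Finset.mem_filter.1 hg
        by_cases b3 : ¬ Good ∅ l g ∨ L3C_D l E g
        · exact Finset.mem_union_right _
            (Finset.mem_filter.2 ⟨Finset.mem_filter.2 ⟨b1, b3⟩, b2⟩)
        · push Not at b3
          exact Finset.mem_union_left _
            (Finset.mem_filter.2 ⟨Finset.mem_filter.2 ⟨hg, b3.1⟩, b3.2⟩)
      have h7 : ((L3PB G T l a b).card : ℝ) ≤
          (((L3PB G T l a b).filter (Good ∅ l)).filter fun g => ¬ L3C_D l E g).card +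
            ((Dd a).filter fun g => g l = b).card := by exact_mod_cast h6
      have h9 := mul_le_mul_of_nonneg_left h5 hη.le
      have h10 : η * cw G l a b ≤ (L3PB G T l a b).card := h4
      have h11 : η * (T * cw G j x b) ≤ η * cw G l a b := h9
      linarith
    have h3 := Finset.sum_le_sum h2
    rw [← Finset.mul_sum, Finset.sum_comm] at h3
    have h4 : ∀ a ∈ A, ∑ b ∈ B0, (((Dd a).filter fun g => g l = b).card : ℝ) ≤
        (j + 1) * (j + 1 + h) * Δ ^ j := by
      intro a _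
      refine le_trans ?_ (h1 a)
      rw [Finset.card_eq_sum_card_fiberwise (f := fun g : ℕ → V => g l) (s := Dd a)
        (t := Finset.univ) fun _ _ => Finset.mem_coe.2 (Finset.mem_univ _), Nat.cast_sum]
      exact Finset.sum_le_sum_of_subset_of_nonneg (Finset.subset_univ _)
        fun _ _ _ => Nat.cast_nonneg _
    have h5 := h3.trans (Finset.sum_le_sum h4)
    rw [Finset.sum_const, nsmul_eq_mul, hA] at h5
    have h6 := mul_le_mul_of_nonneg_left hB (by positivity : 0 ≤ η / 2 * T)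
    have h7 := mul_lt_mul_of_pos_right hc (by positivity : 0 < Δ ^ j)
    nlinarith
  have hget : ∀ a ∈ A, ∀ b ∈ B, ∀ F : Finset V, F.card < h → ∃ f ∈ L3PB G T l a b,
      Good ∅ l f ∧ (∀ i ≤ l, f i ∈ Ws G B h (l - i)) ∧ ∀ i, 0 < i → i < l → f i ∉ F := by
    intro a ha b hb F hF
    by_contra hcon
    push Not at hcon
    have h1 := hw b hb a ha
    have h2 := L3_thin (G := G) hT.le l a b F
    have h3 : ((((L3PB G T l a b).filter (Good ∅ l)).filter
        fun g => ∀ i ≤ l, g i ∈ Ws G B h (l - i)).card : ℝ) ≤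
        (((L3PB G T l a b).filter fun f => ∃ i, 0 < i ∧ i < l ∧ f i ∈ F).card : ℝ) := by
      exact_mod_cast Finset.card_le_card fun g hg => by
        obtain ⟨b1, b2⟩ := Finset.mem_filter.1 hg
        obtain ⟨b3, b4⟩ := Finset.mem_filter.1 b1
        exact Finset.mem_filter.2 ⟨b3, hcon g b3 b4 b2⟩
    have h4 : 0 < cw G l a b :=
      lt_of_lt_of_le (mul_pos hT (hpos b (hI.i0 hb))) (hAB a ha b (hI.i0 hb)).2
    have h5 : (F.card : ℝ) ≤ h := by exact_mod_cast hF.le
    have h6 : η / 2 * T * cw G l a b ≤ l * h * cw G l a b := by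
      have := mul_le_mul_of_nonneg_left (h1.trans h3) hT.le
      have h7 : (l : ℝ) * F.card * cw G l a b ≤ l * h * cw G l a b := by gcongr
      linarith
    have h7 := le_of_mul_le_mul_right h6 h4
    have h8 : η / 2 * T * c ≤ η / 2 * T := mul_le_of_le_one_right (by positivity) hc1
    rw [hlR] at h7
    have h9 : (0 : ℝ) ≤ h * ((j + 1) * (j + h)) := by positivity
    nlinarith
  refine ⟨fun i => Ws G B h (l - i), hA.ge, fun a ha => ?_, fun i hi z hz F hF => ?_,
    fun a ha b hb F hF => ?_⟩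
  · obtain ⟨b, hb⟩ := hne
    obtain ⟨f, hf, -, h2, -⟩ := hget a ha b hb ∅ (by simpa using hh)
    have := h2 0 (Nat.zero_le _)
    rwa [(mem_Wk (Finset.mem_filter.1 hf).1).1] at this
  · rw [show l - i = l - (i + 1) + 1 by omega] at hz
    exact exists_nbr_Ws hz hF
  · rw [Nat.sub_self] at hb
    obtain ⟨f, hf, h1, h2, h3⟩ := hget a ha b hb F hF
    obtain ⟨h4, -, h5⟩ := Finset.mem_filter.1 hf
    exact ⟨f, (mem_Wk h4).1, h5, (mem_Wk h4).2, fun i hi hi' => ⟨h2 i hi'.le, h3 i hi hi'⟩,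
      fun i i' hi hii' hi' => (h1 i' (by omega) hi'.le).2 i hi hii'⟩

end Pool.Agent.Lib.MP_befe0b_co
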