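import Pool.Agent.Lib.MP_befe0b_co.L3Defs

/-! A graph with a level function embeds in a hub system. -/

open Finset
open scoped Classical

noncomputable section

namespace Pool.Agent.Lib.MP_befe0b_co

variable {W V : Type*} [Fintype W] {H : SimpleGraph W} {G : SimpleGraph V}

/-- the descending chain from `x` inside `S` has no branching upwards -/
inductive l3embGood (H : SimpleGraph W) (S : Finset W) (l : ℕ) (lam : W → ℕ) : W → Prop
  | mk (x : W) : lam x < l →
      (∀ u ∈ S, ∀ u' ∈ S, H.Adj x u → H.Adj x u' → lam x < lam u → lam x < lam u' → u = u') →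
      (∀ z ∈ S, H.Adj x z → 0 < lam z → lam z < lam x → l3embGood H S l lam z) →
      l3embGood H S l lam x

omit [Fintype W] in
lemma l3embGood.out {l : ℕ} {lam : W → ℕ} {S : Finset W} {x : W} (h : l3embGood H S l lam x) :
    lam x < l ∧
      (∀ u ∈ S, ∀ u' ∈ S, H.Adj x u → H.Adj x u' → lam x < lam u → lam x < lam u' → u = u') ∧
      ∀ z ∈ S, H.Adj x z → 0 < lam z → lam z < lam x → l3embGood H S l lam z := by
  cases h with
  | mk _ h1 h2 h3 => exact ⟨h1, h2, h3⟩

lemma l3emb_chain {l : ℕ} {lam : W → ℕ} (hH : Lev H univ l lam) {S : Finset W} {x : W}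
    (hx : l3embGood H S l lam x) : x ∈ S → 0 < lam x →
    ∃ I ⊆ S, x ∈ I ∧ (∀ y ∈ I, 0 < lam y ∧ lam y ≤ lam x) ∧
      (∀ y ∈ I, ∀ y' ∈ I, lam y = lam y' → y = y') ∧
      ∀ y ∈ I, ∀ z ∈ S, H.Adj y z → z ∈ I ∨ lam z = 0 ∨ (y = x ∧ lam x < lam z) := by
  induction hx with
  | mk x h1 h2 h3 ih =>
  intro hS h0
  have adj := fun u w => hH.adj u (mem_univ _) w (mem_univ _)
  by_cases hz : ∃ z ∈ S, H.Adj x z ∧ 0 < lam z ∧ lam z < lam x
  · obtain ⟨z, z1, z2, z3, z4⟩ := hz
    obtain ⟨I, i1, i2, i3, i4, i5⟩ := ih z z1 z2 z3 z4 z1 z3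
    have u2 := (h3 z z1 z2 z3 z4).out.2.1
    refine ⟨insert x I, insert_subset hS i1, mem_insert_self _ _, ?_, ?_, ?_⟩
    · intro y hy
      rcases mem_insert.1 hy with rfl | hy
      · exact ⟨h0, le_rfl⟩
      · have := i3 y hy; omega
    · intro y hy y' hy' e
      rcases mem_insert.1 hy with rfl | k <;> rcases mem_insert.1 hy' with rfl | k'
      · rfl
      · have := i3 _ k'; omega
      · have := i3 _ k; omega
      · exact i4 _ k _ k' e
    · intro y hy z' hz' a
      rcases mem_insert.1 hy with rfl | k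
      · rcases adj _ _ a with e | e
        · exact .inr (.inr ⟨rfl, by omega⟩)
        · rw [hH.one y (mem_univ _) h1 z' (mem_univ _) z (mem_univ _) a z2 (by omega) z4]
          exact .inl (mem_insert_of_mem i2)
      · rcases i5 y k z' hz' a with e | e | ⟨rfl, e⟩
        · exact .inl (mem_insert_of_mem e)
        · exact .inr (.inl e)
        · rw [u2 z' hz' x hS a z2.symm e z4]
          exact .inl (mem_insert_self _ _)
  · push Not at hz
    refine ⟨{x}, by simpa using hS, mem_singleton_self _, by simpa using h0, by simp, ?_⟩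
    intro y hy z hz' a
    rw [mem_singleton] at hy
    subst hy
    have := hz z hz' a
    rcases adj _ _ a with e | e
    · exact .inr (.inr ⟨rfl, by omega⟩)
    · exact .inr (.inl (by omega))

omit [Fintype W] in
lemma l3emb_two {T : Finset W} {w u u' : W} (h : dg H T w ≤ 1) (hu : u ∈ T) (hu' : u' ∈ T)
    (a : H.Adj w u) (a' : H.Adj w u') : u = u' :=
  card_le_one.1 h u (mem_filter.2 ⟨hu, a⟩) u' (mem_filter.2 ⟨hu', a'⟩)

/-- either a pendant vertex or a chain hanging from a top can be removed -/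
lemma l3emb_split {l : ℕ} {lam : W → ℕ} (hH : Lev H univ l lam) (hl : 2 ≤ l) {S : Finset W}
    (hS : ∃ w ∈ S, 0 < lam w) :
    (∃ w ∈ S, 0 < lam w ∧ (∀ z ∈ S, H.Adj w z → lam z < lam w) ∧
      ∀ z ∈ S, ∀ z' ∈ S, H.Adj w z → H.Adj w z' → z = z') ∨
    ∃ I ⊆ S, I.Nonempty ∧ ∃ w ∈ S, lam w = l ∧ (∀ y ∈ I, 0 < lam y ∧ lam y < l) ∧
      (∀ y ∈ I, ∀ y' ∈ I, lam y = lam y' → y = y') ∧
      ∀ y ∈ I, ∀ z ∈ S, H.Adj y z → z ∈ I ∨ lam z = 0 ∨ z = w := by
  have adj := fun u w => hH.adj u (mem_univ _) w (mem_univ _)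
  have le := fun u => hH.le u (mem_univ _)
  refine or_iff_not_imp_left.2 fun hn => ?_
  have hup : ∀ w ∈ S, 0 < lam w → lam w < l → ∃ u ∈ S, H.Adj w u ∧ lam w < lam u := by
    intro w hw h0 h1
    by_contra hc
    push Not at hc
    have k : ∀ z ∈ S, H.Adj w z → lam z < lam w := fun z hz a => by
      have := hc z hz a
      have := adj _ _ a
      omega
    exact hn ⟨w, hw, h0, k, fun z hz z' hz' a a' =>
      hH.one w (mem_univ _) h1 z (mem_univ _) z' (mem_univ _) a a' (k z hz a) (k z' hz' a')⟩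
  set T := S.filter fun w => 0 < lam w ∧ ¬ l3embGood H S l lam w with hT
  have mT : ∀ w, w ∈ T ↔ w ∈ S ∧ 0 < lam w ∧ ¬ l3embGood H S l lam w := fun w => mem_filter
  have hne : T.Nonempty := by
    obtain ⟨w₀, hw₀, h₀⟩ := hS
    obtain ⟨w, hw, hm⟩ := S.exists_max_image lam ⟨w₀, hw₀⟩
    have h1 := hm w₀ hw₀
    refine ⟨w, (mT w).2 ⟨hw, by omega, fun h2 => ?_⟩⟩
    obtain ⟨u, hu, -, h3⟩ := hup w hw (by omega) h2.out.1
    have := hm u hu
    omega
  obtain ⟨w, hw, hd⟩ := hH.forest T (subset_univ _) hne fun w hw => ((mT w).1 hw).2.1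
  obtain ⟨w1, w2, w3⟩ := (mT w).1 hw
  rcases (le w).lt_or_eq with hlt | heq
  · have upT : ∀ u ∈ S, H.Adj w u → lam w < lam u → u ∈ T := fun u hu a h => by
      exact (mT u).2 ⟨hu, by omega, fun h3 => w3 (h3.out.2.2 w w1 a.symm w2 h)⟩
    refine absurd (l3embGood.mk w hlt (fun u hu u' hu' a a' h h' =>
      l3emb_two hd (upT u hu a h) (upT u' hu' a' h') a a') fun z hz a h0 h1 => ?_) w3
    by_contra hc
    obtain ⟨u, hu, a', h⟩ := hup w w1 w2 hlt
    have := l3emb_two hd (upT u hu a' h) ((mT z).2 ⟨hz, h0, hc⟩) a' a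
    subst this
    omega
  · have k : ∀ z, H.Adj w z → lam z + 1 = l := fun z a => by
      have := adj _ _ a
      have := le z
      omega
    obtain ⟨x, x1, x2, x3⟩ : ∃ x ∈ S, H.Adj w x ∧ l3embGood H S l lam x := by
      by_contra hc
      push Not at hc
      refine hn ⟨w, w1, w2, fun z _ a => by have := k z a; omega, fun z hz z' hz' a a' => ?_⟩
      exact l3emb_two hd ((mT z).2 ⟨hz, by have := k z a; omega, hc z hz a⟩)
        ((mT z').2 ⟨hz', by have := k z' a'; omega, hc z' hz' a'⟩) a a'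
    have kx := k x x2
    obtain ⟨I, i1, i2, i3, i4, i5⟩ := l3emb_chain hH x3 x1 (by omega)
    have u2 := x3.out.2.1
    refine ⟨I, i1, ⟨x, i2⟩, w, w1, heq, fun y hy => by have := i3 y hy; omega, i4,
      fun y hy z hz a => ?_⟩
    rcases i5 y hy z hz a with e | e | ⟨rfl, e⟩
    · exact .inl e
    · exact .inr (.inl e)
    · exact .inr (.inr (u2 z hz w w1 a x2.symm e (by omega)))

/-- an embedding of the part `S` which respects levels -/
def l3embOk (H : SimpleGraph W) (G : SimpleGraph V) (A : Finset V) (Z : ℕ → Finset V)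
    (lam : W → ℕ) (S : Finset W) (φ : W → V) : Prop :=
  (∀ x ∈ S, ∀ z ∈ S, φ x = φ z → x = z) ∧ (∀ x ∈ S, ∀ z ∈ S, H.Adj x z → G.Adj (φ x) (φ z)) ∧
    (∀ x ∈ S, φ x ∈ Z (lam x)) ∧ ∀ x, lam x = 0 → φ x ∈ A

omit [Fintype W] in
lemma l3emb_ext {A : Finset V} {Z : ℕ → Finset V} {lam : W → ℕ} {S I : Finset W} {φ g : W → V}
    (h : l3embOk H G A Z lam (S \ I) φ) (h0 : ∀ x ∈ I, 0 < lam x)
    (h1 : ∀ x ∈ I, g x ∈ Z (lam x) ∧ g x ∉ (S \ I).image φ)
    (h2 : ∀ x ∈ I, ∀ z ∈ I, g x = g z → x = z)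
    (h3 : ∀ x ∈ I, ∀ z ∈ I, H.Adj x z → G.Adj (g x) (g z))
    (h4 : ∀ x ∈ I, ∀ z ∈ S, z ∉ I → H.Adj x z → G.Adj (g x) (φ z)) :
    ∃ ψ, l3embOk H G A Z lam S ψ := by
  obtain ⟨p1, p2, p3, p4⟩ := h
  have ne : ∀ x ∈ I, ∀ z ∈ S, z ∉ I → g x ≠ φ z := fun x hx z hz hz' e =>
    (h1 x hx).2 (e ▸ mem_image_of_mem φ (mem_sdiff.2 ⟨hz, hz'⟩))
  refine ⟨fun z => if z ∈ I then g z else φ z, fun x hx z hz e => ?_, fun x hx z hz a => ?_,
    fun x hx => ?_, fun x hx => ?_⟩
  · by_cases hxI : x ∈ I <;> by_cases hzI : z ∈ I <;> simp only [hxI, hzI, if_true, if_false] at e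
    · exact h2 x hxI z hzI e
    · exact absurd e (ne x hxI z hz hzI)
    · exact absurd e.symm (ne z hzI x hx hxI)
    · exact p1 x (mem_sdiff.2 ⟨hx, hxI⟩) z (mem_sdiff.2 ⟨hz, hzI⟩) e
  · by_cases hxI : x ∈ I <;> by_cases hzI : z ∈ I <;> simp only [hxI, hzI, if_true, if_false]
    · exact h3 x hxI z hzI a
    · exact h4 x hxI z hz hzI a
    · exact (h4 z hzI x hx hxI a.symm).symm
    · exact p2 x (mem_sdiff.2 ⟨hx, hxI⟩) z (mem_sdiff.2 ⟨hz, hzI⟩) a
  · by_cases hxI : x ∈ I <;> simp only [hxI, if_true, if_false]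
    · exact (h1 x hxI).1
    · exact p3 x (mem_sdiff.2 ⟨hx, hxI⟩)
  · have hxI : x ∉ I := fun k => by have := h0 x k; omega
    simp only [hxI, if_false]
    exact p4 x hx

theorem HS.embed {h l : ℕ} {A : Finset V} {Z : ℕ → Finset V} (hG : HS G h l A Z) (hl : 2 ≤ l)
    {lam : W → ℕ} (hH : Lev H univ l lam) (hh : Fintype.card W < h) : H.IsContained G := by
  have adj := fun u w => hH.adj u (mem_univ _) w (mem_univ _)
  have le := fun u => hH.le u (mem_univ _)
  have hA : A.Nonempty := card_pos.1 (by have := hG.card; omega)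
  have hZ : ∀ i ≤ l, (Z i).Nonempty := by
    intro i
    induction i with
    | zero => exact fun _ => hA.mono hG.hub
    | succ i ih =>
      intro hi
      obtain ⟨z, hz⟩ := ih (by omega)
      obtain ⟨y, hy, -⟩ := hG.up i hi z hz ∅ (by rw [card_empty]; omega)
      exact ⟨y, hy⟩
  have hF : ∀ (S' : Finset W) (φ : W → V), (S'.image φ).card < h := fun S' φ =>
    (card_image_le.trans (card_le_univ _)).trans_lt hh
  have key : ∀ n, ∀ S : Finset W, S.card = n → (∀ w, lam w = 0 → w ∈ S) →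
      ∃ φ : W → V, l3embOk H G A Z lam S φ := by
    intro n
    induction n using Nat.strong_induction_on with
    | _ n ih =>
    intro S hSn hS0
    have step : ∀ I ⊆ S, I.Nonempty → (∀ x ∈ I, 0 < lam x) →
        ∃ φ : W → V, l3embOk H G A Z lam (S \ I) φ := fun I hI hne h0 =>
      ih _ (hSn ▸ card_lt_card (sdiff_ssubset hI hne)) _ rfl fun w hw =>
        mem_sdiff.2 ⟨hS0 w hw, fun k => by have := h0 w k; omega⟩
    by_cases hS : ∃ w ∈ S, 0 < lam w
    · rcases l3emb_split hH hl hS with ⟨w, w1, w2, w3, w4⟩ | ⟨I, i1, i2, w, w1, w2, i3, i4, i5⟩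
      · have h0 : ∀ x ∈ ({w} : Finset W), 0 < lam x := by simpa using w2
        obtain ⟨φ, hφ⟩ := step {w} (by simpa using w1) (singleton_nonempty w) h0
        obtain ⟨j, hj⟩ : ∃ j, lam w = j + 1 := ⟨lam w - 1, by omega⟩
        have hjl : j < l := by have := le w; omega
        obtain ⟨p, hp, hp'⟩ : ∃ p ∈ Z j, ∀ z ∈ S, H.Adj w z → φ z = p := by
          by_cases hz : ∃ z ∈ S, H.Adj w z
          · obtain ⟨z, hz, a⟩ := hz
            refine ⟨φ z, ?_, fun z' hz' a' => by rw [w4 z' hz' z hz a' a]⟩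
            have e : lam z = j := by
              have := w3 z hz a
              have := adj _ _ a
              omega
            exact e ▸ hφ.2.2.1 z (mem_sdiff.2 ⟨hz, by simpa using a.ne'⟩)
          · obtain ⟨p, hp⟩ := hZ j hjl.le
            exact ⟨p, hp, fun z h1 h2 => absurd ⟨z, h1, h2⟩ hz⟩
        obtain ⟨v, v1, v2, v3⟩ := hG.up j hjl p hp _ (hF (S \ {w}) φ)
        refine l3emb_ext (g := fun _ => v) hφ h0 ?_ ?_ ?_ ?_
        · intro x hx
          rw [mem_singleton.1 hx, hj]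
          exact ⟨v1, v2⟩
        · intro x hx z hz _
          rw [mem_singleton.1 hx, mem_singleton.1 hz]
        · intro x hx z hz a
          rw [mem_singleton.1 hx, mem_singleton.1 hz] at a
          exact absurd a H.irrefl
        · intro x hx z hz _ a
          rw [mem_singleton.1 hx] at a
          rw [hp' z hz a]
          exact v3.symm
      · obtain ⟨φ, hφ⟩ := step I i1 i2 fun x hx => (i3 x hx).1
        have wI : w ∉ I := fun k => by have := i3 w k; omega
        obtain ⟨a, ha, ha'⟩ : ∃ a ∈ A, ∀ y ∈ I, ∀ z, H.Adj y z → lam z = 0 → φ z = a := by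
          by_cases hz : ∃ y ∈ I, ∃ z, H.Adj y z ∧ lam z = 0
          · obtain ⟨y, hy, z, b, e⟩ := hz
            refine ⟨φ z, hφ.2.2.2 z e, fun y' hy' z' b' e' => ?_⟩
            have k1 := adj _ _ b
            have k2 := adj _ _ b'
            have := i4 y' hy' y hy (by omega)
            subst this
            rw [hH.one y' (mem_univ _) (i3 y' hy).2 z' (mem_univ _) z (mem_univ _) b' b
              (by omega) (by omega)]
          · obtain ⟨a, ha⟩ := hA
            exact ⟨a, ha, fun y hy z b e => absurd ⟨y, hy, z, b, e⟩ hz⟩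
        obtain ⟨f, f0, fl, f1, f2, f3⟩ := hG.down a ha (φ w)
          (w2 ▸ hφ.2.2.1 w (mem_sdiff.2 ⟨w1, wI⟩)) _ (hF (S \ I) φ)
        have fa : ∀ x z, H.Adj x z → G.Adj (f (lam x)) (f (lam z)) := fun x z b => by
          rcases adj _ _ b with e | e
          · rw [e]; exact f1 _ (by have := le z; omega)
          · rw [e]; exact (f1 _ (by have := le x; omega)).symm
        refine l3emb_ext (g := fun x => f (lam x)) hφ (fun x hx => (i3 x hx).1)
          (fun x hx => f2 _ (i3 x hx).1 (i3 x hx).2) (fun x hx z hz e => i4 x hx z hz ?_)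
          (fun x _ z _ b => fa x z b) fun x hx z hz hzI b => ?_
        · by_contra hc
          rcases Nat.lt_or_gt_of_ne hc with k | k
          · exact f3 _ _ (i3 x hx).1 k (i3 z hz).2 e
          · exact f3 _ _ (i3 z hz).1 k (i3 x hx).2 e.symm
        · have := fa x z b
          rcases i5 x hx z hz b with e | e | e
          · exact absurd e hzI
          · rwa [e, f0, ← ha' x hx z b e] at this
          · subst e
            rwa [w2, fl] at this
    · push Not at hS
      obtain ⟨e⟩ : Nonempty (W ↪ A) := Function.Embedding.nonempty_of_card_le (by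
        rw [Fintype.card_coe]; have := hG.card; omega)
      refine ⟨fun w => e w, fun x _ z _ k => e.injective (Subtype.ext k), fun x hx z hz a => ?_,
        fun x hx => ?_, fun x _ => (e x).2⟩
      · have := adj _ _ a
        have := hS x hx
        have := hS z hz
        omega
      · rw [Nat.le_zero.1 (hS x hx)]
        exact hG.hub (e x).2
  obtain ⟨φ, p1, p2, -⟩ := key _ univ rfl fun w _ => mem_univ w
  exact ⟨⟨⟨φ, fun {a b} h => p2 a (mem_univ _) b (mem_univ _) h⟩,
    fun a b h => p1 a (mem_univ _) b (mem_univ _) h⟩⟩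

end Pool.Agent.Lib.MP_befe0b_co
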