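import Pool.Agent.Lib.MP_befe0b_co.L3Defs

/-! A separated feedback vertex set gives a level function. -/

open Finset
open scoped Classical

noncomputable section

namespace Pool.Agent.Lib.MP_befe0b_co

variable {W : Type*} [Fintype W] {H : SimpleGraph W}

/-- a finite nonempty acyclic graph has a vertex with at most one neighbour -/
lemma L3Fvs_leaf {X : Type*} [Finite X] [Nonempty X] {G : SimpleGraph X} (h : G.IsAcyclic) :
    ∃ u : X, ∀ w w', G.Adj u w → G.Adj u w' → w = w' := by
  obtain ⟨u, v, p, hp, hmax⟩ := SimpleGraph.Walk.exists_isPath_forall_isPath_length_le_length G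
  have key : ∀ w, G.Adj u w → w = p.snd := by
    intro w hadj
    refine h.eq_snd_of_adj_start hp hadj ?_
    by_contra hw
    have h1 : (p.cons hadj.symm).IsPath := (SimpleGraph.Walk.cons_isPath_iff _ _).2 ⟨hp, hw⟩
    have h2 := hmax _ _ _ h1
    rw [SimpleGraph.Walk.length_cons] at h2
    omega
  exact ⟨u, fun w w' h1 h2 => (key w h1).trans (key w' h2).symm⟩

lemma L3Fvs_forest (A : Set W) (hf : (H.induce Aᶜ).IsAcyclic) (T : Finset W) (hT : T.Nonempty)
    (hA : ∀ w ∈ T, w ∉ A) : ∃ w ∈ T, dg H T w ≤ 1 := by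
  let f : H.induce (T : Set W) →g H.induce Aᶜ :=
    ⟨fun x => ⟨x.1, hA x.1 (mem_coe.1 x.2)⟩, fun h => h⟩
  have hinj : Function.Injective f := fun x y e =>
    Subtype.ext (congrArg (fun z : (Aᶜ : Set W) => z.1) e)
  have hac : (H.induce (T : Set W)).IsAcyclic := hf.comap f hinj
  obtain ⟨t, ht⟩ := hT
  have : Nonempty (T : Set W) := ⟨⟨t, mem_coe.2 ht⟩⟩
  obtain ⟨u, hu⟩ := L3Fvs_leaf hac
  refine ⟨u.1, mem_coe.1 u.2, card_le_one.2 fun a ha b hb => ?_⟩
  obtain ⟨ha1, ha2⟩ := mem_filter.1 ha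
  obtain ⟨hb1, hb2⟩ := mem_filter.1 hb
  exact congrArg Subtype.val (hu ⟨a, mem_coe.2 ha1⟩ ⟨b, mem_coe.2 hb1⟩ ha2 hb2)

theorem fvs_lev {k l : ℕ} (hl : 2 ≤ l) (hk : l ≤ k) (A : Set W) (c : H.Coloring Bool)
    (hc : ∀ a ∈ A, c a = true) (hg : ((2 * k : ℕ) : ℕ∞) ≤ H.egirth)
    (hd : ∀ a ∈ A, ∀ b ∈ A, a ≠ b → ((2 * k : ℕ) : ℕ∞) ≤ H.edist a b)
    (hf : (H.induce Aᶜ).IsAcyclic) : ∃ lam : W → ℕ, Lev H univ l lam := by
  let P : W → ℕ → Prop := fun w n => n ≤ l ∧ ∃ a ∈ A, ∃ p : H.Walk a w, p.length = n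
  have hex : ∀ w, ∃ m : ℕ, m ≤ l ∧ (m % 2 = 0 ↔ c w = true) ∧ (∀ n, P w n → m ≤ n) ∧
      (P w m ∨ l - 1 ≤ m) := by
    intro w
    by_cases h : ∃ n, P w n
    · have h1 := Nat.find_spec h
      refine ⟨Nat.find h, h1.1, ?_, fun n hn => Nat.find_min' h hn, Or.inl h1⟩
      obtain ⟨-, a, ha, p, hp⟩ := h1
      have h2 := c.even_length_iff_congr p
      rw [hp, Nat.even_iff, hc a ha] at h2
      rw [h2]
      simp
    · by_cases h2 : (l % 2 = 0 ↔ c w = true)
      · exact ⟨l, le_rfl, h2, fun n hn => absurd ⟨n, hn⟩ h, Or.inr (by omega)⟩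
      · refine ⟨l - 1, by omega, ?_, fun n hn => absurd ⟨n, hn⟩ h, Or.inr le_rfl⟩
        constructor
        · intro h3
          by_contra h4
          exact h2 ⟨fun h5 => by omega, fun h5 => absurd h5 h4⟩
        · intro h3
          by_contra h4
          exact h2 ⟨fun _ => h3, fun _ => by omega⟩
  choose lam hle hpar hmin hnear using hex
  have hstep : ∀ u w, H.Adj u w → lam w ≤ lam u + 1 := by
    intro u w hadj
    rcases hnear u with ⟨h1, a, ha, p, hp⟩ | h1
    · by_cases h2 : lam u + 1 ≤ l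
      · exact hmin w _ ⟨h2, a, ha, p.concat hadj, by rw [SimpleGraph.Walk.length_concat, hp]⟩
      · have := hle w
        omega
    · have := hle w
      omega
  have hadj : ∀ u w, H.Adj u w → lam w = lam u + 1 ∨ lam u = lam w + 1 := by
    intro u w h
    have h1 := hstep u w h
    have h2 := hstep w u h.symm
    have h3 : c u ≠ c w := c.valid h
    have h4 := hpar u
    have h5 := hpar w
    have h6 : lam u ≠ lam w := by
      intro e
      rw [e] at h4
      apply h3
      have h7 : c u = true ↔ c w = true := h4.symm.trans h5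
      cases hu : c u <;> cases hw : c w <;> simp_all
    omega
  have hpath : ∀ u w, H.Adj w u → lam u < lam w → lam w < l →
      ∃ a ∈ A, ∃ q : H.Walk a w, q.IsPath ∧ q.length ≤ lam w ∧ q.penultimate = u := by
    intro u w h h1 h2
    rcases hnear u with ⟨-, a, ha, p, hp⟩ | h3
    · have hb : p.bypass.length ≤ lam u := hp ▸ p.length_bypass_le_length
      have hw : w ∉ p.bypass.support := by
        intro hw
        have h4 := p.bypass.length_takeUntil_le_length hw
        have h5 := hmin w _ ⟨by omega, a, ha, p.bypass.takeUntil w hw, rfl⟩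
        omega
      refine ⟨a, ha, p.bypass.concat h.symm, p.bypass_isPath.concat hw _, ?_,
        SimpleGraph.Walk.penultimate_concat _ _⟩
      rw [SimpleGraph.Walk.length_concat]
      omega
    · omega
  refine ⟨lam, fun w _ => hle w, fun u _ w _ h => hadj u w h,
    fun w _ hw u _ u' _ h1 h2 h3 h4 => ?_, fun T _ hT h0 => L3Fvs_forest A hf T hT fun w hw ha => ?_⟩
  · obtain ⟨a, ha, q, hq, hql, hqu⟩ := hpath u w h1 h3 hw
    obtain ⟨a', ha', q', hq', hql', hqu'⟩ := hpath u' w h2 h4 hw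
    by_contra hne
    by_cases e : a = a'
    · subst e
      have h5 : q ≠ q' := fun e => hne (by rw [← hqu, ← hqu', e])
      obtain ⟨x, -, -, cy, hcy, hlen⟩ := hq.exists_isCycle_length_le_add_of_ne hq' h5
      have h6 := hg.trans (SimpleGraph.egirth_le_length hcy)
      have h7 : 2 * k ≤ cy.length := by exact_mod_cast h6
      omega
    · have h6 := (hd a ha a' ha' e).trans (SimpleGraph.edist_le (q.append q'.reverse))
      have h7 : 2 * k ≤ (q.append q'.reverse).length := by exact_mod_cast h6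
      rw [SimpleGraph.Walk.length_append, SimpleGraph.Walk.length_reverse] at h7
      omega
  · have h1 := hmin w 0 ⟨Nat.zero_le _, w, ha, SimpleGraph.Walk.nil, rfl⟩
    have h2 := h0 w hw
    omega

end Pool.Agent.Lib.MP_befe0b_co
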