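import Pool.Agent.Lib.MP_befe0b_co.L2BF

/-! Many bottleneck-free walks share their second vertex; choice of the hubs. -/

open Finset
open scoped Classical

noncomputable section

namespace Pool.Agent.Lib.MP_befe0b_co

variable {V : Type*} [Fintype V] {G : SimpleGraph V}

/-- number of bottleneck-free walks of length `l` -/
def L3N (G : SimpleGraph V) (T : ℝ) (l : ℕ) : ℝ :=
  ∑ y, ∑ g ∈ Wk G l y, (if L2BF_BF G T l g then (1 : ℝ) else 0)

/-- bottleneck-free walks from `a` to `b` -/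
def L3PB (G : SimpleGraph V) (T : ℝ) (l : ℕ) (a b : V) : Finset (ℕ → V) :=
  (Wk G l a).filter fun f => L2BF_BF G T l f ∧ f l = b

lemma L3_pair {Δ T : ℝ} (hΔ : ∀ x, ((nb G x).card : ℝ) ≤ Δ) (hD : 0 ≤ Δ) {i l L : ℕ}
    (hil : i + l ≤ L) :
    ∑ x, ∑ f ∈ Wk G L x, (if L2BF_BF G T l (fun t => f (i + t)) then (1 : ℝ) else 0) ≤
      Δ ^ (L - l) * L3N G T l := by
  obtain ⟨m, rfl⟩ : ∃ m, L = m + l + i := ⟨L - i - l, by omega⟩
  set N : V → ℝ := fun y => ∑ g ∈ Wk G l y, (if L2BF_BF G T l g then (1 : ℝ) else 0) with hN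
  have hN0 : ∀ y, 0 ≤ N y := fun y => Finset.sum_nonneg fun g _ => by split_ifs <;> norm_num
  have key : ∀ y, ∑ g ∈ Wk G (m + l) y, (if L2BF_BF G T l g then (1 : ℝ) else 0) ≤
      Δ ^ m * N y := by
    intro y
    rw [sum_Wk_add, hN, Finset.mul_sum]
    refine Finset.sum_le_sum fun g _ => ?_
    refine sum_Wk_le hΔ m _ (by split_ifs <;> norm_num) fun g' _ => ?_
    rw [L2BF_congr (f := app l g g') (g := g) fun s hs => if_pos hs]
  have h1 : ∀ x, ∑ f ∈ Wk G (m + l + i) x,
      (if L2BF_BF G T l (fun t => f (i + t)) then (1 : ℝ) else 0) ≤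
      ∑ y, cw G i x y * (Δ ^ m * N y) := by
    intro x
    rw [sum_Wk_add, ← sum_Wk_end i x fun y => Δ ^ m * N y]
    refine Finset.sum_le_sum fun f _ => ?_
    refine le_trans (le_of_eq (Finset.sum_congr rfl fun g hg => ?_)) (key (f i))
    rw [L2BF_congr (g := g) fun s _ => L2BF_app (mem_Wk hg).1 s]
  refine (Finset.sum_le_sum fun x _ => h1 x).trans ?_
  rw [Finset.sum_comm, L3N, Finset.mul_sum]
  refine Finset.sum_le_sum fun y _ => ?_
  rw [← Finset.sum_mul, show m + l + i - l = i + m by omega, pow_add, mul_assoc]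
  refine mul_le_mul_of_nonneg_right ?_ (mul_nonneg (pow_nonneg hD _) (hN0 y))
  simp only [cw_symm i _ y]
  exact sum_cw_le hΔ i y

lemma L3_many [Nonempty V] {d Δ T e : ℝ} {L : ℕ} (hd : ∀ x, d ≤ ((nb G x).card : ℝ))
    (hΔ : ∀ x, ((nb G x).card : ℝ) ≤ Δ) (hd0 : 0 < d) (hT : 1 ≤ T) (hL : 1 ≤ L) (he : 0 < e)
    (hn : 2 * (Fintype.card V : ℝ) * T ^ (L - 1) ≤ d ^ L)
    (he2 : 2 * (L : ℝ) ^ 2 * (e * Δ ^ L) ≤ d ^ L) :
    ∃ l : ℕ, 2 ≤ l ∧ l ≤ L ∧ e * Fintype.card V * Δ ^ l ≤ L3N G T l := by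
  by_contra hc
  push Not at hc
  have hD : 0 < Δ := by
    obtain ⟨x⟩ := ‹Nonempty V›
    linarith [hd x, hΔ x]
  have hτ : 0 ≤ T ^ (L - 1) := by positivity
  set I := (range L ×ˢ Icc 2 L).filter fun p => p.1 + p.2 ≤ L with hI
  have h0 : ∀ x, d ^ L / 2 ≤ ∑ p ∈ I, ∑ f ∈ Wk G L x,
      (if L2BF_BF G T p.2 (fun t => f (p.1 + t)) then (1 : ℝ) else 0) := by
    intro x
    have h1 : ∀ f ∈ Wk G L x, (1 : ℝ) ≤ (if cw G L x (f L) ≤ T ^ (L - 1) then (1 : ℝ) else 0) +
        ∑ p ∈ I, (if L2BF_BF G T p.2 (fun t => f (p.1 + t)) then (1 : ℝ) else 0) := by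
      intro f hf
      have hnn : ∀ p ∈ I, 0 ≤ (if L2BF_BF G T p.2 (fun t => f (p.1 + t)) then (1 : ℝ) else 0) :=
        fun p _ => by split_ifs <;> norm_num
      split_ifs with h
      · linarith [Finset.sum_nonneg hnn]
      · obtain ⟨i, l, a1, a2, a3⟩ := L2BF_sub (G := G) hT L f hL
          (by rw [(mem_Wk hf).1]; exact not_le.1 h)
        have hm : (i, l) ∈ I := by
          simp only [hI, Finset.mem_filter, Finset.mem_product, Finset.mem_range, Finset.mem_Icc]
          omega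
        have := Finset.single_le_sum hnn hm
        rw [if_pos a3] at this
        linarith
    have h2 := (L2BF_lower hd hd0 L x).trans (Finset.sum_le_sum h1)
    rw [Finset.sum_add_distrib, Finset.sum_comm] at h2
    have h3 : ∑ f ∈ Wk G L x, (if cw G L x (f L) ≤ T ^ (L - 1) then (1 : ℝ) else 0) ≤
        Fintype.card V * T ^ (L - 1) := by
      rw [sum_Wk_end L x fun z => if cw G L x z ≤ T ^ (L - 1) then (1 : ℝ) else 0]
      calc _ ≤ ∑ _y : V, T ^ (L - 1) := Finset.sum_le_sum fun y _ => by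
            split_ifs with h
            · rwa [mul_one]
            · rwa [mul_zero]
        _ = _ := by simp
    linarith
  have hn0 : (0 : ℝ) < Fintype.card V := by exact_mod_cast Fintype.card_pos
  have h2 := Finset.sum_le_sum fun x (_ : x ∈ (univ : Finset V)) => h0 x
  rw [Finset.sum_comm, Finset.sum_const, Finset.card_univ, nsmul_eq_mul] at h2
  have h4 : ∑ p ∈ I, ∑ x, ∑ f ∈ Wk G L x,
      (if L2BF_BF G T p.2 (fun t => f (p.1 + t)) then (1 : ℝ) else 0) ≤
      I.card * (Fintype.card V * (e * Δ ^ L)) := by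
    rw [← nsmul_eq_mul]
    refine Finset.sum_le_card_nsmul _ _ _ fun p hp => ?_
    simp only [hI, Finset.mem_filter, Finset.mem_product, Finset.mem_range, Finset.mem_Icc] at hp
    refine (L3_pair hΔ hD.le hp.2).trans ((mul_le_mul_of_nonneg_left
      (hc p.2 hp.1.2.1 hp.1.2.2).le (by positivity)).trans (le_of_eq ?_))
    have : Δ ^ L = Δ ^ (L - p.2) * Δ ^ p.2 := by rw [← pow_add]; congr 1; omega
    rw [this]; ring
  have h5 : (I.card : ℝ) ≤ L * (L - 1) := by
    have : I.card ≤ L * (L - 1) := by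
      refine (Finset.card_filter_le _ _).trans (le_of_eq ?_)
      rw [Finset.card_product, Finset.card_range, Nat.card_Icc]
      congr 1
    calc (I.card : ℝ) ≤ ((L * (L - 1) : ℕ) : ℝ) := by exact_mod_cast this
      _ = _ := by rw [Nat.cast_mul, Nat.cast_sub hL, Nat.cast_one]
  have hE : 0 < e * Δ ^ L := by positivity
  have h6 := mul_le_mul_of_nonneg_right h5 (mul_pos hn0 hE).le
  have hL' : (1 : ℝ) ≤ L := by exact_mod_cast hL
  have h7 : d ^ L / 2 ≤ L * (L - 1) * (e * Δ ^ L) := by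
    refine le_of_mul_le_mul_left ?_ hn0
    linarith
  nlinarith

/-- the pair `a, b` is rich and heavy compared with the walks from `x` to `b` -/
def L3gp (G : SimpleGraph V) (T η : ℝ) (j : ℕ) (x a b : V) : Prop :=
  η * cw G (j + 1) a b ≤ (L3PB G T (j + 1) a b).card ∧ T * cw G j x b ≤ cw G (j + 1) a b

lemma L3_cw_adj {a x : V} (h : G.Adj a x) : cw G 1 a x = 1 := by
  rw [cw_succ]
  simp only [cw_zero, Finset.sum_ite_eq']
  rw [if_pos (mem_nb.2 h)]

lemma L3_root [Nonempty V] {Δ T η : ℝ} (hΔ : ∀ x, ((nb G x).card : ℝ) ≤ Δ) (hη : 0 ≤ η) {j : ℕ}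
    (hj : 1 ≤ j) (h : 2 * η * Fintype.card V * Δ ^ (j + 1) ≤ L3N G T (j + 1)) :
    ∃ x, η * Δ ^ (j + 1) ≤
      ∑ a ∈ nb G x, ∑ b, cw G j x b * (if L3gp G T η j x a b then (1 : ℝ) else 0) := by
  set Ri : V → V → Prop := fun a b => η * cw G (j + 1) a b ≤ (L3PB G T (j + 1) a b).card with hRi
  have h1 : ∀ a, ∑ g ∈ Wk G (j + 1) a, (if L2BF_BF G T (j + 1) g then (1 : ℝ) else 0) ≤
      ∑ g ∈ Wk G (j + 1) a, (if L2BF_BF G T (j + 1) g ∧ Ri a (g (j + 1)) then (1 : ℝ) else 0)
        + η * Δ ^ (j + 1) := by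
    intro a
    have e1 : ∀ g ∈ Wk G (j + 1) a, (if L2BF_BF G T (j + 1) g then (1 : ℝ) else 0) =
        (if L2BF_BF G T (j + 1) g ∧ Ri a (g (j + 1)) then (1 : ℝ) else 0) +
          ∑ b, (if Ri a b then 0 else
            if L2BF_BF G T (j + 1) g ∧ g (j + 1) = b then (1 : ℝ) else 0) := by
      intro g _
      rw [Finset.sum_eq_single (g (j + 1)) (fun b _ hb => by simp [Ne.symm hb]) (by simp)]
      by_cases a1 : L2BF_BF G T (j + 1) g <;> by_cases a2 : Ri a (g (j + 1)) <;> simp [a1, a2]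
    rw [Finset.sum_congr rfl e1, Finset.sum_add_distrib, Finset.sum_comm]
    refine add_le_add le_rfl (le_trans (Finset.sum_le_sum fun b _ => ?_)
      ((Finset.mul_sum _ _ η).symm.le.trans
        (mul_le_mul_of_nonneg_left (sum_cw_le hΔ (j + 1) a) hη)))
    by_cases a2 : Ri a b
    · simp only [if_pos a2, Finset.sum_const_zero]
      exact mul_nonneg hη (cw_nonneg _ _ _)
    · simp only [if_neg a2, Finset.sum_boole]
      exact (not_le.1 a2).le
  have h2 : ∀ a, ∑ g ∈ Wk G (j + 1) a,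
      (if L2BF_BF G T (j + 1) g ∧ Ri a (g (j + 1)) then (1 : ℝ) else 0) ≤
      ∑ x, if G.Adj a x then
        ∑ b, cw G j x b * (if L3gp G T η j x a b then (1 : ℝ) else 0) else 0 := by
    intro a
    rw [sum_Wk_succ, ← Finset.sum_filter]
    refine Finset.sum_le_sum fun x hx => ?_
    rw [← sum_Wk_end j x fun b => if L3gp G T η j x a b then (1 : ℝ) else 0]
    refine Finset.sum_le_sum fun q hq => ?_
    split_ifs with a1 a2
    · exact le_rfl
    · refine absurd ⟨a1.2, ?_⟩ a2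
      have h3 := a1.1 1 le_rfl (by omega)
      rw [cns_zero, show cns a q 1 = x from (mem_Wk hq).1, L3_cw_adj (mem_nb.1 hx), one_mul,
        Nat.add_sub_cancel] at h3
      exact h3
    · norm_num
    · exact le_rfl
  have h3 := h.trans (Finset.sum_le_sum fun a (_ : a ∈ (univ : Finset V)) =>
    (h1 a).trans (add_le_add (h2 a) le_rfl))
  rw [Finset.sum_add_distrib, Finset.sum_comm, Finset.sum_const, Finset.card_univ,
    nsmul_eq_mul] at h3
  obtain ⟨x, -, hx⟩ := Finset.exists_le_of_sum_le (s := (univ : Finset V)) Finset.univ_nonempty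
    (f := fun _ => η * Δ ^ (j + 1)) (g := fun x => ∑ a, if G.Adj a x then
        ∑ b, cw G j x b * (if L3gp G T η j x a b then (1 : ℝ) else 0) else 0) (by
      rw [Finset.sum_const, Finset.card_univ, nsmul_eq_mul]
      linarith)
  refine ⟨x, hx.trans (le_of_eq ?_)⟩
  rw [nb, Finset.sum_filter]
  exact Finset.sum_congr rfl fun a _ => by simp only [G.adj_comm]

lemma L3_greedy {X : Finset V} {ν : V → ℝ} (hν : ∀ b, 0 ≤ ν b) {r : V → V → Prop}
    {Δ N γ : ℝ} (hX : (X.card : ℝ) ≤ Δ) (hN : ∑ b, ν b ≤ N) (hγ : 0 < γ) (hΔ : 0 < Δ)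
    (hN0 : 0 < N) (hs : 2 * γ * (Δ * N) ≤ ∑ a ∈ X, ∑ b, ν b * (if r a b then (1 : ℝ) else 0))
    (h : ℕ) (hh : (h : ℝ) ≤ γ / 2 * Δ) :
    ∃ A B : Finset V, A.card = h ∧ (∀ a ∈ A, ∀ b ∈ B, r a b) ∧ (∀ b ∈ B, 0 < ν b) ∧
      γ * (γ / 2) ^ h * N ≤ ∑ b ∈ B, ν b := by
  set B0 := univ.filter fun b => 0 < ν b ∧ γ * Δ ≤ ((X.filter fun a => r a b).card : ℝ) with hB0
  have h0 : γ * N ≤ ∑ b ∈ B0, ν b := by
    rw [Finset.sum_comm] at hs
    have h1 : ∀ b, ∑ a ∈ X, ν b * (if r a b then (1 : ℝ) else 0) ≤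
        γ * Δ * ν b + Δ * (if b ∈ B0 then ν b else 0) := by
      intro b
      rw [← Finset.mul_sum, Finset.sum_boole]
      have h2 : ((X.filter fun a => r a b).card : ℝ) ≤ Δ :=
        le_trans (by exact_mod_cast Finset.card_filter_le _ _) hX
      have h3 := hν b
      split_ifs with hb
      · nlinarith [mul_nonneg (mul_pos hγ hΔ).le h3]
      · rcases h3.eq_or_lt with h4 | h4
        · rw [← h4]; simp
        · have h5 : ((X.filter fun a => r a b).card : ℝ) < γ * Δ := by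
            by_contra h6
            exact hb (Finset.mem_filter.2 ⟨mem_univ _, h4, not_lt.1 h6⟩)
          nlinarith
    have h2 := hs.trans (Finset.sum_le_sum fun b _ => h1 b)
    rw [Finset.sum_add_distrib, ← Finset.mul_sum, ← Finset.mul_sum, Finset.sum_ite_mem,
      Finset.univ_inter] at h2
    refine le_of_mul_le_mul_left ?_ hΔ
    nlinarith [mul_le_mul_of_nonneg_left hN (mul_pos hγ hΔ).le]
  have key : ∀ t ≤ h, ∃ A B : Finset V, A.card = t ∧ B ⊆ B0 ∧ (∀ a ∈ A, ∀ b ∈ B, r a b) ∧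
      γ * (γ / 2) ^ t * N ≤ ∑ b ∈ B, ν b := by
    intro t
    induction t with
    | zero => exact fun _ => ⟨∅, B0, rfl, Finset.Subset.refl _, by simp, by simpa using h0⟩
    | succ t ih =>
      intro ht
      obtain ⟨A, B, a1, a2, a3, a4⟩ := ih (by omega)
      have ht' : (t : ℝ) + 1 ≤ γ / 2 * Δ := le_trans (by exact_mod_cast ht) hh
      have hcard : ∀ b ∈ B, γ / 2 * Δ ≤ (((X \ A).filter fun a => r a b).card : ℝ) := by
        intro b hb
        have h1 := (Finset.mem_filter.1 (a2 hb)).2.2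
        have h2 : (X.filter fun a => r a b).card ≤ ((X \ A).filter fun a => r a b).card + t := by
          rw [← a1]
          refine le_trans (Finset.card_le_card fun a ha => ?_) (Finset.card_union_le _ _)
          by_cases haA : a ∈ A
          · exact Finset.mem_union_right _ haA
          · exact Finset.mem_union_left _ (Finset.mem_filter.2
              ⟨Finset.mem_sdiff.2 ⟨(Finset.mem_filter.1 ha).1, haA⟩, (Finset.mem_filter.1 ha).2⟩)
        have h3 : ((X.filter fun a => r a b).card : ℝ) ≤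
            ((X \ A).filter fun a => r a b).card + t := by exact_mod_cast h2
        linarith
      have hpos : 0 < ∑ b ∈ B, ν b := lt_of_lt_of_le (by positivity) a4
      have hne : (X \ A).Nonempty := by
        obtain ⟨b, hb, -⟩ := Finset.exists_ne_zero_of_sum_ne_zero hpos.ne'
        have h1 : (0 : ℝ) < (((X \ A).filter fun a => r a b).card : ℝ) :=
          lt_of_lt_of_le (by positivity) (hcard b hb)
        obtain ⟨a, ha⟩ := Finset.card_pos.1 (by exact_mod_cast h1)
        exact ⟨a, (Finset.mem_filter.1 ha).1⟩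
      obtain ⟨a, ha, hb⟩ := Finset.exists_le_of_sum_le hne
        (f := fun _ => γ / 2 * ∑ b ∈ B, ν b)
        (g := fun a => ∑ b ∈ B, ν b * (if r a b then (1 : ℝ) else 0)) (by
          rw [Finset.sum_comm, Finset.sum_const, nsmul_eq_mul]
          have h1 : ((X \ A).card : ℝ) ≤ Δ :=
            le_trans (by exact_mod_cast Finset.card_le_card Finset.sdiff_subset) hX
          calc _ ≤ Δ * (γ / 2 * ∑ b ∈ B, ν b) := by gcongr
            _ = ∑ b ∈ B, ν b * (γ / 2 * Δ) := by rw [← Finset.sum_mul]; ring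
            _ ≤ _ := Finset.sum_le_sum fun b hb => by
                rw [← Finset.mul_sum, Finset.sum_boole]
                exact mul_le_mul_of_nonneg_left (hcard b hb) (hν b))
      refine ⟨insert a A, B.filter fun b => r a b, ?_, (Finset.filter_subset _ _).trans a2,
        fun a' ha' b hb' => ?_, ?_⟩
      · rw [Finset.card_insert_of_notMem (Finset.mem_sdiff.1 ha).2, a1]
      · rcases Finset.mem_insert.1 ha' with rfl | h1
        · exact (Finset.mem_filter.1 hb').2
        · exact a3 a' h1 b (Finset.mem_filter.1 hb').1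
      · rw [Finset.sum_filter]
        simp only [mul_ite, mul_one, mul_zero] at hb
        refine le_trans ?_ hb
        calc _ = γ / 2 * (γ * (γ / 2) ^ t * N) := by ring
          _ ≤ _ := by gcongr
  obtain ⟨A, B, a1, a2, a3, a4⟩ := key h le_rfl
  exact ⟨A, B, a1, a3, fun b hb => (Finset.mem_filter.1 (a2 hb)).2.1, a4⟩

end Pool.Agent.Lib.MP_befe0b_co
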