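import Pool.Agent.Lib.MP_befe0b_co.L3Thr

/-! Sparse bipartite graphs have level functions. -/

open Finset
open scoped Classical

noncomputable section

namespace Pool.Agent.Lib.MP_befe0b_co

variable {W : Type*} [Fintype W] {H : SimpleGraph W}

lemma L3Lev_cap_le (l d : ℕ) : cap l d ≤ l := by
  unfold cap
  split_ifs <;> omega

lemma L3Lev_cap_of_le {l d : ℕ} (h : d ≤ l) : cap l d = d := by
  unfold cap
  rw [if_pos h]

lemma L3Lev_cap_par {l : ℕ} (hl : 1 ≤ l) (d : ℕ) : cap l d % 2 = d % 2 := by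
  unfold cap
  split_ifs <;> omega

lemma L3Lev_cap_step {l d e : ℕ} (hl : 1 ≤ l) (h : e = d + 1 ∨ d = e + 1) :
    cap l e = cap l d + 1 ∨ cap l d = cap l e + 1 := by
  unfold cap
  split_ifs <;> omega

lemma L3Lev_cap_max {l a b c : ℕ} (hl : 1 ≤ l)
    (h2 : c = b + 1 ∨ b = c + 1) (h3 : cap l a < cap l b) (h4 : cap l c < cap l b)
    (h5 : a < b → c < b → l ≤ b) : cap l b = l := by
  unfold cap at *
  split_ifs at * <;> omega

/-- the profile of levels along a thread -/
lemma L3Lev_arith {l R i i' : ℕ} (hl : 2 ≤ l) (hR : 4 * l ≤ R + 3) (hRo : R % 2 = 1)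
    (hi : i ≤ l) (hi' : i' ≤ l) (hpar : (i + i') % 2 = 1) :
    ∃ g : ℕ → ℕ, ∃ p ≤ R, g 0 = i ∧ g R = i' ∧ g p = 0 ∧ (∀ t, g t ≤ l) ∧
      (∀ t < R, g (t + 1) = g t + 1 ∨ g t = g (t + 1) + 1) ∧
      (∀ t, t + 1 < R → g t < g (t + 1) → g (t + 2) < g (t + 1) → g (t + 1) = l) ∧
      (i < l → g 1 = i + 1) ∧ (i' < l → g (R - 1) = i' + 1) ∧
      (∀ t ≤ R, g t % 2 = (t + i) % 2) := by
  obtain ⟨p, hp⟩ : ∃ p : ℕ, (i = 0 ∧ p = 0) ∨ (0 < i ∧ i' = 0 ∧ p = R) ∨
      (0 < i ∧ 0 < i' ∧ p + i = 2 * l) := by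
    by_cases h0 : i = 0
    · exact ⟨0, Or.inl ⟨h0, rfl⟩⟩
    by_cases h1 : i' = 0
    · exact ⟨R, Or.inr (Or.inl ⟨by omega, h1, rfl⟩)⟩
    · exact ⟨2 * l - i, Or.inr (Or.inr ⟨by omega, by omega, by omega⟩)⟩
  let d : ℕ → ℕ := fun t => min (min (t + i) (R + i' - t)) ((p - t) + (t - p))
  have hd : ∀ t, d t = min (min (t + i) (R + i' - t)) ((p - t) + (t - p)) := fun _ => rfl
  have hstep : ∀ t < R, d (t + 1) = d t + 1 ∨ d t = d (t + 1) + 1 := by
    intro t ht
    rw [hd, hd]
    omega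
  refine ⟨fun t => cap l (d t), p, by omega, ?_, ?_, ?_, fun t => L3Lev_cap_le _ _, ?_, ?_, ?_,
    ?_, ?_⟩
  · have : d 0 = i := by rw [hd]; omega
    show cap l (d 0) = i
    rw [this, L3Lev_cap_of_le hi]
  · have : d R = i' := by rw [hd]; omega
    show cap l (d R) = i'
    rw [this, L3Lev_cap_of_le hi']
  · have : d p = 0 := by rw [hd]; omega
    show cap l (d p) = 0
    rw [this, L3Lev_cap_of_le (Nat.zero_le _)]
  · intro t ht
    exact L3Lev_cap_step (by omega) (hstep t ht)
  · intro t ht h1 h2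
    refine L3Lev_cap_max (by omega) (hstep (t + 1) ht) h1 h2 ?_
    rw [hd, hd, hd]
    omega
  · intro h
    have : d 1 = i + 1 := by rw [hd]; omega
    show cap l (d 1) = i + 1
    rw [this, L3Lev_cap_of_le h]
  · intro h
    have : d (R - 1) = i' + 1 := by rw [hd]; omega
    show cap l (d (R - 1)) = i' + 1
    rw [this, L3Lev_cap_of_le h]
  · intro t ht
    show cap l (d t) % 2 = _
    rw [L3Lev_cap_par (by omega), hd]
    omega

omit [Fintype W] in
lemma L3Lev_dg_le_one {T : Finset W} {x z : W} (h : ∀ u ∈ T, H.Adj x u → u = z) :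
    dg H T x ≤ 1 := by
  unfold dg
  refine Finset.card_le_one.2 fun a ha b hb => ?_
  rw [Finset.mem_filter] at ha hb
  rw [h a ha.1 ha.2, h b hb.1 hb.2]

omit [Fintype W] in
lemma L3Lev_eq_of_dg {T : Finset W} {x u u' : W} (h : dg H T x ≤ 1) (hu : u ∈ T) (hu' : u' ∈ T)
    (a : H.Adj x u) (a' : H.Adj x u') : u = u' :=
  Finset.card_le_one.1 h u (Finset.mem_filter.2 ⟨hu, a⟩) u' (Finset.mem_filter.2 ⟨hu', a'⟩)

omit [Fintype W] in
/-- adding a vertex of degree at most one -/
lemma L3Lev_leaf {l : ℕ} (hl : 2 ≤ l) (col : W → Bool)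
    (hcol : ∀ x y, H.Adj x y → col x ≠ col y) {S : Finset W} {x : W}
    (hd : dg H S x ≤ 1) {lam : W → ℕ} (h : Lev H (S.erase x) l lam)
    (hp : ∀ w ∈ S.erase x, lam w % 2 = if col w then 1 else 0) :
    ∃ mu : W → ℕ, Lev H S l mu ∧ ∀ w ∈ S, mu w % 2 = if col w then 1 else 0 := by
  obtain ⟨v, hv1, hv2, hv3⟩ : ∃ v ≤ l, v % 2 = (if col x then 1 else 0) ∧
      ∀ z ∈ S, H.Adj x z → (v = lam z + 1 ∨ (lam z = l ∧ lam z = v + 1)) := by
    by_cases hz : ∃ z ∈ S, H.Adj x z
    · obtain ⟨z, hzS, hxz⟩ := hz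
      have hz' : z ∈ S.erase x := Finset.mem_erase.2 ⟨hxz.ne', hzS⟩
      have h1 := h.le z hz'
      have h2 := hp z hz'
      have h3 := hcol x z hxz
      refine ⟨if lam z < l then lam z + 1 else l - 1, by split_ifs <;> omega, ?_, ?_⟩
      · cases hx : col x <;> cases hz : col z <;> simp [hx, hz] at h2 h3 ⊢ <;>
          split_ifs <;> omega
      · intro u hu hxu
        rw [L3Lev_eq_of_dg hd hu hzS hxu hxz]
        split_ifs <;> omega
    · refine ⟨if l % 2 = (if col x then 1 else 0) then l else l - 1, by split_ifs <;> omega,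
        by split_ifs <;> omega, fun z hz' a => (hz ⟨z, hz', a⟩).elim⟩
  have hx : Function.update lam x v x = v := Function.update_self _ _ _
  have hn : ∀ w, w ≠ x → Function.update lam x v w = lam w :=
    fun w hw => Function.update_of_ne hw _ _
  have hm : ∀ w ∈ S, w ≠ x → w ∈ S.erase x := fun w hw hwx => Finset.mem_erase.2 ⟨hwx, hw⟩
  refine ⟨Function.update lam x v, ⟨?_, ?_, ?_, ?_⟩, ?_⟩
  · intro w hw
    by_cases hwx : w = x
    · rw [hwx, hx]; exact hv1
    · rw [hn w hwx]; exact h.le w (hm w hw hwx)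
  · intro u hu w hw a
    by_cases hux : u = x
    · subst hux
      rw [hx, hn w a.ne']
      have := hv3 w hw a
      omega
    by_cases hwx : w = x
    · subst hwx
      rw [hx, hn u hux]
      have := hv3 u hu a.symm
      omega
    rw [hn u hux, hn w hwx]
    exact h.adj u (hm u hu hux) w (hm w hw hwx) a
  · intro w hw hwl u hu u' hu' a a' b b'
    by_cases hwx : w = x
    · subst hwx
      exact L3Lev_eq_of_dg hd hu hu' a a'
    rw [hn w hwx] at hwl b b'
    by_cases hux : u = x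
    · subst hux
      rw [hx] at b
      have := hv3 w hw a.symm
      omega
    by_cases hux' : u' = x
    · subst hux'
      rw [hx] at b'
      have := hv3 w hw a'.symm
      omega
    rw [hn u hux] at b
    rw [hn u' hux'] at b'
    exact h.one w (hm w hw hwx) hwl u (hm u hu hux) u' (hm u' hu' hux') a a' b b'
  · intro T hT hne hpos
    by_cases hxT : x ∈ T
    · exact ⟨x, hxT, (dg_mono hT x).trans hd⟩
    · refine h.forest T (fun w hw => hm w (hT hw) fun e => hxT (e ▸ hw)) hne fun w hw => ?_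
      have := hpos w hw
      rwa [hn w fun e => hxT (e ▸ hw)] at this
  · intro w hw
    by_cases hwx : w = x
    · rw [hwx, hx]; exact hv2
    · rw [hn w hwx]; exact hp w (hm w hw hwx)

omit [Fintype W] in
/-- adding the inner vertices of a long thread -/
lemma L3Lev_thread {l R : ℕ} (hl : 2 ≤ l) (hR : 4 * l ≤ R + 3) (hRo : R % 2 = 1)
    (col : W → Bool) (hcol : ∀ x y, H.Adj x y → col x ≠ col y) {S : Finset W} {y : ℕ → W}
    (hyS : ∀ i ≤ R, y i ∈ S) (hya : ∀ i < R, H.Adj (y i) (y (i + 1)))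
    (hyi : ∀ i ≤ R, ∀ j ≤ R, y i = y j → i = j)
    (hyn : ∀ i, i + 1 < R → ∀ z ∈ S, H.Adj (y (i + 1)) z → z = y i ∨ z = y (i + 2))
    {lam : W → ℕ} (h : Lev H (S \ (Ioo 0 R).image y) l lam)
    (hp : ∀ w ∈ S \ (Ioo 0 R).image y, lam w % 2 = if col w then 1 else 0) :
    ∃ mu : W → ℕ, Lev H S l mu ∧ ∀ w ∈ S, mu w % 2 = if col w then 1 else 0 := by
  set S' := S \ (Ioo 0 R).image y with hS'
  have hend : ∀ t ≤ R, t = 0 ∨ t = R → y t ∈ S' := by
    intro t ht ht'
    refine Finset.mem_sdiff.2 ⟨hyS t ht, fun hm => ?_⟩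
    obtain ⟨s, hs, e⟩ := Finset.mem_image.1 hm
    rw [Finset.mem_Ioo] at hs
    have := hyi s (by omega) t ht e
    omega
  have hin : ∀ t, t + 1 < R → y (t + 1) ∉ S' := fun t ht hm =>
    (Finset.mem_sdiff.1 hm).2 (Finset.mem_image.2 ⟨t + 1, Finset.mem_Ioo.2 ⟨by omega, ht⟩, rfl⟩)
  have hcase : ∀ w ∈ S, w ∈ S' ∨ ∃ t, t + 1 < R ∧ w = y (t + 1) := by
    intro w hw
    by_cases hm : w ∈ (Ioo 0 R).image y
    · obtain ⟨s, hs, e⟩ := Finset.mem_image.1 hm
      rw [Finset.mem_Ioo] at hs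
      refine Or.inr ⟨s - 1, by omega, ?_⟩
      rw [← e, Nat.sub_add_cancel hs.1]
    · exact Or.inl (Finset.mem_sdiff.2 ⟨hw, hm⟩)
  have h0 := hend 0 (Nat.zero_le _) (Or.inl rfl)
  have h1 := hend R le_rfl (Or.inr rfl)
  have hc : ∀ t ≤ R, (if col (y t) then 1 else 0) = (t + lam (y 0)) % 2 := by
    intro t
    induction t with
    | zero => intro _; rw [← hp _ h0, Nat.zero_add]
    | succ t ih =>
      intro ht
      have e1 := ih (by omega)
      have e2 := hcol _ _ (hya t (by omega))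
      cases ha : col (y t) <;> cases hb : col (y (t + 1)) <;> simp [ha, hb] at e1 e2 ⊢ <;> omega
  have hpar : (lam (y 0) + lam (y R)) % 2 = 1 := by
    have e1 := hc R le_rfl
    have e2 := hp _ h1
    omega
  obtain ⟨g, p, hpR, g0, gR, gp, gle, gstep, gmax, g1, gR1, gpar⟩ :=
    L3Lev_arith hl hR hRo (h.le _ h0) (h.le _ h1) hpar
  let mu : W → ℕ := fun w => if hw : ∃ t, t ≤ R ∧ y t = w then g (Classical.choose hw) else lam w
  have hA : ∀ t ≤ R, mu (y t) = g t := by
    intro t ht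
    have hw : ∃ s, s ≤ R ∧ y s = y t := ⟨t, ht, rfl⟩
    have e : mu (y t) = g (Classical.choose hw) := dif_pos hw
    rw [e, hyi _ (Classical.choose_spec hw).1 t ht (Classical.choose_spec hw).2]
  have hB : ∀ w ∈ S', mu w = lam w := by
    intro w hw
    by_cases he : ∃ t, t ≤ R ∧ y t = w
    · obtain ⟨t, ht, rfl⟩ := he
      rw [hA t ht]
      by_cases t0 : t = 0
      · rw [t0, g0]
      by_cases tR : t = R
      · rw [tR, gR]
      obtain ⟨s, rfl⟩ : ∃ s, t = s + 1 := ⟨t - 1, by omega⟩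
      exact (hin s (by omega) hw).elim
    · exact dif_neg he
  have hadj : ∀ t, t + 1 < R → ∀ u ∈ S, H.Adj (y (t + 1)) u →
      mu u = mu (y (t + 1)) + 1 ∨ mu (y (t + 1)) = mu u + 1 := by
    intro t ht u hu a
    have e1 := gstep t (by omega)
    have e2 := gstep (t + 1) ht
    rw [hA (t + 1) (by omega)]
    rcases hyn t ht u hu a with rfl | rfl
    · rw [hA t (by omega)]; omega
    · rw [hA (t + 2) (by omega)]; exact e2
  have hup : ∀ w ∈ S', mu w < l → ∀ t, t + 1 < R → H.Adj w (y (t + 1)) →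
      ¬ mu (y (t + 1)) < mu w := by
    intro w hw hwl t ht a
    have hwS : w ∈ S := (Finset.mem_sdiff.1 hw).1
    rw [hA (t + 1) (by omega)]
    rcases hyn t ht w hwS a.symm with rfl | rfl
    · obtain rfl : t = 0 := by
        by_contra t0
        obtain ⟨s, rfl⟩ : ∃ s, t = s + 1 := ⟨t - 1, by omega⟩
        exact hin s (by omega) hw
      rw [hA 0 (Nat.zero_le _), g0] at hwl ⊢
      have := g1 hwl
      rw [Nat.zero_add]
      omega
    · have e : t + 2 = R := by
        by_contra t0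
        exact hin (t + 1) (by omega) hw
      have e' : t + 1 = R - 1 := by omega
      rw [e, hA R le_rfl, gR] at hwl ⊢
      have := gR1 hwl
      rw [e']
      omega
  refine ⟨mu, ⟨?_, ?_, ?_, ?_⟩, ?_⟩
  · intro w hw
    rcases hcase w hw with hw' | ⟨t, ht, rfl⟩
    · rw [hB w hw']; exact h.le w hw'
    · rw [hA _ ht.le]; exact gle _
  · intro u hu w hw a
    rcases hcase u hu with hu' | ⟨t, ht, rfl⟩
    · rcases hcase w hw with hw' | ⟨t, ht, rfl⟩
      · rw [hB u hu', hB w hw']; exact h.adj u hu' w hw' a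
      · exact (hadj t ht u hu a.symm).symm
    · exact hadj t ht w hw a
  · intro w hw hwl u hu u' hu' a a' b b'
    rcases hcase w hw with hw' | ⟨t, ht, rfl⟩
    · rcases hcase u hu with hu1 | ⟨t, ht, rfl⟩
      · rcases hcase u' hu' with hu2 | ⟨t, ht, rfl⟩
        · rw [hB w hw'] at hwl b b'
          rw [hB u hu1] at b
          rw [hB u' hu2] at b'
          exact h.one w hw' hwl u hu1 u' hu2 a a' b b'
        · exact (hup w hw' hwl t ht a' b').elim
      · exact (hup w hw' hwl t ht a b).elim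
    · have e := gmax t ht
      rw [hA _ ht.le] at hwl b b'
      rcases hyn t ht u hu a with rfl | rfl <;> rcases hyn t ht u' hu' a' with rfl | rfl
      · rfl
      · rw [hA t (by omega)] at b
        rw [hA (t + 2) (by omega)] at b'
        have := e b b'
        omega
      · rw [hA t (by omega)] at b'
        rw [hA (t + 2) (by omega)] at b
        have := e b' b
        omega
      · rfl
  · intro T hT hne hpos
    by_cases hex : ∃ t, t + 1 < R ∧ y (t + 1) ∈ T
    · have hpT : y p ∉ T := fun hm => by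
        have := hpos _ hm
        rw [hA p hpR] at this
        omega
      obtain ⟨t, ⟨ht, htT⟩, hmin⟩ := exists_minimalFor_of_wellFoundedLT
        (fun t => t + 1 < R ∧ y (t + 1) ∈ T) (fun t => (p - (t + 1)) + (t + 1 - p)) hex
      have hne' : t + 1 ≠ p := fun e => hpT (e ▸ htT)
      refine ⟨y (t + 1), htT, ?_⟩
      rcases lt_or_gt_of_ne hne' with hlt | hlt
      · refine L3Lev_dg_le_one (z := y t) fun u hu a => ?_
        rcases hyn t ht u (hT hu) a with rfl | rfl
        · rfl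
        · exfalso
          by_cases e : t + 2 = p
          · exact hpT (e ▸ hu)
          · have := hmin (j := t + 1) ⟨by omega, hu⟩ (by dsimp only; omega)
            dsimp only at this
            omega
      · refine L3Lev_dg_le_one (z := y (t + 2)) fun u hu a => ?_
        rcases hyn t ht u (hT hu) a with rfl | rfl
        · exfalso
          by_cases e : t = p
          · exact hpT (e ▸ hu)
          · obtain ⟨s, rfl⟩ : ∃ s, t = s + 1 := ⟨t - 1, by omega⟩
            have := hmin (j := s) ⟨by omega, hu⟩ (by dsimp only; omega)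
            dsimp only at this
            omega
        · rfl
    · have hT' : T ⊆ S' := fun w hw => by
        rcases hcase w (hT hw) with hw' | ⟨t, ht, rfl⟩
        · exact hw'
        · exact (hex ⟨t, ht, hw⟩).elim
      refine h.forest T hT' hne fun w hw => ?_
      rw [← hB w (hT' hw)]
      exact hpos w hw
  · intro w hw
    rcases hcase w hw with hw' | ⟨t, ht, rfl⟩
    · rw [hB w hw']; exact hp w hw'
    · rw [hA _ ht.le, gpar _ ht.le, hc _ ht.le]

theorem Sparse.lev {M k l : ℕ} (hs : Sparse H M) (hl : 2 ≤ l) (hk : l ≤ k)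
    (hM : 12 * (k - 1) ≤ M + 1) (col : W → Bool) (hcol : ∀ x y, H.Adj x y → col x ≠ col y) :
    ∃ lam : W → ℕ, Lev H univ l lam := by
  have key : ∀ n, ∀ S : Finset W, S.card = n →
      ∃ mu : W → ℕ, Lev H S l mu ∧ ∀ w ∈ S, mu w % 2 = if col w then 1 else 0 := by
    intro n
    induction n using Nat.strong_induction_on with
    | _ n ih =>
      intro S hS
      rcases S.eq_empty_or_nonempty with rfl | hne
      · refine ⟨fun _ => 0, ⟨by simp, by simp, by simp, fun T hT hT' => ?_⟩, by simp⟩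
        rw [Finset.subset_empty.1 hT] at hT'
        exact (Finset.not_nonempty_empty hT').elim
      by_cases hx : ∃ x ∈ S, dg H S x ≤ 1
      · obtain ⟨x, hxS, hd⟩ := hx
        obtain ⟨lam, h1, h2⟩ := ih _ (hS ▸ Finset.card_erase_lt_of_mem hxS) (S.erase x) rfl
        exact L3Lev_leaf hl col hcol hd h1 h2
      · have h2 : ∀ x ∈ S, 2 ≤ dg H S x := fun x hxS => by
          by_contra hc
          exact hx ⟨x, hxS, by omega⟩
        obtain ⟨y, hyS, hya, hyi, hyn⟩ :=
          exists_thread3 (R := 4 * k - 3) hs (by omega) (by omega) hne h2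
        have hlt : (S \ (Ioo 0 (4 * k - 3)).image y).card < n := by
          rw [← hS]
          refine Finset.card_lt_card ⟨Finset.sdiff_subset, fun hsub => ?_⟩
          exact (Finset.mem_sdiff.1 (hsub (hyS 1 (by omega)))).2
            (Finset.mem_image.2 ⟨1, Finset.mem_Ioo.2 ⟨by omega, by omega⟩, rfl⟩)
        obtain ⟨lam, h1, h3⟩ := ih _ hlt _ rfl
        exact L3Lev_thread hl (by omega) (by omega) col hcol hyS hya hyi hyn h1 h3
  obtain ⟨mu, h, -⟩ := key _ univ rfl
  exact ⟨mu, h⟩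

end Pool.Agent.Lib.MP_befe0b_co
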