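import Pool.Agent.Lib.MP_befe0b_co.L3Clean
import Pool.Agent.Lib.MP_befe0b_co.L3Emb
import Pool.Agent.Lib.MP_befe0b_co.L3Lev
import Pool.Agent.Lib.MP_befe0b_co.L3Fvs
import Pool.Agent.Lib.MP_befe0b_co.Main

/-! Extremal numbers of graphs with level functions. -/

open Finset Filter
open scoped Classical

noncomputable section

namespace Pool.Agent.Lib.MP_befe0b_co

theorem exists_HS {k h : ℕ} (hk : 1 ≤ k) (hh : 0 < h) {K : ℝ} (hK : 1 ≤ K) :
    ∃ Φ : ℝ, 1 ≤ Φ ∧ ∀ (V : Type) [Fintype V] [Nonempty V] (G : SimpleGraph V) (d : ℝ), Φ ≤ d →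
      (∀ x, d ≤ ((nb G x).card : ℝ)) → (∀ x, ((nb G x).card : ℝ) ≤ K * d) →
      Φ * Fintype.card V ≤ d ^ k → ∃ l A Z, 2 ≤ l ∧ l ≤ k ∧ HS G h l A Z := by
  have hk1 : (1 : ℝ) ≤ k := by exact_mod_cast hk
  have hKk : 1 ≤ K ^ k := one_le_pow₀ hK
  obtain ⟨η, hη⟩ : ∃ η : ℝ, η = 1 / (4 * k ^ 2 * K ^ k) := ⟨_, rfl⟩
  have hη0 : 0 < η := by rw [hη]; positivity
  have hη1 : η ≤ 1 := by
    rw [hη, div_le_one (by positivity)]
    nlinarith [one_le_pow₀ (n := 2) hk1]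
  obtain ⟨c, hc⟩ : ∃ c : ℝ, c = η / 2 * (η / 2 / 2) ^ h := ⟨_, rfl⟩
  have hc0 : 0 < c := by rw [hc]; positivity
  have hc1 : c ≤ 1 := by
    rw [hc]
    exact mul_le_one₀ (by linarith) (by positivity) (pow_le_one₀ (by positivity) (by linarith))
  obtain ⟨T, hT⟩ : ∃ T : ℝ, T = 1 + 2 * (h * (k * (k + h))) / (η * c) := ⟨_, rfl⟩
  have hT1 : 1 ≤ T := by rw [hT]; exact le_add_of_nonneg_right (by positivity)
  have p1 : 0 ≤ 2 * T ^ (k - 1) := by positivity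
  have p2 : 0 ≤ 4 * (h : ℝ) / η := by positivity
  refine ⟨1 + 2 * T ^ (k - 1) + 4 * h / η, by linarith, fun V _ _ G d hd h1 h2 h3 => ?_⟩
  have hd0 : 0 < d := by linarith
  have hD : 0 < K * d := by positivity
  have hn0 : (0 : ℝ) ≤ Fintype.card V := Nat.cast_nonneg _
  obtain ⟨l, hl2, hlk, hl⟩ := L3_many (T := T) (e := 2 * η) (L := k) h1 h2 hd0 hT1 hk
    (by positivity) (by nlinarith) (le_of_eq (by rw [hη, mul_pow]; field_simp; ring))
  obtain ⟨j, rfl⟩ : ∃ j, l = j + 1 := ⟨l - 1, by omega⟩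
  obtain ⟨x, hx⟩ := L3_root h2 hη0.le (by omega) hl
  obtain ⟨A, B, a1, a2, a3, a4⟩ := L3_greedy (X := nb G x) (ν := cw G j x) (cw_nonneg j x)
    (r := L3gp G T η j x) (γ := η / 2) (h2 x) (sum_cw_le h2 j x) (by positivity) hD
    (by positivity) (le_trans (le_of_eq (by ring)) hx) h (by
      have h4 : 4 * (h : ℝ) / η ≤ d := by linarith
      rw [div_le_iff₀ hη0] at h4
      nlinarith [mul_pos hd0 hη0])
  have hjk : (j : ℝ) + 1 ≤ k := by exact_mod_cast hlk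
  obtain ⟨Z, hZ⟩ := L3_hs (c := c) h2 hD (by linarith) hη0 hh a1 a2 a3 (hc ▸ a4) hc1 (by
    have e : η / 2 * T * c = η * c / 2 + h * (k * (k + h)) := by rw [hT]; field_simp
    have h4 : (h : ℝ) * ((j + 1) * (j + 1 + h)) ≤ h * (k * (k + h)) := by gcongr
    rw [e]
    linarith [mul_pos hη0 hc0])
  exact ⟨j + 1, A, Z, hl2, hlk, hZ⟩

theorem upper_lev {W : Type*} [Fintype W] {H : SimpleGraph W} {k : ℕ} (hk : 1 ≤ k)
    (hH : ∀ l, 2 ≤ l → l ≤ k → ∃ lam : W → ℕ, Lev H univ l lam) :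
    ∃ A' : ℝ, 0 ≤ A' ∧ ∀ n : ℕ,
      (SimpleGraph.extremalNumber n H : ℝ) ≤ A' * (n : ℝ) ^ (1 + (k : ℝ)⁻¹) := by
  have hk0 : (0 : ℝ) < k := by exact_mod_cast hk
  have h12 : (1 : ℝ) ≤ 12 ^ k := one_le_pow₀ (by norm_num)
  obtain ⟨Φ, hΦ, hS⟩ := exists_HS hk (Nat.succ_pos (Fintype.card W)) (K := 24 * 12 ^ k)
    (by linarith)
  obtain ⟨D0, hD0⟩ : ∃ D0 : ℝ, D0 = 3 * 12 ^ k + 8 * Φ := ⟨_, rfl⟩
  have p4 : 0 ≤ D0 := by linarith
  refine ⟨D0 / 2, by positivity, fun n => ?_⟩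
  conv_lhs => rw [← Fintype.card_fin n]
  rw [SimpleGraph.extremalNumber_le_iff_of_nonneg _ (by positivity)]
  intro G _ hfree
  by_contra hc
  rw [not_le] at hc
  rcases Nat.eq_zero_or_pos n with rfl | hn
  · have h1 := G.card_edgeFinset_le_card_choose_two
    simp only [Fintype.card_fin, Nat.choose_zero_succ, nonpos_iff_eq_zero] at h1
    rw [h1] at hc
    exact absurd hc (not_lt.2 (by push_cast; positivity))
  have : Nonempty (Fin n) := ⟨⟨0, hn⟩⟩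
  have hsg : (sg G univ : ℝ) = 2 * G.edgeFinset.card := by
    have h1 : ∀ (i1 i2 : Fintype G.edgeSet),
        (@SimpleGraph.edgeFinset _ G i1).card = (@SimpleGraph.edgeFinset _ G i2).card := by
      intro i1 i2
      rw [Subsingleton.elim i1 i2]
    have : sg G univ = 2 * G.edgeFinset.card := (sg_univ G).trans (congrArg (2 * ·) (h1 _ _))
    exact_mod_cast this
  have hG : D0 ^ k * (Fintype.card (Fin n) : ℝ) ^ (k + 1) ≤ (sg G univ : ℝ) ^ k := by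
    have h1 : ((n : ℝ) ^ (1 + (k : ℝ)⁻¹)) ^ k = (n : ℝ) ^ (k + 1) := by
      rw [← Real.rpow_mul_natCast (Nat.cast_nonneg n), ← Real.rpow_natCast]
      congr 1
      push_cast
      field_simp
    rw [Fintype.card_fin, ← h1, ← mul_pow, hsg]
    exact pow_le_pow_left₀ (by positivity) (by linarith) k
  obtain ⟨T, d, hT, hd, a1, a2, a3, -⟩ := regularise G hk (D0 := D0) (by linarith) hG
  have : Nonempty {x // x ∈ T} := hT.to_subtype
  have hmap : (univ : Finset {x // x ∈ T}).map (Function.Embedding.subtype (· ∈ T)) = T := by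
    ext x; simp
  have hsz : Φ * (T.card : ℝ) ≤ d ^ k := by
    have b1 := (mul_le_mul_of_nonneg_right hG (Nat.cast_nonneg T.card)).trans (a3 univ)
    rw [Finset.card_univ, mul_right_comm] at b1
    have b0 : (0 : ℝ) < (Fintype.card (Fin n) : ℝ) ^ (k + 1) := by
      have : (0 : ℝ) < Fintype.card (Fin n) := by exact_mod_cast Fintype.card_pos
      positivity
    have b2 := le_of_mul_le_mul_right b1 b0
    have b3 : 8 ^ k * Φ ≤ D0 ^ k := by
      calc 8 ^ k * Φ ≤ 8 ^ k * Φ ^ k := by gcongr; exact le_self_pow₀ hΦ (by omega)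
        _ = (8 * Φ) ^ k := (mul_pow _ _ _).symm
        _ ≤ _ := pow_le_pow_left₀ (by positivity) (by linarith) k
    have b4 := (mul_le_mul_of_nonneg_right b3 (Nat.cast_nonneg T.card)).trans b2
    rw [mul_pow, mul_assoc] at b4
    exact le_of_mul_le_mul_left b4 (by positivity)
  obtain ⟨l, A, Z, hl2, hlk, hZ⟩ := hS {x // x ∈ T}
    (G.comap (Function.Embedding.subtype (· ∈ T))) d (by linarith)
    (fun x => by rw [card_nb, dg_comap, hmap]; exact a1 x x.2)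
    (fun x => by rw [card_nb, dg_comap, hmap]; exact a2 x x.2)
    (by rw [Fintype.card_coe]; exact hsz)
  obtain ⟨lam, hlam⟩ := hH l hl2 hlk
  exact hfree ((hZ.embed hl2 hlam (Nat.lt_succ_self _)).trans
    ⟨(SimpleGraph.Embedding.comap _ G).toCopy⟩)

theorem near_one_twelve {ι : Type*} [Fintype ι] {W : ι → Type*} [∀ i, Fintype (W i)]
    (H : ∀ i, SimpleGraph (W i)) {ε A : ℝ} (h0 : 0 < ε) (h1 : ε < 1)
    (h : ∃ᶠ n : ℕ in atTop, ∀ G : SimpleGraph (Fin n), (∀ i, (H i).Free G) →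
      (G.edgeSet.ncard : ℝ) ≤ A * (n : ℝ) ^ (1 + ε)) :
    ∃ i, ∃ A' : ℝ, ∀ n : ℕ, (SimpleGraph.extremalNumber n (H i) : ℝ) ≤
      A' * (n : ℝ) ^ (1 + 12 * ε) := by
  obtain ⟨y, hy⟩ : ∃ y, y = 12 * ε := ⟨_, rfl⟩
  rw [← hy]
  have hy0 : 0 < y := by rw [hy]; positivity
  by_cases hy1 : 1 ≤ y
  · obtain ⟨i, -⟩ := exists_member H 0 (ε := ε) (by norm_num; linarith) h
    refine ⟨i, 1, fun n => (extremalNumber_le_sq _ n).trans ?_⟩
    rw [one_mul, ← Real.rpow_natCast]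
    exact rpow_mono_nat n (by norm_num) (by push_cast; linarith)
  rw [not_le] at hy1
  obtain ⟨s, hs⟩ : ∃ s, s = ⌈1 / y⌉₊ := ⟨_, rfl⟩
  have hs1 : 1 / y ≤ s := hs ▸ Nat.le_ceil _
  have hy2 : 1 < 1 / y := by rw [lt_div_iff₀ hy0]; linarith
  have hs2 : (s : ℝ) < 1 / y + 1 := hs ▸ Nat.ceil_lt_add_one (by positivity)
  have hs3 : (1 : ℝ) < s := by linarith
  have hs4 : 1 < s := by exact_mod_cast hs3
  obtain ⟨t, rfl⟩ : ∃ t, s = t + 2 := ⟨s - 2, by omega⟩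
  obtain ⟨i, ⟨col, hcol⟩, hsp⟩ := exists_member H (12 * t + 11) (ε := ε) (by
    rw [inv_eq_one_div, lt_div_iff₀ (by positivity)]
    have h2 : (t : ℝ) + 1 < 1 / y := by push_cast at hs2; linarith
    rw [lt_div_iff₀ hy0, hy] at h2
    push_cast
    linarith) h
  obtain ⟨A', hA', hb⟩ := upper_lev (H := H i) (k := t + 2) (by omega) fun l hl hlk =>
    hsp.lev hl hlk (by omega) col hcol
  refine ⟨i, A', fun n => (hb n).trans (mul_le_mul_of_nonneg_left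
    (rpow_mono_nat n (by positivity) ?_) hA')⟩
  rw [div_le_iff₀ hy0] at hs1
  have : ((t + 2 : ℕ) : ℝ)⁻¹ ≤ y := by
    rw [inv_le_iff_one_le_mul₀ (by linarith)]; linarith
  linarith

theorem upper_fvs {W : Type*} [Fintype W] (H : SimpleGraph W) {k : ℕ} (hk : 1 ≤ k) (A : Set W)
    (c : H.Coloring Bool) (hc : ∀ a ∈ A, c a = true) (hg : ((2 * k : ℕ) : ℕ∞) ≤ H.egirth)
    (hd : ∀ a ∈ A, ∀ b ∈ A, a ≠ b → ((2 * k : ℕ) : ℕ∞) ≤ H.edist a b)
    (hf : (H.induce Aᶜ).IsAcyclic) :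
    ∃ A' : ℝ, 0 ≤ A' ∧ ∀ n : ℕ,
      (SimpleGraph.extremalNumber n H : ℝ) ≤ A' * (n : ℝ) ^ (1 + (k : ℝ)⁻¹) :=
  upper_lev hk fun _ hl hlk => fvs_lev hl hlk A c hc hg hd hf

end Pool.Agent.Lib.MP_befe0b_co
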