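import Pool.Agent.Lib.MP_befe0b_co.L3Defs

/-! A sparse graph of minimum degree two contains a thread of length about `M / 3`. -/

open Finset
open scoped Classical

noncomputable section

namespace Pool.Agent.Lib.MP_befe0b_co

variable {W : Type*} {H : SimpleGraph W}

lemma l3thr_three {T : Finset W} (hT : T.Nonempty) (h2 : ∀ x ∈ T, 2 ≤ dg H T x) : 3 ≤ T.card := by
  obtain ⟨x, hx⟩ := hT
  have h1 : T.filter (H.Adj x) ⊆ T.erase x := fun z hz =>
    mem_erase.2 ⟨(mem_filter.1 hz).2.ne', (mem_filter.1 hz).1⟩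
  have h3 := card_le_card h1
  have h4 := h2 x hx
  rw [card_erase_of_mem hx] at h3
  unfold dg at h4
  omega

lemma l3thr_big {M : ℕ} (hs : Sparse H M) {T : Finset W} (hT : T.Nonempty)
    (h2 : ∀ x ∈ T, 2 ≤ dg H T x) : M + 2 ≤ T.card := by
  have h3 := hs T (l3thr_three hT h2)
  have h4 : T.card * 2 ≤ sg H T := by
    have := card_nsmul_le_sum T (fun x => dg H T x) 2 h2
    simpa [sg] using this
  nlinarith

/-- another neighbour of `v` inside `S` -/
def l3thrOth (H : SimpleGraph W) (S : Finset W) (u v : W) : W :=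
  if h : ∃ w ∈ S, H.Adj v w ∧ w ≠ u then h.choose else u

/-- the next dart -/
def l3thrNx (H : SimpleGraph W) (S : Finset W) (d : W × W) : W × W := (d.2, l3thrOth H S d.1 d.2)

/-- the darts -/
def l3thrD (H : SimpleGraph W) (S : Finset W) : Finset (W × W) :=
  (S ×ˢ S).filter fun d => H.Adj d.1 d.2

lemma l3thr_mem {S : Finset W} {d : W × W} :
    d ∈ l3thrD H S ↔ (d.1 ∈ S ∧ d.2 ∈ S) ∧ H.Adj d.1 d.2 := by
  rw [l3thrD, mem_filter, mem_product]

lemma l3thr_oth {S : Finset W} {v : W} (h : 2 ≤ dg H S v) (u : W) :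
    l3thrOth H S u v ∈ S ∧ H.Adj v (l3thrOth H S u v) ∧ l3thrOth H S u v ≠ u := by
  have he : ∃ w ∈ S, H.Adj v w ∧ w ≠ u := by
    obtain ⟨w, hw, hne⟩ := exists_mem_ne (s := S.filter (H.Adj v)) h u
    exact ⟨w, (mem_filter.1 hw).1, (mem_filter.1 hw).2, hne⟩
  rw [l3thrOth, dif_pos he]
  exact he.choose_spec

lemma l3thr_two {S : Finset W} {u v z : W} (h : dg H S v = 2) (hu : u ∈ S) (huv : H.Adj u v)
    (hz : z ∈ S) (hvz : H.Adj v z) : z = u ∨ z = l3thrOth H S u v := by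
  obtain ⟨h1, h2, h3⟩ := l3thr_oth (H := H) h.ge u
  by_contra hc
  push Not at hc
  have hsub : ({z, u, l3thrOth H S u v} : Finset W) ⊆ S.filter (H.Adj v) := by
    intro x hx
    simp only [mem_insert, mem_singleton] at hx
    rcases hx with rfl | rfl | rfl
    · exact mem_filter.2 ⟨hz, hvz⟩
    · exact mem_filter.2 ⟨hu, huv.symm⟩
    · exact mem_filter.2 ⟨h1, h2⟩
  have h4 := card_le_card hsub
  rw [card_eq_three.2 ⟨_, _, _, hc.1, hc.2, h3.symm, rfl⟩] at h4
  unfold dg at h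
  omega

lemma l3thr_nx {S : Finset W} (h2 : ∀ x ∈ S, 2 ≤ dg H S x) {d : W × W} (hd : d ∈ l3thrD H S) :
    l3thrNx H S d ∈ l3thrD H S := by
  obtain ⟨⟨-, h1⟩, -⟩ := l3thr_mem.1 hd
  obtain ⟨a, b, -⟩ := l3thr_oth (H := H) (h2 _ h1) d.1
  exact l3thr_mem.2 ⟨⟨h1, a⟩, b⟩

lemma l3thr_iter {S : Finset W} (h2 : ∀ x ∈ S, 2 ≤ dg H S x) {d : W × W} (hd : d ∈ l3thrD H S)
    (i : ℕ) : (l3thrNx H S)^[i] d ∈ l3thrD H S := by
  induction i with
  | zero => exact hd
  | succ i ih =>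
    rw [Function.iterate_succ_apply']
    exact l3thr_nx h2 ih

lemma l3thr_inj {S : Finset W} {d d' : W × W} (hd : d ∈ l3thrD H S) (hd' : d' ∈ l3thrD H S)
    (h : dg H S d.2 = 2) (e : l3thrNx H S d = l3thrNx H S d') : d = d' := by
  obtain ⟨u, v⟩ := d
  obtain ⟨u', v'⟩ := d'
  obtain ⟨e1, e2⟩ := Prod.mk.inj e
  simp only at e1 e2 h
  subst e1
  obtain ⟨⟨h1, -⟩, h3⟩ := l3thr_mem.1 hd
  obtain ⟨⟨h1', -⟩, h3'⟩ := l3thr_mem.1 hd'
  rcases l3thr_two h h1 h3 h1' h3'.symm with e3 | e3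
  · simp only at e3
    rw [e3]
  · simp only at e3
    exact absurd (e2.symm.trans e3.symm) (l3thr_oth (H := H) h.ge u').2.2

lemma l3thr_card (S : Finset W) (q : W → Prop) :
    ((l3thrD H S).filter fun d => q d.2).card = ∑ v ∈ S, if q v then dg H S v else 0 := by
  rw [l3thrD, filter_filter, card_filter, sum_product_right]
  refine sum_congr rfl fun v _ => ?_
  by_cases hq : q v
  · rw [if_pos hq, dg_eq_sum]
    refine sum_congr rfl fun u _ => ?_
    simp [hq, H.adj_comm]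
  · simp [hq]

lemma l3thr_dart {M R : ℕ} (hs : Sparse H M) (hM : 3 * (R - 1) ≤ M + 1) {S : Finset W}
    (hS : S.Nonempty) (h2 : ∀ x ∈ S, 2 ≤ dg H S x) :
    ∃ d ∈ l3thrD H S, ∀ i < R - 1, dg H S ((l3thrNx H S)^[i] d).2 = 2 := by
  by_contra hc
  push Not at hc
  let E : ℕ → Finset (W × W) := fun s => (l3thrD H S).filter fun d =>
    (∀ i < s, dg H S ((l3thrNx H S)^[i] d).2 = 2) ∧ dg H S ((l3thrNx H S)^[s] d).2 ≠ 2
  have step : ∀ s, (E (s + 1)).card ≤ (E s).card := by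
    intro s
    refine card_le_card_of_injOn (l3thrNx H S) (fun d hd => ?_) (fun d hd d' hd' e => ?_)
    · obtain ⟨a, b, c⟩ := mem_filter.1 (mem_coe.1 hd)
      refine mem_coe.2 (mem_filter.2 ⟨l3thr_nx h2 a, fun i hi => ?_, ?_⟩)
      · rw [← Function.iterate_succ_apply]
        exact b _ (Nat.succ_lt_succ hi)
      · rw [← Function.iterate_succ_apply]
        exact c
    · obtain ⟨a, b, -⟩ := mem_filter.1 (mem_coe.1 hd)
      exact l3thr_inj a (mem_filter.1 (mem_coe.1 hd')).1 (b 0 (Nat.succ_pos s)) e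
  have le0 : ∀ s, (E s).card ≤ (E 0).card := by
    intro s
    induction s with
    | zero => exact le_rfl
    | succ s ih => exact (step s).trans ih
  have cov : l3thrD H S ⊆ (range (R - 1)).biUnion E := by
    intro d hd
    obtain ⟨i, hi, hne⟩ := hc d hd
    have hex : ∃ i, dg H S ((l3thrNx H S)^[i] d).2 ≠ 2 := ⟨i, hne⟩
    refine mem_biUnion.2 ⟨Nat.find hex, mem_range.2 ((Nat.find_min' hex hne).trans_lt hi),
      mem_filter.2 ⟨hd, fun j hj => ?_, Nat.find_spec hex⟩⟩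
    exact not_not.1 (Nat.find_min hex hj)
  have c1 : (l3thrD H S).card ≤ (R - 1) * (E 0).card := by
    have := (card_le_card cov).trans
      (card_biUnion_le_card_mul (range (R - 1)) E (E 0).card fun s _ => le0 s)
    rwa [card_range] at this
  have c2 : (l3thrD H S).card = sg H S := by
    have := l3thr_card (H := H) S fun _ => True
    simpa [sg] using this
  have c3 : (E 0).card = ∑ v ∈ S, if dg H S v ≠ 2 then dg H S v else 0 := by
    have e : E 0 = (l3thrD H S).filter fun d => (fun v => dg H S v ≠ 2) d.2 := by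
      ext d
      simp [E]
    have := l3thr_card (H := H) S fun v => dg H S v ≠ 2
    rw [e]
    convert this
  have c4 : (E 0).card + S.card * 6 ≤ 3 * sg H S := by
    rw [c3, sg, mul_sum, ← smul_eq_mul S.card 6, ← sum_const, ← sum_add_distrib]
    refine sum_le_sum fun v hv => ?_
    have := h2 v hv
    split_ifs <;> omega
  have c5 := hs S (l3thr_three hS h2)
  have c6 : S.card * 2 ≤ sg H S := by
    have := card_nsmul_le_sum S (fun x => dg H S x) 2 h2
    simpa [sg] using this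
  obtain ⟨e, he⟩ := Nat.exists_eq_add_of_le c6
  rw [c2] at c1
  have c7 : (E 0).card ≤ 3 * e := by omega
  have c8 : (R - 1) * (E 0).card ≤ (M + 1) * e :=
    calc (R - 1) * (E 0).card ≤ (R - 1) * (3 * e) := Nat.mul_le_mul_left _ c7
      _ = 3 * (R - 1) * e := by ring
      _ ≤ (M + 1) * e := Nat.mul_le_mul_right _ hM
  rw [he] at c1 c5
  nlinarith

theorem exists_thread3 {M R : ℕ} (hs : Sparse H M) (hR : 2 ≤ R) (hM : 3 * (R - 1) ≤ M + 1)
    {S : Finset W} (hS : S.Nonempty) (h2 : ∀ x ∈ S, 2 ≤ dg H S x) :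
    ∃ y : ℕ → W, (∀ i ≤ R, y i ∈ S) ∧ (∀ i < R, H.Adj (y i) (y (i + 1))) ∧
      (∀ i ≤ R, ∀ j ≤ R, y i = y j → i = j) ∧
      (∀ i, i + 1 < R → ∀ z ∈ S, H.Adj (y (i + 1)) z → z = y i ∨ z = y (i + 2)) := by
  obtain ⟨d, hd, h⟩ := l3thr_dart hs hM hS h2
  let y : ℕ → W := fun i => ((l3thrNx H S)^[i] d).1
  have ys : ∀ i, y (i + 1) = ((l3thrNx H S)^[i] d).2 := fun i => by
    simp only [y, Function.iterate_succ_apply', l3thrNx]
  have yss : ∀ i, y (i + 2) = l3thrOth H S (y i) (y (i + 1)) := fun i => by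
    rw [ys (i + 1), ys i, Function.iterate_succ_apply']
    rfl
  have ym : ∀ i, y i ∈ S := fun i => (l3thr_mem.1 (l3thr_iter h2 hd i)).1.1
  have ya : ∀ i, H.Adj (y i) (y (i + 1)) := fun i => by
    rw [ys]
    exact (l3thr_mem.1 (l3thr_iter h2 hd i)).2
  have nb : ∀ i, y (i + 2) ≠ y i := fun i => by
    rw [yss]
    exact (l3thr_oth (h2 _ (ym _)) _).2.2
  have key : ∀ g, 0 < g → ∀ i, i + g ≤ R → y i ≠ y (i + g) := by
    intro g
    induction g using Nat.strong_induction_on with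
    | _ g ih =>
      intro g0 i hi e
      have g1 : g ≠ 1 := fun e1 => (ya i).ne (by rw [e, e1])
      have g2 : g ≠ 2 := fun e2 => nb i (by rw [← e2, ← e])
      obtain ⟨k, rfl⟩ : ∃ k, g = k + 3 := ⟨g - 3, by omega⟩
      let T := (Ico i (i + (k + 3))).image y
      have mT : ∀ j, i ≤ j → j ≤ i + (k + 3) → y j ∈ T := by
        intro j h1 h3
        rcases h3.lt_or_eq with h4 | h4
        · exact mem_image.2 ⟨j, mem_Ico.2 ⟨h1, h4⟩, rfl⟩
        · rw [h4, ← e]
          exact mem_image.2 ⟨i, mem_Ico.2 ⟨le_rfl, by omega⟩, rfl⟩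
      have dT : ∀ x ∈ T, 2 ≤ dg H T x := by
        intro x hx
        obtain ⟨j, hj, rfl⟩ := mem_image.1 hx
        obtain ⟨j1, j2⟩ := mem_Ico.1 hj
        refine one_lt_card.2 ?_
        rcases j1.eq_or_lt with h4 | h4
        · subst h4
          refine ⟨y (i + 1), mem_filter.2 ⟨mT _ (by omega) (by omega), ya i⟩, y (i + 1 + (k + 1)),
            mem_filter.2 ⟨mT _ (by omega) (by omega), ?_⟩,
            ih (k + 1) (by omega) (by omega) (i + 1) (by omega)⟩
          have := (ya (i + 1 + (k + 1))).symm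
          rwa [show i + 1 + (k + 1) + 1 = i + (k + 3) by omega, ← e] at this
        · obtain ⟨m, rfl⟩ : ∃ m, j = m + 1 := ⟨j - 1, by omega⟩
          exact ⟨y (m + 2), mem_filter.2 ⟨mT _ (by omega) (by omega), ya (m + 1)⟩, y m,
            mem_filter.2 ⟨mT _ (by omega) (by omega), (ya m).symm⟩, nb m⟩
      have h5 := l3thr_big hs ⟨_, mT i le_rfl (by omega)⟩ dT
      have h6 : T.card ≤ k + 3 := card_image_le.trans (by simp)
      omega
  refine ⟨y, fun i _ => ym i, fun i _ => ya i, fun i hi j hj e => ?_, fun i hi z hz hadj => ?_⟩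
  · by_contra hne
    rcases Nat.lt_or_gt_of_ne hne with h4 | h4
    · obtain ⟨g, rfl⟩ := Nat.exists_eq_add_of_lt h4
      exact key (g + 1) (by omega) i (by omega) e
    · obtain ⟨g, rfl⟩ := Nat.exists_eq_add_of_lt h4
      exact key (g + 1) (by omega) j (by omega) e.symm
  · rw [yss]
    refine l3thr_two ?_ (ym i) (ya i) hz hadj
    rw [ys]
    exact h i (by omega)

end Pool.Agent.Lib.MP_befe0b_co
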