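import Pool.Agent.Lib.MP_befe0b_co.Reach

/-! Weighted count of pairs of walks with a common end. -/

open Finset
open scoped Classical

noncomputable section

namespace Pool.Agent.Lib.MP_befe0b_co

variable {V : Type*} [Fintype V]

/-- two-step weight -/
def nn (w : V → V → ℝ) (u r : V) : ℝ := ∑ y, w u y * w y r

/-- weight of one walk of length `k` from `u` to `y` -/
def kap (G : SimpleGraph V) (k : ℕ) (w : V → V → ℝ) (u y : V) : ℝ := w u y / cw G k u y

/-- weight of a walk of length `2k` -/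
def wt (G : SimpleGraph V) (k : ℕ) (w : V → V → ℝ) (u : V) (f : ℕ → V) : ℝ :=
  kap G k w u (f k) * kap G k w (f k) (f (k + k))

/-- spread weights dominated by walk counts -/
structure IsWt (G : SimpleGraph V) (k : ℕ) (w : V → V → ℝ) (B M0 : ℝ) : Prop where
  nonneg : ∀ u y, 0 ≤ w u y
  le_cw : ∀ u y, w u y ≤ cw G k u y
  le_B : ∀ u y, w u y ≤ B
  sum_eq : ∀ u, ∑ y, w u y = M0

variable {G : SimpleGraph V} {k : ℕ} {w : V → V → ℝ} {B M0 : ℝ}

namespace IsWt

variable (hw : IsWt G k w B M0)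
include hw

lemma kap_nonneg (u y : V) : 0 ≤ kap G k w u y := div_nonneg (hw.nonneg u y) (cw_nonneg k u y)

lemma kap_le_one (u y : V) : kap G k w u y ≤ 1 :=
  div_le_one_of_le₀ (hw.le_cw u y) (cw_nonneg k u y)

lemma cw_mul_kap (u y : V) : cw G k u y * kap G k w u y = w u y := by
  by_cases h : cw G k u y = 0
  · rw [h, zero_mul]
    exact le_antisymm (hw.nonneg u y) (h ▸ hw.le_cw u y)
  · rw [kap]; field_simp

lemma B_nonneg (u : V) : 0 ≤ B := (hw.nonneg u u).trans (hw.le_B u u)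

lemma M0_nonneg (u : V) : 0 ≤ M0 := hw.sum_eq u ▸ Finset.sum_nonneg fun y _ => hw.nonneg u y

lemma wt_nonneg (u : V) (f : ℕ → V) : 0 ≤ wt G k w u f :=
  mul_nonneg (hw.kap_nonneg _ _) (hw.kap_nonneg _ _)

lemma wt_le_one (u : V) (f : ℕ → V) : wt G k w u f ≤ 1 :=
  mul_le_one₀ (hw.kap_le_one _ _) (hw.kap_nonneg _ _) (hw.kap_le_one _ _)

lemma sum_kap (u : V) (g : V → ℝ) :
    ∑ f ∈ Wk G k u, kap G k w u (f k) * g (f k) = ∑ y, w u y * g y := by
  rw [sum_Wk_end k u fun y => kap G k w u y * g y]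
  exact Finset.sum_congr rfl fun y _ => by rw [← mul_assoc, hw.cw_mul_kap]

lemma nn_nonneg (u r : V) : 0 ≤ nn w u r :=
  Finset.sum_nonneg fun y _ => mul_nonneg (hw.nonneg u y) (hw.nonneg y r)

lemma nn_le_cw (u r : V) : nn w u r ≤ cw G (k + k) u r := by
  rw [cw_add]
  exact Finset.sum_le_sum fun y _ =>
    mul_le_mul (hw.le_cw u y) (hw.le_cw y r) (hw.nonneg y r) (cw_nonneg k u y)

lemma nn_le (u r : V) : nn w u r ≤ M0 * B := by
  rw [← hw.sum_eq u, Finset.sum_mul]
  exact Finset.sum_le_sum fun y _ => mul_le_mul_of_nonneg_left (hw.le_B y r) (hw.nonneg u y)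

lemma sum_nn (u : V) : ∑ r, nn w u r = M0 * M0 := by
  simp only [nn]
  rw [Finset.sum_comm]
  simp only [← Finset.mul_sum, hw.sum_eq, ← Finset.sum_mul]

omit [Fintype V] hw in
lemma app_le {a i : ℕ} (f g : ℕ → V) (h : i ≤ a) : app a f g i = f i := if_pos h

omit [Fintype V] hw in
lemma app_add {a : ℕ} {f g : ℕ → V} (h : g 0 = f a) (i : ℕ) : app a f g (a + i) = g i := by
  rcases Nat.eq_zero_or_pos i with rfl | hi
  · simp [app, h]
  · rw [app, if_neg (by omega), Nat.add_sub_cancel_left]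

omit hw in
lemma sum_wt_eq (u : V) (F : (ℕ → V) → ℝ) :
    ∑ f ∈ Wk G (k + k) u, wt G k w u f * F f = ∑ f ∈ Wk G k u, kap G k w u (f k) *
      ∑ g ∈ Wk G k (f k), kap G k w (f k) (g k) * F (app k f g) := by
  rw [sum_Wk_add]
  refine Finset.sum_congr rfl fun f _ => ?_
  rw [Finset.mul_sum]
  refine Finset.sum_congr rfl fun g hg => ?_
  rw [wt, app_le f g le_rfl, app_add (mem_Wk hg).1, mul_assoc]

lemma sum_wt (u : V) (g : V → ℝ) :
    ∑ f ∈ Wk G (k + k) u, wt G k w u f * g (f (k + k)) = ∑ r, nn w u r * g r := by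
  rw [sum_wt_eq]
  have : ∀ f ∈ Wk G k u, kap G k w u (f k) *
      ∑ f' ∈ Wk G k (f k), kap G k w (f k) (f' k) * g (app k f f' (k + k)) =
      kap G k w u (f k) * ∑ r, w (f k) r * g r := by
    intro f _
    rw [← hw.sum_kap]
    congr 1
    exact Finset.sum_congr rfl fun f' hf' => by rw [app_add (mem_Wk hf').1]
  rw [Finset.sum_congr rfl this, hw.sum_kap u fun y => ∑ r, w y r * g r]
  simp only [nn, Finset.mul_sum, Finset.sum_mul, mul_assoc]
  rw [Finset.sum_comm]

lemma sum_wt_end (u r : V) :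
    ∑ f ∈ Wk G (k + k) u, wt G k w u f * (if f (k + k) = r then 1 else 0) = nn w u r := by
  rw [hw.sum_wt u fun z => if z = r then 1 else 0]
  simp

lemma sum_kap_end (u r : V) :
    ∑ f ∈ Wk G k u, kap G k w u (f k) * (if f k = r then 1 else 0) = w u r := by
  rw [hw.sum_kap u fun z => if z = r then 1 else 0]
  simp

variable {Δ : ℝ} (hΔ : ∀ x, ((nb G x).card : ℝ) ≤ Δ)
include hΔ

lemma hit (u r : V) (F : Finset V) :
    Δ * ∑ f ∈ Wk G (k + k) u, wt G k w u f *
      (if f (k + k) = r ∧ ∃ i, 1 ≤ i ∧ i < k + k ∧ f i ∈ F then (1 : ℝ) else 0) ≤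
      k * (2 * F.card + k) * Δ ^ k * B := by
  have hD := Delta_nonneg hΔ u
  have hB := hw.B_nonneg u
  rw [sum_wt_eq]
  set P : V → ℝ := fun y => ∑ g ∈ Wk G k y,
    (if g k = r ∧ ∃ i < k, g i ∈ F then (1 : ℝ) else 0) with hP
  have hPn : ∀ y, 0 ≤ P y := fun y => Finset.sum_nonneg fun g _ => by split_ifs <;> norm_num
  have key : ∀ f ∈ Wk G k u, kap G k w u (f k) * ∑ g ∈ Wk G k (f k), kap G k w (f k) (g k) *
      (if app k f g (k + k) = r ∧ ∃ i, 1 ≤ i ∧ i < k + k ∧ app k f g i ∈ F then (1 : ℝ) else 0) ≤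
      (if Good F k f then (0 : ℝ) else 1) * B + kap G k w u (f k) * P (f k) := by
    intro f _
    by_cases hf : Good F k f
    · rw [if_pos hf, zero_mul, zero_add]
      refine mul_le_mul_of_nonneg_left (Finset.sum_le_sum fun g hg => ?_) (hw.kap_nonneg _ _)
      have g0 := (mem_Wk hg).1
      by_cases h : app k f g (k + k) = r ∧ ∃ i, 1 ≤ i ∧ i < k + k ∧ app k f g i ∈ F
      · rw [if_pos h, if_pos, mul_one]
        · exact hw.kap_le_one _ _
        obtain ⟨h1, i, h2, h3, h4⟩ := h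
        rw [app_add g0] at h1
        refine ⟨h1, ?_⟩
        by_cases hi : i ≤ k
        · rw [app_le f g hi] at h4
          exact absurd h4 (hf i h2 hi).1
        · obtain ⟨j, rfl⟩ : ∃ j, i = k + j := ⟨i - k, by omega⟩
          rw [app_add g0] at h4
          exact ⟨j, by omega, h4⟩
      · rw [if_neg h, mul_zero]; split_ifs <;> norm_num
    · rw [if_neg hf, one_mul]
      have h1 : ∑ g ∈ Wk G k (f k), kap G k w (f k) (g k) * (if app k f g (k + k) = r ∧
          ∃ i, 1 ≤ i ∧ i < k + k ∧ app k f g i ∈ F then (1 : ℝ) else 0) ≤ B := by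
        refine le_trans ?_ (hw.le_B (f k) r)
        rw [← hw.sum_kap_end]
        refine Finset.sum_le_sum fun g hg => mul_le_mul_of_nonneg_left ?_ (hw.kap_nonneg _ _)
        rw [app_add (mem_Wk hg).1]
        by_cases h : g k = r
        · rw [if_pos h]; split_ifs <;> norm_num
        · rw [if_neg h, if_neg fun h' => h h'.1]
      have h2 := mul_le_mul (hw.kap_le_one u (f k)) h1 (Finset.sum_nonneg fun g _ =>
        mul_nonneg (hw.kap_nonneg _ _) (by split_ifs <;> norm_num)) zero_le_one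
      have h3 := mul_nonneg (hw.kap_nonneg u (f k)) (hPn (f k))
      linarith
  refine (mul_le_mul_of_nonneg_left (Finset.sum_le_sum key) hD).trans ?_
  rw [Finset.sum_add_distrib, hw.sum_kap u P, ← Finset.sum_mul, mul_add, ← mul_assoc]
  have h1 := mul_le_mul_of_nonneg_right (bad_count hΔ k u F) hB
  have h2 : ∑ y, w u y * P y ≤ B * ∑ y, P y := by
    rw [Finset.mul_sum]
    exact Finset.sum_le_sum fun y _ => mul_le_mul_of_nonneg_right (hw.le_B u y) (hPn y)
  have h3 := mul_le_mul_of_nonneg_left h2 hD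
  have h4 := mul_le_mul_of_nonneg_left (hit_count hΔ r F k) hB
  have h5 : B * (Δ * ∑ y, P y) = Δ * (B * ∑ y, P y) := by ring
  rw [h5] at h4
  nlinarith

/-- the main linking lemma -/
theorem link (A : Finset V) (h φ : ℕ) {τ Θ : ℝ} (hτ : 0 < τ)
    (hΘ : ∀ u ∈ A, ∀ v ∈ A, ∀ a ∈ A,
      Θ ≤ ((univ.filter fun r => τ ≤ nn w u r ∧ τ ≤ nn w v r ∧ τ ≤ nn w a r).card : ℝ))
    (hineq : 2 * (M0 * B) * (A.card * ((k + k) * (φ + (k + k)) * Δ ^ (k + k)) +
        (k + k + 1) * (k + k + (k + k)) * h * Δ ^ (k + k + (k + k)) / τ) +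
        Δ ^ (k + k) * (A.card * (k * (2 * (k + k) + k) * Δ ^ k * B)) <
        Δ * (A.card * Θ * τ ^ 2))
    {u v : V} (hu : u ∈ A) (hv : v ∈ A) (F : Finset V) (hF : F.card ≤ φ) :
    ∃ p ∈ Wk G (k + k) u, ∃ q ∈ Wk G (k + k) v, p (k + k) = q (k + k) ∧
      Good F (k + k) p ∧ Good F (k + k) q ∧
      (∀ i ≤ k + k, p i ∈ Ws G A h (k + k + (k + k) - i)) ∧
      (∀ i ≤ k + k, q i ∈ Ws G A h (k + k + (k + k) - i)) ∧
      ∀ i j, 1 ≤ i → i < k + k → 1 ≤ j → j ≤ k + k → p i ≠ q j := by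
  have hD := Delta_nonneg hΔ u
  have hB := hw.B_nonneg u
  have hM := hw.M0_nonneg u
  set K := k + k with hK
  set ν : V → ℝ := fun r => ((A.filter fun a => τ ≤ nn w a r).card : ℝ) with hν
  have ν0 : ∀ r, 0 ≤ ν r := fun r => Nat.cast_nonneg _
  have νA : ∀ r, ν r ≤ A.card := fun r => by
    simp only [hν]; exact_mod_cast Finset.card_filter_le _ _
  have νG : ∀ r, ν r ≤ GA G A K r / τ := fun r => by
    rw [le_div_iff₀ hτ]
    calc ν r * τ = ∑ _a ∈ A.filter fun a => τ ≤ nn w a r, τ := by simp [hν]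
      _ ≤ ∑ a ∈ A.filter fun a => τ ≤ nn w a r, cw G K r a := Finset.sum_le_sum fun a ha => by
          rw [cw_symm]; exact (Finset.mem_filter.1 ha).2.trans (hw.nn_le_cw a r)
      _ ≤ GA G A K r := Finset.sum_le_sum_of_subset_of_nonneg (Finset.filter_subset _ _)
          fun a _ _ => cw_nonneg K r a
  let OK : (ℕ → V) → Prop := fun p => Good F K p ∧ ∀ i ≤ K, p i ∈ Ws G A h (K + K - i)
  let b : (ℕ → V) → ℝ := fun p => if OK p then 0 else 1
  have b0 : ∀ p, 0 ≤ b p := fun p => by simp only [b]; split_ifs <;> norm_num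
  set E1 : ℝ := A.card * ((k + k) * (φ + (k + k)) * Δ ^ K) +
        (k + k + 1) * (k + k + (k + k)) * h * Δ ^ (K + K) / τ with hE1
  have single : ∀ x, Δ * ∑ p ∈ Wk G K x, b p * ν (p K) ≤ E1 := by
    intro x
    have h1 : ∀ p ∈ Wk G K x, b p * ν (p K) ≤ A.card * (if Good F K p then (0 : ℝ) else 1) +
        (if ∀ i ≤ K, p i ∈ Ws G A h (K + K - i) then 0 else GA G A K (p K)) / τ := by
      intro p _
      have hG := div_nonneg (GA_nonneg (G := G) (A := A) K (p K)) hτ.le
      have hA : (0 : ℝ) ≤ A.card := Nat.cast_nonneg _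
      by_cases h2 : Good F K p <;> by_cases h3 : ∀ i ≤ K, p i ∈ Ws G A h (K + K - i)
      · simp only [b, OK]
        rw [if_pos ⟨h2, h3⟩, if_pos h2, if_pos h3]; simp
      · simp only [b, OK]
        rw [if_neg fun h => h3 h.2, if_pos h2, if_neg h3]
        simpa using νG (p K)
      · simp only [b, OK]
        rw [if_neg fun h => h2 h.1, if_neg h2, if_pos h3]
        simpa using νA (p K)
      · simp only [b, OK]
        rw [if_neg fun h => h2 h.1, if_neg h2, if_neg h3]
        have := νA (p K)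
        linarith
    refine (mul_le_mul_of_nonneg_left (Finset.sum_le_sum h1) hD).trans ?_
    rw [Finset.sum_add_distrib, ← Finset.mul_sum, ← Finset.sum_div, mul_add, hE1]
    refine add_le_add ?_ ?_
    · rw [mul_left_comm]
      refine mul_le_mul_of_nonneg_left ((bad_count hΔ K x F).trans ?_) (Nat.cast_nonneg _)
      have : (F.card : ℝ) ≤ φ := by exact_mod_cast hF
      rw [hK]
      push_cast
      gcongr
    · rw [← mul_div_assoc]
      refine div_le_div_of_nonneg_right ((escape_count hΔ K K x).trans (le_of_eq ?_)) hτ.le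
      rw [hK]
      push_cast
      ring
  let ω : V → V → (ℕ → V) → (ℕ → V) → ℝ := fun x y p q =>
    wt G k w x p * wt G k w y q * (if p K = q K then 1 else 0) * ν (p K)
  have ω0 : ∀ x y p q, 0 ≤ ω x y p q := fun x y p q =>
    mul_nonneg (mul_nonneg (mul_nonneg (hw.wt_nonneg _ _) (hw.wt_nonneg _ _))
      (by split_ifs <;> norm_num)) (ν0 _)
  have ωsymm : ∀ x y p q, ω x y p q = ω y x q p := fun x y p q => by
    simp only [ω]
    by_cases h : p K = q K
    · rw [if_pos h, if_pos h.symm, h]; ring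
    · rw [if_neg h, if_neg (Ne.symm h)]; ring
  have ωsum : ∀ x y p, ∑ q ∈ Wk G K y, ω x y p q = wt G k w x p * (nn w y (p K) * ν (p K)) := by
    intro x y p
    rw [← hw.sum_wt_end y (p K), Finset.sum_mul, Finset.mul_sum]
    refine Finset.sum_congr rfl fun q _ => ?_
    simp only [ω, eq_comm (a := p K)]
    ring
  have oneside : ∀ x y, Δ * ∑ p ∈ Wk G K x, ∑ q ∈ Wk G K y, ω x y p q * b p ≤ M0 * B * E1 := by
    intro x y
    have h1 : ∀ p ∈ Wk G K x, ∑ q ∈ Wk G K y, ω x y p q * b p ≤ M0 * B * (b p * ν (p K)) := by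
      intro p _
      rw [← Finset.sum_mul, ωsum]
      have h2 := mul_le_mul (hw.wt_le_one x p) (hw.nn_le y (p K)) (hw.nn_nonneg _ _) zero_le_one
      have h3 := mul_le_mul_of_nonneg_right h2 (mul_nonneg (b0 p) (ν0 (p K)))
      calc _ = wt G k w x p * nn w y (p K) * (b p * ν (p K)) := by ring
        _ ≤ _ := by simpa using h3
    refine (mul_le_mul_of_nonneg_left (Finset.sum_le_sum h1) hD).trans ?_
    rw [← Finset.mul_sum, mul_left_comm]
    exact mul_le_mul_of_nonneg_left (single x) (mul_nonneg hM hB)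
  let c : (ℕ → V) → (ℕ → V) → ℝ := fun p q =>
    if ∀ i j, 1 ≤ i → i < K → 1 ≤ j → j ≤ K → p i ≠ q j then 0 else 1
  have c0 : ∀ p q, 0 ≤ c p q := fun p q => by simp only [c]; split_ifs <;> norm_num
  have cross : Δ * ∑ p ∈ Wk G K u, ∑ q ∈ Wk G K v, ω u v p q * c p q ≤
      Δ ^ K * (A.card * (k * (2 * (k + k) + k) * Δ ^ k * B)) := by
    rw [Finset.sum_comm, Finset.mul_sum]
    refine sum_Wk_le hΔ K v (by positivity) fun q _ => ?_
    set Fq := (Finset.Icc 1 K).image q with hFq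
    have hc : (Fq.card : ℝ) ≤ k + k := by
      have : Fq.card ≤ K := Finset.card_image_le.trans (by simp)
      exact_mod_cast this
    have h1 : ∀ p ∈ Wk G K u, ω u v p q * c p q ≤ A.card * (wt G k w u p *
        (if p K = q K ∧ ∃ i, 1 ≤ i ∧ i < K ∧ p i ∈ Fq then (1 : ℝ) else 0)) := by
      intro p _
      have hA : (0 : ℝ) ≤ A.card := Nat.cast_nonneg _
      by_cases h2 : p K = q K ∧ ∃ i, 1 ≤ i ∧ i < K ∧ p i ∈ Fq
      · rw [if_pos h2, mul_one]
        have h3 : c p q ≤ 1 := by simp only [c]; split_ifs <;> norm_num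
        have h4 : ω u v p q ≤ A.card * wt G k w u p := by
          simp only [ω]
          rw [if_pos h2.1, mul_one, mul_assoc, mul_comm (A.card : ℝ)]
          refine mul_le_mul_of_nonneg_left ?_ (hw.wt_nonneg _ _)
          simpa using mul_le_mul (hw.wt_le_one v q) (νA (p K)) (ν0 _) zero_le_one
        simpa using mul_le_mul h4 h3 (c0 p q) (mul_nonneg hA (hw.wt_nonneg _ _))
      · rw [if_neg h2, mul_zero, mul_zero]
        by_cases h3 : p K = q K
        · have : c p q = 0 := if_pos fun i j h4 h5 h6 h7 (h8 : p i = q j) => h2 ⟨h3, i, h4, h5,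
            h8 ▸ Finset.mem_image_of_mem q (Finset.mem_Icc.2 ⟨h6, h7⟩)⟩
          rw [this, mul_zero]
        · simp only [ω]
          rw [if_neg h3]; simp
    refine (mul_le_mul_of_nonneg_left (Finset.sum_le_sum h1) hD).trans ?_
    rw [← Finset.mul_sum, mul_left_comm]
    refine mul_le_mul_of_nonneg_left ((hw.hit hΔ u (q K) Fq).trans ?_) (Nat.cast_nonneg _)
    gcongr
  have total : A.card * Θ * τ ^ 2 ≤ ∑ p ∈ Wk G K u, ∑ q ∈ Wk G K v, ω u v p q := by
    simp only [ωsum]
    rw [hw.sum_wt u fun r => nn w v r * ν r]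
    have h1 : ∀ r, ∑ a ∈ A, (if τ ≤ nn w u r ∧ τ ≤ nn w v r ∧ τ ≤ nn w a r then τ ^ 2 else 0) ≤
        nn w u r * (nn w v r * ν r) := by
      intro r
      by_cases h2 : τ ≤ nn w u r ∧ τ ≤ nn w v r
      · simp only [h2.1, h2.2, true_and]
        rw [← Finset.sum_filter, Finset.sum_const, nsmul_eq_mul, ← mul_assoc, mul_comm, sq]
        exact mul_le_mul_of_nonneg_right (mul_le_mul h2.1 h2.2 hτ.le (hw.nn_nonneg _ _)) (ν0 r)
      · rw [Finset.sum_eq_zero fun a _ => if_neg fun h => h2 ⟨h.1, h.2.1⟩]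
        exact mul_nonneg (hw.nn_nonneg _ _) (mul_nonneg (hw.nn_nonneg _ _) (ν0 r))
    refine le_trans ?_ (Finset.sum_le_sum fun r _ => h1 r)
    rw [Finset.sum_comm, mul_assoc, ← nsmul_eq_mul, ← Finset.sum_const]
    refine Finset.sum_le_sum fun a ha => ?_
    rw [← Finset.sum_filter, Finset.sum_const, nsmul_eq_mul]
    exact mul_le_mul_of_nonneg_right (hΘ u hu v hv a ha) (by positivity)
  by_contra hcon
  have hbad : ∀ p ∈ Wk G K u, ∀ q ∈ Wk G K v,
      ω u v p q ≤ ω u v p q * b p + ω v u q p * b q + ω u v p q * c p q := by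
    intro p hp q hq
    rw [ωsymm v u q p, ← mul_add, ← mul_add]
    by_cases h1 : p K = q K
    · refine le_mul_of_one_le_right (ω0 _ _ _ _) ?_
      have := b0 p
      have := b0 q
      have := c0 p q
      by_cases h2 : OK p
      · by_cases h3 : OK q
        · have : c p q = 1 := if_neg fun h4 =>
            hcon ⟨p, hp, q, hq, h1, h2.1, h3.1, h2.2, h3.2, h4⟩
          linarith
        · have : b q = 1 := if_neg h3
          linarith
      · have : b p = 1 := if_neg h2
        linarith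
    · simp only [ω]
      rw [if_neg h1]; simp
  have h1 := total.trans (Finset.sum_le_sum fun p hp => Finset.sum_le_sum fun q hq =>
    hbad p hp q hq)
  simp only [Finset.sum_add_distrib] at h1
  have h2 := mul_le_mul_of_nonneg_left h1 hD
  rw [mul_add, mul_add, Finset.sum_comm (s := Wk G K u) (t := Wk G K v)
    (f := fun p q => ω v u q p * b q)] at h2
  have h3 := oneside u v
  have h4 := oneside v u
  linarith

end IsWt

end Pool.Agent.Lib.MP_befe0b_co
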