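import Pool.Agent.Lib.MP_befe0b_co.Walks

/-! Vertices that descend robustly to a set `A`. -/

open Finset
open scoped Classical

noncomputable section

namespace Pool.Agent.Lib.MP_befe0b_co

variable {V : Type*} [Fintype V]

/-- `Ws 0 = A`, and `Ws (j+1)` holds the vertices with at least `h` neighbours in `Ws j` -/
def Ws (G : SimpleGraph V) (A : Finset V) (h : ℕ) : ℕ → Finset V
  | 0 => A
  | j + 1 => univ.filter fun x => h ≤ dg G (Ws G A h j) x

/-- number of walks of length `i` from `x` into `A` -/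
def GA (G : SimpleGraph V) (A : Finset V) (i : ℕ) (x : V) : ℝ := ∑ a ∈ A, cw G i x a

variable {G : SimpleGraph V} {A : Finset V} {h : ℕ}

lemma mem_Ws_succ {j : ℕ} {x : V} : x ∈ Ws G A h (j + 1) ↔ h ≤ dg G (Ws G A h j) x := by
  simp [Ws]

lemma Ws_subset_add_two (hA : A ⊆ Ws G A h 2) (j : ℕ) : Ws G A h j ⊆ Ws G A h (j + 2) := by
  induction j with
  | zero => exact hA
  | succ j ih =>
    intro x hx
    rw [mem_Ws_succ] at hx
    exact mem_Ws_succ.2 (hx.trans (dg_mono ih x))

lemma Ws_subset_add (hA : A ⊆ Ws G A h 2) (j t : ℕ) : Ws G A h j ⊆ Ws G A h (j + 2 * t) := by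
  induction t with
  | zero => exact Finset.Subset.refl _
  | succ t ih => exact ih.trans (Ws_subset_add_two hA (j + 2 * t))

lemma exists_nbr_Ws {j : ℕ} {x : V} (hx : x ∈ Ws G A h (j + 1)) {F : Finset V}
    (hF : F.card < h) : ∃ y ∈ Ws G A h j, y ∉ F ∧ G.Adj x y := by
  rw [mem_Ws_succ] at hx
  by_contra hc
  push Not at hc
  have : (Ws G A h j).filter (G.Adj x) ⊆ F := fun y hy => by
    by_contra hyF
    exact hc y (Finset.mem_filter.1 hy).1 hyF (Finset.mem_filter.1 hy).2
  have := Finset.card_le_card this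
  unfold dg at hx
  omega

/-- descent from `Ws j` to `A` along new vertices -/
lemma exists_descent (j : ℕ) : ∀ (x : V) (F : Finset V), x ∈ Ws G A h j → F.card + j ≤ h →
    ∃ f : ℕ → V, f 0 = x ∧ (∀ i < j, G.Adj (f i) (f (i + 1))) ∧ Good F j f ∧
      ∀ i ≤ j, f i ∈ Ws G A h (j - i) := by
  induction j with
  | zero =>
    intro x F hx _
    exact ⟨fun _ => x, rfl, fun i hi => by omega, fun i h1 h2 => by omega,
      fun i _ => by simpa using hx⟩
  | succ j ih =>
    intro x F hx hF
    obtain ⟨y, hy, hyF, hxy⟩ := exists_nbr_Ws hx (F := F) (by omega)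
    obtain ⟨g, g0, g1, g2, g3⟩ := ih y (insert y F) hy
      (by rw [Finset.card_insert_of_notMem hyF]; omega)
    refine ⟨cns x g, rfl, fun i hi => ?_, fun i h1 h2 => ?_, fun i hi => ?_⟩
    · cases i with
      | zero => simpa [g0] using hxy
      | succ i => simpa using g1 i (by omega)
    · obtain ⟨i, rfl⟩ : ∃ i', i = i' + 1 := ⟨i - 1, by omega⟩
      rw [cns_succ]
      rcases Nat.eq_zero_or_pos i with rfl | hi
      · exact ⟨g0 ▸ hyF, fun j h3 h4 => by omega⟩
      · obtain ⟨h3, h4⟩ := g2 i hi (by omega)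
        rw [Finset.mem_insert, not_or] at h3
        refine ⟨h3.2, fun l h5 h6 => ?_⟩
        obtain ⟨l, rfl⟩ : ∃ l', l = l' + 1 := ⟨l - 1, by omega⟩
        rw [cns_succ]
        rcases Nat.eq_zero_or_pos l with rfl | hl
        · rw [g0]; exact fun h => h3.1 h.symm
        · exact h4 l hl (by omega)
    · cases i with
      | zero => simpa using hx
      | succ i => simpa using g3 i (by omega)

lemma GA_succ (i : ℕ) (x : V) : GA G A (i + 1) x = ∑ y ∈ nb G x, GA G A i y := by
  simp only [GA, cw_succ]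
  rw [Finset.sum_comm]

lemma GA_nonneg (i : ℕ) (x : V) : 0 ≤ GA G A i x := Finset.sum_nonneg fun a _ => cw_nonneg i x a

lemma sum_GA (K j : ℕ) : ∀ x : V, ∑ f ∈ Wk G j x, GA G A K (f j) = GA G A (K + j) x := by
  induction j with
  | zero => intro x; rw [sum_Wk_zero]; rfl
  | succ j ih =>
    intro x
    rw [sum_Wk_succ, ← add_assoc, GA_succ]
    exact Finset.sum_congr rfl fun y _ => by simpa using ih y

variable {Δ : ℝ} (hΔ : ∀ x, ((nb G x).card : ℝ) ≤ Δ)
include hΔ

lemma GA_le (i : ℕ) (x : V) : GA G A i x ≤ Δ ^ i :=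
  (Finset.sum_le_sum_of_subset_of_nonneg (Finset.subset_univ _)
    fun y _ _ => cw_nonneg i x y).trans (sum_cw_le hΔ i x)

lemma GA_of_not_mem (i : ℕ) : ∀ x : V, x ∉ Ws G A h i → Δ * GA G A i x ≤ i * h * Δ ^ i := by
  induction i with
  | zero =>
    intro x hx
    have : GA G A 0 x = 0 := Finset.sum_eq_zero fun a ha => by
      rw [cw_zero, if_neg]
      rintro rfl
      exact hx ha
    simp [this]
  | succ i ih =>
    intro x hx
    have hD := Delta_nonneg hΔ x
    rw [mem_Ws_succ, not_le] at hx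
    rw [GA_succ, Finset.mul_sum]
    have key : ∀ y, Δ * GA G A i y ≤
        (if y ∈ Ws G A h i then Δ ^ (i + 1) else 0) + i * h * Δ ^ i := by
      intro y
      by_cases hy : y ∈ Ws G A h i
      · rw [if_pos hy, pow_succ']
        have := mul_le_mul_of_nonneg_left (GA_le (A := A) hΔ i y) hD
        have h2 : 0 ≤ (i : ℝ) * h * Δ ^ i := by positivity
        linarith
      · rw [if_neg hy, zero_add]; exact ih y hy
    refine (Finset.sum_le_sum fun y _ => key y).trans ?_
    rw [Finset.sum_add_distrib]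
    have h1 : ∑ y ∈ nb G x, (if y ∈ Ws G A h i then Δ ^ (i + 1) else 0) ≤ h * Δ ^ (i + 1) := by
      rw [← Finset.sum_filter, Finset.sum_const, nsmul_eq_mul]
      refine mul_le_mul_of_nonneg_right ?_ (by positivity)
      have : ((nb G x).filter fun y => y ∈ Ws G A h i).card ≤ dg G (Ws G A h i) x :=
        Finset.card_le_card fun y hy => Finset.mem_filter.2
          ⟨(Finset.mem_filter.1 hy).2, mem_nb.1 (Finset.mem_filter.1 hy).1⟩
      exact_mod_cast this.trans hx.le
    have h2 : ∑ _y ∈ nb G x, (i : ℝ) * h * Δ ^ i ≤ Δ * (i * h * Δ ^ i) :=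
      sum_nb_le hΔ (by positivity) fun _ => le_rfl
    push_cast
    have h4 : Δ * (i * h * Δ ^ i) = i * h * Δ ^ (i + 1) := by ring
    nlinarith

lemma escape_count (K j : ℕ) : ∀ x : V,
    Δ * ∑ f ∈ Wk G j x, (if ∀ i ≤ j, f i ∈ Ws G A h (K + j - i) then 0 else GA G A K (f j)) ≤
      (j + 1) * (K + j) * h * Δ ^ (K + j) := by
  induction j with
  | zero =>
    intro x
    have hD := Delta_nonneg hΔ x
    rw [sum_Wk_zero]
    by_cases hx : x ∈ Ws G A h K
    · rw [if_pos (by simpa using hx), mul_zero]; positivity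
    · rw [if_neg (by simpa using hx)]
      simpa using GA_of_not_mem hΔ K x hx
  | succ j ih =>
    intro x
    have hD := Delta_nonneg hΔ x
    have hp : 0 ≤ (h : ℝ) * Δ ^ (K + (j + 1)) := by positivity
    have hK : (0 : ℝ) ≤ K := Nat.cast_nonneg _
    have hj : (0 : ℝ) ≤ j := Nat.cast_nonneg _
    by_cases hx : x ∈ Ws G A h (K + (j + 1))
    · rw [sum_Wk_succ, Finset.mul_sum]
      have : ∑ y ∈ nb G x, Δ * ∑ g ∈ Wk G j y, (if ∀ i ≤ j + 1,
          cns x g i ∈ Ws G A h (K + (j + 1) - i) then 0 else GA G A K (cns x g (j + 1))) ≤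
          Δ * ((j + 1) * (K + j) * h * Δ ^ (K + j)) := by
        refine sum_nb_le hΔ (by positivity) fun y => le_trans ?_ (ih y)
        refine mul_le_mul_of_nonneg_left (Finset.sum_le_sum fun g _ => ?_) hD
        by_cases hg : ∀ i ≤ j, g i ∈ Ws G A h (K + j - i)
        · rw [if_pos hg, if_pos]
          intro i hi
          cases i with
          | zero => simpa using hx
          | succ i =>
            rw [cns_succ, show K + (j + 1) - (i + 1) = K + j - i by omega]
            exact hg i (by omega)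
        · rw [if_neg hg, cns_succ]
          split_ifs
          · exact GA_nonneg _ _
          · exact le_rfl
      refine this.trans ?_
      have h1 : Δ * ((j + 1) * (K + j) * h * Δ ^ (K + j)) =
          (j + 1) * (K + j) * (h * Δ ^ (K + (j + 1))) := by ring
      rw [h1, mul_assoc _ (h : ℝ)]
      refine mul_le_mul_of_nonneg_right ?_ hp
      push_cast
      nlinarith
    · have h1 : ∑ f ∈ Wk G (j + 1) x, (if ∀ i ≤ j + 1, f i ∈ Ws G A h (K + (j + 1) - i) then 0
          else GA G A K (f (j + 1))) ≤ GA G A (K + (j + 1)) x := by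
        rw [← sum_GA]
        refine Finset.sum_le_sum fun f _ => ?_
        split_ifs
        · exact GA_nonneg _ _
        · exact le_rfl
      refine (mul_le_mul_of_nonneg_left h1 hD).trans ((GA_of_not_mem hΔ _ x hx).trans ?_)
      rw [mul_assoc, mul_assoc _ (h : ℝ)]
      refine mul_le_mul_of_nonneg_right ?_ hp
      push_cast
      nlinarith

end Pool.Agent.Lib.MP_befe0b_co
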