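import Pool.Agent.Lib.MP_befe0b_co.Spread

/-! Regularisation: a dense graph contains a host graph. -/

open Finset
open scoped Classical

noncomputable section

namespace Pool.Agent.Lib.MP_befe0b_co

variable {V : Type*}

lemma exists_subset_sum (f : V → ℕ) (y L : ℕ) : ∀ S : Finset V, S.card ≤ L * y →
    ∃ Y ⊆ S, Y.card ≤ y ∧ ∑ x ∈ S, f x ≤ L * ∑ x ∈ Y, f x := by
  induction L with
  | zero =>
    intro S hS
    have : S = ∅ := Finset.card_eq_zero.1 (by omega)
    exact ⟨∅, by simp, by simp, by simp [this]⟩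
  | succ L ih =>
    intro S hS
    obtain ⟨Y1, hY1, hc⟩ := Finset.exists_subset_card_eq (s := S) (n := min y S.card)
      (min_le_right _ _)
    have hsd := Finset.card_sdiff_add_card_eq_card hY1
    obtain ⟨Y2, hY2, hc2, hs⟩ := ih (S \ Y1) (by rw [Nat.succ_mul] at hS; omega)
    have hsum := Finset.sum_sdiff (f := f) hY1
    rcases le_total (∑ x ∈ Y1, f x) (∑ x ∈ Y2, f x) with h | h
    · refine ⟨Y2, hY2.trans Finset.sdiff_subset, hc2, ?_⟩
      rw [Nat.succ_mul]; omega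
    · refine ⟨Y1, hY1, by omega, ?_⟩
      have := Nat.mul_le_mul_left L h
      rw [Nat.succ_mul]; omega

theorem regularise [Fintype V] [Nonempty V] (G : SimpleGraph V) {s : ℕ} (hs : 1 ≤ s) {D0 : ℝ}
    (hD0 : (3 * 12 ^ s : ℝ) ≤ D0)
    (hG : D0 ^ s * (Fintype.card V : ℝ) ^ (s + 1) ≤ (sg G univ : ℝ) ^ s) :
    ∃ (T : Finset V) (d : ℝ), T.Nonempty ∧ D0 / 8 ≤ d ∧ (∀ x ∈ T, d ≤ dg G T x) ∧
      (∀ x ∈ T, (dg G T x : ℝ) ≤ 24 * 12 ^ s * d) ∧
      (∀ S : Finset V, (sg G S : ℝ) ^ s * T.card ≤ (8 * d) ^ s * S.card ^ (s + 1)) ∧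
      (T.card : ℝ) ≤ d ^ s := by
  have h12 : (12 : ℝ) ≤ 12 ^ s := le_self_pow₀ (by norm_num) (by omega)
  have hD8 : 8 ≤ D0 := by linarith
  let g : Finset V → ℝ := fun S => (sg G S : ℝ) ^ s / S.card ^ (s + 1)
  obtain ⟨S0, hS0, hmax⟩ := Finset.exists_max_image
    (univ.filter fun S : Finset V => S.Nonempty) g ⟨univ, by simp⟩
  have hS0ne : S0.Nonempty := (Finset.mem_filter.1 hS0).2
  obtain ⟨m, hm⟩ : ∃ m : ℝ, m = (S0.card : ℝ) := ⟨_, rfl⟩
  have hm1 : 1 ≤ m := by rw [hm]; exact_mod_cast hS0ne.card_pos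
  have hm0 : 0 < m := by linarith
  obtain ⟨D, hD⟩ : ∃ D : ℝ, D = sg G S0 / m := ⟨_, rfl⟩
  have hσ : (sg G S0 : ℝ) = D * m := by rw [hD]; field_simp
  have hDn : 0 ≤ D := by rw [hD]; exact div_nonneg (Nat.cast_nonneg _) hm0.le
  have hγ : D ^ s = g S0 * m := by
    simp only [g]
    rw [hσ, ← hm]; field_simp; ring
  have hγ0 : D0 ^ s ≤ g S0 := by
    refine le_trans ?_ (hmax univ (by simp))
    simp only [g]
    have : (0 : ℝ) < Fintype.card V := by exact_mod_cast Fintype.card_pos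
    rw [le_div_iff₀ (by rw [Finset.card_univ]; positivity), Finset.card_univ]
    exact hG
  have hD0s : 0 < D0 ^ s := by positivity
  have hdens : ∀ S : Finset V, (sg G S : ℝ) ^ s * m ≤ D ^ s * S.card ^ (s + 1) := by
    intro S
    rcases S.eq_empty_or_nonempty with rfl | hS
    · simp [sg, show s ≠ 0 by omega]
    · have h1 := hmax S (by simpa using hS)
      have h2 : (0 : ℝ) < S.card := by exact_mod_cast hS.card_pos
      rw [div_le_iff₀ (pow_pos h2 _)] at h1
      rw [hγ]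
      calc _ ≤ g S0 * S.card ^ (s + 1) * m := by gcongr
        _ = _ := by ring
  have hDD0 : D0 ≤ D := by
    refine le_of_pow_le_pow_left₀ (n := s) (by omega) hDn ?_
    rw [hγ]
    exact hγ0.trans (le_mul_of_one_le_right (by linarith) hm1)
  have hDp : 0 < D := by linarith
  have hDm : D ≤ m := by
    rw [hD, div_le_iff₀ hm0, hm]
    exact_mod_cast sg_le_sq S0
  have hms : m ≤ (D / 8) ^ s := by
    rw [div_pow, le_div_iff₀ (by positivity), hγ, mul_comm]
    gcongr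
    exact (pow_le_pow_left₀ (by norm_num) hD8 s).trans hγ0
  set L : ℕ := 3 * 12 ^ s with hL
  have hLr : (L : ℝ) = 3 * 12 ^ s := by rw [hL]; push_cast; ring
  have hLp : 0 < L := by positivity
  have hLm : L ≤ S0.card := by
    have : (L : ℝ) ≤ m := by rw [hLr]; linarith
    rw [hm] at this
    exact_mod_cast this
  set X := S0.filter fun x => L * D < dg G S0 x with hX
  have hXS : X ⊆ S0 := Finset.filter_subset _ _
  have hXc : (L : ℝ) * X.card ≤ m := by
    have h1 : X.card * (L * D) ≤ (sg G S0 : ℝ) := by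
      rw [← nsmul_eq_mul, ← Finset.sum_const, sg]
      push_cast
      exact (Finset.sum_le_sum fun x hx => (Finset.mem_filter.1 hx).2.le).trans
        (Finset.sum_le_sum_of_subset_of_nonneg hXS fun _ _ _ => Nat.cast_nonneg _)
    rw [hσ] at h1
    refine le_of_mul_le_mul_left ?_ hDp
    linarith
  obtain ⟨Y, -, hYc, hYs⟩ := exists_subset_sum (dg G X) (S0.card / L + 1) L S0
    (Nat.lt_mul_div_succ _ hLp).le
  have hYc' : (L : ℝ) * Y.card ≤ 2 * m := by
    have h1 : L * Y.card ≤ 2 * S0.card := by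
      have h2 := Nat.mul_le_mul_left L hYc
      have h3 := Nat.mul_div_le S0.card L
      rw [mul_add, mul_one] at h2
      omega
    rw [hm]
    exact_mod_cast h1
  have hU : (L : ℝ) * (Y ∪ X).card ≤ 3 * m := by
    have h1 : ((Y ∪ X).card : ℝ) ≤ Y.card + X.card := by exact_mod_cast Finset.card_union_le _ _
    have := mul_le_mul_of_nonneg_left h1 (Nat.cast_nonneg L)
    linarith
  set E := ∑ x ∈ S0, dg G X x with hE
  have hE1 : (E : ℝ) ≤ L * sg G (Y ∪ X) := by
    exact_mod_cast hYs.trans (Nat.mul_le_mul_left L (sum_dg_le_sg_union Y X))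
  have hE2 : 4 * (E : ℝ) ≤ D * m := by
    refine le_of_pow_le_pow_left₀ (n := s) (by omega) (by positivity) ?_
    have hLp' : (0 : ℝ) < L := by exact_mod_cast hLp
    refine le_of_mul_le_mul_left (a := L * m) ?_ (by positivity)
    calc L * m * (4 * (E : ℝ)) ^ s ≤ L * m * (4 * (L * sg G (Y ∪ X))) ^ s := by gcongr
      _ = 4 ^ s * L ^ (s + 1) * ((sg G (Y ∪ X) : ℝ) ^ s * m) := by ring
      _ ≤ 4 ^ s * L ^ (s + 1) * (D ^ s * (Y ∪ X).card ^ (s + 1)) :=
          mul_le_mul_of_nonneg_left (hdens _) (by positivity)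
      _ = 4 ^ s * D ^ s * (L * (Y ∪ X).card) ^ (s + 1) := by ring
      _ ≤ 4 ^ s * D ^ s * (3 * m) ^ (s + 1) :=
          mul_le_mul_of_nonneg_left
            (pow_le_pow_left₀ (mul_nonneg (Nat.cast_nonneg _) (Nat.cast_nonneg _)) hU _)
            (mul_nonneg (pow_nonneg (by norm_num) _) (pow_nonneg hDn _))
      _ = 3 * (4 ^ s * 3 ^ s) * m * (D * m) ^ s := by ring
      _ = _ := by rw [← mul_pow, hLr]; norm_num
  have hS1 : D * m / 2 ≤ sg G (S0 \ X) := by
    have h1 : (sg G S0 : ℝ) ≤ sg G (S0 \ X) + 2 * E := by exact_mod_cast sg_sdiff_le hXS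
    linarith
  let f : Finset V → ℝ := fun S => sg G S - 2 * (D / 8) * S.card
  obtain ⟨T, hT, hTmax⟩ := Finset.exists_max_image (S0 \ X).powerset f ⟨S0 \ X, by simp⟩
  have hTs : T ⊆ S0 \ X := Finset.mem_powerset.1 hT
  have hTS : T ⊆ S0 := hTs.trans Finset.sdiff_subset
  have hTm : (T.card : ℝ) ≤ m := by rw [hm]; exact_mod_cast Finset.card_le_card hTS
  refine ⟨T, D / 8, ?_, by linarith, fun x hx => ?_, fun x hx => ?_, fun S => ?_, hTm.trans hms⟩
  · rw [Finset.nonempty_iff_ne_empty]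
    rintro rfl
    have h1 := hTmax (S0 \ X) (by simp)
    have h2 : ((S0 \ X).card : ℝ) ≤ m := by
      rw [hm]; exact_mod_cast Finset.card_le_card Finset.sdiff_subset
    simp only [f, sg, Finset.sum_empty, Finset.card_empty] at h1
    simp only [sg] at hS1
    have h3 := mul_le_mul_of_nonneg_left h2 hDn
    have h4 : 0 < D * m := by positivity
    push_cast at h1 hS1
    linarith
  · have h1 := hTmax (T.erase x) (Finset.mem_powerset.2 ((Finset.erase_subset x T).trans hTs))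
    simp only [f] at h1
    have h2 : (sg G T : ℝ) ≤ sg G (T.erase x) + 2 * dg G T x := by exact_mod_cast sg_erase_le hx
    rw [← Finset.card_erase_add_one hx] at h1
    push_cast at h1
    linarith
  · have h1 := Finset.mem_sdiff.1 (hTs hx)
    have h2 : (dg G S0 x : ℝ) ≤ L * D := not_lt.1 fun h => h1.2 (Finset.mem_filter.2 ⟨h1.1, h⟩)
    have h3 : (dg G T x : ℝ) ≤ dg G S0 x := by exact_mod_cast dg_mono hTS x
    rw [hLr] at h2
    linarith
  · rw [show 8 * (D / 8) = D by ring]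
    exact le_trans (by gcongr) (hdens S)

lemma dg_comap {U : Type*} (G : SimpleGraph V) (e : U ↪ V) (S : Finset U) (x : U) :
    dg (G.comap e) S x = dg G (S.map e) (e x) := by
  rw [dg, dg, Finset.filter_map, Finset.card_map]
  congr 1

lemma sg_comap {U : Type*} (G : SimpleGraph V) (e : U ↪ V) (S : Finset U) :
    sg (G.comap e) S = sg G (S.map e) := by
  rw [sg, sg, Finset.sum_map]
  exact Finset.sum_congr rfl fun x _ => dg_comap G e S x

theorem exists_host [Fintype V] [Nonempty V] (G : SimpleGraph V) {s N : ℕ} (hs : 1 ≤ s)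
    (hN : 1 ≤ N) {ρ0 : ℝ} (h1 : (24 * 12 ^ s : ℝ) ≤ ρ0) (h2 : ((s * N + 1 : ℕ) : ℝ) ≤ ρ0)
    (hG : (8 * ρ0 ^ N) ^ s * (Fintype.card V : ℝ) ^ (s + 1) ≤ (sg G univ : ℝ) ^ s) :
    ∃ (T : Finset V) (ρ : ℝ), T.Nonempty ∧ ρ0 ≤ ρ ∧
      Host (G.comap (Function.Embedding.subtype (· ∈ T))) ρ N s := by
  have h12 : (12 : ℝ) ≤ 12 ^ s := le_self_pow₀ (by norm_num) (by omega)
  have hρ1 : 1 ≤ ρ0 := by linarith
  have hρN : ρ0 ≤ ρ0 ^ N := le_self_pow₀ hρ1 (by omega)
  obtain ⟨T, d, hT, hd, a1, a2, a3, a4⟩ := regularise G hs (D0 := 8 * ρ0 ^ N) (by linarith) hG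
  have hd0 : 0 ≤ d := by linarith
  have hρd : (d ^ ((N : ℝ)⁻¹)) ^ N = d := Real.rpow_inv_natCast_pow hd0 (by omega)
  set ρ := d ^ ((N : ℝ)⁻¹) with hρ
  have hρρ : ρ0 ≤ ρ := by
    refine le_of_pow_le_pow_left₀ (n := N) (by omega) (by positivity) ?_
    rw [hρd]; linarith
  have hmap : (univ : Finset {x // x ∈ T}).map (Function.Embedding.subtype (· ∈ T)) = T := by
    ext x; simp
  refine ⟨T, ρ, hT, hρρ, by linarith, h2.trans hρρ, fun x => ?_, fun x => ?_, fun S => ?_, ?_⟩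
  · rw [card_nb, dg_comap, hmap, hρd]
    exact a1 x x.2
  · rw [card_nb, dg_comap, hmap, pow_succ', hρd]
    exact (a2 x x.2).trans (mul_le_mul_of_nonneg_right (h1.trans hρρ) hd0)
  · rw [sg_comap, hρd, Fintype.card_coe, ← Finset.card_map (Function.Embedding.subtype (· ∈ T))]
    exact a3 _
  · rw [Fintype.card_coe, mul_comm, pow_mul, hρd]
    exact a4

end Pool.Agent.Lib.MP_befe0b_co
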