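import Pool.Agent.Lib.MP_befe0b_co.Basic

/-! A sparse graph of minimum degree two contains a long thread. -/

open Finset
open scoped Classical

noncomputable section

namespace Pool.Agent.Lib.MP_befe0b_co

variable {W : Type*}

/-- balls around `L` inside `S` -/
def ball (H : SimpleGraph W) (S L : Finset W) : ℕ → Finset W
  | 0 => L
  | i + 1 => ball H S L i ∪ S.filter (fun z => ∃ y ∈ ball H S L i, H.Adj y z)

variable {H : SimpleGraph W} {S L : Finset W}

lemma ball_subset_succ (i : ℕ) : ball H S L i ⊆ ball H S L (i + 1) := Finset.subset_union_left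

lemma ball_mono {i j : ℕ} (h : i ≤ j) : ball H S L i ⊆ ball H S L j := by
  induction h with
  | refl => exact Finset.Subset.refl _
  | step _ ih => exact ih.trans (ball_subset_succ _)

lemma ball_subset (hL : L ⊆ S) (i : ℕ) : ball H S L i ⊆ S := by
  induction i with
  | zero => exact hL
  | succ i ih => exact Finset.union_subset ih (Finset.filter_subset _ _)

lemma mem_ball_succ {i : ℕ} {y z : W} (hy : y ∈ ball H S L i) (hz : z ∈ S) (h : H.Adj y z) :
    z ∈ ball H S L (i + 1) :=
  Finset.mem_union_right _ (Finset.mem_filter.2 ⟨hz, y, hy, h⟩)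

lemma exists_of_mem_layer {i : ℕ} {z : W} (hz : z ∈ ball H S L (i + 1)) (hz' : z ∉ ball H S L i) :
    z ∈ S ∧ ∃ y ∈ ball H S L i, H.Adj y z := by
  rcases Finset.mem_union.1 hz with h | h
  · exact absurd h hz'
  · exact Finset.mem_filter.1 h

lemma layer_card_le (h2 : ∀ x ∈ S, x ∉ L → dg H S x = 2) (hL : L ⊆ S) (i : ℕ) :
    (ball H S L (i + 1) \ ball H S L i).card ≤ ∑ x ∈ L, dg H S x := by
  induction i with
  | zero =>
    calc (ball H S L 1 \ ball H S L 0).card ≤ (L.biUnion fun x => S.filter (H.Adj x)).card := by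
          refine Finset.card_le_card fun z hz => ?_
          rw [Finset.mem_sdiff] at hz
          obtain ⟨hzS, y, hy, hyz⟩ := exists_of_mem_layer hz.1 hz.2
          exact Finset.mem_biUnion.2 ⟨y, hy, Finset.mem_filter.2 ⟨hzS, hyz⟩⟩
      _ ≤ _ := Finset.card_biUnion_le
  | succ i ih =>
    refine le_trans ?_ ih
    calc (ball H S L (i + 2) \ ball H S L (i + 1)).card
        ≤ ((ball H S L (i + 1) \ ball H S L i).biUnion
            fun x => S.filter (H.Adj x) \ ball H S L (i + 1)).card := by
          refine Finset.card_le_card fun z hz => ?_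
          rw [Finset.mem_sdiff] at hz
          obtain ⟨hzS, y, hy, hyz⟩ := exists_of_mem_layer hz.1 hz.2
          refine Finset.mem_biUnion.2 ⟨y, Finset.mem_sdiff.2 ⟨hy, fun hy' => hz.2 ?_⟩,
            Finset.mem_sdiff.2 ⟨Finset.mem_filter.2 ⟨hzS, hyz⟩, hz.2⟩⟩
          exact mem_ball_succ hy' hzS hyz
      _ ≤ ∑ x ∈ ball H S L (i + 1) \ ball H S L i,
            (S.filter (H.Adj x) \ ball H S L (i + 1)).card := Finset.card_biUnion_le
      _ ≤ ∑ _x ∈ ball H S L (i + 1) \ ball H S L i, 1 := by
          refine Finset.sum_le_sum fun x hx => ?_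
          rw [Finset.mem_sdiff] at hx
          obtain ⟨hxS, y, hy, hyx⟩ := exists_of_mem_layer hx.1 hx.2
          have hxL : x ∉ L := fun h => hx.2 (ball_mono (Nat.zero_le i) h)
          have hd : (S.filter (H.Adj x)).card = 2 := h2 x hxS hxL
          have hyS : y ∈ S.filter (H.Adj x) :=
            Finset.mem_filter.2 ⟨ball_subset hL i hy, hyx.symm⟩
          calc (S.filter (H.Adj x) \ ball H S L (i + 1)).card
              ≤ ((S.filter (H.Adj x)).erase y).card := by
                refine Finset.card_le_card fun z hz => ?_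
                rw [Finset.mem_sdiff] at hz
                refine Finset.mem_erase.2 ⟨fun h => hz.2 ?_, hz.1⟩
                rw [h]; exact ball_subset_succ i hy
            _ = 1 := by rw [Finset.card_erase_of_mem hyS, hd]
      _ = _ := by simp

lemma ball_card_le (h2 : ∀ x ∈ S, x ∉ L → dg H S x = 2) (hL : L ⊆ S) (i : ℕ) :
    (ball H S L i).card ≤ L.card + i * ∑ x ∈ L, dg H S x := by
  induction i with
  | zero => simp [ball]
  | succ i ih =>
    have h1 := layer_card_le (H := H) h2 hL i
    have h3 := Finset.card_sdiff_add_card_eq_card (ball_subset_succ (H := H) (S := S) (L := L) i)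
    rw [Nat.succ_mul]
    omega

lemma exists_path_of_layer (i : ℕ) : ∀ z, z ∈ ball H S L (i + 1) → z ∉ ball H S L i →
    ∃ x : ℕ → W, x (i + 1) = z ∧ (∀ j ≤ i + 1, x j ∈ ball H S L j) ∧
      (∀ j ≤ i, x (j + 1) ∉ ball H S L j) ∧ ∀ j ≤ i, H.Adj (x j) (x (j + 1)) := by
  induction i with
  | zero =>
    intro z hz hz'
    obtain ⟨-, y, hy, hyz⟩ := exists_of_mem_layer hz hz'
    refine ⟨fun j => if j = 0 then y else z, by simp, ?_, ?_, ?_⟩
    · intro j hj
      interval_cases j
      · simpa using hy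
      · simpa using hz
    · intro j hj
      interval_cases j
      simpa using hz'
    · intro j hj
      interval_cases j
      simpa using hyz
  | succ i ih =>
    intro z hz hz'
    obtain ⟨hzS, y, hy, hyz⟩ := exists_of_mem_layer hz hz'
    have hy' : y ∉ ball H S L i := fun h => hz' (mem_ball_succ h hzS hyz)
    obtain ⟨x, hx, h1, h2, h3⟩ := ih y hy hy'
    refine ⟨fun j => if j ≤ i + 1 then x j else z, by simp, ?_, ?_, ?_⟩
    · intro j hj
      by_cases h : j ≤ i + 1
      · simpa [h] using h1 j h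
      · have : j = i + 2 := by omega
        subst this
        simpa using hz
    · intro j hj
      by_cases h : j ≤ i
      · simpa [h] using h2 j h
      · have : j = i + 1 := by omega
        subst this
        simpa using hz'
    · intro j hj
      by_cases h : j ≤ i
      · have h' : j ≤ i + 1 := by omega
        simpa [h, h'] using h3 j h
      · have : j = i + 1 := by omega
        subst this
        simpa [hx] using hyz

theorem exists_thread {M R : ℕ} (hs : Sparse H M) (hM : 6 * (R + 1) ≤ M) (hS : S.Nonempty)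
    (h2 : ∀ x ∈ S, 2 ≤ dg H S x) :
    ∃ x : ℕ → W, (∀ i ≤ R + 1, x i ∈ S) ∧ (∀ i ≤ R, H.Adj (x i) (x (i + 1))) ∧
      (∀ i ≤ R + 1, ∀ j ≤ R + 1, x i = x j → i = j) ∧
      (∀ i, 1 ≤ i → i ≤ R → dg H S (x i) = 2) := by
  obtain ⟨L, hLS, hLne, hL2, hL3⟩ : ∃ L : Finset W, L ⊆ S ∧ L.Nonempty ∧
      (∀ x ∈ S, x ∉ L → dg H S x = 2) ∧ 3 * L.card ≤ ∑ x ∈ L, dg H S x + 3 := by
    by_cases hB : (S.filter fun x => 3 ≤ dg H S x).Nonempty
    · refine ⟨_, Finset.filter_subset _ _, hB, fun x hx hx' => ?_, ?_⟩
      · have := h2 x hx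
        have h3 : ¬ 3 ≤ dg H S x := fun h => hx' (Finset.mem_filter.2 ⟨hx, h⟩)
        omega
      · have : ∑ _x ∈ S.filter (fun x => 3 ≤ dg H S x), 3
            ≤ ∑ x ∈ S.filter (fun x => 3 ≤ dg H S x), dg H S x :=
          Finset.sum_le_sum fun x hx => (Finset.mem_filter.1 hx).2
        simp only [Finset.sum_const, smul_eq_mul] at this
        omega
    · obtain ⟨x0, hx0⟩ := hS
      refine ⟨{x0}, by simpa using hx0, Finset.singleton_nonempty _, fun x hx _ => ?_, by simp⟩
      have := h2 x hx
      have h3 : ¬ 3 ≤ dg H S x := fun h => hB ⟨x, Finset.mem_filter.2 ⟨hx, h⟩⟩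
      omega
  by_cases hne : ∃ z, z ∈ ball H S L (R + 1) ∧ z ∉ ball H S L R
  · obtain ⟨z, hz, hz'⟩ := hne
    obtain ⟨x, -, h1, h3, h4⟩ := exists_path_of_layer R z hz hz'
    have key : ∀ i j, i < j → j ≤ R + 1 → x i ≠ x j := by
      intro i j hij hj h
      obtain ⟨j, rfl⟩ : ∃ j', j = j' + 1 := ⟨j - 1, by omega⟩
      apply h3 j (by omega)
      rw [← h]
      exact ball_mono (by omega) (h1 i (by omega))
    refine ⟨x, fun i hi => ball_subset hLS i (h1 i hi), h4, fun i hi j hj h => ?_,
      fun i hi hiR => ?_⟩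
    · rcases lt_trichotomy i j with hij | hij | hij
      · exact absurd h (key i j hij hj)
      · exact hij
      · exact absurd h.symm (key j i hij hi)
    · refine hL2 _ (ball_subset hLS i (h1 i (by omega))) fun h => ?_
      obtain ⟨i, rfl⟩ : ∃ i', i = i' + 1 := ⟨i - 1, by omega⟩
      exact h3 i (by omega) (ball_mono (Nat.zero_le i) h)
  · exfalso
    push Not at hne
    set T := ball H S L R with hT
    have hTS : T ⊆ S := ball_subset hLS R
    have hLT : L ⊆ T := ball_mono (Nat.zero_le R)
    have hcl : ∀ x ∈ T, S.filter (H.Adj x) ⊆ T := fun x hx z hz =>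
      hne z (mem_ball_succ hx (Finset.mem_filter.1 hz).1 (Finset.mem_filter.1 hz).2)
    have hdg : ∀ x ∈ T, dg H T x = dg H S x := by
      intro x hx
      refine le_antisymm (dg_mono hTS x) (Finset.card_le_card fun z hz => ?_)
      exact Finset.mem_filter.2 ⟨hcl x hx hz, (Finset.mem_filter.1 hz).2⟩
    set D := ∑ x ∈ L, dg H S x with hD
    have hsg : sg H T = 2 * (T \ L).card + D := by
      rw [sg, Finset.sum_congr rfl hdg, ← Finset.sum_sdiff hLT]
      congr 1
      rw [Finset.sum_congr rfl fun x hx =>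
        hL2 x (hTS (Finset.mem_sdiff.1 hx).1) (Finset.mem_sdiff.1 hx).2]
      simp [mul_comm]
    have hcard : (T \ L).card + L.card = T.card := Finset.card_sdiff_add_card_eq_card hLT
    have hle : T.card ≤ L.card + R * D := ball_card_le hL2 hLS R
    have hLD : 2 * L.card ≤ D := by
      have : ∑ _x ∈ L, 2 ≤ D := Finset.sum_le_sum fun x hx => h2 x (hLS hx)
      simpa [mul_comm] using this
    have h3 : 3 ≤ T.card := by
      obtain ⟨x, hx⟩ := hLne
      have hsub : insert x (S.filter (H.Adj x)) ⊆ T :=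
        Finset.insert_subset (hLT hx) (hcl x (hLT hx))
      have hnot : x ∉ S.filter (H.Adj x) := by simp
      have := Finset.card_le_card hsub
      rw [Finset.card_insert_of_notMem hnot] at this
      have h5 : 2 ≤ (S.filter (H.Adj x)).card := h2 x (hLS hx)
      omega
    have hsp := hs T h3
    rw [hsg, ← hcard] at hsp
    rw [← hcard] at hle
    set a := (T \ L).card
    set l := L.card
    obtain ⟨E, hE⟩ : ∃ E, D + 2 = 2 * l + E := ⟨D + 2 - 2 * l, by omega⟩
    have hDE : D ≤ 3 * E := by omega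
    have h6 : M * E + 4 ≤ 2 * (a + l) := by
      have : M * (D + 2) = M * (2 * l + E) := by rw [hE]
      nlinarith
    have h7 : 6 * (R + 1) * E ≤ M * E := Nat.mul_le_mul_right _ hM
    have h8 : R * D ≤ R * (3 * E) := Nat.mul_le_mul_left _ hDE
    nlinarith

end Pool.Agent.Lib.MP_befe0b_co
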