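import Pool.Agent.Lib.MP_befe0b_co.HostEmb
import Pool.Agent.Lib.MP_befe0b_co.Reg

/-! Upper bound for the extremal number of a sparse bipartite graph. -/

open Finset
open scoped Classical

noncomputable section

namespace Pool.Agent.Lib.MP_befe0b_co

theorem upper {W : Type*} [Fintype W] {H : SimpleGraph W} {s k M : ℕ} (hs1 : 1 ≤ s) (hk : 1 ≤ k)
    (hsk : 44 * s ^ 2 * s ^ k ≤ (s + 1) ^ k) (hs : Sparse H M) (hM : 6 * (12 * k + 1) ≤ M)
    (col : W → Bool) (hcol : ∀ x y, H.Adj x y → col x ≠ col y) :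
    ∃ A' : ℝ, 0 ≤ A' ∧ ∀ n : ℕ,
      (SimpleGraph.extremalNumber n H : ℝ) ≤ A' * (n : ℝ) ^ (1 + (s : ℝ)⁻¹) := by
  obtain ⟨lam, hlam⟩ : ∃ lam, lam = 10 * s + 2 * k + 7 := ⟨_, rfl⟩
  obtain ⟨β, hβ⟩ : ∃ β, β = 12 * k + lam + ((lam + 1) * (8 * s) + 2) := ⟨_, rfl⟩
  obtain ⟨N, hN⟩ : ∃ N, N = 2 * β := ⟨_, rfl⟩
  have hs0 : (0 : ℝ) < s := by exact_mod_cast hs1
  have hl : (5 * s + 3 : ℝ) + ((s : ℝ) / (s + 1)) ^ k * (s * N) ≤ lam := by
    have h1 : ((s : ℝ) / (s + 1)) ^ k ≤ 1 / (44 * s ^ 2) := by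
      rw [div_pow, div_le_div_iff₀ (by positivity) (by positivity), one_mul, mul_comm]
      exact_mod_cast hsk
    have h2 : N ≤ 44 * s * (5 * s + 2 * k + 4) := by
      subst hN hβ hlam
      nlinarith [Nat.mul_le_mul_right k hs1]
    have h3 : (N : ℝ) ≤ 44 * s * (5 * s + 2 * k + 4) := by exact_mod_cast h2
    have h4 : ((s : ℝ) / (s + 1)) ^ k * (s * N) ≤ 5 * s + 2 * k + 4 := by
      calc _ ≤ 1 / (44 * (s : ℝ) ^ 2) * (s * (44 * s * (5 * s + 2 * k + 4))) := by gcongr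
        _ = _ := by field_simp
    rw [hlam]
    push_cast
    linarith
  obtain ⟨ρ0, hρ0⟩ : ∃ ρ0 : ℝ, ρ0 = 24 * 12 ^ s + ((s * N + 1 : ℕ) : ℝ) +
    300 * k ^ 2 * (Fintype.card W + 8 * k) := ⟨_, rfl⟩
  have p1 : (0 : ℝ) ≤ 24 * 12 ^ s := by positivity
  have p2 : (0 : ℝ) ≤ ((s * N + 1 : ℕ) : ℝ) := Nat.cast_nonneg _
  have p3 : (0 : ℝ) ≤ 300 * k ^ 2 * (Fintype.card W + 8 * k) := by positivity
  have p4 : 0 ≤ ρ0 := by linarith
  refine ⟨4 * ρ0 ^ N, by positivity, fun n => ?_⟩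
  conv_lhs => rw [← Fintype.card_fin n]
  rw [SimpleGraph.extremalNumber_le_iff_of_nonneg _ (by positivity)]
  intro G _ hfree
  by_contra hc
  rw [not_le] at hc
  rcases Nat.eq_zero_or_pos n with rfl | hn
  · have h1 := G.card_edgeFinset_le_card_choose_two
    simp only [Fintype.card_fin, Nat.choose_zero_succ, nonpos_iff_eq_zero] at h1
    rw [h1] at hc
    exact absurd hc (not_lt.2 (by push_cast; positivity))
  have : Nonempty (Fin n) := ⟨⟨0, hn⟩⟩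
  have hsg : (sg G univ : ℝ) = 2 * G.edgeFinset.card := by
    have h1 : ∀ (i1 i2 : Fintype G.edgeSet),
        (@SimpleGraph.edgeFinset _ G i1).card = (@SimpleGraph.edgeFinset _ G i2).card := by
      intro i1 i2
      rw [Subsingleton.elim i1 i2]
    have : sg G univ = 2 * G.edgeFinset.card := (sg_univ G).trans (congrArg (2 * ·) (h1 _ _))
    exact_mod_cast this
  have hG : (8 * ρ0 ^ N) ^ s * (Fintype.card (Fin n) : ℝ) ^ (s + 1) ≤ (sg G univ : ℝ) ^ s := by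
    have h1 : ((n : ℝ) ^ (1 + (s : ℝ)⁻¹)) ^ s = (n : ℝ) ^ (s + 1) := by
      rw [← Real.rpow_mul_natCast (Nat.cast_nonneg n), ← Real.rpow_natCast]
      congr 1
      push_cast
      field_simp
    rw [Fintype.card_fin, ← h1, ← mul_pow, hsg]
    exact pow_le_pow_left₀ (by positivity) (by linarith) s
  obtain ⟨T, ρ, hT, hρ, hH⟩ := exists_host G hs1 (N := N) (by omega) (ρ0 := ρ0) (by linarith)
    (by linarith) hG
  have : Nonempty {x // x ∈ T} := hT.to_subtype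
  have h1 := hH.contained hs1 hk hl hβ hN hs hM col hcol (by linarith)
  exact hfree (h1.trans ⟨(SimpleGraph.Embedding.comap _ G).toCopy⟩)

end Pool.Agent.Lib.MP_befe0b_co
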