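import Pool.Agent.Lib.MP_befe0b_co.Basic

/-! Walks as functions on the naturals, and counts of degenerate walks. -/

open Finset
open scoped Classical

noncomputable section

namespace Pool.Agent.Lib.MP_befe0b_co

variable {V : Type*} [Fintype V]

/-- the neighbourhood as a finite set -/
def nb (G : SimpleGraph V) (x : V) : Finset V := univ.filter (G.Adj x)

/-- put a vertex in front of a walk -/
def cns (x : V) (f : ℕ → V) : ℕ → V
  | 0 => x
  | i + 1 => f i

/-- walks of length `k` from `x` -/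
def Wk (G : SimpleGraph V) : ℕ → V → Finset (ℕ → V)
  | 0, x => {fun _ => x}
  | k + 1, x => (nb G x).biUnion fun y => (Wk G k y).image (cns x)

/-- concatenation -/
def app (a : ℕ) (f g : ℕ → V) : ℕ → V := fun i => if i ≤ a then f i else g (i - a)

/-- number of walks of length `k` from `x` to `y` -/
def cw (G : SimpleGraph V) (k : ℕ) (x y : V) : ℝ := ((G.adjMatrix ℝ) ^ k) x y

variable {G : SimpleGraph V}

@[simp] lemma mem_nb {x y : V} : y ∈ nb G x ↔ G.Adj x y := by simp [nb]

lemma card_nb (x : V) : (nb G x).card = dg G univ x := rfl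

omit [Fintype V] in
@[simp] lemma cns_zero (x : V) (f : ℕ → V) : cns x f 0 = x := rfl

omit [Fintype V] in
@[simp] lemma cns_succ (x : V) (f : ℕ → V) (i : ℕ) : cns x f (i + 1) = f i := rfl

omit [Fintype V] in
lemma cns_injective (x : V) : Function.Injective (cns x) := fun _ _ h =>
  funext fun i => congrFun h (i + 1)

lemma mem_Wk {k : ℕ} : ∀ {x : V} {f : ℕ → V}, f ∈ Wk G k x →
    f 0 = x ∧ ∀ i < k, G.Adj (f i) (f (i + 1)) := by
  induction k with
  | zero =>
    intro x f hf
    simp only [Wk, Finset.mem_singleton] at hf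
    subst hf
    simp
  | succ k ih =>
    intro x f hf
    simp only [Wk, Finset.mem_biUnion, Finset.mem_image, mem_nb] at hf
    obtain ⟨y, hy, g, hg, rfl⟩ := hf
    obtain ⟨h0, h1⟩ := ih hg
    refine ⟨rfl, fun i hi => ?_⟩
    cases i with
    | zero => simpa [h0] using hy
    | succ i => simpa using h1 i (by omega)

lemma sum_Wk_zero (x : V) (F : (ℕ → V) → ℝ) : ∑ f ∈ Wk G 0 x, F f = F (fun _ => x) := by
  simp [Wk]

lemma sum_Wk_succ (k : ℕ) (x : V) (F : (ℕ → V) → ℝ) :
    ∑ f ∈ Wk G (k + 1) x, F f = ∑ y ∈ nb G x, ∑ g ∈ Wk G k y, F (cns x g) := by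
  rw [Wk, Finset.sum_biUnion]
  · exact Finset.sum_congr rfl fun y _ =>
      Finset.sum_image fun f _ g _ h => cns_injective x h
  · intro y _ z _ hyz
    rw [Function.onFun, Finset.disjoint_left]
    intro f hf hf'
    obtain ⟨g, hg, rfl⟩ := Finset.mem_image.1 hf
    obtain ⟨g', hg', h⟩ := Finset.mem_image.1 hf'
    rw [cns_injective x h] at hg'
    exact hyz ((mem_Wk hg).1.symm.trans (mem_Wk hg').1)

lemma sum_Wk_add (b a : ℕ) : ∀ (x : V) (F : (ℕ → V) → ℝ),
    ∑ f ∈ Wk G (b + a) x, F f = ∑ f ∈ Wk G a x, ∑ g ∈ Wk G b (f a), F (app a f g) := by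
  induction a with
  | zero =>
    intro x F
    rw [sum_Wk_zero]
    refine Finset.sum_congr rfl fun g hg => ?_
    congr 1
    funext i
    by_cases h : i = 0
    · simp [app, h, (mem_Wk hg).1]
    · simp [app, h]
  | succ a ih =>
    intro x F
    rw [← add_assoc, sum_Wk_succ, sum_Wk_succ]
    refine Finset.sum_congr rfl fun y _ => ?_
    rw [ih]
    refine Finset.sum_congr rfl fun f _ => Finset.sum_congr rfl fun g _ => ?_
    congr 1
    funext i
    cases i with
    | zero => simp [app]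
    | succ i => simp [app]

lemma cw_zero (x y : V) : cw G 0 x y = if x = y then 1 else 0 := by
  simp [cw, Matrix.one_apply]

lemma cw_succ (k : ℕ) (x z : V) : cw G (k + 1) x z = ∑ y ∈ nb G x, cw G k y z := by
  rw [cw, pow_succ', SimpleGraph.adjMatrix_mul_apply, SimpleGraph.neighborFinset_eq_filter]
  rfl

lemma cw_succ' (k : ℕ) (x z : V) : cw G (k + 1) x z = ∑ y ∈ nb G z, cw G k x y := by
  rw [cw, pow_succ, SimpleGraph.mul_adjMatrix_apply, SimpleGraph.neighborFinset_eq_filter]
  rfl

lemma cw_symm (k : ℕ) : ∀ x y : V, cw G k x y = cw G k y x := by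
  induction k with
  | zero => intro x y; simp [cw_zero, eq_comm]
  | succ k ih =>
    intro x y
    rw [cw_succ, cw_succ']
    exact Finset.sum_congr rfl fun z _ => ih z y

lemma cw_nonneg (k : ℕ) : ∀ x y : V, 0 ≤ cw G k x y := by
  induction k with
  | zero => intro x y; rw [cw_zero]; split_ifs <;> norm_num
  | succ k ih => intro x y; rw [cw_succ]; exact Finset.sum_nonneg fun z _ => ih z y

lemma cw_add (a b : ℕ) (x z : V) : cw G (a + b) x z = ∑ y, cw G a x y * cw G b y z := by
  simp only [cw, pow_add, Matrix.mul_apply]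

lemma sum_Wk_end (k : ℕ) : ∀ (x : V) (g : V → ℝ),
    ∑ f ∈ Wk G k x, g (f k) = ∑ y, cw G k x y * g y := by
  induction k with
  | zero => intro x g; simp [sum_Wk_zero, cw_zero]
  | succ k ih =>
    intro x g
    rw [sum_Wk_succ]
    simp only [cns_succ, ih, cw_succ, Finset.sum_mul]
    rw [Finset.sum_comm]

section bounds

variable {Δ : ℝ} (hΔ : ∀ x, ((nb G x).card : ℝ) ≤ Δ)
include hΔ

lemma Delta_nonneg (x : V) : 0 ≤ Δ := le_trans (Nat.cast_nonneg _) (hΔ x)

lemma sum_nb_le {x : V} {g : V → ℝ} {t : ℝ} (ht : 0 ≤ t) (h : ∀ y, g y ≤ t) :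
    ∑ y ∈ nb G x, g y ≤ Δ * t := by
  calc ∑ y ∈ nb G x, g y ≤ ∑ _y ∈ nb G x, t := Finset.sum_le_sum fun y _ => h y
    _ = (nb G x).card * t := by simp
    _ ≤ Δ * t := mul_le_mul_of_nonneg_right (hΔ x) ht

lemma sum_Wk_const_le (k : ℕ) : ∀ (x : V) {t : ℝ}, 0 ≤ t → ∑ _f ∈ Wk G k x, t ≤ Δ ^ k * t := by
  induction k with
  | zero => intro x t _; simp [Wk]
  | succ k ih =>
    intro x t ht
    rw [sum_Wk_succ k x fun _ => t, pow_succ', mul_assoc]
    exact sum_nb_le hΔ (mul_nonneg (pow_nonneg (Delta_nonneg hΔ x) _) ht) fun y => ih y ht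

lemma sum_Wk_le (k : ℕ) (x : V) {F : (ℕ → V) → ℝ} {t : ℝ} (ht : 0 ≤ t)
    (h : ∀ f ∈ Wk G k x, F f ≤ t) : ∑ f ∈ Wk G k x, F f ≤ Δ ^ k * t :=
  (Finset.sum_le_sum h).trans (sum_Wk_const_le hΔ k x ht)

lemma sum_cw_le (k : ℕ) (x : V) : ∑ y, cw G k x y ≤ Δ ^ k := by
  have h1 := sum_Wk_end (G := G) k x fun _ => 1
  have h2 := sum_Wk_const_le hΔ k x zero_le_one
  simp only [mul_one] at h1 h2
  rw [← h1]; exact h2

lemma cw_succ_le (k : ℕ) (x z : V) : cw G (k + 1) x z ≤ Δ ^ k := by
  rw [cw_succ']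
  exact (Finset.sum_le_sum_of_subset_of_nonneg (Finset.subset_univ _)
    fun y _ _ => cw_nonneg k x y).trans (sum_cw_le hΔ k x)

omit [Fintype V] hΔ in
/-- the vertices `1..k` of `f` are distinct and avoid `F` -/
def Good (F : Finset V) (k : ℕ) (f : ℕ → V) : Prop :=
  ∀ i, 1 ≤ i → i ≤ k → f i ∉ F ∧ ∀ j, 1 ≤ j → j < i → f j ≠ f i

lemma bad_count (k : ℕ) : ∀ (x : V) (F : Finset V),
    Δ * ∑ f ∈ Wk G k x, (if Good F k f then (0 : ℝ) else 1) ≤ k * (F.card + k) * Δ ^ k := by
  induction k with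
  | zero =>
    intro x F
    rw [sum_Wk_zero, if_pos]
    · simp
    · intro i h1 h2; omega
  | succ k ih =>
    intro x F
    have hD := Delta_nonneg hΔ x
    rw [sum_Wk_succ, Finset.mul_sum]
    have key : ∀ y, Δ * ∑ g ∈ Wk G k y, (if Good F (k + 1) (cns x g) then (0 : ℝ) else 1) ≤
        (if y ∈ F then Δ ^ (k + 1) else 0) + k * (F.card + 1 + k) * Δ ^ k := by
      intro y
      have hpos : 0 ≤ (k : ℝ) * (F.card + 1 + k) * Δ ^ k := by positivity
      by_cases hy : y ∈ F
      · rw [if_pos hy]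
        have := sum_Wk_le hΔ k y (F := fun g => if Good F (k + 1) (cns x g) then (0 : ℝ) else 1)
          zero_le_one fun g _ => by split_ifs <;> norm_num
        have h2 := mul_le_mul_of_nonneg_left this hD
        rw [mul_one, ← pow_succ'] at h2
        linarith
      · rw [if_neg hy, zero_add]
        have h1 := ih y (insert y F)
        rw [Finset.card_insert_of_notMem hy] at h1
        push_cast at h1
        refine le_trans (mul_le_mul_of_nonneg_left (Finset.sum_le_sum fun g hg => ?_) hD) h1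
        by_cases hg' : Good (insert y F) k g
        · rw [if_pos hg', if_pos]
          have g0 := (mem_Wk hg).1
          intro i h1 h2
          obtain ⟨i, rfl⟩ : ∃ i', i = i' + 1 := ⟨i - 1, by omega⟩
          rw [cns_succ]
          rcases Nat.eq_zero_or_pos i with rfl | hi
          · exact ⟨g0 ▸ hy, fun j h3 h4 => by omega⟩
          · obtain ⟨h3, h4⟩ := hg' i hi (by omega)
            rw [Finset.mem_insert, not_or] at h3
            refine ⟨h3.2, fun j h5 h6 => ?_⟩
            obtain ⟨j, rfl⟩ : ∃ j', j = j' + 1 := ⟨j - 1, by omega⟩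
            rw [cns_succ]
            rcases Nat.eq_zero_or_pos j with rfl | hj
            · rw [g0]; exact fun h => h3.1 h.symm
            · exact h4 j hj (by omega)
        · rw [if_neg hg']
          split_ifs <;> norm_num
    refine (Finset.sum_le_sum fun y _ => key y).trans ?_
    rw [Finset.sum_add_distrib]
    have h1 : ∑ y ∈ nb G x, (if y ∈ F then Δ ^ (k + 1) else 0) ≤ F.card * Δ ^ (k + 1) := by
      rw [← Finset.sum_filter, Finset.sum_const, nsmul_eq_mul]
      refine mul_le_mul_of_nonneg_right ?_ (by positivity)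
      exact_mod_cast Finset.card_le_card fun y hy => (Finset.mem_filter.1 hy).2
    have h2 : ∑ _y ∈ nb G x, (k : ℝ) * (F.card + 1 + k) * Δ ^ k ≤
        Δ * (k * (F.card + 1 + k) * Δ ^ k) := sum_nb_le hΔ (by positivity) fun _ => le_rfl
    have h3 : 0 ≤ Δ ^ (k + 1) := by positivity
    have h4 : Δ * (k * (F.card + 1 + k) * Δ ^ k) = k * (F.card + 1 + k) * Δ ^ (k + 1) := by ring
    push_cast
    have h5 : (0 : ℝ) ≤ k := Nat.cast_nonneg _
    nlinarith

lemma hit_count (r : V) (F : Finset V) (k : ℕ) :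
    Δ * ∑ y, ∑ f ∈ Wk G k y, (if f k = r ∧ ∃ i < k, f i ∈ F then (1 : ℝ) else 0) ≤
      k * F.card * Δ ^ k := by
  have hD := Delta_nonneg hΔ r
  induction k with
  | zero => simp
  | succ k ih =>
    simp only [sum_Wk_succ, cns_succ]
    have key : ∀ x, ∑ y ∈ nb G x, ∑ g ∈ Wk G k y,
        (if g k = r ∧ ∃ i < k + 1, cns x g i ∈ F then (1 : ℝ) else 0) ≤
        (if x ∈ F then Δ ^ k else 0) + ∑ y ∈ nb G x, ∑ g ∈ Wk G k y,
          (if g k = r ∧ ∃ i < k, g i ∈ F then (1 : ℝ) else 0) := by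
      intro x
      have hpos : 0 ≤ ∑ y ∈ nb G x, ∑ g ∈ Wk G k y,
          (if g k = r ∧ ∃ i < k, g i ∈ F then (1 : ℝ) else 0) :=
        Finset.sum_nonneg fun y _ => Finset.sum_nonneg fun g _ => by split_ifs <;> norm_num
      by_cases hx : x ∈ F
      · rw [if_pos hx]
        have h1 : ∑ y ∈ nb G x, ∑ g ∈ Wk G k y,
            (if g k = r ∧ ∃ i < k + 1, cns x g i ∈ F then (1 : ℝ) else 0) ≤ cw G (k + 1) x r := by
          rw [cw_succ]
          refine Finset.sum_le_sum fun y _ => ?_
          have h2 := sum_Wk_end (G := G) k y fun z => if z = r then 1 else 0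
          simp only [mul_ite, mul_one, mul_zero, Finset.sum_ite_eq', Finset.mem_univ,
            if_true] at h2
          rw [← h2]
          refine Finset.sum_le_sum fun g _ => ?_
          by_cases h : g k = r
          · rw [if_pos h]; split_ifs <;> norm_num
          · rw [if_neg h, if_neg fun h' => h h'.1]
        have := cw_succ_le hΔ k x r
        linarith
      · rw [if_neg hx, zero_add]
        refine Finset.sum_le_sum fun y _ => Finset.sum_le_sum fun g _ => ?_
        by_cases h : g k = r ∧ ∃ i < k + 1, cns x g i ∈ F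
        · rw [if_pos h, if_pos]
          obtain ⟨h1, i, hi, h2⟩ := h
          cases i with
          | zero => exact absurd h2 hx
          | succ i => exact ⟨h1, i, by omega, h2⟩
        · rw [if_neg h]; split_ifs <;> norm_num
    have h1 : ∑ x, (if x ∈ F then Δ ^ k else 0) = F.card * Δ ^ k := by
      rw [← Finset.sum_filter]; simp
    set P : V → ℝ := fun y => ∑ g ∈ Wk G k y,
          (if g k = r ∧ ∃ i < k, g i ∈ F then (1 : ℝ) else 0) with hP
    have hPn : ∀ y, 0 ≤ P y := fun y =>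
      Finset.sum_nonneg fun g _ => by split_ifs <;> norm_num
    have h2 : ∑ x, ∑ y ∈ nb G x, P y ≤ Δ * ∑ y, P y := by
      have : ∑ x, ∑ y ∈ nb G x, P y = ∑ y, ∑ _x ∈ nb G y, P y := by
        rw [Finset.sum_comm' (t' := univ) (s' := fun y => nb G y)]
        intro x y
        simp [G.adj_comm]
      rw [this, Finset.mul_sum]
      exact Finset.sum_le_sum fun y _ => sum_nb_le hΔ (hPn y) fun _ => le_rfl
    have h3 := (Finset.sum_le_sum fun x (_ : x ∈ univ) => key x)
    rw [Finset.sum_add_distrib, h1] at h3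
    have h4 := mul_le_mul_of_nonneg_left (h3.trans (add_le_add_right h2 _)) hD
    refine h4.trans ?_
    have h5 := mul_le_mul_of_nonneg_left ih hD
    push_cast
    have : Δ * (F.card * Δ ^ k + Δ * ∑ y, P y) =
        F.card * Δ ^ (k + 1) + Δ * (Δ * ∑ y, P y) := by ring
    rw [this]
    have h6 : Δ * (k * F.card * Δ ^ k) = k * F.card * Δ ^ (k + 1) := by ring
    nlinarith

end bounds

end Pool.Agent.Lib.MP_befe0b_co
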